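import Pool.Agent.H24.GC.Types

/-!
# JOB GE-14: the refinement procedure

`AgH H r` is the partition of the vertices of `H` after `r` rounds of the refinement, `Ag G H r i u`: the vertex
`i` of `G` looks like the vertex `u` of `H` after `r` rounds.

`agH_refl`, `agH_symm`, `agH_trans`: by cases on `r`; for `r + 1` it is the equality of two functions of `u`.
`agH_step`: induction on `r`. `r = 0` clear. For `r + 1`: let `AgH (r + 2) u u'`; the degrees are equal; for `w`, the
set `{w' | H.Adj u w' ∧ AgH r w' w}` is the disjoint union of the sets `{w' | H.Adj u w' ∧ AgH (r + 1) w' x}`,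
`x` in a set of representatives of the classes of `AgH (r + 1)` contained in the class of `w` under `AgH r`
(by the induction hypothesis `AgH (r + 1) ≤ AgH r` and the equivalence relations). So the counts are equal.
(E.g. `agH_count`: for every setoid `s` and every set `W` which is a union of classes of `s`, if `u, u'` have
equally many neighbours in every class of `s` then also in `W`. Proof: the sum over `Quotient s`, or
induction on the number of classes contained in `W`.)
`agH_stab`: the relations `AgH H r` decrease (`agH_step`), as sets of pairs (finite), so there is an `r`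
with `AgH H r = AgH H (r + 1)` (e.g. `r` for which `{q : V × V | AgH H r q.1 q.2}.ncard` is minimal). Then the
setoid `AgH H r` is equitable: if `AgH H r x y` then `AgH H (r + 1) x y`, and this is the equality of the counts.
So `AgH H r u u'` implies `Sim H u u'`; the same holds for `r + 1` in place of `r` (by `agH_step`), so we can
take `1 ≤ r`.
`ag_cover`: induction on `r`: `f` is a bijection from the neighbours of `i` to those of `f i`, and it maps
`{j | G.Adj i j ∧ Ag G H r j w}` onto `{w' | H.Adj (f i) w' ∧ AgH H r w' w}` by the induction hypothesis.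
`ag_trans`: `Ag G H r i u`, `Ag G H r i u'` imply `AgH H r u u'`: by cases on `r`.
-/

namespace Pool.Agent.H24.GE

open Pool.Agent.H24.GC

variable {A V : Type}

/-- the partition of the vertices of `H` after `r` rounds -/
def AgH (H : SimpleGraph V) : ℕ → V → V → Prop
  | 0, _, _ => True
  | r + 1, u, u' => (H.neighborSet u).ncard = (H.neighborSet u').ncard ∧
      ∀ w, {w' | H.Adj u w' ∧ AgH H r w' w}.ncard = {w' | H.Adj u' w' ∧ AgH H r w' w}.ncard

/-- `i` looks like `u` after `r` rounds -/
def Ag (G : SimpleGraph A) (H : SimpleGraph V) : ℕ → A → V → Prop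
  | 0, _, _ => True
  | r + 1, i, u => (G.neighborSet i).ncard = (H.neighborSet u).ncard ∧
      ∀ w, {j | G.Adj i j ∧ Ag G H r j w}.ncard = {w' | H.Adj u w' ∧ AgH H r w' w}.ncard

theorem agH_refl (H : SimpleGraph V) (r : ℕ) (u : V) : AgH H r u u := by
  cases r with
  | zero => trivial
  | succ r => exact ⟨rfl, fun _ => rfl⟩

theorem agH_symm {H : SimpleGraph V} {r : ℕ} {u v : V} (h : AgH H r u v) : AgH H r v u := by
  cases r with
  | zero => trivial
  | succ r => exact ⟨h.1.symm, fun w => (h.2 w).symm⟩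

theorem agH_trans {H : SimpleGraph V} {r : ℕ} {u v w : V} (h : AgH H r u v) (h' : AgH H r v w) :
    AgH H r u w := by
  cases r with
  | zero => trivial
  | succ r => exact ⟨h.1.trans h'.1, fun z => (h.2 z).trans (h'.2 z)⟩

/-- the partition after `r` rounds as a setoid -/
def AgrS (H : SimpleGraph V) (r : ℕ) : Setoid V :=
  ⟨AgH H r, ⟨fun u => agH_refl H r u, fun h => agH_symm h, fun h h' => agH_trans h h'⟩⟩

theorem Agr_count [Finite V] {H : SimpleGraph V} (s : Setoid V) {x y : V}
    (h : ∀ z, (H.neighborSet x ∩ {w | s w z}).ncard = (H.neighborSet y ∩ {w | s w z}).ncard)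
    {C : Set V} (hC : ∀ u v, s u v → (u ∈ C ↔ v ∈ C)) :
    (H.neighborSet x ∩ C).ncard = (H.neighborSet y ∩ C).ncard := by
  rw [Equit_fib s (H.neighborSet x ∩ C), Equit_fib s (H.neighborSet y ∩ C)]
  refine finsum_congr fun q => ?_
  obtain ⟨z, rfl⟩ := Quotient.exists_rep q
  have hq : ∀ w, (Quotient.mk s w = Quotient.mk s z) ↔ s w z := fun w => Quotient.eq
  by_cases hz : z ∈ C
  · have key : ∀ a : V, H.neighborSet a ∩ C ∩ {w | Quotient.mk s w = ⟦z⟧} =
        H.neighborSet a ∩ {w | s w z} := by
      intro a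
      ext w
      simp only [Set.mem_inter_iff, Set.mem_ofPred_eq]
      constructor
      · rintro ⟨⟨h1, _⟩, h3⟩
        exact ⟨h1, (hq w).1 h3⟩
      · rintro ⟨h1, h3⟩
        exact ⟨⟨h1, (hC w z h3).2 hz⟩, (hq w).2 h3⟩
    rw [key, key]
    exact h z
  · have key : ∀ a : V, H.neighborSet a ∩ C ∩ {w | Quotient.mk s w = ⟦z⟧} = ∅ := by
      intro a
      rw [Set.eq_empty_iff_forall_notMem]
      rintro w ⟨⟨_, h2⟩, h3⟩
      exact hz ((hC w z ((hq w).1 h3)).1 h2)
    rw [key, key]

theorem agH_step [Finite V] {H : SimpleGraph V} {r : ℕ} {u v : V} (h : AgH H (r + 1) u v) :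
    AgH H r u v := by
  induction r generalizing u v with
  | zero => trivial
  | succ r ih =>
    refine ⟨h.1, fun w => ?_⟩
    exact Agr_count (AgrS H (r + 1)) (x := u) (y := v) h.2 (C := {w' | AgH H r w' w})
      fun a b hab => ⟨fun ha => agH_trans (agH_symm (ih hab)) ha, fun hb => agH_trans (ih hab) hb⟩

theorem agH_stab [Finite V] (H : SimpleGraph V) :
    ∃ r, 1 ≤ r ∧ ∀ u v, AgH H r u v → Sim H u v := by
  obtain ⟨f, hf⟩ : ∃ f : ℕ → ℕ, f = fun r => {q : V × V | AgH H r q.1 q.2}.ncard := ⟨_, rfl⟩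
  have hne : (Set.range f).Nonempty := ⟨f 0, 0, rfl⟩
  obtain ⟨r, hr⟩ := Nat.sInf_mem hne
  have hmin : f r ≤ f (r + 1) := by
    rw [hr]
    exact Nat.sInf_le ⟨r + 1, rfl⟩
  have hsub : {q : V × V | AgH H (r + 1) q.1 q.2} ⊆ {q : V × V | AgH H r q.1 q.2} :=
    fun q hq => agH_step hq
  have heq : {q : V × V | AgH H (r + 1) q.1 q.2} = {q : V × V | AgH H r q.1 q.2} := by
    apply Set.eq_of_subset_of_ncard_le hsub _ (Set.toFinite _)
    rw [hf] at hmin
    exact hmin
  have hup : ∀ u v, AgH H r u v → AgH H (r + 1) u v := by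
    intro u v h
    have h1 : ((u, v) : V × V) ∈ {q : V × V | AgH H r q.1 q.2} := h
    rw [← heq] at h1
    exact h1
  refine ⟨r + 1, Nat.le_add_left 1 r, fun u v h => ⟨AgrS H r, ?_, agH_step h⟩⟩
  intro x y z hxy
  exact (hup x y hxy).2 z

theorem ag_cover {G : SimpleGraph A} {H : SimpleGraph V} {f : A → V} (hf : IsCover G H f) (r : ℕ)
    (i : A) (u : V) : Ag G H r i u ↔ AgH H r (f i) u := by
  induction r generalizing i u with
  | zero => exact Iff.rfl
  | succ r ih =>
    have h1 : (G.neighborSet i).ncard = (H.neighborSet (f i)).ncard := by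
      rw [← (hf i).image_eq, Set.InjOn.ncard_image (hf i).injOn]
    have h2 : ∀ w, {j | G.Adj i j ∧ Ag G H r j w}.ncard =
        {w' | H.Adj (f i) w' ∧ AgH H r w' w}.ncard := by
      intro w
      have h3 : {w' | H.Adj (f i) w' ∧ AgH H r w' w} = f '' {j | G.Adj i j ∧ Ag G H r j w} := by
        ext w'
        constructor
        · rintro ⟨h4, h5⟩
          obtain ⟨j, hj, rfl⟩ := (hf i).surjOn h4
          exact ⟨j, ⟨hj, (ih j w).2 h5⟩, rfl⟩
        · rintro ⟨j, ⟨hj, h5⟩, rfl⟩
          exact ⟨(hf i).mapsTo hj, (ih j w).1 h5⟩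
      rw [h3, Set.InjOn.ncard_image ((hf i).injOn.mono fun b hb => hb.1)]
    show ((G.neighborSet i).ncard = (H.neighborSet u).ncard ∧
      ∀ w, {j | G.Adj i j ∧ Ag G H r j w}.ncard = {w' | H.Adj u w' ∧ AgH H r w' w}.ncard) ↔
      ((H.neighborSet (f i)).ncard = (H.neighborSet u).ncard ∧
      ∀ w, {w' | H.Adj (f i) w' ∧ AgH H r w' w}.ncard = {w' | H.Adj u w' ∧ AgH H r w' w}.ncard)
    rw [h1]
    refine and_congr_right fun _ => forall_congr' fun w => ?_
    rw [h2]

theorem ag_trans {G : SimpleGraph A} {H : SimpleGraph V} {r : ℕ} {i : A} {u v : V}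
    (h : Ag G H r i u) (h' : Ag G H r i v) : AgH H r u v := by
  cases r with
  | zero => trivial
  | succ r => exact ⟨h.1.symm.trans h'.1, fun w => (h.2 w).symm.trans (h'.2 w)⟩

end Pool.Agent.H24.GE
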