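import Pool.Agent.H24.GE.Pot

/-!
# JOB GE-4: vanishing defects

`dq_const`. Let `I = {i | ∃ y ∈ N, π (u i) ~ y}`. If `ν > 0` then for every `y ∈ N` the sum `dq f φ b u x y` has a
term with `(f b, φ b (u i)) = (x, y)`; then `y = φ b (u i) ~ π (u i)`, so `i ∈ I`; different `y` give different
`i`, so `N.ncard ≤ I.ncard`, contradiction. If `ν < 0` then there is `i` with `(φ (u i) b, f (u i)) = (x, y)`,
`y = f (u i) ~ π (u i)`, the same contradiction (the map `y ↦ i` is injective as `y = f (u i)`).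
`dq_one`: take `(x, y) = (f b, φ b u)` (adjacent by `h.bij b`, `f b ~ π b`).
`dq_two`: `φ b u₁ ≠ φ b u₂` (`h.bij b`, `hne`). Take `(x, y) = (f b, φ b u₁)`: the first indicators have the sum
`1`, so exactly one of `(φ u₁ b, f u₁)`, `(φ u₂ b, f u₂)` equals `(x, y)`. The same for `(f b, φ b u₂)`. As
`(f b, φ b u₁) ≠ (f b, φ b u₂)` the two are different ones.
`straight_one'`, `straight_two'`: assembly (`h.unc` for the pairs which are not cut).
-/

namespace Pool.Agent.H24.GE

open Pool.Agent.H24.GC Pool.Agent.H24.GD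

variable {V : Type} {H : SimpleGraph V} {W : Type} {g : SimpleGraph W} {π : W → V}
  {cut : W → W → Prop} {f : W → V} {φ : W → W → V}

theorem dq_const [Finite V] {ι : Type} [Fintype ι] (h : PCov H g π cut f φ) {b : W} {u : ι → W}
    (hu : ∀ i, g.Adj b (u i)) {x : V} {N : Set V} {ν : ℤ}
    (hN : {i | ∃ y ∈ N, Sim H (π (u i)) y}.ncard < N.ncard)
    (h0 : ∀ y ∈ N, dq f φ b u x y = ν) : ν = 0 := by
  classical
  have hkey : ∀ (j : V → ι), (∀ y ∈ N, Sim H (π (u (j y))) y) → Set.InjOn j N → False := by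
    intro j hj hinj
    have h1 := Set.ncard_le_ncard_of_injOn (s := N)
      (t := {i | ∃ y ∈ N, Sim H (π (u i)) y}) j (fun y hy => ⟨y, hy, hj y hy⟩) hinj
      (Set.toFinite _)
    omega
  have hNe : N.Nonempty := by
    by_contra hne
    rw [Set.not_nonempty_iff_eq_empty] at hne
    rw [hne] at hN
    simp at hN
  obtain ⟨y₀, hy₀⟩ := hNe
  rcases lt_trichotomy ν 0 with hν | hν | hν
  · exfalso
    have h1 : ∀ y ∈ N, ∃ i, (φ (u i) b, f (u i)) = (x, y) := by
      intro y hy
      by_contra hno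
      push Not at hno
      have h2 := h0 y hy
      unfold dq at h2
      have h3 : (0 : ℤ) ≤ ν := by
        rw [← h2]
        refine Finset.sum_nonneg fun i _ => ?_
        rw [if_neg (hno i)]
        split_ifs <;> norm_num
      omega
    have : Nonempty ι := ⟨(h1 y₀ hy₀).choose⟩
    choose! j hj using h1
    refine hkey j (fun y hy => ?_) (fun y hy y' hy' he => ?_)
    · have h4 : f (u (j y)) = y := congrArg Prod.snd (hj y hy)
      have h5 := h.simf (u (j y))
      rw [h4] at h5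
      exact sim_symm h5
    · have h4 : f (u (j y)) = y := congrArg Prod.snd (hj y hy)
      have h5 : f (u (j y')) = y' := congrArg Prod.snd (hj y' hy')
      rw [← h4, ← h5, he]
  · exact hν
  · exfalso
    have h1 : ∀ y ∈ N, ∃ i, (f b, φ b (u i)) = (x, y) := by
      intro y hy
      by_contra hno
      push Not at hno
      have h2 := h0 y hy
      unfold dq at h2
      have h3 : ν ≤ (0 : ℤ) := by
        rw [← h2]
        refine Finset.sum_nonpos fun i _ => ?_
        rw [if_neg (hno i)]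
        split_ifs <;> norm_num
      omega
    have : Nonempty ι := ⟨(h1 y₀ hy₀).choose⟩
    choose! j hj using h1
    refine hkey j (fun y hy => ?_) (fun y hy y' hy' he => ?_)
    · have h4 : φ b (u (j y)) = y := congrArg Prod.snd (hj y hy)
      have h5 := h.simp b (u (j y)) (hu (j y))
      rw [h4] at h5
      exact sim_symm h5
    · have h4 : φ b (u (j y)) = y := congrArg Prod.snd (hj y hy)
      have h5 : φ b (u (j y')) = y' := congrArg Prod.snd (hj y' hy')
      rw [← h4, ← h5, he]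

theorem dq_one {b u : W} (hu : g.Adj b u) (h : PCov H g π cut f φ)
    (h0 : ∀ x y, H.Adj x y → Sim H x (π b) → dq f φ b (fun _ : Unit => u) x y = 0) :
    (f b, φ b u) = (φ u b, f u) := by
  have h1 := h0 (f b) (φ b u) ((h.bij b).mapsTo hu) (h.simf b)
  unfold dq at h1
  rw [Fintype.sum_unique, if_pos rfl] at h1
  by_contra hne
  rw [if_neg (fun h2 => hne h2.symm)] at h1
  norm_num at h1

theorem zero_dq2 (b u₁ u₂ : W) (x y : V) : dq f φ b ![u₁, u₂] x y =
    (ind (f b, φ b u₁) x y - ind (φ u₁ b, f u₁) x y) +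
      (ind (f b, φ b u₂) x y - ind (φ u₂ b, f u₂) x y) := by
  unfold dq ind
  rw [Fin.sum_univ_two]
  rfl

theorem dq_two {b u₁ u₂ : W} (hu₁ : g.Adj b u₁) (hu₂ : g.Adj b u₂) (hne : u₁ ≠ u₂)
    (h : PCov H g π cut f φ)
    (h0 : ∀ x y, H.Adj x y → Sim H x (π b) → dq f φ b ![u₁, u₂] x y = 0) :
    ((f b, φ b u₁) = (φ u₁ b, f u₁) ∧ (f b, φ b u₂) = (φ u₂ b, f u₂)) ∨
      ((f b, φ b u₁) = (φ u₂ b, f u₂) ∧ (f b, φ b u₂) = (φ u₁ b, f u₁)) := by
  have hy : φ b u₁ ≠ φ b u₂ := fun he => hne ((h.bij b).injOn hu₁ hu₂ he)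
  have h1 := h0 (f b) (φ b u₁) ((h.bij b).mapsTo hu₁) (h.simf b)
  have h2 := h0 (f b) (φ b u₂) ((h.bij b).mapsTo hu₂) (h.simf b)
  rw [zero_dq2] at h1 h2
  have e1 : ind (f b, φ b u₁) (f b) (φ b u₁) = 1 := dl_ind_self _
  have e2 : ind (f b, φ b u₂) (f b) (φ b u₂) = 1 := dl_ind_self _
  have hne2 : (f b, φ b u₁) ≠ (f b, φ b u₂) := fun he => hy (congrArg Prod.snd he)
  rw [e1, dl_ind_zero hne2.symm] at h1
  rw [e2, dl_ind_zero hne2] at h2
  by_cases a1 : (φ u₁ b, f u₁) = (f b, φ b u₁)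
  · have a2 : (φ u₁ b, f u₁) ≠ (f b, φ b u₂) := fun he => hne2 (a1.symm.trans he)
    rw [dl_ind_zero a2] at h2
    by_cases a3 : (φ u₂ b, f u₂) = (f b, φ b u₂)
    · exact Or.inl ⟨a1.symm, a3.symm⟩
    · rw [dl_ind_zero a3] at h2
      norm_num at h2
  · rw [dl_ind_zero a1] at h1
    by_cases a2 : (φ u₂ b, f u₂) = (f b, φ b u₁)
    · have a3 : (φ u₂ b, f u₂) ≠ (f b, φ b u₂) := fun he => hne2 (a2.symm.trans he)
      rw [dl_ind_zero a3] at h2
      by_cases a4 : (φ u₁ b, f u₁) = (f b, φ b u₂)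
      · exact Or.inr ⟨a2.symm, a4.symm⟩
      · rw [dl_ind_zero a4] at h2
        norm_num at h2
    · rw [dl_ind_zero a2] at h1
      norm_num at h1

theorem straight_one' {b u : W} (hu : g.Adj b u)
    (h0 : ∀ f φ, PCov H g π (cut1 (b, u)) f φ →
      ∀ x y, H.Adj x y → Sim H x (π b) → dq f φ b (fun _ : Unit => u) x y = 0) :
    Straight H g π (cut1 (b, u)) := by
  intro f φ h w w' hw
  have h1 := dq_one hu h (h0 f φ h)
  by_cases c1 : (w, w') = (b, u)
  · have e1 : w = b := congrArg Prod.fst c1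
    have e2 : w' = u := congrArg Prod.snd c1
    rw [e1, e2]
    exact congrArg Prod.snd h1
  by_cases c2 : (w', w) = (b, u)
  · have e1 : w' = b := congrArg Prod.fst c2
    have e2 : w = u := congrArg Prod.snd c2
    rw [e1, e2]
    exact (congrArg Prod.fst h1).symm
  exact h.unc w w' hw c1 c2

theorem straight_two' [Finite V] {b u₁ u₂ : W} (hu₁ : g.Adj b u₁) (hu₂ : g.Adj b u₂)
    (hne : ¬ Sim H (π u₁) (π u₂))
    (h0 : ∀ f φ, PCov H g π (cut2 (b, u₁) (b, u₂)) f φ →
      ∀ x y, H.Adj x y → Sim H x (π b) → dq f φ b ![u₁, u₂] x y = 0) :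
    Straight H g π (cut2 (b, u₁) (b, u₂)) := by
  intro f φ h w w' hw
  have hne' : u₁ ≠ u₂ := by
    rintro rfl
    exact hne (sim_refl H _)
  have key : (f b, φ b u₁) = (φ u₁ b, f u₁) ∧ (f b, φ b u₂) = (φ u₂ b, f u₂) := by
    rcases dq_two hu₁ hu₂ hne' h (h0 f φ h) with h1 | h1
    · exact h1
    · exfalso
      have h2 : φ b u₁ = f u₂ := congrArg Prod.snd h1.1
      have h3 := h.simp b u₁ hu₁
      rw [h2] at h3
      exact hne (sim_trans (sim_symm h3) (h.simf u₂))
  by_cases c1 : (w, w') = (b, u₁)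
  · have e1 : w = b := congrArg Prod.fst c1
    have e2 : w' = u₁ := congrArg Prod.snd c1
    rw [e1, e2]
    exact congrArg Prod.snd key.1
  by_cases c2 : (w', w) = (b, u₁)
  · have e1 : w' = b := congrArg Prod.fst c2
    have e2 : w = u₁ := congrArg Prod.snd c2
    rw [e1, e2]
    exact (congrArg Prod.fst key.1).symm
  by_cases c3 : (w, w') = (b, u₂)
  · have e1 : w = b := congrArg Prod.fst c3
    have e2 : w' = u₂ := congrArg Prod.snd c3
    rw [e1, e2]
    exact congrArg Prod.snd key.2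
  by_cases c4 : (w', w) = (b, u₂)
  · have e1 : w' = b := congrArg Prod.fst c4
    have e2 : w = u₂ := congrArg Prod.snd c4
    rw [e1, e2]
    exact (congrArg Prod.fst key.2).symm
  exact h.unc w w' hw (fun hc => hc.elim c1 c3) (fun hc => hc.elim c2 c4)

end Pool.Agent.H24.GE
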