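import Pool.Agent.H24.GE.CycM
import Pool.Agent.H24.GE.Zero

/-!
# JOB GE-10: a kit with straight cuts for graphs with bridges

`dq_lift`: let `D x y = dq f φ (p, κ₀) u x y`. By `pot_at`, `nq f x κ₀ - nq f y (T.g x y κ₀) = D x y` for the
neighbours `y` of `x` (`h2` holds as `T.g x y κ₀ ≠ κ₀`: hypothesis `hne`). For two neighbours `y, y'` of `x` which
are not similar `walk_const` (with `pr` the projection to `Q x y y'` and `n = nq f`, `pot_off`) gives
`nq f y (T.g x y κ₀) = nq f y' (T.g x y' κ₀)`, so `D x y = D x y'`. If `y ~ y'` take a neighbour `y''` of `x` which is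
not similar to `y` (`Multi`): `D x y = D x y'' = D x y'`. So `D x ·` is constant on the neighbourhood of `x`, which
has at least three elements; `dq_const` with `N = H.neighborSet x` (`{i | ...}` has at most `card ι ≤ 2` elements).

`base_multi`. `J` = the type of the triples `(x, y, y')` with `H.Adj x y`, `H.Adj x y'`, `¬ Sim H y y'`; choose
`Q j, T j, κ j` from `exists_cwalk`; `T = prodV`, `κ₀ = (κ j)_j`. Let `K, P` be from `exists_kitall H`, the kit is
`liftK K T`, `P' v = (P v, κ₀)`. `pi`: clear, `univ`: `lift_univ`, `deg`: `lift_deg`, `lift_adj` (`h3`). `str1`, `str2`: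
`straight_one'`, `straight_two'` with `dq_lift` (`ι = Unit`, `ι = Fin 2`; `cut1`, `cut2` in the form of `hcut`;
injectivity of `![u, o]`: `u ≠ o` as `π u`, `π o` are not similar). `hne`: for adjacent `x, y` take a neighbour `y'` of
`x` with `¬ Sim y' y`; the component `(x, y, y')` of `T.g x y κ₀` is `wk (T j) z (κ j) 1 ≠ κ j`.
-/

namespace Pool.Agent.H24.GE

open Pool.Agent.H24.GC Pool.Agent.H24.GD

variable {V : Type} {H : SimpleGraph V}

theorem bm_ne (hm : Multi H) {J : Type} {Qj : J → Type} (Tj : ∀ j, Vlt H (Qj j))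
    (κj : ∀ j, Qj j)
    (hJ : ∀ x y y', H.Adj x y → H.Adj x y' → ¬ Sim H y y' → ∃ j, CWalk (Tj j) (κj j) x y y')
    {x y : V} (hxy : H.Adj x y) : (prodV Tj).g x y κj ≠ κj := by
  intro he
  obtain ⟨c, hc, hcy⟩ := hm x y hxy
  obtain ⟨j, l, z, h0, h1, -, -, -, h2, -⟩ := hJ x y c hxy hc (fun hs' => hcy (sim_symm hs'))
  have h3 := h2 1 Nat.one_pos (by omega)
  apply h3
  show (Tj j).g (z 0) (z 1) (κj j) = κj j
  rw [h0, h1, ← prodV_g Tj x y κj j, he]

theorem dq_lift [Finite V] (hm : Multi H) (h3 : ∀ x, 3 ≤ (H.neighborSet x).ncard)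
    {J : Type} [Finite J] {Qj : J → Type} [∀ j, Finite (Qj j)] (Tj : ∀ j, Vlt H (Qj j))
    (κj : ∀ j, Qj j)
    (hJ : ∀ x y y', H.Adj x y → H.Adj x y' → ¬ Sim H y y' → ∃ j, CWalk (Tj j) (κj j) x y y')
    {K : Kit H} {ι : Type} [Fintype ι] (hι : Fintype.card ι ≤ 2) {p : K.W}
    {u : ι → K.W × (∀ j, Qj j)} (hu : ∀ i, (liftG K (prodV Tj)).Adj (p, κj) (u i))
    (hinj : Function.Injective u) {cut : K.W × (∀ j, Qj j) → K.W × (∀ j, Qj j) → Prop}
    (hcut : ∀ a b, cut a b ↔ ∃ i, (a, b) = ((p, κj), u i)) {f : K.W × (∀ j, Qj j) → V}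
    {φ : K.W × (∀ j, Qj j) → K.W × (∀ j, Qj j) → V}
    (h : PCov H (liftG K (prodV Tj)) (fun a => K.π a.1) cut f φ) {x y : V} (hxy : H.Adj x y)
    (hx : Sim H x (K.π p)) : dq f φ (p, κj) u x y = 0 := by
  have hat : ∀ y, H.Adj x y →
      nq f x κj - nq f y ((prodV Tj).g x y κj) = dq f φ (p, κj) u x y := fun y hy =>
    pot_at hu hinj hcut h hy hx (fun hc => bm_ne hm Tj κj hJ hy hc.1)
  have hno : ∀ y y', H.Adj x y → H.Adj x y' → ¬ Sim H y y' →
      dq f φ (p, κj) u x y = dq f φ (p, κj) u x y' := by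
    intro y y' hy hy' hyy
    obtain ⟨j, hj⟩ := hJ x y y' hy hy' hyy
    have hw := walk_const (T := prodV Tj) (T₁ := Tj j) (fun κ : (∀ j, Qj j) => κ j)
      (fun a b κ => prodV_g Tj a b κ j) (κ₀ := κj) hj (n := nq f) (by
        intro a b κ hab ha hb
        refine pot_off hu hinj hcut h hab ?_ ?_
        · rintro ⟨h1, h2⟩
          exact ha ⟨h1, sim_trans h2 (sim_symm hx)⟩
        · rintro ⟨h1, h2⟩
          exact hb ⟨h1, sim_trans h2 (sim_symm hx)⟩)
    rw [← hat y hy, ← hat y' hy', hw]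
  have hall : ∀ y', H.Adj x y' → dq f φ (p, κj) u x y' = dq f φ (p, κj) u x y := by
    intro y' hy'
    by_cases hs : Sim H y y'
    · obtain ⟨c, hc, hcy⟩ := hm x y hxy
      rw [hno y c hxy hc (fun hs' => hcy (sim_symm hs')),
        hno y' c hy' hc (fun hs' => hcy (sim_symm (sim_trans hs hs')))]
    · exact (hno y y' hxy hy' hs).symm
  refine dq_const (π := fun a : K.W × (∀ j, Qj j) => K.π a.1) h hu (N := H.neighborSet x) ?_ hall
  have h1 : {i | ∃ y ∈ H.neighborSet x, Sim H (K.π (u i).1) y}.ncard ≤ Fintype.card ι := by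
    rw [← Nat.card_eq_fintype_card, ← Set.ncard_univ]
    exact Set.ncard_le_ncard (Set.subset_univ _) (Set.toFinite _)
  have h2 := h3 x
  omega

theorem base_multi [Finite V] (hm : Multi H) (h3 : ∀ x, 3 ≤ (H.neighborSet x).ncard) :
    ∃ (K : Kit H) (P : V → K.W), Base K P := by
  let J : Type := {t : V × V × V // H.Adj t.1 t.2.1 ∧ H.Adj t.1 t.2.2 ∧ ¬ Sim H t.2.1 t.2.2}
  have hJf : Finite J := inferInstance
  choose Qj hfin Tj κj hcw using fun j : J => exists_cwalk hm j.2.1 j.2.2.1 j.2.2.2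
  have hJ : ∀ x y y', H.Adj x y → H.Adj x y' → ¬ Sim H y y' →
      ∃ j, CWalk (Tj j) (κj j) x y y' := fun x y y' h1 h2 h3 => ⟨⟨(x, y, y'), h1, h2, h3⟩, hcw _⟩
  obtain ⟨K, sd, M, P, -, -, hpi, -, hU⟩ := exists_kitall H
  have hdeg : ∀ w : K.W, ∃ w', K.gr.Adj w w' := by
    intro w
    obtain ⟨y, hy⟩ : (H.neighborSet (K.π w)).Nonempty := by
      apply Set.nonempty_of_ncard_ne_zero
      have := h3 (K.π w)
      omega
    obtain ⟨q, hq, -⟩ := lift_adj K hy
    exact ⟨q, hq⟩
  refine ⟨liftK K (prodV Tj), fun v => (P v, κj), hpi, fun v => lift_univ (prodV Tj) (hU v) κj, ?_, ?_,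
    lift_deg (prodV Tj) hdeg⟩
  · intro v u hu
    have hu' : (liftG K (prodV Tj)).Adj (P v, κj) u := hu
    refine straight_one' (g := liftG K (prodV Tj)) (π := fun a => K.π a.1) hu' ?_
    intro f φ h x y hxy hx
    refine dq_lift hm h3 Tj κj hJ (ι := Unit) (by simp) (fun _ => hu')
      (fun a b _ => Subsingleton.elim a b) ?_ h hxy hx
    intro a b
    exact ⟨fun h => ⟨(), h⟩, fun ⟨_, h⟩ => h⟩
  · intro v u o hu ho hne
    have hu' : (liftG K (prodV Tj)).Adj (P v, κj) u := hu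
    have ho' : (liftG K (prodV Tj)).Adj (P v, κj) o := ho
    have huo : u ≠ o := by
      rintro rfl
      exact hne (sim_refl _ _)
    refine straight_two' (g := liftG K (prodV Tj)) (π := fun a => K.π a.1) hu' ho' hne ?_
    intro f φ h x y hxy hx
    refine dq_lift hm h3 Tj κj hJ (ι := Fin 2) (by simp) ?_ ?_ ?_ h hxy hx
    · intro i
      fin_cases i
      · exact hu'
      · exact ho'
    · intro a b hab
      fin_cases a <;> fin_cases b
      · rfl
      · exact absurd hab huo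
      · exact absurd hab.symm huo
      · rfl
    · intro a b
      constructor
      · rintro (h | h)
        · exact ⟨0, h⟩
        · exact ⟨1, h⟩
      · rintro ⟨i, h⟩
        fin_cases i
        · exact Or.inl h
        · exact Or.inr h

end Pool.Agent.H24.GE
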