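import Pool.Agent.H24.GE.Stab

/-!
# JOB GE-7: points far apart are connected

`closing`. Let `m₀` be from `stab`, `sh j (x, (i, u)) = (x, (i + j, u))` the shift of a point by `j` units; it
maps `Cn` over `win a b` to `Cn` over `win (a + j) (b + j)`.
For points `s, s'` over `win 0 m₀` let `s ⇝ s'` mean that `s` and `sh 1 s'` are connected over `win 0 (m₀ + 1)`.
(a) For every `s` there is such an `s'`: walk from the position of `s` to a position in `win 1 (m₀ + 1)`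
(windows are connected, see `stab` (1)).
(b) `s ⇝ s'`, `s ⇝ s''` imply that `sh 1 s'`, `sh 1 s''` are connected over `win 0 (m₀ + 1)`, so over
`win 1 (m₀ + 1)` (`stab` with `c = 1`), so `s', s''` are connected over `win 0 m₀`.
(c) `s₁ ⇝ s'`, `s₂ ⇝ s''`, `s', s''` connected over `win 0 m₀`, imply `s₁, s₂` connected over `win 0 (m₀ + 1)`, so
over `win 0 m₀` (`stab` with `c = 0`).
So `⇝` induces an injective map `Φ` of the finite set of the classes of `Cn` over `win 0 m₀` to itself. Let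
`R' > 0` with `Φ^[R'] = id`. For `s = s₀ ⇝ s₁ ⇝ … ⇝ s_j` (`j = k * R'`) the point `s` is connected over
`win 0 (m₀ + j)` to `sh j s_j`, and `s_j`, `s` are connected over `win 0 m₀`, so `sh j s_j`, `sh j s` are
connected over `win j (j + m₀)`.
-/

namespace Pool.Agent.H24.GE

open Pool.Agent.H24.GC Pool.Agent.H24.GD

variable {V : Type} {H : SimpleGraph V}

section pos
variable {U : Type}

theorem Clos_rel_symm {α : Type} {r : α → α → Prop} (hr : ∀ a b, r a b → r b a) {a b : α}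
    (h : Relation.ReflTransGen r a b) : Relation.ReflTransGen r b a := by
  induction h with
  | refl => exact .refl
  | tail _ h2 ih => exact .head (hr _ _ h2) ih

theorem Clos_sg_symm (R : Per H U) {a b : ℤ × U} (h : R.Sg a b) : R.Sg b a := by
  rcases h with ⟨h1, h2⟩ | ⟨h1, h2, h3⟩ | ⟨h1, h2, h3⟩
  · exact Or.inl ⟨h1.symm, R.symm _ _ h2⟩
  · exact Or.inr (Or.inr ⟨h1, h2, h3⟩)
  · exact Or.inr (Or.inl ⟨h1, h2, h3⟩)

/-- connected positions of a window -/
def Clos_P (R : Per H U) (a b : ℤ) (p q : ℤ × U) : Prop :=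
  Relation.ReflTransGen (fun s t => s ∈ win U a b ∧ t ∈ win U a b ∧ R.Sg s t) p q

theorem Clos_P_symm (R : Per H U) {a b : ℤ} {p q : ℤ × U} (h : Clos_P R a b p q) :
    Clos_P R a b q p :=
  Clos_rel_symm (fun _ _ h => ⟨h.2.1, h.1, Clos_sg_symm R h.2.2⟩) h

theorem Clos_layer (R : Per H U) {a b i : ℤ} (h1 : a ≤ i) (h2 : i ≤ b) (u v : U) :
    Clos_P R a b (i, u) (i, v) := by
  have h := R.conn u v
  induction h with
  | refl => exact .refl
  | tail _ h3 ih => exact .tail ih ⟨⟨h1, h2⟩, ⟨h1, h2⟩, Or.inl ⟨rfl, h3⟩⟩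

theorem Clos_up (R : Per H U) {a b : ℤ} (n : ℕ) : ∀ (i : ℤ) (u v : U), a ≤ i → i + n ≤ b →
    Clos_P R a b (i, u) (i + n, v) := by
  induction n with
  | zero =>
    intro i u v h1 h2
    have h3 : i + ((0 : ℕ) : ℤ) = i := by simp
    rw [h3] at h2 ⊢
    exact Clos_layer R h1 h2 u v
  | succ n ih =>
    intro i u v h1 h2
    have h3 : i + ((n + 1 : ℕ) : ℤ) = i + n + 1 := by push_cast; ring
    rw [h3] at h2 ⊢
    have h4 := ih i u R.uo h1 (by omega)
    have h5 : Clos_P R a b (i + n, R.uo) (i + n + 1, R.ui) :=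
      .single ⟨⟨by show a ≤ i + n; omega, by show i + n ≤ b; omega⟩,
        ⟨by show a ≤ i + n + 1; omega, by show i + n + 1 ≤ b; omega⟩,
        Or.inr (Or.inl ⟨rfl, rfl, rfl⟩)⟩
    have h6 := Clos_layer R (a := a) (b := b) (i := i + n + 1) (by omega) h2 R.ui v
    exact (h4.trans h5).trans h6

theorem Clos_win (R : Per H U) {a b : ℤ} {p q : ℤ × U} (hp : p ∈ win U a b)
    (hq : q ∈ win U a b) : Clos_P R a b p q := by
  obtain ⟨i, u⟩ := p
  obtain ⟨j, v⟩ := q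
  have h1 : a ≤ i ∧ i ≤ b := hp
  have h2 : a ≤ j ∧ j ≤ b := hq
  rcases le_total i j with h | h
  · obtain ⟨n, hn⟩ := Int.eq_ofNat_of_zero_le (sub_nonneg.2 h)
    have h3 : j = i + n := by omega
    rw [h3]
    exact Clos_up R n i u v h1.1 (by omega)
  · obtain ⟨n, hn⟩ := Int.eq_ofNat_of_zero_le (sub_nonneg.2 h)
    have h3 : i = j + n := by omega
    rw [h3]
    exact Clos_P_symm R (Clos_up R n j v u h2.1 (by omega))

theorem Clos_ca [Finite V] (R : Per H U) {p q : ℤ × U} (h : R.Sg p q) :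
    CA H (R.clz p) (R.clz q) := by
  rcases h with ⟨-, h2⟩ | ⟨-, h2, h3⟩ | ⟨-, h2, h3⟩
  · exact R.ca _ _ h2
  · show CA H (R.cl p.2) (R.cl q.2)
    rw [h2, h3]
    exact R.ca'
  · show CA H (R.cl p.2) (R.cl q.2)
    rw [h2, h3]
    exact ca_symm R.ca'

theorem Clos_walk [Finite V] (R : Per H U) {a b : ℤ} {p q : ℤ × U} (h : Clos_P R a b p q)
    {x : V} (hx : Sim H x (R.clz p)) :
    ∃ y, Sim H y (R.clz q) ∧ Cn H R.clz R.Sg (win U a b) (x, p) (y, q) := by
  unfold Clos_P at h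
  induction h with
  | refl => exact ⟨x, hx, .refl⟩
  | tail _ h2 ih =>
    obtain ⟨y, hy, hc⟩ := ih
    obtain ⟨z, hz, hz'⟩ := ca_left (Clos_ca R h2.2.2) hy
    exact ⟨z, hz', .tail hc ⟨h2.1, h2.2.1, h2.2.2, hz, hy, hz'⟩⟩

theorem Clos_symm (R : Per H U) {X : Set (ℤ × U)} {s t : V × (ℤ × U)}
    (h : Cn H R.clz R.Sg X s t) : Cn H R.clz R.Sg X t s :=
  Clos_rel_symm (fun _ _ h => ⟨h.2.1, h.1, Clos_sg_symm R h.2.2.1, h.2.2.2.1.symm, h.2.2.2.2.2,
    h.2.2.2.2.1⟩) h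

theorem Clos_mono (R : Per H U) {X Y : Set (ℤ × U)} (hXY : X ⊆ Y) {s t : V × (ℤ × U)}
    (h : Cn H R.clz R.Sg X s t) : Cn H R.clz R.Sg Y s t := by
  unfold Cn at h
  induction h with
  | refl => exact .refl
  | tail _ h2 ih => exact .tail ih ⟨hXY h2.1, hXY h2.2.1, h2.2.2⟩

theorem Clos_trans (R : Per H U) {X : Set (ℤ × U)} {s t v : V × (ℤ × U)}
    (h : Cn H R.clz R.Sg X s t) (h' : Cn H R.clz R.Sg X t v) : Cn H R.clz R.Sg X s v :=
  Relation.ReflTransGen.trans h h'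

/-- the shift -/
def Clos_sh (j : ℤ) (s : V × (ℤ × U)) : V × (ℤ × U) := (s.1, (s.2.1 + j, s.2.2))

theorem Clos_sh_sh (i j : ℤ) (s : V × (ℤ × U)) :
    Clos_sh i (Clos_sh j s) = Clos_sh (j + i) s := by
  unfold Clos_sh
  rw [add_assoc]

theorem Clos_sh_zero (s : V × (ℤ × U)) : Clos_sh 0 s = s := by
  unfold Clos_sh
  rw [add_zero]

theorem Clos_shift (R : Per H U) {a b : ℤ} (j : ℤ) {s t : V × (ℤ × U)}
    (h : Cn H R.clz R.Sg (win U a b) s t) :
    Cn H R.clz R.Sg (win U (a + j) (b + j)) (Clos_sh j s) (Clos_sh j t) := by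
  unfold Cn at h
  induction h with
  | refl => exact .refl
  | @tail c d _ h2 ih =>
    refine .tail ih ⟨⟨?_, ?_⟩, ⟨?_, ?_⟩, ?_, h2.2.2.2.1, h2.2.2.2.2.1, h2.2.2.2.2.2⟩
    · show a + j ≤ c.2.1 + j
      have := h2.1.1
      omega
    · show c.2.1 + j ≤ b + j
      have := h2.1.2
      omega
    · show a + j ≤ d.2.1 + j
      have := h2.2.1.1
      omega
    · show d.2.1 + j ≤ b + j
      have := h2.2.1.2
      omega
    · show (c.2.1 + j = d.2.1 + j ∧ R.S c.2.2 d.2.2) ∨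
        (d.2.1 + j = c.2.1 + j + 1 ∧ c.2.2 = R.uo ∧ d.2.2 = R.ui) ∨
        (c.2.1 + j = d.2.1 + j + 1 ∧ d.2.2 = R.uo ∧ c.2.2 = R.ui)
      rcases h2.2.2.1 with ⟨h3, h4⟩ | ⟨h3, h4⟩ | ⟨h3, h4⟩
      · exact Or.inl ⟨by rw [h3], h4⟩
      · exact Or.inr (Or.inl ⟨by rw [h3]; ring, h4⟩)
      · exact Or.inr (Or.inr ⟨by rw [h3]; ring, h4⟩)

end pos

theorem closing [Finite V] {U : Type} [Finite U] (R : Per H U) : ∃ R' m₀ : ℕ, 0 < R' ∧
    ∀ (k : ℕ) (s : V × (ℤ × U)), 0 ≤ s.2.1 → s.2.1 ≤ m₀ → Sim H s.1 (R.clz s.2) →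
      Cn H R.clz R.Sg (win U 0 (m₀ + k * R')) s (s.1, (s.2.1 + k * R', s.2.2)) := by
  classical
  obtain ⟨m₀, hst⟩ := stab R
  let P : Type := {s : V × (ℤ × U) // 0 ≤ s.2.1 ∧ s.2.1 ≤ m₀ ∧ Sim H s.1 (R.clz s.2)}
  have hfin : Finite P := by
    have h : {s : V × (ℤ × U) | 0 ≤ s.2.1 ∧ s.2.1 ≤ m₀ ∧ Sim H s.1 (R.clz s.2)}.Finite := by
      refine ((Set.finite_univ (α := V)).prod ((Set.finite_Icc (0 : ℤ) m₀).prod
        (Set.finite_univ (α := U)))).subset ?_
      rintro s ⟨h1, h2, -⟩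
      exact ⟨Set.mem_univ _, ⟨h1, h2⟩, Set.mem_univ _⟩
    exact h.to_subtype
  -- the walk by one unit
  have hstep : ∀ s : P, ∃ s' : P,
      Cn H R.clz R.Sg (win U 0 (m₀ + 1)) s.1 (Clos_sh 1 s'.1) := by
    rintro ⟨⟨x, p⟩, h1, h2, h3⟩
    have h1' : 0 ≤ p.1 := h1
    have h2' : p.1 ≤ m₀ := h2
    have hp : p ∈ win U 0 ((m₀ : ℤ) + 1) := ⟨h1', by omega⟩
    have hq : ((1 : ℤ), R.ui) ∈ win U 0 ((m₀ : ℤ) + 1) :=
      ⟨by show (0 : ℤ) ≤ 1; omega, by show (1 : ℤ) ≤ (m₀ : ℤ) + 1; omega⟩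
    obtain ⟨y, hy, hc⟩ := Clos_walk R (Clos_win R hp hq) h3
    refine ⟨⟨(y, (0, R.ui)), ⟨le_rfl, ?_, hy⟩⟩, ?_⟩
    · show (0 : ℤ) ≤ m₀
      omega
    · have h4 : Clos_sh 1 (y, ((0 : ℤ), R.ui)) = (y, ((1 : ℤ), R.ui)) := by
        unfold Clos_sh
        norm_num
      show Cn H R.clz R.Sg (win U 0 (m₀ + 1)) (x, p) (Clos_sh 1 (y, ((0 : ℤ), R.ui)))
      rw [h4]
      exact hc
  choose f hf using hstep
  have hsub : win U 0 (m₀ : ℤ) ⊆ win U 0 ((m₀ : ℤ) + 1) := by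
    intro p hp
    exact ⟨hp.1, by have := hp.2; omega⟩
  -- (b)
  have hb : ∀ s t : P, Cn H R.clz R.Sg (win U 0 m₀) s.1 t.1 →
      Cn H R.clz R.Sg (win U 0 m₀) (f s).1 (f t).1 := by
    intro s t h
    have h1 : Cn H R.clz R.Sg (win U 0 (m₀ + 1)) (Clos_sh 1 (f s).1) (Clos_sh 1 (f t).1) :=
      Clos_trans R (Clos_symm R (hf s)) (Clos_trans R (Clos_mono R hsub h) (hf t))
    have h2 := hst 0 ((m₀ : ℤ) + 1) 1 (win U 1 (1 + (m₀ : ℤ))) (by omega) (by omega)
      (by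
        intro p hp
        have h3 := hp.1
        have h4 := hp.2
        exact ⟨by omega, by omega⟩)
      (fun p hp => hp) (fun p hp q hq => Clos_win R hp hq)
      (Clos_sh 1 (f s).1) (Clos_sh 1 (f t).1)
      ⟨by
        show 1 ≤ (f s).1.2.1 + 1
        have := (f s).2.1
        omega, by
        show (f s).1.2.1 + 1 ≤ 1 + (m₀ : ℤ)
        have := (f s).2.2.1
        omega⟩
      ⟨by
        show 1 ≤ (f t).1.2.1 + 1
        have := (f t).2.1
        omega, by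
        show (f t).1.2.1 + 1 ≤ 1 + (m₀ : ℤ)
        have := (f t).2.2.1
        omega⟩
      (f s).2.2.2 (f t).2.2.2 h1
    have h3 := Clos_shift R (-1) h2
    rw [Clos_sh_sh, Clos_sh_sh] at h3
    have h4 : (1 : ℤ) + -1 = 0 := by norm_num
    have h5 : 1 + (m₀ : ℤ) + -1 = m₀ := by ring
    rw [h4, h5, Clos_sh_zero, Clos_sh_zero] at h3
    exact h3
  -- (c)
  have hc : ∀ s t : P, Cn H R.clz R.Sg (win U 0 m₀) (f s).1 (f t).1 →
      Cn H R.clz R.Sg (win U 0 m₀) s.1 t.1 := by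
    intro s t h
    have h0 := Clos_shift R 1 h
    have h1 : Cn H R.clz R.Sg (win U 0 (m₀ + 1)) s.1 t.1 := by
      refine Clos_trans R (hf s) (Clos_trans R (Clos_mono R ?_ h0) (Clos_symm R (hf t)))
      intro p hp
      exact ⟨by have := hp.1; omega, hp.2⟩
    have h2 := hst 0 ((m₀ : ℤ) + 1) 0 (win U 0 (0 + (m₀ : ℤ))) (by omega) (by omega)
      (by
        intro p hp
        exact ⟨hp.1, by have := hp.2; omega⟩)
      (fun p hp => hp) (fun p hp q hq => Clos_win R hp hq) s.1 t.1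
      ⟨s.2.1, by have := s.2.2.1; omega⟩ ⟨t.2.1, by have := t.2.2.1; omega⟩
      s.2.2.2 t.2.2.2 h1
    rw [zero_add] at h2
    exact h2
  -- the classes
  let st : Setoid P := ⟨fun s t => Cn H R.clz R.Sg (win U 0 m₀) s.1 t.1,
    ⟨fun _ => .refl, fun h => Clos_symm R h, fun h h' => Clos_trans R h h'⟩⟩
  let Φ : Quotient st → Quotient st := fun q => Quotient.mk st (f q.out)
  have hΦ : ∀ s : P, Φ (Quotient.mk st s) = Quotient.mk st (f s) := by
    intro s
    refine Quotient.sound (s := st) (hb _ _ ?_)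
    exact Quotient.exact (s := st) (Quotient.out_eq (Quotient.mk st s))
  have hinj : Function.Injective Φ := by
    intro q q' h
    have h1 := hc _ _ (Quotient.exact (s := st) h)
    rw [← Quotient.out_eq q, ← Quotient.out_eq q']
    exact Quotient.sound (s := st) h1
  have hfq : Finite (Quotient st) := inferInstance
  let σ : Equiv.Perm (Quotient st) := Equiv.ofBijective Φ ⟨hinj, Finite.surjective_of_injective hinj⟩
  refine ⟨orderOf σ, m₀, orderOf_pos σ, ?_⟩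
  -- iteration
  have hit : ∀ (j : ℕ) (s : P), Quotient.mk st (f^[j] s) = (σ ^ j) (Quotient.mk st s) := by
    intro j
    induction j with
    | zero => intro s; rfl
    | succ j ih =>
      intro s
      rw [Function.iterate_succ_apply, ih, pow_succ, Equiv.Perm.mul_apply]
      exact congrArg _ (hΦ s).symm
  have hcn : ∀ (j : ℕ) (s : P), Cn H R.clz R.Sg (win U 0 (m₀ + j)) s.1
      (Clos_sh j (f^[j] s).1) := by
    intro j s
    induction j with
    | zero =>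
      have h1 : Clos_sh ((0 : ℕ) : ℤ) (f^[0] s).1 = s.1 := by
        rw [Nat.cast_zero, Clos_sh_zero]
        rfl
      rw [h1]
      exact .refl
    | succ j ih =>
      have h1 := Clos_shift R (j : ℤ) (hf (f^[j] s))
      rw [Clos_sh_sh] at h1
      have h2 : f^[j + 1] s = f (f^[j] s) := Function.iterate_succ_apply' f j s
      have h3 : ((j + 1 : ℕ) : ℤ) = 1 + j := by push_cast; ring
      rw [h2, h3]
      refine Clos_trans R (Clos_mono R ?_ ih) (Clos_mono R ?_ h1)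
      · intro p hp
        exact ⟨hp.1, by have := hp.2; omega⟩
      · intro p hp
        exact ⟨by have := hp.1; omega, by have := hp.2; omega⟩
  intro k s h1 h2 h3
  have h4 := hcn (k * orderOf σ) ⟨s, h1, h2, h3⟩
  have h5 := hit (k * orderOf σ) ⟨s, h1, h2, h3⟩
  have h6 : σ ^ (k * orderOf σ) = 1 := by
    rw [mul_comm, pow_mul, pow_orderOf_eq_one, one_pow]
  rw [h6, Equiv.Perm.one_apply] at h5
  have h7 : Cn H R.clz R.Sg (win U 0 m₀) (f^[k * orderOf σ] ⟨s, h1, h2, h3⟩).1 s :=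
    Quotient.exact (s := st) h5
  have h8 := Clos_shift R ((k * orderOf σ : ℕ) : ℤ) h7
  rw [Nat.cast_mul] at h4 h8
  refine Clos_trans R h4 (Clos_mono R ?_ h8)
  intro p hp
  have h9 : (0 : ℤ) ≤ (k : ℤ) * (orderOf σ : ℤ) := by positivity
  exact ⟨by have := hp.1; omega, hp.2⟩

end Pool.Agent.H24.GE
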