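import Pool.Agent.H24.GD.Tie

/-!
# JOB GE-5: closed walks of classes

`CA H x y`: the class of `x` is adjacent to the class of `y`. `Live H x y`: there is an infinite walk of
classes which starts with `x, y` and never turns back (`w i`, `w (i + 2)` are in different classes).
`ca_left`, `ca_right`, `ca_symm`: `StepDef_nbr`, `sim_trans`, `sim_symm`. `live_of_multi`: choose the next vertex again
and again (`Multi`; all vertices of the walk can be chosen adjacent).

`closed_nb`. A type is a pair `(A, B)` of adjacent classes (work with the quotient of `V` by `Sim`, or with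
representatives). `s = (A, B) → s' = (B, C)` if `C ≠ A`; `sᵣ = (B, A)`; `s → s'` iff `s'ᵣ → sᵣ`. Live types: they
start an infinite walk `→`; every live type has a live successor. Let `t = (x, y)`, `t' = (x, y')`, both live.
Let `s₀` be reachable from `t` (through live types) such that the set `T` of the live types which are reachable
from `s₀` has the smallest number of elements. For `s ∈ T` the set reachable from `s` is contained in `T`, so it
is `T` and `s₀` is reachable from `s`; so `T` is strongly connected, closed under live successors, and every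
`s ∈ T` lies on a closed walk in `T`. Reversing it we see that `sᵣ` is live for `s ∈ T`.
For a class `A` let `out A`, `in A` be the sets of `s ∈ T` that start, end at `A`, and `lv A` the set of the live
types which start at `A`. If `s ∈ in A` then every element of `lv A` different from `sᵣ` is a successor of `s`, so it
is in `out A`. So `|in A| ≥ 2` implies `out A = lv A`, and as `{sᵣ | s ∈ in A} ⊆ lv A`, `|out A| ≥ |in A|`; this
also holds if `|in A| = 1` (a live successor) and if `|in A| = 0`. As `∑ |out A| = |T| = ∑ |in A|` we have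
`|out A| = |in A|` for all `A`.
(★) If `o ∈ out A`, `v ∈ lv A`, `v ≠ o` then `vᵣ ∈ T`. Proof: `|in A| = |out A| ≥ 1`. If `|in A| ≥ 2` then
`out A = lv A` has as many elements as `{sᵣ | s ∈ in A} ⊆ lv A`, so `v = sᵣ` with `s ∈ in A`. If `in A = {s}` then
`out A = {o}`; if `v ≠ sᵣ` then `v` is a successor of `s`, so `v ∈ out A`, `v = o`, contradiction. So `v = sᵣ`,
`vᵣ = s ∈ T`.
Let `t = r 0 → r 1 → … → r m = s₀` through live types. `(r i)ᵣ` is live: `(r i)ᵣ → … → (r 0)ᵣ → t'` (`y' ≁ y`) and then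
the infinite walk of `t'`. By (★), `r (i + 1) ∈ T` implies `r i ∈ T`: `o = r (i + 1)`, `v = (r i)ᵣ`,
`v ≠ o` as `r i → r (i + 1)`. So `t ∈ T`. By (★) with `o = t`, `v = t'`: `t'ᵣ ∈ T`. As `T` is strongly connected
there is a walk `t → … → t'ᵣ`. The classes on it give `w` (choose representatives; `w 0 = w l = x`, `w 1 = y`,
`w (l - 1) = y'` can be achieved as `CA` depends only on the classes). `l` is the number of
types of the walk; `l ≥ 3`: `t = t'ᵣ` would give `y ~ x ~ y'`, so `l ≥ 2`, and `l = 2` would give `y ~ y'`, as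
`w 1` is in the class of `y` and in the class of `y'`.
-/

namespace Pool.Agent.H24.GE

open Pool.Agent.H24.GC Pool.Agent.H24.GD

section Abs

variable {C : Type} {R : C → C → Prop}

/-- abstract form of `Live` -/
private def TW_L (R : C → C → Prop) (s : C × C) : Prop :=
  ∃ w : ℕ → C, w 0 = s.1 ∧ w 1 = s.2 ∧ (∀ i, R (w i) (w (i + 1))) ∧ ∀ i, w i ≠ w (i + 2)

private def TW_st (R : C → C → Prop) (s s' : C × C) : Prop :=
  TW_L R s ∧ TW_L R s' ∧ s.2 = s'.1 ∧ s.1 ≠ s'.2

private theorem TW_L_R {s : C × C} (h : TW_L R s) : R s.1 s.2 := by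
  obtain ⟨w, h0, h1, h2, -⟩ := h
  have := h2 0
  rwa [h0, h1] at this

private theorem TW_coind (S : Set (C × C)) (hR : ∀ s ∈ S, R s.1 s.2)
    (hS : ∀ s ∈ S, ∃ s' ∈ S, s.2 = s'.1 ∧ s.1 ≠ s'.2) : ∀ s ∈ S, TW_L R s := by
  intro s hs
  choose f hf hf1 hf2 using hS
  let g : S → S := fun u => ⟨f u.1 u.2, hf u.1 u.2⟩
  let q : ℕ → S := fun i => Nat.rec ⟨s, hs⟩ (fun _ u => g u) i
  have hq1 : ∀ i, (q i).1.2 = (q (i + 1)).1.1 := fun i => hf1 _ (q i).2
  have hq2 : ∀ i, (q i).1.1 ≠ (q (i + 1)).1.2 := fun i => hf2 _ (q i).2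
  refine ⟨fun i => (q i).1.1, rfl, ?_, ?_, ?_⟩
  · exact (hq1 0).symm
  · intro i
    show R (q i).1.1 (q (i + 1)).1.1
    rw [← hq1 i]
    exact hR _ (q i).2
  · intro i
    show (q i).1.1 ≠ (q (i + 1 + 1)).1.1
    rw [← hq1 (i + 1)]
    exact hq2 i

private theorem TW_succ {s : C × C} (h : TW_L R s) : ∃ s', TW_st R s s' := by
  obtain ⟨w, h0, h1, h2, h3⟩ := h
  refine ⟨(w 1, w 2), ⟨w, h0, h1, h2, h3⟩, ⟨fun i => w (i + 1), rfl, rfl, fun i => h2 (i + 1),
    fun i => h3 (i + 1)⟩, h1.symm, ?_⟩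
  rw [← h0]
  exact h3 0

private theorem TW_pre {s s' : C × C} (hR : R s.1 s.2) (h : TW_L R s') (h1 : s.2 = s'.1)
    (h2 : s.1 ≠ s'.2) : TW_L R s := by
  obtain ⟨w, e0, e1, e2, e3⟩ := h
  refine ⟨fun i => Nat.casesOn i s.1 w, rfl, ?_, ?_, ?_⟩
  · show w 0 = s.2
    rw [e0, h1]
  · intro i
    cases i with
    | zero =>
      show R s.1 (w 0)
      rw [e0, ← h1]
      exact hR
    | succ i => exact e2 i
  · intro i
    cases i with
    | zero =>
      show s.1 ≠ w 1
      rw [e1]
      exact h2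
    | succ i => exact e3 i

private theorem TW_reach {s s' : C × C} (h : TW_L R s)
    (hr : Relation.ReflTransGen (TW_st R) s s') : TW_L R s' := by
  rcases Relation.ReflTransGen.cases_tail hr with h1 | ⟨c, -, h1⟩
  · rw [h1]; exact h
  · exact h1.2.1

private theorem TW_chain {s s' : C × C} (hr : Relation.ReflTransGen (TW_st R) s s') :
    ∃ k, ∃ c : ℕ → C × C, c 0 = s ∧ c k = s' ∧ ∀ i < k, TW_st R (c i) (c (i + 1)) := by
  induction hr using Relation.ReflTransGen.head_induction_on with
  | refl => exact ⟨0, fun _ => s', rfl, rfl, fun i hi => absurd hi (Nat.not_lt_zero i)⟩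
  | @head a b h1 _ ih =>
    obtain ⟨k, c, h0, hk, hc⟩ := ih
    refine ⟨k + 1, fun i => Nat.casesOn i a c, rfl, hk, ?_⟩
    intro i hi
    cases i with
    | zero =>
      show TW_st R a (c 0)
      rw [h0]
      exact h1
    | succ i => exact hc i (Nat.lt_of_succ_lt_succ hi)

private def TW_w (x : C) (c : ℕ → C × C) : ℕ → C
  | 0 => x
  | i + 1 => (c i).2

private theorem TW_main [Finite C] (hs : ∀ a b, R a b → R b a) {x y y' : C}
    (h : TW_L R (x, y)) (h' : TW_L R (x, y')) (hne : y ≠ y') :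
    ∃ (l : ℕ) (w : ℕ → C), 3 ≤ l ∧ w 0 = x ∧ w 1 = y ∧ w (l - 1) = y' ∧ w l = x ∧
      (∀ i < l, R (w i) (w (i + 1))) ∧ ∀ i, i + 2 ≤ l → w i ≠ w (i + 2) := by
  classical
  have := Fintype.ofFinite C
  let rc : C × C → Finset (C × C) := fun s =>
    Finset.univ.filter (fun s' => Relation.ReflTransGen (TW_st R) s s')
  have hrc : ∀ s s', s' ∈ rc s ↔ Relation.ReflTransGen (TW_st R) s s' := fun s s' => by
    simp [rc]
  obtain ⟨t, ht⟩ : ∃ t : C × C, t = (x, y) := ⟨_, rfl⟩
  have htL : TW_L R t := by rw [ht]; exact h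
  obtain ⟨s₀, hs₀, hmin⟩ := Finset.exists_min_image (rc t) (fun s => (rc s).card)
    ⟨t, (hrc t t).2 Relation.ReflTransGen.refl⟩
  have hts₀ : Relation.ReflTransGen (TW_st R) t s₀ := (hrc _ _).1 hs₀
  obtain ⟨T, hT⟩ : ∃ T, T = rc s₀ := ⟨_, rfl⟩
  have hTm : ∀ s, s ∈ T ↔ Relation.ReflTransGen (TW_st R) s₀ s := fun s => by rw [hT]; exact hrc _ _
  have hclosed : ∀ s ∈ T, ∀ s', Relation.ReflTransGen (TW_st R) s s' → s' ∈ T := by
    intro s hsT s' hss'
    rw [hTm] at hsT ⊢
    exact hsT.trans hss'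
  have hlive : ∀ s ∈ T, TW_L R s := fun s hsT => TW_reach (TW_reach htL hts₀) ((hTm s).1 hsT)
  have hstrong : ∀ s ∈ T, ∀ s' ∈ T, Relation.ReflTransGen (TW_st R) s s' := by
    intro s hsT s' hs'
    have h1 : rc s ⊆ T := fun u hu => hclosed s hsT u ((hrc _ _).1 hu)
    have h2 : T.card ≤ (rc s).card := by
      rw [hT]
      exact hmin s ((hrc _ _).2 (hts₀.trans ((hTm s).1 hsT)))
    have h3 : rc s = T := Finset.eq_of_subset_of_card_le h1 h2
    rw [← h3, hrc] at hs'
    exact hs'
  have hpred : ∀ s ∈ T, ∃ p ∈ T, TW_st R p s := by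
    intro s hsT
    obtain ⟨s1, h1⟩ := TW_succ (hlive s hsT)
    have h2 : s1 ∈ T := hclosed s hsT s1 (Relation.ReflTransGen.single h1)
    rcases Relation.ReflTransGen.cases_tail (hstrong s1 h2 s hsT) with h3 | ⟨c, h3, h4⟩
    · exact ⟨s, hsT, by rw [← h3] at h1; exact h1⟩
    · exact ⟨c, hclosed s1 h2 c h3, h4⟩
  have hrev : ∀ s ∈ T, TW_L R s.swap := by
    have key := TW_coind (R := R) {s | s.swap ∈ T} (fun s hsS => ?_) (fun s hsS => ?_)
    · intro s hsT
      apply key
      show s.swap.swap ∈ T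
      rw [Prod.swap_swap]
      exact hsT
    · exact hs _ _ (TW_L_R (hlive _ hsS))
    · obtain ⟨p, hp, h1⟩ := hpred _ hsS
      refine ⟨p.swap, ?_, ?_, ?_⟩
      · show p.swap.swap ∈ T
        rw [Prod.swap_swap]
        exact hp
      · exact h1.2.2.1.symm
      · exact h1.2.2.2.symm
  -- counting
  let out : C → Finset (C × C) := fun A => T.filter (fun s => s.1 = A)
  let inn : C → Finset (C × C) := fun A => T.filter (fun s => s.2 = A)
  have hout : ∀ A s, s ∈ out A ↔ s ∈ T ∧ s.1 = A := fun A s => Finset.mem_filter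
  have hinn : ∀ A s, s ∈ inn A ↔ s ∈ T ∧ s.2 = A := fun A s => Finset.mem_filter
  have hsucc : ∀ s ∈ T, ∀ v, TW_L R v → v.1 = s.2 → s ≠ v.swap → v ∈ T := by
    intro s hsT v hv hv1 hsv
    apply hclosed s hsT v
    apply Relation.ReflTransGen.single
    refine ⟨hlive s hsT, hv, hv1.symm, fun h1 => hsv ?_⟩
    exact Prod.ext h1 hv1.symm
  have hbig : ∀ A, 1 < (inn A).card → ∀ v, TW_L R v → v.1 = A → v ∈ T := by
    intro A hA v hv hvA
    obtain ⟨s, hsA, hsv⟩ := Finset.exists_mem_ne hA v.swap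
    rw [hinn] at hsA
    exact hsucc s hsA.1 v hv (hvA.trans hsA.2.symm) hsv
  have hswap : ∀ A, 1 < (inn A).card → Set.MapsTo Prod.swap (inn A : Set (C × C)) (out A) := by
    intro A hA s hsA
    have hsA' := (hinn A s).1 hsA
    have : s.swap ∈ out A := (hout A _).2 ⟨hbig A hA _ (hrev s hsA'.1) hsA'.2, hsA'.2⟩
    exact this
  have hle : ∀ A, (inn A).card ≤ (out A).card := by
    intro A
    by_cases h1 : 1 < (inn A).card
    · exact Finset.card_le_card_of_injOn Prod.swap (hswap A h1) Prod.swap_injective.injOn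
    · by_cases h0 : (inn A).card = 0
      · rw [h0]; exact Nat.zero_le _
      · have h2 : (inn A).card = 1 := by omega
        rw [h2]
        obtain ⟨s, hsA⟩ := Finset.card_pos.1 (Nat.pos_of_ne_zero h0)
        rw [hinn] at hsA
        obtain ⟨s', hs'⟩ := TW_succ (hlive s hsA.1)
        apply Finset.card_pos.2
        exact ⟨s', (hout A s').2 ⟨hclosed s hsA.1 s' (Relation.ReflTransGen.single hs'),
          hs'.2.2.1.symm.trans hsA.2⟩⟩
  have heq : ∀ A, (inn A).card = (out A).card := by
    have h1 : ∑ A, (inn A).card = ∑ A, (out A).card := by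
      rw [← Finset.card_eq_sum_card_fiberwise (f := fun s : C × C => s.2) (s := T)
          (t := Finset.univ) (fun _ _ => Finset.mem_coe.2 (Finset.mem_univ _)),
        ← Finset.card_eq_sum_card_fiberwise (f := fun s : C × C => s.1) (s := T)
          (t := Finset.univ) (fun _ _ => Finset.mem_coe.2 (Finset.mem_univ _))]
    intro A
    exact (Finset.sum_eq_sum_iff_of_le (fun A _ => hle A)).1 h1 A (Finset.mem_univ _)
  have hstar : ∀ o ∈ T, ∀ v, TW_L R v → v.1 = o.1 → v ≠ o → v.swap ∈ T := by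
    intro o ho v hv hvo hne'
    have h1 : o ∈ out o.1 := (hout _ _).2 ⟨ho, rfl⟩
    have h2 : 0 < (inn o.1).card := by
      rw [heq]
      exact Finset.card_pos.2 ⟨o, h1⟩
    by_cases h3 : 1 < (inn o.1).card
    · have h4 : (inn o.1).image Prod.swap = out o.1 := by
        apply Finset.eq_of_subset_of_card_le
        · intro u hu
          obtain ⟨s, hsA, rfl⟩ := Finset.mem_image.1 hu
          exact hswap _ h3 hsA
        · rw [Finset.card_image_of_injective _ Prod.swap_injective, heq]
      have h5 : v ∈ out o.1 := (hout _ _).2 ⟨hbig _ h3 v hv hvo, hvo⟩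
      rw [← h4] at h5
      obtain ⟨s, hsA, rfl⟩ := Finset.mem_image.1 h5
      rw [Prod.swap_swap]
      exact ((hinn _ _).1 hsA).1
    · have h4 : (inn o.1).card = 1 := by omega
      obtain ⟨s, hsA⟩ := Finset.card_pos.1 h2
      rw [hinn] at hsA
      by_contra hcon
      have h5 : s ≠ v.swap := fun h6 => hcon (h6 ▸ hsA.1)
      have h6 : v ∈ T := hsucc s hsA.1 v hv (hvo.trans hsA.2.symm) h5
      have h7 : v ∈ out o.1 := (hout _ _).2 ⟨h6, hvo⟩
      rw [heq] at h4
      obtain ⟨a, ha⟩ := Finset.card_eq_one.1 h4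
      rw [ha, Finset.mem_singleton] at h1 h7
      exact hne' (h7.trans h1.symm)
  have hrevL : ∀ r, Relation.ReflTransGen (TW_st R) t r → TW_L R r.swap := by
    intro r hr
    induction hr with
    | refl =>
      rw [ht]
      exact TW_pre (s' := (x, y')) (hs _ _ (TW_L_R h)) h' rfl hne
    | tail _ h2 ih =>
      exact TW_pre (hs _ _ (TW_L_R h2.2.1)) ih h2.2.2.1.symm h2.2.2.2.symm
  have htT : t ∈ T := by
    have key : ∀ r, Relation.ReflTransGen (TW_st R) r s₀ →
        Relation.ReflTransGen (TW_st R) t r → r ∈ T := by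
      intro r hr
      induction hr using Relation.ReflTransGen.head_induction_on with
      | refl => intro _; exact (hTm _).2 Relation.ReflTransGen.refl
      | @head a b h1 _ ih =>
        intro hta
        have hb : b ∈ T := ih (hta.tail h1)
        have h3 := hstar b hb a.swap (hrevL a hta) h1.2.2.1 (fun h4 => h1.2.2.2 (by
          rw [← h4]; rfl))
        rwa [Prod.swap_swap] at h3
    exact key t hts₀ Relation.ReflTransGen.refl
  have ht'T : (y', x) ∈ T := by
    have h3 := hstar t htT (x, y') h' (by rw [ht]) (fun h4 => hne (by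
      rw [ht] at h4
      exact (congrArg Prod.snd h4).symm))
    exact h3
  obtain ⟨k, c, hc0, hck, hc⟩ := TW_chain (hstrong t htT _ ht'T)
  rw [ht] at hc0
  have hw1 : ∀ i, i ≤ k → (c i).1 = TW_w x c i := by
    intro i hi
    cases i with
    | zero => rw [hc0]; rfl
    | succ i => exact (hc i hi).2.2.1.symm
  have hk2 : 2 ≤ k := by
    by_contra hk
    have : k = 0 ∨ k = 1 := by omega
    rcases this with rfl | rfl
    · rw [hc0] at hck
      have e1 : x = y' := congrArg Prod.fst hck
      have e2 : y = x := congrArg Prod.snd hck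
      exact hne (e2.trans e1)
    · have e1 := (hc 0 Nat.one_pos).2.2.1
      rw [hc0, Nat.zero_add, hck] at e1
      exact hne e1
  have hcL : ∀ i, i ≤ k → TW_L R (c i) := by
    intro i hi
    rcases Nat.lt_or_ge i k with h1 | h1
    · exact (hc i h1).1
    · have : i = k := le_antisymm hi h1
      rw [this, hck]
      exact hlive _ ht'T
  refine ⟨k + 1, TW_w x c, by omega, rfl, ?_, ?_, ?_, ?_, ?_⟩
  · show (c 0).2 = y
    rw [hc0]
  · rw [Nat.add_sub_cancel, ← hw1 k le_rfl, hck]
  · show (c k).2 = x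
    rw [hck]
  · intro i hi
    have h1 := TW_L_R (hcL i (by omega))
    rw [hw1 i (by omega)] at h1
    exact h1
  · intro i hi
    have h1 := (hc i (by omega)).2.2.2
    rw [hw1 i (by omega)] at h1
    exact h1

end Abs

variable {V : Type} {H : SimpleGraph V}

/-- the class of `x` is adjacent to the class of `y` -/
def CA (H : SimpleGraph V) (x y : V) : Prop := ∃ y', H.Adj x y' ∧ Sim H y' y

theorem ca_left [Finite V] {x x' y : V} (h : CA H x y) (hx : Sim H x' x) : CA H x' y := by
  obtain ⟨y', h1, h2⟩ := h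
  obtain ⟨z, h3, h4⟩ := StepDef_nbr hx h1
  exact ⟨z, h3, sim_trans h4 h2⟩

theorem ca_right [Finite V] {x y y' : V} (h : CA H x y) (hy : Sim H y y') : CA H x y' := by
  obtain ⟨z, h1, h2⟩ := h
  exact ⟨z, h1, sim_trans h2 hy⟩

theorem ca_symm [Finite V] {x y : V} (h : CA H x y) : CA H y x := by
  obtain ⟨z, h1, h2⟩ := h
  have h3 : CA H z x := ⟨x, h1.symm, sim_refl H x⟩
  exact ca_left h3 (sim_symm h2)

/-- an infinite walk of classes starts with `x, y` -/
def Live (H : SimpleGraph V) (x y : V) : Prop :=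
  ∃ w : ℕ → V, w 0 = x ∧ w 1 = y ∧ (∀ i, CA H (w i) (w (i + 1))) ∧ ∀ i, ¬ Sim H (w i) (w (i + 2))

theorem live_of_multi [Finite V] (hm : Multi H) {x y : V} (h : H.Adj x y) : Live H x y := by
  have hstep : ∀ p : {p : V × V // H.Adj p.1 p.2}, ∃ c, H.Adj p.1.2 c ∧ ¬ Sim H c p.1.1 :=
    fun p => hm _ _ p.2.symm
  choose f hf1 hf2 using hstep
  let q : ℕ → {p : V × V // H.Adj p.1 p.2} := fun i =>
    Nat.rec ⟨(x, y), h⟩ (fun _ u => ⟨(u.1.2, f u), hf1 u⟩) i
  refine ⟨fun i => (q i).1.1, rfl, rfl, ?_, ?_⟩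
  · intro i
    exact ⟨(q i).1.2, (q i).2, sim_refl H _⟩
  · intro i h1
    exact hf2 (q i) (sim_symm h1)

theorem closed_nb [Finite V] {x y y' : V} (h : Live H x y) (h' : Live H x y')
    (hne : ¬ Sim H y y') :
    ∃ (l : ℕ) (w : ℕ → V), 3 ≤ l ∧ w 0 = x ∧ w 1 = y ∧ w (l - 1) = y' ∧ w l = x ∧
      (∀ i < l, CA H (w i) (w (i + 1))) ∧ ∀ i, i + 2 ≤ l → ¬ Sim H (w i) (w (i + 2)) := by
  classical
  let S : Setoid V := ⟨Sim H, sim_refl H, sim_symm, sim_trans⟩
  have hS : ∀ a b : V, (Quotient.mk S a = Quotient.mk S b) ↔ Sim H a b := fun a b => Quotient.eq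
  let R : Quotient S → Quotient S → Prop := fun a b => CA H a.out b.out
  have hout : ∀ a : V, Sim H (Quotient.mk S a).out a := fun a => by
    rw [← hS]
    exact Quotient.out_eq _
  have hR : ∀ a b : V, R (Quotient.mk S a) (Quotient.mk S b) ↔ CA H a b := by
    intro a b
    constructor
    · intro h1
      exact ca_right (ca_left h1 (sim_symm (hout a))) (hout b)
    · intro h1
      exact ca_right (ca_left h1 (hout a)) (sim_symm (hout b))
  have hL : ∀ a b : V, Live H a b → TW_L R (Quotient.mk S a, Quotient.mk S b) := by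
    rintro a b ⟨w, h0, h1, h2, h3⟩
    refine ⟨fun i => Quotient.mk S (w i), congrArg _ h0, congrArg _ h1, fun i => (hR _ _).2 (h2 i),
      fun i h4 => h3 i ((hS _ _).1 h4)⟩
  obtain ⟨l, w, hl, h0, h1, hl1, hl0, hc, hn⟩ := TW_main (fun a b hab => ca_symm hab)
    (hL _ _ h) (hL _ _ h') (fun h1 => hne ((hS _ _).1 h1))
  let u : ℕ → V := fun i => if i = 0 ∨ i = l then x else if i = 1 then y else
    if i = l - 1 then y' else (w i).out
  have hu : ∀ i, i ≤ l → Quotient.mk S (u i) = w i := by
    intro i hi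
    by_cases e0 : i = 0
    · simp only [u, e0, true_or, if_true]
      exact h0.symm
    · by_cases el : i = l
      · simp only [u, el, or_true, if_true]
        exact hl0.symm
      · by_cases e1 : i = 1
        · have e2 : ¬ (1 = 0 ∨ 1 = l) := by omega
          simp only [u, e1, if_neg e2, if_true]
          exact h1.symm
        · by_cases e2 : i = l - 1
          · have e3 : ¬ (i = 0 ∨ i = l) := by omega
            simp only [u, if_neg e3, if_neg e1, if_pos e2]
            rw [e2]
            exact hl1.symm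
          · have e3 : ¬ (i = 0 ∨ i = l) := by omega
            simp only [u, if_neg e3, if_neg e1, if_neg e2]
            exact Quotient.out_eq _
  refine ⟨l, u, hl, ?_, ?_, ?_, ?_, ?_, ?_⟩
  · simp [u]
  · have e2 : ¬ (1 = 0 ∨ 1 = l) := by omega
    simp only [u, if_neg e2, if_true]
  · have e3 : ¬ (l - 1 = 0 ∨ l - 1 = l) := by omega
    have e4 : ¬ (l - 1 = 1) := by omega
    simp only [u, if_neg e3, if_neg e4, if_true]
  · simp [u]
  · intro i hi
    rw [← hR, hu i hi.le, hu (i + 1) hi]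
    exact hc i hi
  · intro i hi h4
    rw [← hS, hu i (by omega), hu (i + 2) hi] at h4
    exact hn i hi h4

end Pool.Agent.H24.GE
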