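import Pool.Agent.H24.GE.Lift
import Pool.Agent.H24.GE.TW

/-!
# JOB GE-8: completion

`exists_vlt`: `P` is a finite set of positions with classes; every position has at most one neighbour in
every class. The quotient `Cl` of `V` by `Sim` is finite; take a linear order on it (or an injection to `ℕ`). For
classes `A < B` the relation `{(i, j) | Sg i j, cl i ∈ A, cl j ∈ B}` is the graph of a bijection between two
subsets of `P` (`hu`, `hs`); extend it to a permutation `e A B` of `P` (`Equiv.extendSubtype` and `P` finite).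
`g x y = e A B` if `x ∈ A`, `y ∈ B`, `A < B`, and `g x y = (e B A).symm` if `B < A`. If `x, y ∈ A` let `g x y` be the
involution which interchanges `i` and `j` for `Sg i j`, `cl i, cl j ∈ A`, and fixes all other positions.
-/

namespace Pool.Agent.H24.GE

open Pool.Agent.H24.GC Pool.Agent.H24.GD

variable {V : Type} {H : SimpleGraph V}

theorem Compl_perm {P : Type} [Finite P] (R : P → P → Prop)
    (h1 : ∀ i j k, R i j → R i k → j = k) (h2 : ∀ i j k, R i k → R j k → i = j) :
    ∃ e : Equiv.Perm P, ∀ i j, R i j → e i = j := by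
  classical
  have : Fintype P := Fintype.ofFinite P
  let f : {i // ∃ j, R i j} → P := fun i => i.2.choose
  have hf : ∀ i, R i.1 (f i) := fun i => i.2.choose_spec
  have hinj : Function.Injective f := by
    intro i j hij
    have h3 := hf i
    rw [hij] at h3
    exact Subtype.ext (h2 _ _ _ h3 (hf j))
  let e : {i // ∃ j, R i j} ≃ {x // x ∈ Set.range f} := Equiv.ofInjective f hinj
  refine ⟨e.extendSubtype, fun i j hij => ?_⟩
  rw [Equiv.extendSubtype_apply_of_mem e i ⟨j, hij⟩]
  exact h1 _ _ _ (hf ⟨i, ⟨j, hij⟩⟩) hij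

theorem Compl_invol {P : Type} (R : P → P → Prop) (hs : ∀ i j, R i j → R j i)
    (h1 : ∀ i j k, R i j → R i k → j = k) :
    ∃ e : Equiv.Perm P, e.symm = e ∧ ∀ i j, R i j → e i = j := by
  classical
  let τ : P → P := fun i => if h : ∃ j, R i j then h.choose else i
  have hτ : ∀ i j, R i j → τ i = j := by
    intro i j hij
    have h : ∃ j, R i j := ⟨j, hij⟩
    simp only [τ, dif_pos h]
    exact h1 _ _ _ h.choose_spec hij
  have hinv : Function.Involutive τ := by
    intro i
    by_cases h : ∃ j, R i j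
    · obtain ⟨j, hj⟩ := h
      rw [hτ i j hj, hτ j i (hs i j hj)]
    · have h3 : τ i = i := by simp only [τ, dif_neg h]
      rw [h3, h3]
  exact ⟨hinv.toPerm, hinv.toPerm_symm, hτ⟩

theorem exists_vlt [Finite V] {P : Type} [Finite P] (cl : P → V) (Sg : P → P → Prop)
    (hs : ∀ i j, Sg i j → Sg j i) (hn : ∀ i, ¬ Sg i i)
    (hu : ∀ i j k, Sg i j → Sg i k → Sim H (cl j) (cl k) → j = k) :
    ∃ T : Vlt H P, ∀ i j x y, Sg i j → Sim H x (cl i) → Sim H y (cl j) → T.g x y i = j := by
  classical
  obtain ⟨c, hc⟩ : ∃ c : V → ℕ, ∀ x y, c x = c y ↔ Sim H x y := by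
    let st : Setoid V := ⟨Sim H, ⟨sim_refl H, sim_symm, sim_trans⟩⟩
    obtain ⟨f, hf⟩ := exists_injective_nat (Quotient st)
    refine ⟨fun x => f (Quotient.mk st x), fun x y => ?_⟩
    rw [hf.eq_iff, Quotient.eq]
    exact Iff.rfl
  let R : ℕ → ℕ → P → P → Prop := fun a b i j => Sg i j ∧ c (cl i) = a ∧ c (cl j) = b
  have hR1 : ∀ a b i j k, R a b i j → R a b i k → j = k := by
    rintro a b i j k ⟨h1, h2, h3⟩ ⟨h4, h5, h6⟩
    exact hu i j k h1 h4 ((hc _ _).1 (h3.trans h6.symm))
  have hR2 : ∀ a b i j k, R a b i k → R a b j k → i = j := by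
    rintro a b i j k ⟨h1, h2, h3⟩ ⟨h4, h5, h6⟩
    exact hu k i j (hs _ _ h1) (hs _ _ h4) ((hc _ _).1 (h2.trans h5.symm))
  have hE : ∀ a b, ∃ e : Equiv.Perm P, ∀ i j, R a b i j → e i = j := fun a b =>
    Compl_perm (R a b) (hR1 a b) (hR2 a b)
  choose E hE using hE
  have hI : ∀ a, ∃ e : Equiv.Perm P, e.symm = e ∧ ∀ i j, R a a i j → e i = j := fun a =>
    Compl_invol (R a a) (fun i j h => ⟨hs _ _ h.1, h.2.2, h.2.1⟩) (hR1 a a)
  choose I hI1 hI2 using hI
  refine ⟨{ g := fun x y => if c x < c y then E (c x) (c y) else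
              if c y < c x then (E (c y) (c x)).symm else I (c x)
            cls := ?_
            inv := ?_ }, ?_⟩
  · intro x x' y y' hx hy
    rw [(hc x x').2 hx, (hc y y').2 hy]
  · intro x y
    rcases lt_trichotomy (c x) (c y) with h | h | h
    · simp only [h, h.not_gt, if_true, if_false]
    · simp only [h, lt_irrefl, if_false]
      exact (hI1 _).symm
    · simp only [h, h.not_gt, if_true, if_false, Equiv.symm_symm]
  · intro i j x y hij hx hy
    have h1 := (hc _ _).2 hx
    have h2 := (hc _ _).2 hy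
    rcases lt_trichotomy (c x) (c y) with h | h | h
    · simp only [h, if_true]
      exact hE _ _ _ _ ⟨hij, h1.symm, h2.symm⟩
    · simp only [h, lt_irrefl, if_false]
      exact hI2 _ _ _ ⟨hij, h1.symm.trans h, h2.symm⟩
    · simp only [h, h.not_gt, if_true, if_false]
      rw [Equiv.symm_apply_eq]
      exact (hE _ _ _ _ ⟨hs _ _ hij, h2.symm, h1.symm⟩).symm

end Pool.Agent.H24.GE
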