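import Pool.Agent.H24.GC.Memb
import Pool.Agent.H24.GC.Types

/-!
# JOB GE-11: constraint satisfaction problems with binary relations

`encI c` is the word of an instance: `M` matrices of the size `N * N`, row after row. `ient x N s i j` is the entry
`(i, j)` of the matrix `s` of the word `x`.
`encI_len`, `ient_encI`: `mflat_length`, `mflat_getD`, `mflat_eq` (file `Pool.Agent.H79.Thr.Member`), twice.
`encI_surj`: `c s i j = ient x N s i j`; compare the entries (as in `mchkG_spec`).
`PT.ient'`: as `PT.ment'`.
`isz M m`: the number `N` with `M * (N * N) = m`, if it exists (`0 < M`), as `mroot`.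
`encM` is the word with the entries `F s i j` (a function of natural numbers), `encM_eq`: it is `encI`.
`PT.encM'`: `PT.flatMap'`, `PT.range'` (three times), with a function `F : α → ℕ → ℕ → ℕ → Bool` such that
`fun z : α × (ℕ × (ℕ × ℕ)) => F z.1 z.2.1 z.2.2.1 z.2.2.2` is `PT`.
-/

namespace Pool.Agent.H24.GE

open Pool.Agent.H24.GC Pool.Agent.PPS Pool.Agent.H64.Cook Pool.Agent.H79.Thr

variable {V : Type}

/-- The word of an instance with `M` kinds of constraints and `N` variables; `c s i j` says that
there is a constraint of the kind `s` on the pair of variables `i, j`. -/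
def encI {M N : ℕ} (c : Fin M → Fin N → Fin N → Bool) : List Bool :=
  (List.ofFn fun s : Fin M =>
    (List.ofFn fun i : Fin N => List.ofFn fun j : Fin N => c s i j).flatten).flatten

/-- The constraint satisfaction problem with the domain `D` and the binary relations `R s`: the
words of the satisfiable instances. -/
def CSet {D : Type} {M : ℕ} (R : Fin M → D → D → Prop) : Set (List Bool) :=
  {x | ∃ (N : ℕ) (c : Fin M → Fin N → Fin N → Bool), x = encI c ∧
    ∃ a : Fin N → D, ∀ s i j, c s i j = true → R s (a i) (a j)}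

/-- The problem to decide whether a graph has a covering projection to `H`. -/
def LB (H : SimpleGraph V) : Set (List Bool) :=
  {x | ∃ (n : ℕ) (G : SimpleGraph (Fin n)), x = enc G ∧ Covers G H}

/-- `A` can be reduced to `B` in polynomial time (many-one) -/
def Red (A B : Set (List Bool)) : Prop := ∃ φ ∈ FP, ∀ x, x ∈ A ↔ φ x ∈ B

/-- `A` and `B` are equivalent with respect to polynomial time many-one reductions -/
def PolyEq (A B : Set (List Bool)) : Prop := Red A B ∧ Red B A

/-- Relations between arcs of `H`, the classes are those of `u, v, w`. `k = 0`: two different arcs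
`(x, y)`, `(x, z)` with the same tail, `x ~ u`, `y ~ v`, `z ~ w`. `k ≠ 0`: the arcs `(x, y)` and `(y, x)`,
`x ~ u`, `y ~ v`. -/
def AR (H : SimpleGraph V) (k : ℕ) (u v w : V) (a b : V × V) : Prop :=
  H.Adj a.1 a.2 ∧ H.Adj b.1 b.2 ∧ Sim H a.1 u ∧ Sim H a.2 v ∧
    if k = 0 then b.1 = a.1 ∧ b.2 ≠ a.2 ∧ Sim H b.2 w else b = (a.2, a.1)

/-- The template of `H`: the domain consists of the pairs of vertices (only arcs occur in the
relations), there is one relation `AR H k u v w` for all `k < 2` and all vertices `u, v, w`. -/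
def RH {n : ℕ} (H : SimpleGraph (Fin n)) (s : Fin (2 * (n * (n * n)))) (a b : Fin n × Fin n) :
    Prop :=
  AR H (s.divNat : ℕ) s.modNat.divNat s.modNat.modNat.divNat s.modNat.modNat.modNat a b

/-- entry of the matrix `s` -/
def ient (x : List Bool) (N s i j : ℕ) : Bool := x.getD (s * (N * N) + (i * N + j)) false

theorem csp_encI_eq {M N : ℕ} (c : Fin M → Fin N → Fin N → Bool) :
    encI c = (List.ofFn fun s : Fin M =>
      List.ofFn fun p : Fin (N * N) => c s p.divNat p.modNat).flatten := by
  unfold encI
  congr 1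
  apply congrArg List.ofFn
  funext s
  exact mflat_eq _

theorem encI_len {M N : ℕ} (c : Fin M → Fin N → Fin N → Bool) :
    (encI c).length = M * (N * N) := by
  rw [csp_encI_eq]
  exact mflat_length _

theorem csp_lt {n k : ℕ} (u : Fin n) (v : Fin k) : (u : ℕ) * k + v < n * k := by
  calc (u : ℕ) * k + v < (u + 1) * k := by rw [Nat.add_mul]; have := v.2; omega
    _ ≤ n * k := Nat.mul_le_mul_right _ u.2

theorem csp_divNat {n k : ℕ} (u : Fin n) (v : Fin k) :
    (⟨u * k + v, csp_lt u v⟩ : Fin (n * k)).divNat = u := by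
  ext
  rw [Fin.coe_divNat]
  show (u * k + v) / k = (u : ℕ)
  have := v.2
  exact Nat.div_eq_of_lt_le (by omega) (by rw [Nat.add_mul]; omega)

theorem csp_modNat {n k : ℕ} (u : Fin n) (v : Fin k) :
    (⟨u * k + v, csp_lt u v⟩ : Fin (n * k)).modNat = v := by
  ext
  rw [Fin.coe_modNat]
  show (u * k + v) % k = v
  rw [Nat.add_comm, Nat.add_mul_mod_self_right]
  exact Nat.mod_eq_of_lt v.2

theorem ient_encI {M N : ℕ} (c : Fin M → Fin N → Fin N → Bool) (s : Fin M) (i j : Fin N) :
    ient (encI c) N s i j = c s i j := by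
  unfold ient
  rw [csp_encI_eq]
  have h := mflat_getD (fun (s : Fin M) (p : Fin (N * N)) => c s p.divNat p.modNat) s
    ⟨i * N + j, csp_lt i j⟩
  refine Eq.trans h ?_
  show c s (⟨i * N + j, csp_lt i j⟩ : Fin (N * N)).divNat
    (⟨i * N + j, csp_lt i j⟩ : Fin (N * N)).modNat = c s i j
  rw [csp_divNat, csp_modNat]

theorem encI_surj {M N : ℕ} {x : List Bool} (hx : x.length = M * (N * N)) :
    x = encI (fun (s : Fin M) (i j : Fin N) => ient x N s i j) := by
  rw [csp_encI_eq, mflat_eq]
  apply List.ext_getElem
  · rw [List.length_ofFn, hx]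
  · intro q h1 h2
    rw [List.getElem_ofFn]
    show x[q] = x.getD (q / (N * N) * (N * N) + (q % (N * N) / N * N + q % (N * N) % N)) false
    rw [Nat.div_add_mod', Nat.div_add_mod', List.getD_eq_getElem _ _ h1]

/-- the number `N` with `M * (N * N) = m` -/
def isz (M m : ℕ) : ℕ := ((List.range (m + 1)).filter fun N => decide (M * (N * N) = m)).headD 0

theorem isz_eq {M : ℕ} (hM : 0 < M) (N : ℕ) : isz M (M * (N * N)) = N := by
  unfold isz
  have h : ((List.range (M * (N * N) + 1)).filter
      fun k => decide (M * (k * k) = M * (N * N))) = [N] := by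
    have h1 : ∀ k ∈ (List.range (M * (N * N) + 1)).filter
        fun k => decide (M * (k * k) = M * (N * N)), k = N := by
      intro k hk
      simp only [List.mem_filter, decide_eq_true_eq] at hk
      exact Nat.mul_self_inj.1 (Nat.eq_of_mul_eq_mul_left hM hk.2)
    have h2 : N ∈ (List.range (M * (N * N) + 1)).filter
        fun k => decide (M * (k * k) = M * (N * N)) := by
      simp only [List.mem_filter, List.mem_range, decide_eq_true_eq, and_true]
      have h3 := Nat.le_mul_self N
      have h4 := Nat.le_mul_of_pos_left (N * N) hM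
      omega
    have h3 : ((List.range (M * (N * N) + 1)).filter
        fun k => decide (M * (k * k) = M * (N * N))).Nodup :=
      List.nodup_range.filter _
    generalize (List.range (M * (N * N) + 1)).filter
      (fun k => decide (M * (k * k) = M * (N * N))) = l at h1 h2 h3
    rcases l with _ | ⟨a, _ | ⟨b, l⟩⟩
    · simp at h2
    · rw [h1 a (by simp)]
    · have ha := h1 a (by simp)
      have hb := h1 b (by simp)
      subst ha
      rw [hb] at h3
      simp at h3
  rw [h]
  rfl

/-- the word with the entries `F s i j` -/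
def encM (M N : ℕ) (F : ℕ → ℕ → ℕ → Bool) : List Bool :=
  (List.range M).flatMap fun s => (List.range N).flatMap fun i =>
    (List.range N).map fun j => F s i j

theorem csp_ofFn_range {α : Type} (n : ℕ) (f : ℕ → α) :
    (List.ofFn fun i : Fin n => f i) = (List.range n).map f := by
  apply List.ext_getElem
  · rw [List.length_ofFn, List.length_map, List.length_range]
  · intro i h1 h2
    rw [List.getElem_ofFn, List.getElem_map, List.getElem_range]

theorem encM_eq (M N : ℕ) (F : ℕ → ℕ → ℕ → Bool) :
    encM M N F = encI (fun (s : Fin M) (i j : Fin N) => F s i j) := by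
  unfold encM encI
  have h1 : ∀ s i : ℕ, (List.ofFn fun j : Fin N => F s i j) =
      (List.range N).map fun j => F s i j := fun s i => csp_ofFn_range N _
  have h2 : ∀ s : ℕ, (List.ofFn fun i : Fin N => List.ofFn fun j : Fin N => F s i j).flatten =
      (List.range N).flatMap fun i => (List.range N).map fun j => F s i j := by
    intro s
    rw [List.flatMap_def, ← csp_ofFn_range N (fun i => (List.range N).map fun j => F s i j)]
    simp only [h1]
  rw [List.flatMap_def, ← csp_ofFn_range M (fun s => (List.range N).flatMap fun i =>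
    (List.range N).map fun j => F s i j)]
  simp only [h2]

section pt

variable {m : Bool} {α : Type} [Rep α]

@[fun_prop]
theorem PT.ient' {x : α → List Bool} {N s i j : α → ℕ} (hx : PT m x) (hN : PT m N) (hs : PT m s)
    (hi : PT m i) (hj : PT m j) : PT m (fun a => ient (x a) (N a) (s a) (i a) (j a)) := by
  unfold ient
  fun_prop

@[fun_prop]
theorem PT.isz' (M : ℕ) {n : α → ℕ} (hn : PT m n) : PT m (fun a => isz M (n a)) := by
  unfold isz
  have h := H64.Cook.PT.filter' (m := m) (l := fun a => List.range (n a + 1))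
    (f := fun z : α × ℕ => decide (M * (z.2 * z.2) = n z.1)) (by fun_prop) (by fun_prop)
  fun_prop

theorem PT.encM' (M : ℕ) {N : α → ℕ} (hN : PT m N) {F : α → ℕ → ℕ → ℕ → Bool}
    (hF : PT m (fun z : α × (ℕ × (ℕ × ℕ)) => F z.1 z.2.1 z.2.2.1 z.2.2.2)) :
    PT m (fun a => encM M (N a) (F a)) := by
  unfold encM
  have h1 : PT m (fun z : ((α × ℕ) × ℕ) × ℕ => F z.1.1.1 z.1.1.2 z.1.2 z.2) :=
    hF.comp' (f := fun z : ((α × ℕ) × ℕ) × ℕ => (z.1.1.1, z.1.1.2, z.1.2, z.2)) (by fun_prop)
  have h2 : PT m (fun z : (α × ℕ) × ℕ =>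
      (List.range (N z.1.1)).map fun j => F z.1.1 z.1.2 z.2 j) :=
    PT.map' (m := m) (l := fun z : (α × ℕ) × ℕ => List.range (N z.1.1))
      (f := fun z : ((α × ℕ) × ℕ) × ℕ => F z.1.1.1 z.1.1.2 z.1.2 z.2) (by fun_prop) h1
  have h3 : PT m (fun z : α × ℕ => (List.range (N z.1)).flatMap fun i =>
      (List.range (N z.1)).map fun j => F z.1 z.2 i j) :=
    H64.Cook.PT.flatMap' (m := m) (l := fun z : α × ℕ => List.range (N z.1))
      (f := fun z : (α × ℕ) × ℕ => (List.range (N z.1.1)).map fun j => F z.1.1 z.1.2 z.2 j)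
      (by fun_prop) h2
  exact H64.Cook.PT.flatMap' (m := m) (l := fun _ : α => List.range M)
    (f := fun z : α × ℕ => (List.range (N z.1)).flatMap fun i =>
      (List.range (N z.1)).map fun j => F z.1 z.2 i j) (PT.const' _) h3

end pt

end Pool.Agent.H24.GE
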