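import Pool.Agent.H24.GE.Csp

/-!
# JOB GE-12: constraint satisfaction problems are in NP

`cset_NP`. Let `d = Nat.card D`, `e : D ≃ Fin d`. A certificate for `x = encI c` and the assignment `a` is
`mword (fun i => e (a i))` (file `Pool.Agent.H79.Thr.Member`). The verifier (`mem_NP_of`, see the proof of
`mem_of_chk`) computes `N = isz M x.length`, checks `x.length = M * (N * N)`, `mcol y d i < d` for `i < N`, and
for `s < M`, `i, j < N`: `!(ient x N s i j) || (T s).getD (mcol y d i * d + mcol y d j) false`, where `T s` is the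
table of the relation `R s` (a constant; `(List.range M).all` or `List.all` of a constant list, e.g. the
conjunction over the constant list by `PT.allConst` or as a `flatMapConst`; the table can be one list of
length `M * (d * d)`). Correctness: `encI_surj`, `ient_encI`, `mcol_mword`. If `d = 0` the only instances which
are satisfiable have `N = 0`; this case needs no special treatment.
-/

namespace Pool.Agent.H24.GE

open Pool.Agent.H24.GC Pool.Agent.PPS Pool.Agent.H64.Cook Pool.Agent.H79.Thr

/-- the check of an assignment: `z = (N, instance, certificate)`, `T` the table of the relations -/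
def cspNP_chk (T : List Bool) (M d : ℕ) (z : ℕ × (List Bool × List Bool)) : Bool :=
  ((List.range z.1).all fun i => decide (mcol z.2.2 d i < d)) &&
  ((List.range M).all fun s => (List.range z.1).all fun i => (List.range z.1).all fun j =>
    !(ient z.2.1 z.1 s i j && !(ient T d s (mcol z.2.2 d i) (mcol z.2.2 d j))))

theorem cspNP_PT (T : List Bool) (M d : ℕ) : PT true (cspNP_chk T M d) := by
  unfold cspNP_chk
  have h1 : PT true (fun z : ℕ × (List Bool × List Bool) =>
      (List.range z.1).all fun i => decide (mcol z.2.2 d i < d)) :=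
    H64.Cook.PT.all' (m := true) (l := fun z : ℕ × (List Bool × List Bool) => List.range z.1)
      (f := fun w : (ℕ × (List Bool × List Bool)) × ℕ => decide (mcol w.1.2.2 d w.2 < d))
      (by fun_prop) (by fun_prop)
  have h4 : PT true (fun w : ((ℕ × (List Bool × List Bool)) × ℕ) × ℕ =>
      (List.range w.1.1.1).all fun j => !(ient w.1.1.2.1 w.1.1.1 w.1.2 w.2 j &&
        !(ient T d w.1.2 (mcol w.1.1.2.2 d w.2) (mcol w.1.1.2.2 d j)))) :=
    H64.Cook.PT.all' (m := true)
      (l := fun w : ((ℕ × (List Bool × List Bool)) × ℕ) × ℕ => List.range w.1.1.1)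
      (f := fun w : (((ℕ × (List Bool × List Bool)) × ℕ) × ℕ) × ℕ =>
        !(ient w.1.1.1.2.1 w.1.1.1.1 w.1.1.2 w.1.2 w.2 &&
        !(ient T d w.1.1.2 (mcol w.1.1.1.2.2 d w.1.2) (mcol w.1.1.1.2.2 d w.2))))
      (by fun_prop) (by fun_prop)
  have h3 : PT true (fun w : (ℕ × (List Bool × List Bool)) × ℕ =>
      (List.range w.1.1).all fun i => (List.range w.1.1).all fun j =>
        !(ient w.1.2.1 w.1.1 w.2 i j &&
        !(ient T d w.2 (mcol w.1.2.2 d i) (mcol w.1.2.2 d j)))) :=
    H64.Cook.PT.all' (m := true)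
      (l := fun w : (ℕ × (List Bool × List Bool)) × ℕ => List.range w.1.1)
      (f := fun w : ((ℕ × (List Bool × List Bool)) × ℕ) × ℕ =>
        (List.range w.1.1.1).all fun j => !(ient w.1.1.2.1 w.1.1.1 w.1.2 w.2 j &&
        !(ient T d w.1.2 (mcol w.1.1.2.2 d w.2) (mcol w.1.1.2.2 d j))))
      (by fun_prop) h4
  have h2 : PT true (fun z : ℕ × (List Bool × List Bool) =>
      (List.range M).all fun s => (List.range z.1).all fun i => (List.range z.1).all fun j =>
        !(ient z.2.1 z.1 s i j && !(ient T d s (mcol z.2.2 d i) (mcol z.2.2 d j)))) :=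
    H64.Cook.PT.all' (m := true) (l := fun _ : ℕ × (List Bool × List Bool) => List.range M)
      (f := fun w : (ℕ × (List Bool × List Bool)) × ℕ =>
        (List.range w.1.1).all fun i => (List.range w.1.1).all fun j =>
        !(ient w.1.2.1 w.1.1 w.2 i j &&
        !(ient T d w.2 (mcol w.1.2.2 d i) (mcol w.1.2.2 d j))))
      (by fun_prop) h3
  exact PT.and' h1 h2

theorem cspNP_spec (T : List Bool) (M d N : ℕ) (x y : List Bool) :
    cspNP_chk T M d (N, x, y) = true ↔ (∀ i, i < N → mcol y d i < d) ∧
      ∀ s, s < M → ∀ i, i < N → ∀ j, j < N → ient x N s i j = true →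
        ient T d s (mcol y d i) (mcol y d j) = true := by
  unfold cspNP_chk
  simp only [Bool.and_eq_true, List.all_eq_true, List.mem_range, decide_eq_true_eq,
    Bool.not_eq_true']
  refine and_congr Iff.rfl ?_
  refine forall_congr' fun s => forall_congr' fun _ => forall_congr' fun i =>
    forall_congr' fun _ => forall_congr' fun j => forall_congr' fun _ => ?_
  rw [← Bool.not_eq_true]
  simp only [Bool.and_eq_true, Bool.not_eq_true', not_and, Bool.not_eq_false]

theorem cset_NP {D : Type} [Finite D] {M : ℕ} (hM : 0 < M) (R : Fin M → D → D → Prop) :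
    CSet R ∈ NP := by
  classical
  obtain ⟨d, ⟨e⟩⟩ : ∃ d : ℕ, Nonempty (D ≃ Fin d) := ⟨Nat.card D, ⟨Finite.equivFin D⟩⟩
  have hT : ∀ (s : Fin M) (a b : Fin d),
      ient (encI (fun (s : Fin M) (a b : Fin d) => decide (R s (e.symm a) (e.symm b)))) d s a b
        = true ↔ R s (e.symm a) (e.symm b) := by
    intro s a b
    rw [ient_encI, decide_eq_true_eq]
  generalize encI (fun (s : Fin M) (a b : Fin d) => decide (R s (e.symm a) (e.symm b))) = T at hT
  refine mem_NP_of (c := fun z => decide (z.1.length = M * (isz M z.1.length * isz M z.1.length)) &&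
    cspNP_chk T M d (isz M z.1.length, z.1, z.2)) ?_
    (Polynomial.C d * Polynomial.X + 1) ?_ ?_
  · refine PT.and' (by fun_prop) ?_
    exact (cspNP_PT T M d).comp' (by fun_prop)
  · rintro x ⟨N, c, rfl, a, ha⟩
    refine ⟨mword (fun i => e (a i)), ?_, ?_⟩
    · unfold mword
      rw [mflat_length, encI_len]
      simp only [Polynomial.eval_add, Polynomial.eval_mul, Polynomial.eval_C, Polynomial.eval_X,
        Polynomial.eval_one]
      have h1 : N ≤ M * (N * N) :=
        (Nat.le_mul_self N).trans (Nat.le_mul_of_pos_left _ hM)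
      have h2 := Nat.mul_le_mul_left d h1
      rw [Nat.mul_comm N d]
      omega
    · have hcol : ∀ (i : ℕ) (hi : i < N),
          mcol (mword fun i => e (a i)) d i = (e (a ⟨i, hi⟩) : ℕ) :=
        fun i hi => mcol_mword (fun i => e (a i)) ⟨i, hi⟩
      simp only [encI_len, isz_eq hM, decide_true, Bool.true_and]
      rw [cspNP_spec]
      refine ⟨fun i hi => ?_, fun s hs i hi j hj hc => ?_⟩
      · rw [hcol i hi]
        exact (e _).2
      · have h1 : c ⟨s, hs⟩ ⟨i, hi⟩ ⟨j, hj⟩ = true := by
          rw [← ient_encI c]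
          exact hc
        have h2 := ha _ _ _ h1
        rw [hcol i hi, hcol j hj]
        refine (hT ⟨s, hs⟩ (e (a ⟨i, hi⟩)) (e (a ⟨j, hj⟩))).2 ?_
        rw [e.symm_apply_apply, e.symm_apply_apply]
        exact h2
  · intro x y h
    simp only [Bool.and_eq_true, decide_eq_true_eq] at h
    obtain ⟨h1, h2⟩ := h
    rw [cspNP_spec] at h2
    obtain ⟨h3, h4⟩ := h2
    refine ⟨isz M x.length, _, encI_surj h1,
      fun i => e.symm ⟨mcol y d i, h3 i i.2⟩, ?_⟩
    intro s i j hc
    exact (hT s ⟨mcol y d i, h3 i i.2⟩ ⟨mcol y d j, h3 j j.2⟩).1 (h4 s s.2 i i.2 j j.2 hc)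

end Pool.Agent.H24.GE
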