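import Pool.Agent.H24.GE.Lift

/-!
# JOB GE-3: potentials along closed walks

`wk T z κ i`: the position after `i` steps of the walk `z` which starts at the position `κ`. `CWalk T κ₀ x y y'`:
a closed walk at `(x, κ₀)` which leaves via `y`, returns via `y'` and does not visit `κ₀` in between.

`walk_const`. Let `l, z` be from `hw`, `L = l + 2`, `a i = wk T z κ₀ i` and more generally let
`σ κ = wk T z κ L` (a permutation of the finite set `Q`: a composition of permutations, `σ` is injective).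
`pr (wk T z κ i) = wk T₁ z (pr κ) i` by induction. So if `pr κ = pr κ₀` then `wk T z κ i ≠ κ₀` for `0 < i < L`,
and `pr (σ κ) = pr κ₀`. Let `r > 0` be minimal with `σ^[r] κ₀ = κ₀` (exists: `σ` is a bijection of a finite set,
e.g. `Function.IsPeriodicPt`, `Function.minimalPeriod`), `κ j = σ^[j] κ₀`; so `κ j ≠ κ₀` for `0 < j < r`.
Claim: `n y (T.g x y κ₀) = n (z i) (wk T z (κ j) i)` for all `j < r`, `i ≤ L`, except `(j, i) = (0, 0)` and
`(j, i) = (r - 1, L)`: induction along the walk (first `i`, then `j`), every step uses `hn` for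
`u = z i`, `v = z (i + 1)` at the position `wk T z (κ j) i`; the position and the next one are different from `κ₀`:
for `0 < i < L` this was shown, and the positions for `i = 0, j > 0` are `κ j ≠ κ₀`, and for
`i = L, j < r - 1` they are `κ (j + 1) ≠ κ₀`. Finally `i = l + 1`, `j = r - 1`: `z (l + 1) = y'`, and
the position `q = wk T z (κ (r - 1)) (l + 1)` satisfies `T.g y' x q = κ₀` so `q = T.g x y' κ₀` (`T.inv`).
-/

namespace Pool.Agent.H24.GE

open Pool.Agent.H24.GC Pool.Agent.H24.GD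

variable {V : Type} {H : SimpleGraph V}

/-- the position after `i` steps -/
def wk {Q : Type} (T : Vlt H Q) (z : ℕ → V) (κ : Q) : ℕ → Q
  | 0 => κ
  | i + 1 => T.g (z i) (z (i + 1)) (wk T z κ i)

/-- a closed walk at `(x, κ₀)` which leaves via `y` and returns via `y'` -/
def CWalk {Q : Type} (T : Vlt H Q) (κ₀ : Q) (x y y' : V) : Prop :=
  ∃ (l : ℕ) (z : ℕ → V), z 0 = x ∧ z 1 = y ∧ z (l + 1) = y' ∧ z (l + 2) = x ∧
    (∀ i < l + 2, H.Adj (z i) (z (i + 1))) ∧
    (∀ i, 0 < i → i < l + 2 → wk T z κ₀ i ≠ κ₀) ∧ wk T z κ₀ (l + 2) = κ₀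

theorem walk_pr {Q Q₁ : Type} {T : Vlt H Q} {T₁ : Vlt H Q₁} (pr : Q → Q₁)
    (hpr : ∀ x y κ, pr (T.g x y κ) = T₁.g x y (pr κ)) (z : ℕ → V) (κ : Q) :
    ∀ i, pr (wk T z κ i) = wk T₁ z (pr κ) i
  | 0 => rfl
  | i + 1 => by
    show pr (T.g (z i) (z (i + 1)) (wk T z κ i)) = T₁.g (z i) (z (i + 1)) (wk T₁ z (pr κ) i)
    rw [hpr, walk_pr pr hpr z κ i]

theorem walk_inj {Q : Type} (T : Vlt H Q) (z : ℕ → V) :
    ∀ i, Function.Injective (fun κ => wk T z κ i)
  | 0 => fun _ _ h => h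
  | i + 1 => by
    intro a b h
    have h1 : T.g (z i) (z (i + 1)) (wk T z a i) = T.g (z i) (z (i + 1)) (wk T z b i) := h
    exact walk_inj T z i ((T.g (z i) (z (i + 1))).injective h1)

theorem walk_const {Q Q₁ : Type} [Finite Q] {T : Vlt H Q} {T₁ : Vlt H Q₁} (pr : Q → Q₁)
    (hpr : ∀ x y κ, pr (T.g x y κ) = T₁.g x y (pr κ)) {κ₀ : Q} {x y y' : V}
    (hw : CWalk T₁ (pr κ₀) x y y') {n : V → Q → ℤ}
    (hn : ∀ u v κ, H.Adj u v → ¬ (κ = κ₀ ∧ Sim H u x) → ¬ (T.g u v κ = κ₀ ∧ Sim H v x) →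
      n u κ = n v (T.g u v κ)) :
    n y (T.g x y κ₀) = n y' (T.g x y' κ₀) := by
  obtain ⟨l, z, h0, h1, hl1, hl2, hadj, hne, hend⟩ := hw
  -- positions inside a round are different from the base position
  have hin : ∀ κ, pr κ = pr κ₀ → ∀ i, 0 < i → i < l + 2 → wk T z κ i ≠ κ₀ := by
    intro κ hκ i hi hi2 h
    apply hne i hi hi2
    rw [← hκ, ← walk_pr pr hpr z κ i, h, hκ]
  -- one round
  have hround : ∀ κ, pr κ = pr κ₀ → ∀ i, i ≤ l →
      n (z 1) (wk T z κ 1) = n (z (i + 1)) (wk T z κ (i + 1)) := by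
    intro κ hκ i
    induction i with
    | zero => intro _; rfl
    | succ i ih =>
      intro hi
      rw [ih (by omega)]
      apply hn (z (i + 1)) (z (i + 1 + 1)) (wk T z κ (i + 1)) (hadj (i + 1) (by omega))
      · exact fun h => hin κ hκ (i + 1) (by omega) (by omega) h.1
      · exact fun h => hin κ hκ (i + 2) (by omega) (by omega) h.1
  set σ : Q → Q := fun κ => wk T z κ (l + 2) with hσ
  have hσpr : ∀ κ, pr κ = pr κ₀ → pr (σ κ) = pr κ₀ := by
    intro κ hκ
    show pr (wk T z κ (l + 2)) = pr κ₀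
    rw [walk_pr pr hpr, hκ, hend]
  have hstep : ∀ κ, pr κ = pr κ₀ → σ κ ≠ κ₀ →
      n y' (wk T z κ (l + 1)) = n y' (wk T z (σ κ) (l + 1)) := by
    intro κ hκ hne'
    have e1 : n y' (wk T z κ (l + 1)) = n x (σ κ) := by
      rw [← hl1, ← hl2]
      apply hn (z (l + 1)) (z (l + 2)) (wk T z κ (l + 1)) (hadj (l + 1) (by omega))
      · exact fun h => hin κ hκ (l + 1) (by omega) (by omega) h.1
      · exact fun h => hne' h.1
    have e2 : n x (σ κ) = n (z 1) (wk T z (σ κ) 1) := by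
      rw [← h0]
      apply hn (z 0) (z 1) (σ κ) (hadj 0 (by omega))
      · exact fun h => hne' h.1
      · exact fun h => hin (σ κ) (hσpr κ hκ) 1 (by omega) (by omega) h.1
    rw [e1, e2, hround (σ κ) (hσpr κ hκ) l le_rfl, hl1]
  have hmem : κ₀ ∈ Function.periodicPts σ := (walk_inj T z (l + 2)).mem_periodicPts κ₀
  have hrpos := Function.minimalPeriod_pos_of_mem_periodicPts hmem
  set r := Function.minimalPeriod σ κ₀ with hr
  have hprj : ∀ j, pr (σ^[j] κ₀) = pr κ₀ := by
    intro j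
    induction j with
    | zero => rfl
    | succ j ih =>
      rw [Function.iterate_succ_apply']
      exact hσpr _ ih
  have hF : ∀ j, j < r → n y' (wk T z κ₀ (l + 1)) = n y' (wk T z (σ^[j] κ₀) (l + 1)) := by
    intro j
    induction j with
    | zero => intro _; rfl
    | succ j ih =>
      intro hj
      rw [ih (by omega), Function.iterate_succ_apply']
      apply hstep _ (hprj j)
      rw [← Function.iterate_succ_apply' σ j κ₀]
      intro h
      exact Function.not_isPeriodicPt_of_pos_of_lt_minimalPeriod (Nat.succ_ne_zero j) hj h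
  have hA : n y (T.g x y κ₀) = n y' (wk T z κ₀ (l + 1)) := by
    have e := hround κ₀ rfl l le_rfl
    rw [hl1, h1] at e
    rw [← e]
    show _ = n y (T.g (z 0) (z 1) κ₀)
    rw [h0, h1]
  have hB : wk T z (σ^[r - 1] κ₀) (l + 1) = T.g x y' κ₀ := by
    have e1 : σ (σ^[r - 1] κ₀) = κ₀ := by
      rw [← Function.iterate_succ_apply' σ (r - 1) κ₀]
      have e2 : (r - 1).succ = r := by omega
      rw [e2]
      exact Function.iterate_minimalPeriod
    have e3 : T.g (z (l + 1)) (z (l + 2)) (wk T z (σ^[r - 1] κ₀) (l + 1)) = κ₀ := e1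
    rw [hl1, hl2, T.inv x y', Equiv.symm_apply_eq] at e3
    exact e3
  rw [hA, hF (r - 1) (by omega), hB]

end Pool.Agent.H24.GE
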