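import Pool.Agent.H24.GE.Clos
import Pool.Agent.H24.GE.Compl
import Pool.Agent.H24.GE.Walk

/-!
# JOB GE-9: closed walks in lifts

`cwalk_cyc`: given the closed walk of classes `w` of length `l` (the conclusion of `closed_nb`) there are `Q, T, κ₀`
with `CWalk T κ₀ x y y'` for every pair of neighbours `y ~ w 1`, `y' ~ w (l - 1)` of `x`. Proof.
Let `U = Fin l`, `cl u = w u`, `S u v` iff `v = u + 1` or `u = v + 1` (as numbers), `ui = 0`, `uo = l - 1`; this
is a `Per` (`ca'`: `w l = w 0`). Take `m₀` from `stab` and `R', m₁` from `closing`. Let `k` be a multiple of `R'`,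
`k ≥ m₀ + m₁ + 3`. Positions in a row: `(i, u)`. Let `X` be the set of the positions `(i, u)`, `0 ≤ i ≤ k - 1`,
different from `(0, 0)`; it is connected (the positions form a path, `X` is the path from `(0, 1)` to
`(k - 1, l - 1)`) and contains `win 1 (1 + m₀)`. Over `win 0 (k + m₁)` the point `(y, (0, 1))` is joined by a step
to `(x, (0, 0))`, which is connected to `(x, (k, 0))` (`closing`, `k` is a multiple of `R'`), which is joined by a step
to `(y', (k - 1, l - 1))`. So by `stab` (with `a = 0`, `b = k + m₁`, `c = 1`) `(y, (0, 1))` and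
`(y', (k - 1, l - 1))` are connected over `X`. This gives a walk in `H` with vertices `z 1 = y, ..., z (L + 1) = y'`
and positions `q 1 = (0, 1), ..., q (L + 1) = (k - 1, l - 1)` in `X`. Put `z 0 = z (L + 2) = x`.
Let `P = ZMod k × Fin l`, `cl (i, u) = w u`, `Sg'` the relation of the neighbouring positions modulo `k`:
`(i, u), (j, v)` with `i = j` and `S u v`, or `j = i + 1`, `u = l - 1`, `v = 0`, or `i = j + 1`, `v = l - 1`,
`u = 0`. By `exists_vlt` (the neighbours of `(i, u)` are in the classes `w (u - 1)`, `w (u + 1)`, modulo `l`, which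
are different) there is `T`. `κ₀ = (0, 0)`. The position `wk T z κ₀ i` is the image of `q i` in `P`, for
`0 < i < L + 2`, which is not `(0, 0)` (as `q i ∈ X`), and `wk T z κ₀ (L + 2) = (k, 0) = κ₀`.

`exists_cwalk`: `live_of_multi`, `closed_nb`.
-/

namespace Pool.Agent.H24.GE

open Pool.Agent.H24.GC Pool.Agent.H24.GD

variable {V : Type} {H : SimpleGraph V}

theorem cycM_path {α : Type} {r : α → α → Prop} (p : ℕ → α) {a b : ℕ} (hab : a ≤ b)
    (h : ∀ i, a ≤ i → i < b → r (p i) (p (i + 1))) : Relation.ReflTransGen r (p a) (p b) := by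
  induction b, hab using Nat.le_induction with
  | base => exact Relation.ReflTransGen.refl
  | succ b hb ih =>
    exact (ih (fun i h1 h2 => h i h1 (by omega))).tail (h b hb (by omega))

theorem cycM_seq {α : Type} {r : α → α → Prop} {a b : α} (h : Relation.ReflTransGen r a b) :
    ∃ (n : ℕ) (f : ℕ → α), f 0 = a ∧ f n = b ∧ ∀ i < n, r (f i) (f (i + 1)) := by
  induction h with
  | refl => exact ⟨0, fun _ => a, rfl, rfl, by omega⟩
  | @tail b c _ hbc ih =>
    obtain ⟨n, f, h0, hn, hf⟩ := ih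
    refine ⟨n + 1, fun i => if i ≤ n then f i else c, by simp [h0], by simp, ?_⟩
    intro i hi
    by_cases h : i = n
    · subst h
      simp [hn, hbc]
    · have h1 : i ≤ n := by omega
      have h2 : i + 1 ≤ n := by omega
      simp only [h1, h2, if_true]
      exact hf i (by omega)

/-- the number of a position -/
def cycN {l : ℕ} (q : ℤ × Fin l) : ℤ := q.1 * l + ((q.2 : ℕ) : ℤ)

/-- the position with a given number -/
def cycP {l : ℕ} (hl : 0 < l) (n : ℕ) : ℤ × Fin l := ((n / l : ℕ), ⟨n % l, Nat.mod_lt _ hl⟩)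

theorem cycP_N {l : ℕ} (hl : 0 < l) (q : ℤ × Fin l) (hq : 0 < cycN q) :
    cycP hl (cycN q).toNat = q := by
  have h1 : ((q.2 : ℕ) : ℤ) < l := by exact_mod_cast q.2.2
  have hl' : (0 : ℤ) < l := by exact_mod_cast hl
  have e1 : cycN q / l = q.1 := by
    unfold cycN
    rw [Int.add_comm, Int.add_mul_ediv_right _ _ hl'.ne', Int.ediv_eq_zero_of_lt (by omega) h1]
    omega
  have e2 : cycN q % l = ((q.2 : ℕ) : ℤ) := by
    unfold cycN
    rw [Int.add_comm, Int.add_mul_emod_self_right, Int.emod_eq_of_lt (by omega) h1]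
  have e3 : ((cycN q).toNat : ℤ) = cycN q := Int.toNat_of_nonneg hq.le
  refine Prod.ext ?_ (Fin.ext ?_)
  · show (((cycN q).toNat / l : ℕ) : ℤ) = q.1
    rw [Int.natCast_div, e3, e1]
  · show (cycN q).toNat % l = (q.2 : ℕ)
    have : (((cycN q).toNat % l : ℕ) : ℤ) = ((q.2 : ℕ) : ℤ) := by
      rw [Int.natCast_mod, e3, e2]
    exact_mod_cast this

theorem cycN_P {l : ℕ} (hl : 0 < l) (n : ℕ) : cycN (cycP hl n) = n := by
  show ((n / l : ℕ) : ℤ) * l + ((n % l : ℕ) : ℤ) = n
  have := Nat.div_add_mod' n l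
  exact_mod_cast this

/-- the arrangement -/
def cycR [Finite V] {l : ℕ} {w : ℕ → V} (hl : 3 ≤ l) (h03 : w 0 = w l)
    (h4 : ∀ i < l, CA H (w i) (w (i + 1))) : Per H (Fin l) where
  cl u := w u
  S u v := (v : ℕ) = u + 1 ∨ (u : ℕ) = v + 1
  symm _ _ h := h.symm
  ui := ⟨0, by omega⟩
  uo := ⟨l - 1, by omega⟩
  ca u v h := by
    rcases h with h | h
    · rw [h]; exact h4 u u.2
    · rw [h]; exact ca_symm (h4 v v.2)
  ca' := by
    have h := h4 (l - 1) (by omega)
    rw [Nat.sub_add_cancel (by omega), ← h03] at h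
    exact h
  conn := by
    have hpos : 0 < l := by omega
    have key : ∀ u v : Fin l, (u : ℕ) ≤ v →
        Relation.ReflTransGen (fun u v : Fin l => (v : ℕ) = u + 1 ∨ (u : ℕ) = v + 1) u v := by
      intro u v huv
      have h := cycM_path (r := fun u v : Fin l => (v : ℕ) = u + 1 ∨ (u : ℕ) = v + 1)
        (fun i => (⟨i % l, Nat.mod_lt _ hpos⟩ : Fin l)) huv (by
          intro i _ h2
          left
          show (i + 1) % l = i % l + 1
          have := v.2
          rw [Nat.mod_eq_of_lt (by omega), Nat.mod_eq_of_lt (by omega)])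
      have e1 : (⟨(u : ℕ) % l, Nat.mod_lt _ hpos⟩ : Fin l) = u :=
        Fin.ext (Nat.mod_eq_of_lt u.2)
      have e2 : (⟨(v : ℕ) % l, Nat.mod_lt _ hpos⟩ : Fin l) = v :=
        Fin.ext (Nat.mod_eq_of_lt v.2)
      rwa [e1, e2] at h
    intro u v
    rcases le_total (u : ℕ) v with h | h
    · exact key u v h
    · exact stab_rtg_symm (fun _ _ h => h.symm) (key v u h)

theorem cycR_Sg [Finite V] {l : ℕ} {w : ℕ → V} (hl : 3 ≤ l) (h03 : w 0 = w l)
    (h4 : ∀ i < l, CA H (w i) (w (i + 1))) (a b : ℤ × Fin l) :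
    (cycR hl h03 h4).Sg a b ↔ cycN b = cycN a + 1 ∨ cycN a = cycN b + 1 := by
  have hl' : (3 : ℤ) ≤ l := by exact_mod_cast hl
  have ha : ((a.2 : ℕ) : ℤ) < l := by exact_mod_cast a.2.2
  have hb : ((b.2 : ℕ) : ℤ) < l := by exact_mod_cast b.2.2
  have ha0 : (0 : ℤ) ≤ ((a.2 : ℕ) : ℤ) := by omega
  have hb0 : (0 : ℤ) ≤ ((b.2 : ℕ) : ℤ) := by omega
  unfold cycN
  constructor
  · rintro (⟨h1, h2 | h2⟩ | ⟨h1, h2, h3⟩ | ⟨h1, h2, h3⟩)
    · left; rw [h1, h2]; push_cast; ring
    · right; rw [h1, h2]; push_cast; ring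
    · left
      have e1 : ((a.2 : ℕ) : ℤ) = l - 1 := by
        rw [h2]
        show ((l - 1 : ℕ) : ℤ) = l - 1
        omega
      have e2 : ((b.2 : ℕ) : ℤ) = 0 := by rw [h3]; rfl
      rw [e1, e2, h1]; ring
    · right
      have e1 : ((b.2 : ℕ) : ℤ) = l - 1 := by
        rw [h2]
        show ((l - 1 : ℕ) : ℤ) = l - 1
        omega
      have e2 : ((a.2 : ℕ) : ℤ) = 0 := by rw [h3]; rfl
      rw [e1, e2, h1]; ring
  · have aux : ∀ c d : ℤ × Fin l, d.1 * l + ((d.2 : ℕ) : ℤ) = c.1 * l + ((c.2 : ℕ) : ℤ) + 1 →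
        (c.1 = d.1 ∧ (d.2 : ℕ) = c.2 + 1) ∨
          (d.1 = c.1 + 1 ∧ (c.2 : ℕ) = l - 1 ∧ (d.2 : ℕ) = 0) := by
      intro c d h
      have hc : ((c.2 : ℕ) : ℤ) < l := by exact_mod_cast c.2.2
      have hd : ((d.2 : ℕ) : ℤ) < l := by exact_mod_cast d.2.2
      have h1 : d.1 < c.1 + 2 := by
        by_contra h'
        have h'' : c.1 + 2 ≤ d.1 := by omega
        nlinarith
      have h2 : c.1 < d.1 + 1 := by
        by_contra h'
        have h'' : d.1 + 1 ≤ c.1 := by omega
        nlinarith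
      have h3 : d.1 = c.1 ∨ d.1 = c.1 + 1 := by omega
      rcases h3 with h3 | h3
      · left
        rw [h3] at h
        exact ⟨h3.symm, by omega⟩
      · right
        rw [h3] at h
        have h4 : ((d.2 : ℕ) : ℤ) + l = ((c.2 : ℕ) : ℤ) + 1 := by linarith
        exact ⟨h3, by omega, by omega⟩
    rintro (h | h)
    · rcases aux a b h with ⟨h1, h2⟩ | ⟨h1, h2, h3⟩
      · exact Or.inl ⟨h1, Or.inl h2⟩
      · exact Or.inr (Or.inl ⟨h1, Fin.ext h2, Fin.ext h3⟩)
    · rcases aux b a h with ⟨h1, h2⟩ | ⟨h1, h2, h3⟩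
      · exact Or.inl ⟨h1.symm, Or.inr h2⟩
      · exact Or.inr (Or.inr ⟨h1, Fin.ext h2, Fin.ext h3⟩)

/-- the periodic sequence -/
def cycW (w : ℕ → V) (l : ℕ) (m : ℤ) : V := w (m % l).toNat

theorem cycW_N {w : ℕ → V} {l : ℕ} (q : ℤ × Fin l) : cycW w l (cycN q) = w (q.2 : ℕ) := by
  have h1 : ((q.2 : ℕ) : ℤ) < l := by exact_mod_cast q.2.2
  unfold cycW cycN
  rw [Int.add_comm, Int.add_mul_emod_self_right, Int.emod_eq_of_lt (by omega) h1, Int.toNat_natCast]

theorem cycW_val {w : ℕ → V} {l k : ℕ} (hk : k * l ≠ 0) (m : ℤ) :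
    cycW w l ((((m : ZMod (k * l)).val : ℕ)) : ℤ) = cycW w l m := by
  haveI : NeZero (k * l) := ⟨hk⟩
  unfold cycW
  rw [ZMod.val_intCast]
  congr 2
  apply Int.emod_emod_of_dvd
  push_cast
  exact dvd_mul_left _ _

theorem cycW_ne {w : ℕ → V} {l : ℕ} (hl : 3 ≤ l) (h03 : w 0 = w l)
    (hne : ¬ Sim H (w (l - 1)) (w 1))
    (h5 : ∀ i, i + 2 ≤ l → ¬ Sim H (w i) (w (i + 2))) (m : ℤ) :
    ¬ Sim H (cycW w l (m - 1)) (cycW w l (m + 1)) := by
  have hl' : (3 : ℤ) ≤ l := by exact_mod_cast hl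
  obtain ⟨r, hr⟩ : ∃ r : ℕ, (r : ℤ) = m % l :=
    ⟨(m % l).toNat, Int.toNat_of_nonneg (Int.emod_nonneg _ (by omega))⟩
  have hrl : (r : ℤ) < l := by rw [hr]; exact Int.emod_lt_of_pos _ (by omega)
  have hm : m = r + (m / l) * l := by rw [hr]; exact (Int.emod_add_ediv_mul m l).symm
  have e1 : (m + 1) % l = ((r : ℤ) + 1) % l := by
    rw [show m + 1 = ((r : ℤ) + 1) + (m / l) * l by linarith, Int.add_mul_emod_self_right]
  have e2 : (m - 1) % l = ((r : ℤ) - 1 + l) % l := by
    rw [show m - 1 = ((r : ℤ) - 1 + l) + (m / l - 1) * l by linarith, Int.add_mul_emod_self_right]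
  unfold cycW
  rcases Nat.eq_zero_or_pos r with h | h
  · subst h
    have f1 : ((m + 1) % l).toNat = 1 := by
      rw [e1, Int.emod_eq_of_lt (by simp) (by simp; omega)]; simp
    have f2 : ((m - 1) % l).toNat = l - 1 := by
      rw [e2, Int.emod_eq_of_lt (by omega) (by omega)]; omega
    rw [f1, f2]
    exact hne
  · obtain ⟨r', rfl⟩ : ∃ r', r = r' + 1 := ⟨r - 1, by omega⟩
    have f2 : ((m - 1) % l).toNat = r' := by
      rw [e2, show (((r' + 1 : ℕ) : ℤ) - 1 + l) = (r' : ℤ) + 1 * l by push_cast; ring,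
        Int.add_mul_emod_self_right, Int.emod_eq_of_lt (by omega) (by omega), Int.toNat_natCast]
    have f1 : w ((m + 1) % l).toNat = w (r' + 2) := by
      rw [e1]
      by_cases h' : r' + 2 < l
      · rw [Int.emod_eq_of_lt (by omega) (by omega)]
        congr 1
      · have h'' : l = r' + 2 := by omega
        have : (((r' + 1 : ℕ) : ℤ) + 1) % l = 0 := by
          rw [h'']
          push_cast
          rw [show (r' : ℤ) + 1 + 1 = (r' : ℤ) + 2 by ring]
          exact Int.emod_self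
        rw [this, ← h'', ← h03]
        rfl
    rw [f1, f2]
    exact h5 r' (by omega)

theorem cwalk_cyc [Finite V] {x y y' : V} (hy : H.Adj x y) (hy' : H.Adj x y')
    (hne : ¬ Sim H y y') {l : ℕ} {w : ℕ → V} (hl : 3 ≤ l) (h0 : w 0 = x) (h1 : w 1 = y)
    (h2 : w (l - 1) = y') (h3 : w l = x) (h4 : ∀ i < l, CA H (w i) (w (i + 1)))
    (h5 : ∀ i, i + 2 ≤ l → ¬ Sim H (w i) (w (i + 2))) :
    ∃ (Q : Type) (_ : Finite Q) (T : Vlt H Q) (κ₀ : Q), CWalk T κ₀ x y y' := by
  have h03 : w 0 = w l := by rw [h0, h3]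
  have hl0 : 0 < l := by omega
  have hlz : (3 : ℤ) ≤ l := by exact_mod_cast hl
  set R := cycR hl h03 h4 with hR
  obtain ⟨m₀, hstab⟩ := stab R
  obtain ⟨R', m₁, hR', hclos⟩ := closing R
  set k : ℕ := (m₀ + m₁ + 3) * R' with hk
  have hk3 : m₀ + m₁ + 3 ≤ k := Nat.le_mul_of_pos_right _ hR'
  have hkz : (m₀ : ℤ) + m₁ + 3 ≤ k := by exact_mod_cast hk3
  let X : Set (ℤ × Fin l) := {q | 0 < cycN q ∧ cycN q < k * l}
  have hX1 : X ⊆ win (Fin l) 0 (k + m₁) := by
    intro q hq
    have hq1 : 0 < cycN q := hq.1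
    have hq2 : cycN q < k * l := hq.2
    have h1 : ((q.2 : ℕ) : ℤ) < l := by exact_mod_cast q.2.2
    have h1' : (0 : ℤ) ≤ ((q.2 : ℕ) : ℤ) := by omega
    unfold cycN at hq1 hq2
    constructor
    · by_contra h
      have : q.1 ≤ -1 := by omega
      nlinarith
    · by_contra h
      have : (k : ℤ) ≤ q.1 := by omega
      nlinarith
  have hX2 : win (Fin l) 1 (1 + m₀) ⊆ X := by
    intro q hq
    have hq1 : 1 ≤ q.1 := hq.1
    have hq2 : q.1 ≤ 1 + m₀ := hq.2
    have h1 : ((q.2 : ℕ) : ℤ) < l := by exact_mod_cast q.2.2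
    have h1' : (0 : ℤ) ≤ ((q.2 : ℕ) : ℤ) := by omega
    constructor
    · unfold cycN
      nlinarith
    · unfold cycN
      have : q.1 + 1 ≤ k := by omega
      nlinarith
  have hX3 : ∀ p ∈ X, ∀ q ∈ X,
      Relation.ReflTransGen (fun s t => s ∈ X ∧ t ∈ X ∧ R.Sg s t) p q := by
    have key : ∀ p ∈ X, ∀ q ∈ X, cycN p ≤ cycN q →
        Relation.ReflTransGen (fun s t => s ∈ X ∧ t ∈ X ∧ R.Sg s t) p q := by
      intro p hp q hq hpq
      have h := cycM_path (r := fun s t => s ∈ X ∧ t ∈ X ∧ R.Sg s t) (cycP hl0)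
        (a := (cycN p).toNat) (b := (cycN q).toNat) (by omega) (by
          intro i hi1 hi2
          have e0 : (0 : ℤ) < cycN p := hp.1
          have e1 : cycN q < k * l := hq.2
          refine ⟨⟨?_, ?_⟩, ⟨?_, ?_⟩, ?_⟩
          · rw [cycN_P]; omega
          · rw [cycN_P]; omega
          · rw [cycN_P]; omega
          · rw [cycN_P]; omega
          · rw [hR, cycR_Sg, cycN_P, cycN_P]
            left
            push_cast
            ring)
      rwa [cycP_N hl0 p hp.1, cycP_N hl0 q hq.1] at h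
    intro p hp q hq
    rcases le_total (cycN p) (cycN q) with h | h
    · exact key p hp q hq h
    · refine stab_rtg_symm ?_ (key q hq p hp h)
      rintro a b ⟨h1, h2, h3⟩
      exact ⟨h2, h1, stab_Sg_symm R h3⟩
  have hs1 : (((0 : ℤ), (⟨1, by omega⟩ : Fin l)) : ℤ × Fin l) ∈ X := by
    constructor
    · simp [cycN]
    · simp only [cycN]
      push_cast
      nlinarith
  have ht1 : ((((k : ℤ) - 1), (⟨l - 1, by omega⟩ : Fin l)) : ℤ × Fin l) ∈ X := by
    have : ((l - 1 : ℕ) : ℤ) = l - 1 := by omega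
    constructor
    · simp only [cycN]
      rw [this]
      nlinarith
    · simp only [cycN]
      rw [this]
      nlinarith
  have hcn : Cn H R.clz R.Sg (win (Fin l) 0 (k + m₁)) (y, ((0 : ℤ), (⟨1, by omega⟩ : Fin l)))
      (y', (((k : ℤ) - 1), (⟨l - 1, by omega⟩ : Fin l))) := by
    have c1 : Cn H R.clz R.Sg (win (Fin l) 0 (k + m₁)) (y, ((0 : ℤ), (⟨1, by omega⟩ : Fin l)))
        (x, ((0 : ℤ), (⟨0, by omega⟩ : Fin l))) := by
      refine Relation.ReflTransGen.single ⟨?_, ?_, ?_, hy.symm, ?_, ?_⟩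
      · exact ⟨le_refl _, by simp only; omega⟩
      · exact ⟨le_refl _, by simp only; omega⟩
      · exact Or.inl ⟨rfl, Or.inr rfl⟩
      · show Sim H y (w 1)
        rw [h1]; exact sim_refl H y
      · show Sim H x (w 0)
        rw [h0]; exact sim_refl H x
    have c2 := hclos (m₀ + m₁ + 3) (x, ((0 : ℤ), (⟨0, by omega⟩ : Fin l))) (le_refl _)
      (by simp) (by
        show Sim H x (w 0)
        rw [h0]; exact sim_refl H x)
    have ek : ((m₀ + m₁ + 3 : ℕ) : ℤ) * R' = k := by rw [hk]; push_cast; ring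
    rw [ek, add_comm (m₁ : ℤ) k] at c2
    simp only [zero_add] at c2
    have c3 : Cn H R.clz R.Sg (win (Fin l) 0 (k + m₁)) (x, ((k : ℤ), (⟨0, by omega⟩ : Fin l)))
        (y', (((k : ℤ) - 1), (⟨l - 1, by omega⟩ : Fin l))) := by
      refine Relation.ReflTransGen.single ⟨?_, ?_, ?_, hy', ?_, ?_⟩
      · exact ⟨by simp only; omega, by simp only; omega⟩
      · exact ⟨by simp only; omega, by simp only; omega⟩
      · exact Or.inr (Or.inr ⟨by simp only; ring, rfl, rfl⟩)
      · show Sim H x (w 0)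
        rw [h0]; exact sim_refl H x
      · show Sim H y' (w (l - 1))
        rw [h2]; exact sim_refl H y'
    exact (c1.trans c2).trans c3
  have hcX := hstab 0 (k + m₁) 1 X (by omega) (by omega) hX1 hX2 hX3 _ _ hs1 ht1
    (by
      show Sim H y (w 1)
      rw [h1]; exact sim_refl H y)
    (by
      show Sim H y' (w (l - 1))
      rw [h2]; exact sim_refl H y') hcn
  obtain ⟨n, f, hf0, hfn, hf⟩ := cycM_seq hcX
  -- the finite set of positions
  have hN : k * l ≠ 0 := by
    have : 0 < k * l := Nat.mul_pos (by omega) hl0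
    omega
  have hN3 : 3 ≤ k * l := le_trans (by omega) (Nat.mul_le_mul_left k hl)
  haveI : NeZero (k * l) := ⟨hN⟩
  let cl : ZMod (k * l) → V := fun a => cycW w l (a.val : ℤ)
  let Sg : ZMod (k * l) → ZMod (k * l) → Prop := fun a b => b = a + 1 ∨ a = b + 1
  have hcl : ∀ m : ℤ, cl (m : ZMod (k * l)) = cycW w l m := fun m => cycW_val hN m
  have h1ne : (1 : ZMod (k * l)) ≠ 0 := by
    intro h
    have h' : ((1 : ℕ) : ZMod (k * l)) = 0 := by exact_mod_cast h
    rw [ZMod.natCast_eq_zero_iff] at h'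
    have := Nat.le_of_dvd one_pos h'
    omega
  obtain ⟨T, hT⟩ := exists_vlt (H := H) cl Sg (fun i j h => h.symm) (by
      rintro i (h | h)
      · exact h1ne (by simpa using h)
      · exact h1ne (by simpa using h)) (by
      intro i j j' hj hj' hsim
      obtain ⟨m, rfl⟩ := ZMod.intCast_surjective i
      have hh := cycW_ne (H := H) hl h03 (by rw [h1, h2]; exact fun h => hne (sim_symm h)) h5 m
      rcases hj with rfl | hj <;> rcases hj' with rfl | hj'
      · rfl
      · exfalso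
        have e : j' = ((m - 1 : ℤ) : ZMod (k * l)) := by
          push_cast
          rw [hj']; ring
        rw [e, hcl, show (m : ZMod (k * l)) + 1 = ((m + 1 : ℤ) : ZMod (k * l)) by push_cast; ring,
          hcl] at hsim
        exact hh (sim_symm hsim)
      · exfalso
        have e : j = ((m - 1 : ℤ) : ZMod (k * l)) := by
          push_cast
          rw [hj]; ring
        rw [e, hcl, show (m : ZMod (k * l)) + 1 = ((m + 1 : ℤ) : ZMod (k * l)) by push_cast; ring,
          hcl] at hsim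
        exact hh hsim
      · rw [hj] at hj'
        exact add_right_cancel hj')
  have hfX : ∀ i ≤ n, (f i).2 ∈ X := by
    intro i hi
    rcases Nat.lt_or_ge i n with h | h
    · exact (hf i h).1
    · have : i = n := by omega
      rw [this, hfn]
      exact ht1
  have hclf : ∀ q : ℤ × Fin l, cl ((cycN q : ℤ) : ZMod (k * l)) = R.clz q := by
    intro q
    rw [hcl, cycW_N]
    rfl
  let z : ℕ → V := fun i => if i = 0 then x else if i ≤ n + 1 then (f (i - 1)).1 else x
  have hz0 : z 0 = x := by simp [z]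
  have hz1 : ∀ i ≤ n, z (i + 1) = (f i).1 := by
    intro i hi
    simp [z, hi]
  have hz2 : z (n + 2) = x := by simp [z]
  have hwk : ∀ i ≤ n, wk T z 0 (i + 1) = ((cycN (f i).2 : ℤ) : ZMod (k * l)) := by
    intro i
    induction i with
    | zero =>
      intro _
      show T.g (z 0) (z 1) (wk T z 0 0) = _
      rw [hz0, hz1 0 (by omega), hf0]
      show T.g x y 0 = _
      apply hT
      · left
        simp [cycN]
      · show Sim H x (cl 0)
        have := hcl 0
        rw [Int.cast_zero] at this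
        rw [this]
        show Sim H x (w ((0 : ℤ) % l).toNat)
        rw [Int.zero_emod]
        show Sim H x (w 0)
        rw [h0]; exact sim_refl H x
      · rw [hclf]
        show Sim H y (w 1)
        rw [h1]; exact sim_refl H y
    | succ i ih =>
      intro hi
      have ih' := ih (by omega)
      show T.g (z (i + 1)) (z (i + 2)) (wk T z 0 (i + 1)) = _
      rw [ih', hz1 i (by omega), hz1 (i + 1) hi]
      obtain ⟨_, _, g3, _, g5, g6⟩ := hf i (by omega)
      apply hT
      · rw [hR, cycR_Sg] at g3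
        rcases g3 with g3 | g3
        · left; rw [g3]; push_cast; ring
        · right; rw [g3]; push_cast; ring
      · rw [hclf]; exact g5
      · rw [hclf]; exact g6
  refine ⟨ZMod (k * l), inferInstance, T, 0, n, z, hz0, ?_, ?_, hz2, ?_, ?_, ?_⟩
  · rw [hz1 0 (by omega), hf0]
  · rw [hz1 n (by omega), hfn]
  · intro i hi
    rcases Nat.eq_zero_or_pos i with h | h
    · subst h
      rw [hz0, hz1 0 (by omega), hf0]
      exact hy
    · obtain ⟨i', rfl⟩ : ∃ i', i = i' + 1 := ⟨i - 1, by omega⟩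
      rcases Nat.lt_or_ge i' n with h' | h'
      · rw [hz1 i' (by omega), hz1 (i' + 1) (by omega)]
        exact (hf i' h').2.2.2.1
      · have : i' = n := by omega
        subst this
        rw [hz1 i' (by omega), hz2, hfn]
        exact hy'.symm
  · intro i hi hi2
    obtain ⟨i', rfl⟩ : ∃ i', i = i' + 1 := ⟨i - 1, by omega⟩
    rw [hwk i' (by omega)]
    have hx := hfX i' (by omega)
    intro h
    rw [ZMod.intCast_zmod_eq_zero_iff_dvd] at h
    have := Int.le_of_dvd hx.1 h
    push_cast at this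
    exact absurd hx.2 (not_lt.2 this)
  · show T.g (z (n + 1)) (z (n + 2)) (wk T z 0 (n + 1)) = 0
    rw [hwk n (le_refl _), hz1 n (le_refl _), hz2, hfn]
    apply hT
    · left
      have : ((l - 1 : ℕ) : ℤ) = l - 1 := by omega
      simp only [cycN]
      rw [this]
      have h' : (((k * l : ℕ)) : ZMod (k * l)) = 0 := ZMod.natCast_self _
      push_cast at h' ⊢
      linear_combination -h'
    · rw [hclf]
      show Sim H y' (w (l - 1))
      rw [h2]; exact sim_refl H y'
    · have := hcl 0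
      rw [Int.cast_zero] at this
      rw [this]
      show Sim H x (w ((0 : ℤ) % l).toNat)
      rw [Int.zero_emod]
      show Sim H x (w 0)
      rw [h0]; exact sim_refl H x

theorem exists_cwalk [Finite V] (hm : Multi H) {x y y' : V} (hy : H.Adj x y) (hy' : H.Adj x y')
    (hne : ¬ Sim H y y') :
    ∃ (Q : Type) (_ : Finite Q) (T : Vlt H Q) (κ₀ : Q), CWalk T κ₀ x y y' := by
  obtain ⟨l, w, hl, h0, h1, h2, h3, h4, h5⟩ :=
    closed_nb (live_of_multi hm hy) (live_of_multi hm hy') hne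
  exact cwalk_cyc hy hy' hne hl h0 h1 h2 h3 h4 h5

end Pool.Agent.H24.GE
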