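import Pool.Agent.H24.GC.Types

/-!
# JOB GE-41: partitions with a tree of classes

`TreeP H R`: `R` is an equivalence relation, an equitable partition, adjacent vertices are in different classes,
and there is no infinite walk of classes which never turns back.

`tree_level`. Let `T` be the graph on the quotient of `V` by `R` (`Setoid`), two classes are adjacent if they
contain adjacent vertices (different by `irr`). `T` is connected as `H` is (the quotient map is surjective and maps
edges to edges). `T` is acyclic: a cycle with the classes `c 0, ..., c (n - 1)`, `n ≥ 3`, pairwise different, gives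
the infinite walk `i ↦ c (i mod n)` (choose elements of the classes; a vertex of `c i` has a neighbour in the
class `c (i + 1)` by `eq`: the number of neighbours in this class is the same for all elements of `c i`, and
positive), and `c i ≠ c (i + 2)`; contradiction to `fin`. So `T` is a finite tree. Let `d v = T.dist ⟦t⟧ ⟦v⟧`. For adjacent
`u, v`: `|d u - d v| ≤ 1` and `d u ≠ d v` (Mathlib: `SimpleGraph.IsTree.dist_ne_of_adj`, file
`Mathlib.Combinatorics.SimpleGraph.Acyclic`, and the lemmas after it). The last property: two neighbours `b, b'` of a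
class `c` in `T` at distance `dist ⟦t⟧ c - 1` from `⟦t⟧`: shortest paths from `⟦t⟧` to `b`, `b'` can be extended to paths
to `c` (`c` is not on them, as its distance is larger), `IsAcyclic.path_unique`.
-/

namespace Pool.Agent.H24.GE

open Pool.Agent.H24.GC

variable {V : Type} {H : SimpleGraph V}

/-- an equitable partition with a tree of classes -/
structure TreeP (H : SimpleGraph V) (R : V → V → Prop) : Prop where
  refl : ∀ v, R v v
  symm : ∀ u v, R u v → R v u
  trans : ∀ u v w, R u v → R v w → R u w
  eq : ∀ u v, R u v → ∀ c, {w | H.Adj u w ∧ R w c}.ncard = {w | H.Adj v w ∧ R w c}.ncard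
  irr : ∀ u v, H.Adj u v → ¬ R u v
  fin : ¬ ∃ w : ℕ → V, (∀ i, ∃ a, H.Adj (w i) a ∧ R a (w (i + 1))) ∧ ∀ i, ¬ R (w i) (w (i + 2))

/-- the setoid of the classes -/
def ftrSetoid {R : V → V → Prop} (hT : TreeP H R) : Setoid V where
  r := R
  iseqv := ⟨hT.refl, fun {_ _} h => hT.symm _ _ h, fun {_ _ _} h h' => hT.trans _ _ _ h h'⟩

/-- the graph on the classes -/
def ftrGraph {R : V → V → Prop} (hT : TreeP H R) : SimpleGraph (Quotient (ftrSetoid hT)) where
  Adj c c' := ∃ u v, Quotient.mk (ftrSetoid hT) u = c ∧ Quotient.mk (ftrSetoid hT) v = c' ∧ H.Adj u v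
  symm := by
    constructor
    rintro c c' ⟨u, v, hu, hv, h⟩
    exact ⟨v, u, hv, hu, h.symm⟩
  loopless := by
    constructor
    rintro c ⟨u, v, hu, hv, h⟩
    have : Quotient.mk (ftrSetoid hT) u = Quotient.mk (ftrSetoid hT) v := by rw [hu, hv]
    exact hT.irr u v h (Quotient.exact this)

theorem ftr_mk_eq {R : V → V → Prop} (hT : TreeP H R) (u v : V) :
    Quotient.mk (ftrSetoid hT) u = Quotient.mk (ftrSetoid hT) v ↔ R u v :=
  ⟨fun h => Quotient.exact h, fun h => Quotient.sound h⟩

theorem ftr_lift [Finite V] {R : V → V → Prop} (hT : TreeP H R) {a : V}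
    {c : Quotient (ftrSetoid hT)} (h : (ftrGraph hT).Adj (Quotient.mk (ftrSetoid hT) a) c) :
    ∃ b, H.Adj a b ∧ Quotient.mk (ftrSetoid hT) b = c := by
  obtain ⟨u, v, hu, hv, huv⟩ := h
  have hR : R u a := (ftr_mk_eq hT u a).1 hu
  have he := hT.eq u a hR v
  have hpos : 0 < {w | H.Adj u w ∧ R w v}.ncard := by
    rw [Set.ncard_pos (Set.toFinite _)]
    exact ⟨v, huv, hT.refl v⟩
  rw [he, Set.ncard_pos (Set.toFinite _)] at hpos
  obtain ⟨b, hb, hbv⟩ := hpos
  exact ⟨b, hb, by rw [← hv]; exact (ftr_mk_eq hT b v).2 hbv⟩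

theorem ftr_acyclic [Finite V] {R : V → V → Prop} (hT : TreeP H R) : (ftrGraph hT).IsAcyclic := by
  intro c p hp
  have h3 := hp.three_le_length
  set n := p.length with hn
  apply hT.fin
  refine ⟨fun i => (p.getVert (i % n)).out, ?_, ?_⟩
  · intro i
    have hlt : i % n < n := Nat.mod_lt _ (by omega)
    have hadj : (ftrGraph hT).Adj (p.getVert (i % n)) (p.getVert (i % n + 1)) :=
      p.adj_getVert_succ hlt
    have hnext : p.getVert ((i + 1) % n) = p.getVert (i % n + 1) := by
      by_cases hc : i % n + 1 = n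
      · have : (i + 1) % n = 0 := by
          rw [Nat.add_mod, Nat.mod_eq_of_lt (show 1 < n by omega), hc, Nat.mod_self]
        rw [this, hc, SimpleGraph.Walk.getVert_zero, hn, SimpleGraph.Walk.getVert_length]
      · have : (i + 1) % n = i % n + 1 := by
          rw [Nat.add_mod, Nat.mod_eq_of_lt (show 1 < n by omega)]
          exact Nat.mod_eq_of_lt (by omega)
        rw [this]
    have hout : Quotient.mk (ftrSetoid hT) (p.getVert (i % n)).out = p.getVert (i % n) :=
      Quotient.out_eq _
    rw [← hout] at hadj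
    obtain ⟨b, hb, hbc⟩ := ftr_lift hT hadj
    refine ⟨b, hb, ?_⟩
    rw [← ftr_mk_eq hT, hbc, ← hnext]
    exact (Quotient.out_eq _).symm
  · intro i hR
    have h1 : p.getVert (i % n) = p.getVert ((i + 2) % n) := by
      have := (ftr_mk_eq hT _ _).2 hR
      have e1 : Quotient.mk (ftrSetoid hT) (p.getVert (i % n)).out = p.getVert (i % n) :=
        Quotient.out_eq _
      have e2 : Quotient.mk (ftrSetoid hT) (p.getVert ((i + 2) % n)).out = p.getVert ((i + 2) % n) :=
        Quotient.out_eq _
      rw [← e1, ← e2]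
      exact this
    have hlt : i % n < n := Nat.mod_lt _ (by omega)
    have hlt2 : (i + 2) % n < n := Nat.mod_lt _ (by omega)
    have h2 : i % n = (i + 2) % n :=
      hp.getVert_injOn' (show i % n ≤ p.length - 1 by omega) (show (i + 2) % n ≤ p.length - 1 by omega) h1
    have h4 : i ≡ i + 2 [MOD n] := h2
    have h5 : n ∣ (i + 2) - i := (Nat.modEq_iff_dvd' (by omega)).1 h4
    have h6 : n ∣ 2 := by simpa using h5
    have := Nat.le_of_dvd (by norm_num) h6
    omega

theorem ftr_tree [Finite V] (hcon : H.Connected) {R : V → V → Prop} (hT : TreeP H R) :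
    (ftrGraph hT).IsTree := by
  refine ⟨?_, ftr_acyclic hT⟩
  let f : H →g ftrGraph hT :=
    { toFun := Quotient.mk (ftrSetoid hT)
      map_rel' := fun {a b} h => ⟨a, b, rfl, rfl, h⟩ }
  exact hcon.map f Quotient.mk_surjective

theorem tree_level [Finite V] (hcon : H.Connected) {R : V → V → Prop} (hT : TreeP H R) (t : V) :
    ∃ d : V → ℕ, (∀ v, d v = 0 ↔ R t v) ∧
      (∀ u v, H.Adj u v → d v = d u + 1 ∨ d u = d v + 1) ∧ (∀ u v, R u v → d u = d v) ∧
      ∀ v u u', H.Adj v u → H.Adj v u' → d v = d u + 1 → d v = d u' + 1 → R u u' := by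
  have htree := ftr_tree hcon hT
  set T := ftrGraph hT with hTdef
  refine ⟨fun v => T.dist (Quotient.mk _ t) (Quotient.mk _ v), ?_, ?_, ?_, ?_⟩
  · intro v
    rw [htree.connected.dist_eq_zero_iff]
    exact ftr_mk_eq hT t v
  · intro u v huv
    have hadj : T.Adj (Quotient.mk _ u) (Quotient.mk _ v) := ⟨u, v, rfl, rfl, huv⟩
    rcases htree.dist_eq_dist_add_one_of_adj (Quotient.mk _ t) hadj with h | h
    · exact Or.inr h
    · exact Or.inl h
  · intro u v huv
    show T.dist (Quotient.mk _ t) (Quotient.mk _ u) = T.dist (Quotient.mk _ t) (Quotient.mk _ v)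
    rw [(ftr_mk_eq hT u v).2 huv]
  · intro v u u' hu hu' hd hd'
    have ha : T.Adj (Quotient.mk _ u) (Quotient.mk _ v) := ⟨u, v, rfl, rfl, hu.symm⟩
    have ha' : T.Adj (Quotient.mk _ u') (Quotient.mk _ v) := ⟨u', v, rfl, rfl, hu'.symm⟩
    obtain ⟨p, hp, hpl⟩ := (htree.connected (Quotient.mk _ t) (Quotient.mk _ u)).exists_path_of_dist
    obtain ⟨p', hp', hpl'⟩ :=
      (htree.connected (Quotient.mk _ t) (Quotient.mk _ u')).exists_path_of_dist
    have hq : (p.concat ha).IsPath := by
      apply SimpleGraph.Walk.isPath_of_length_eq_dist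
      rw [SimpleGraph.Walk.length_concat, hpl]
      exact hd.symm
    have hq' : (p'.concat ha').IsPath := by
      apply SimpleGraph.Walk.isPath_of_length_eq_dist
      rw [SimpleGraph.Walk.length_concat, hpl']
      exact hd'.symm
    have he := htree.isAcyclic.path_unique ⟨_, hq⟩ ⟨_, hq'⟩
    have he2 : p.concat ha = p'.concat ha' := congrArg Subtype.val he
    have he3 := congrArg SimpleGraph.Walk.penultimate he2
    rw [SimpleGraph.Walk.penultimate_concat, SimpleGraph.Walk.penultimate_concat] at he3
    exact (ftr_mk_eq hT u u').1 he3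

end Pool.Agent.H24.GE
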