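import Pool.Agent.H24.GE.TW
import Pool.Agent.H24.GE.FTree

/-!
# JOB GE-43: the double cover

`dcG H`: the vertices are `(v, a)`, `a : Bool`; `(u, a)` and `(v, b)` are adjacent iff `u, v` are adjacent and (`a ≠ b` iff `u, v`
are in the same class). `DR H`: same class and same second component.

`dc_cover`: for a neighbour `v` of `u` the only neighbour of `(u, a)` over `v` has the second component `!a` if `u, v` are
in the same class and `a` otherwise. `dc_deg`: from `dc_cover`.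
`dc_conn`: Let `v₀ : V`, `A` the set of the vertices which are connected to `(v₀, false)`. For every `u` some
`(u, a)` is in `A` (lift a walk from `v₀` to `u`). The involution `(v, a) ↦ (v, !a)` is an automorphism. If both `(v, false)`
and `(v, true)` are in `A` for some `v`, then both are for every `v` (lift a walk from `v` to `u`, starting at `(v, false)` and
at `(v, true)`; the two lifts end at different points over `u`), so `dcG H` is connected. Otherwise let `s v` be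
the `a` with `(v, a) ∈ A`; if `u, v` are adjacent then `(v, b) ∈ A` for the neighbour of `(u, s u)`, so `s v = b`, and
`s u ≠ s v ↔ Sim H u v`.
`dr_sim`: `DR H` is an equitable partition of `dcG H` (`dc_eq`), so `Sim` holds by definition.
`dc_eq`: the neighbours of `(u, a)` in the class of `(c, e)` are the `(v, e)` with `v` adjacent to `u`, `Sim H v c` and
(`a ≠ e` iff `Sim H u v`, i.e. iff `Sim H u c`); so their number is that of `{v | H.Adj u v ∧ Sim H v c}` if
(`a ≠ e ↔ Sim H u c`), and `0` otherwise. This depends only on the class of `u` and `a` (`nbc_ncard`).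
`dc_tree`: `irr`: adjacent `(u, a)`, `(v, b)` with `Sim H u v` have `a ≠ b`. `fin`: let `w` be an infinite walk. If
`Sim H (w i).1 (w (i + 2)).1` for some `i`: `(w i)` is adjacent to a vertex related to `w (i + 1)`, so
`(w i).2 ≠ (w (i + 1)).2` iff `Sim H (w i).1 (w (i + 1)).1`; the same for `i + 1`, `i + 2`; as
`(w i).1 ~ (w (i + 2)).1` both or none, so `(w i).2 = (w (i + 2)).2` and `w i`, `w (i + 2)` are related,
contradiction. So the first components form an infinite walk which shows `Live H (w 0).1 (w 1).1`.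
`side_tree`: the same for `R u v = (Sim H u v ∧ s u = s v)`: `eq`: the neighbours of `u` in the class of `c` for `R` are the
neighbours similar to `c` if (`s u ≠ s c ↔ Sim H u c`), and there are none otherwise.
-/

namespace Pool.Agent.H24.GE

open Pool.Agent.H24.GC

variable {V : Type} {H : SimpleGraph V}

/-- the double cover -/
def dcG (H : SimpleGraph V) : SimpleGraph (V × Bool) where
  Adj a b := H.Adj a.1 b.1 ∧ (a.2 ≠ b.2 ↔ Sim H a.1 b.1)
  symm := ⟨fun _ _ h => ⟨h.1.symm, fun h1 => sim_symm (h.2.1 h1.symm),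
    fun h1 => (h.2.2 (sim_symm h1)).symm⟩⟩
  loopless := ⟨fun _ h => H.irrefl h.1⟩

/-- same class and same side -/
def DR (H : SimpleGraph V) (a b : V × Bool) : Prop := Sim H a.1 b.1 ∧ a.2 = b.2

private theorem FDc_bool {a b c : Bool} (h : (a ≠ b ↔ a ≠ c)) : b = c := by
  cases a <;> cases b <;> cases c <;> simp at h ⊢

private theorem FDc_lift (H : SimpleGraph V) {u v : V} (h : H.Adj u v) (a : Bool) :
    ∃ b, (dcG H).Adj (u, a) (v, b) := by
  by_cases hs : Sim H u v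
  · exact ⟨!a, h, fun _ => hs, fun _ => by cases a <;> simp⟩
  · exact ⟨a, h, fun h1 => absurd rfl h1, fun h1 => absurd h1 hs⟩

theorem dc_cover (H : SimpleGraph V) : IsCover (dcG H) H Prod.fst := by
  rintro ⟨u, a⟩
  refine ⟨fun w hw => ?_, ?_, ?_⟩
  · have h1 : (dcG H).Adj (u, a) w := hw
    exact h1.1
  · rintro ⟨v, b⟩ hb ⟨v', b'⟩ hb' hvv
    have h1 : (dcG H).Adj (u, a) (v, b) := hb
    have h2 : (dcG H).Adj (u, a) (v', b') := hb'
    have hv : v = v' := hvv
    rw [← hv] at h2 ⊢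
    have h3 : b = b' := FDc_bool (h1.2.trans h2.2.symm)
    rw [h3]
  · intro v hv
    have h1 : H.Adj u v := hv
    obtain ⟨b, hb⟩ := FDc_lift H h1 a
    exact ⟨(v, b), hb, rfl⟩

theorem dc_deg (H : SimpleGraph V) (v : V × Bool) :
    ((dcG H).neighborSet v).ncard = (H.neighborSet v.1).ncard := by
  have h := dc_cover H v
  rw [← h.image_eq, Set.ncard_image_of_injOn h.injOn]

/-- the involution of the double cover -/
private def FDc_inv (H : SimpleGraph V) : dcG H →g dcG H where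
  toFun w := (w.1, !w.2)
  map_rel' := by
    rintro ⟨u, a⟩ ⟨v, b⟩ h
    refine ⟨h.1, ?_⟩
    have h2 := h.2
    show (!a) ≠ (!b) ↔ Sim H u v
    rw [← h2]
    show (!a) ≠ (!b) ↔ a ≠ b
    cases a <;> cases b <;> simp

private theorem FDc_flip {H : SimpleGraph V} {u v : V} {a b : Bool}
    (h : (dcG H).Reachable (u, a) (v, b)) : (dcG H).Reachable (u, !a) (v, !b) :=
  h.map (FDc_inv H)

private theorem FDc_walk {H : SimpleGraph V} {u v : V} (h : H.Reachable u v) (a : Bool) :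
    ∃ b, (dcG H).Reachable (u, a) (v, b) := by
  obtain ⟨w⟩ := h
  induction w generalizing a with
  | nil => exact ⟨a, SimpleGraph.Reachable.refl _⟩
  | cons h1 _ ih =>
    obtain ⟨b, hb⟩ := FDc_lift H h1 a
    obtain ⟨c, hc⟩ := ih b
    exact ⟨c, hb.reachable.trans hc⟩

theorem dc_conn (hcon : H.Connected)
    (hs : ¬ ∃ s : V → Bool, ∀ u v, H.Adj u v → (s u ≠ s v ↔ Sim H u v)) : (dcG H).Connected := by
  obtain ⟨v₀⟩ := hcon.nonempty
  have hex : ∀ u, ∃ a, (dcG H).Reachable (v₀, false) (u, a) := fun u =>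
    FDc_walk (hcon.preconnected v₀ u) false
  have hne : Nonempty (V × Bool) := ⟨(v₀, false)⟩
  by_cases h0 : (dcG H).Reachable (v₀, false) (v₀, true)
  · have hall : ∀ u a, (dcG H).Reachable (v₀, false) (u, a) := by
      intro u a
      obtain ⟨b, hb⟩ := hex u
      have hb' : (dcG H).Reachable (v₀, false) (u, !b) := h0.trans (FDc_flip hb)
      cases a <;> cases b
      · exact hb
      · exact hb'
      · exact hb'
      · exact hb
    refine ⟨fun x y => ?_⟩
    exact (hall x.1 x.2).symm.trans (hall y.1 y.2)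
  · exfalso
    apply hs
    have huni : ∀ u a b, (dcG H).Reachable (v₀, false) (u, a) →
        (dcG H).Reachable (v₀, false) (u, b) → a = b := by
      intro u a b ha hb
      by_contra hab
      apply h0
      have h1 : (dcG H).Reachable (v₀, true) (u, !a) := FDc_flip ha
      have h2 : (!a) = b := by cases a <;> cases b <;> simp at hab ⊢
      rw [h2] at h1
      exact hb.trans h1.symm
    choose s hsr using hex
    refine ⟨s, fun u v huv => ?_⟩
    obtain ⟨b, hb⟩ := FDc_lift H huv (s u)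
    have h1 : s v = b := huni v _ _ (hsr v) ((hsr u).trans hb.reachable)
    rw [h1]
    exact hb.2

theorem dc_eq [Finite V] (a b : V × Bool) (h : DR H a b) (c : V × Bool) :
    {w | (dcG H).Adj a w ∧ DR H w c}.ncard = {w | (dcG H).Adj b w ∧ DR H w c}.ncard := by
  have key : ∀ x : V × Bool, {w | (dcG H).Adj x w ∧ DR H w c} =
      (fun v => (v, c.2)) '' {v | v ∈ nbc H x.1 c.1 ∧ (x.2 ≠ c.2 ↔ Sim H x.1 c.1)} := by
    intro x
    ext w
    constructor
    · rintro ⟨h1, h2, h3⟩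
      refine ⟨w.1, ⟨⟨h1.1, h2⟩, ?_⟩, ?_⟩
      · rw [← h3, h1.2]
        exact ⟨fun h4 => sim_trans h4 h2, fun h4 => sim_trans h4 (sim_symm h2)⟩
      · show (w.1, c.2) = w
        rw [← h3]
    · rintro ⟨v, ⟨h1, h2⟩, rfl⟩
      refine ⟨⟨h1.1, ?_⟩, h1.2, rfl⟩
      show x.2 ≠ c.2 ↔ Sim H x.1 v
      rw [h2]
      exact ⟨fun h4 => sim_trans h4 (sim_symm h1.2), fun h4 => sim_trans h4 h1.2⟩
  have hinj : Function.Injective (fun v : V => (v, c.2)) := fun u v huv => congrArg Prod.fst huv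
  rw [key a, key b, Set.ncard_image_of_injective _ hinj, Set.ncard_image_of_injective _ hinj]
  have h1 : (a.2 ≠ c.2 ↔ Sim H a.1 c.1) ↔ (b.2 ≠ c.2 ↔ Sim H b.1 c.1) := by
    rw [h.2]
    have h2 : Sim H a.1 c.1 ↔ Sim H b.1 c.1 :=
      ⟨fun h4 => sim_trans (sim_symm h.1) h4, fun h4 => sim_trans h.1 h4⟩
    rw [h2]
  by_cases h3 : (b.2 ≠ c.2 ↔ Sim H b.1 c.1)
  · have h4 : (a.2 ≠ c.2 ↔ Sim H a.1 c.1) := h1.2 h3
    have e1 : {v | v ∈ nbc H a.1 c.1 ∧ (a.2 ≠ c.2 ↔ Sim H a.1 c.1)} = nbc H a.1 c.1 := by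
      ext v
      exact ⟨fun h5 => h5.1, fun h5 => ⟨h5, h4⟩⟩
    have e2 : {v | v ∈ nbc H b.1 c.1 ∧ (b.2 ≠ c.2 ↔ Sim H b.1 c.1)} = nbc H b.1 c.1 := by
      ext v
      exact ⟨fun h5 => h5.1, fun h5 => ⟨h5, h3⟩⟩
    rw [e1, e2]
    exact nbc_ncard h.1 (sim_refl H _)
  · have h4 : ¬ (a.2 ≠ c.2 ↔ Sim H a.1 c.1) := fun h5 => h3 (h1.1 h5)
    have e1 : {v | v ∈ nbc H a.1 c.1 ∧ (a.2 ≠ c.2 ↔ Sim H a.1 c.1)} = ∅ := by
      ext v
      exact ⟨fun h5 => absurd h5.2 h4, fun h5 => absurd h5 (Set.notMem_empty v)⟩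
    have e2 : {v | v ∈ nbc H b.1 c.1 ∧ (b.2 ≠ c.2 ↔ Sim H b.1 c.1)} = ∅ := by
      ext v
      exact ⟨fun h5 => absurd h5.2 h3, fun h5 => absurd h5 (Set.notMem_empty v)⟩
    rw [e1, e2]

private theorem FDc_refl (a : V × Bool) : DR H a a := ⟨sim_refl H _, rfl⟩

private theorem FDc_symm {a b : V × Bool} (h : DR H a b) : DR H b a := ⟨sim_symm h.1, h.2.symm⟩

private theorem FDc_trans [Finite V] {a b c : V × Bool} (h : DR H a b) (h' : DR H b c) :
    DR H a c := ⟨sim_trans h.1 h'.1, h.2.trans h'.2⟩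

theorem dr_sim [Finite V] {a b : V × Bool} (h : DR H a b) : Sim (dcG H) a b := by
  refine ⟨⟨DR H, FDc_refl, FDc_symm, FDc_trans⟩, ?_, h⟩
  intro x y z hxy
  exact dc_eq x y hxy z

theorem dc_tree [Finite V] (hdead : ¬ ∃ x y, Live H x y) : TreeP (dcG H) (DR H) := by
  refine ⟨FDc_refl, fun _ _ => FDc_symm, fun _ _ _ => FDc_trans, fun u v h c => dc_eq u v h c,
    ?_, ?_⟩
  · intro u v huv h
    exact (huv.2.2 h.1) h.2
  · rintro ⟨w, hw, hn⟩
    apply hdead
    have hb : ∀ i, ((w i).2 ≠ (w (i + 1)).2 ↔ Sim H (w i).1 (w (i + 1)).1) := by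
      intro i
      obtain ⟨a, h1, h2⟩ := hw i
      rw [← h2.2, h1.2]
      exact ⟨fun h4 => sim_trans h4 h2.1, fun h4 => sim_trans h4 (sim_symm h2.1)⟩
    refine ⟨(w 0).1, (w 1).1, fun i => (w i).1, rfl, rfl, ?_, ?_⟩
    · intro i
      obtain ⟨a, h1, h2⟩ := hw i
      exact ⟨a.1, h1.1, h2.1⟩
    · intro i h1
      have h1' : Sim H (w i).1 (w (i + 2)).1 := h1
      apply hn i
      refine ⟨h1', ?_⟩
      have h2 := hb i
      have h3 : ((w (i + 1)).2 ≠ (w (i + 2)).2 ↔ Sim H (w (i + 1)).1 (w (i + 2)).1) := hb (i + 1)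
      have h4 : Sim H (w i).1 (w (i + 1)).1 ↔ Sim H (w (i + 1)).1 (w (i + 2)).1 :=
        ⟨fun h5 => sim_trans (sim_symm h5) h1', fun h5 => sim_trans h1' (sim_symm h5)⟩
      have h5 := h2.trans (h4.trans h3.symm)
      apply FDc_bool (a := (w (i + 1)).2)
      rw [ne_comm, h5]

theorem side_tree [Finite V] (hdead : ¬ ∃ x y, Live H x y) {s : V → Bool}
    (hs : ∀ u v, H.Adj u v → (s u ≠ s v ↔ Sim H u v)) :
    TreeP H (fun u v => Sim H u v ∧ s u = s v) := by
  refine ⟨fun v => ⟨sim_refl H v, rfl⟩, fun u v h => ⟨sim_symm h.1, h.2.symm⟩,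
    fun u v w h h' => ⟨sim_trans h.1 h'.1, h.2.trans h'.2⟩, ?_, ?_, ?_⟩
  · intro u v h c
    have key : ∀ x : V, {w | H.Adj x w ∧ Sim H w c ∧ s w = s c} =
        {w | w ∈ nbc H x c ∧ (s x ≠ s c ↔ Sim H x c)} := by
      intro x
      ext w
      constructor
      · rintro ⟨h1, h2, h3⟩
        refine ⟨⟨h1, h2⟩, ?_⟩
        rw [← h3, hs x w h1]
        exact ⟨fun h4 => sim_trans h4 h2, fun h4 => sim_trans h4 (sim_symm h2)⟩
      · rintro ⟨h1, h2⟩
        refine ⟨h1.1, h1.2, ?_⟩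
        apply FDc_bool (a := s x)
        rw [h2, hs x w h1.1]
        exact ⟨fun h4 => sim_trans h4 h1.2, fun h4 => sim_trans h4 (sim_symm h1.2)⟩
    have h1 : (s u ≠ s c ↔ Sim H u c) ↔ (s v ≠ s c ↔ Sim H v c) := by
      rw [h.2]
      have h2 : Sim H u c ↔ Sim H v c :=
        ⟨fun h4 => sim_trans (sim_symm h.1) h4, fun h4 => sim_trans h.1 h4⟩
      rw [h2]
    show {w | H.Adj u w ∧ Sim H w c ∧ s w = s c}.ncard =
      {w | H.Adj v w ∧ Sim H w c ∧ s w = s c}.ncard
    rw [key u, key v]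
    by_cases h3 : (s v ≠ s c ↔ Sim H v c)
    · have h4 : (s u ≠ s c ↔ Sim H u c) := h1.2 h3
      have e1 : {w | w ∈ nbc H u c ∧ (s u ≠ s c ↔ Sim H u c)} = nbc H u c := by
        ext w
        exact ⟨fun h5 => h5.1, fun h5 => ⟨h5, h4⟩⟩
      have e2 : {w | w ∈ nbc H v c ∧ (s v ≠ s c ↔ Sim H v c)} = nbc H v c := by
        ext w
        exact ⟨fun h5 => h5.1, fun h5 => ⟨h5, h3⟩⟩
      rw [e1, e2]
      exact nbc_ncard h.1 (sim_refl H _)
    · have h4 : ¬ (s u ≠ s c ↔ Sim H u c) := fun h5 => h3 (h1.1 h5)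
      have e1 : {w | w ∈ nbc H u c ∧ (s u ≠ s c ↔ Sim H u c)} = ∅ := by
        ext w
        exact ⟨fun h5 => absurd h5.2 h4, fun h5 => absurd h5 (Set.notMem_empty w)⟩
      have e2 : {w | w ∈ nbc H v c ∧ (s v ≠ s c ↔ Sim H v c)} = ∅ := by
        ext w
        exact ⟨fun h5 => absurd h5.2 h3, fun h5 => absurd h5 (Set.notMem_empty w)⟩
      rw [e1, e2]
  · intro u v huv h
    exact ((hs u v huv).2 h.1) h.2
  · rintro ⟨w, hw, hn⟩
    apply hdead
    have hb : ∀ i, (s (w i) ≠ s (w (i + 1)) ↔ Sim H (w i) (w (i + 1))) := by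
      intro i
      obtain ⟨a, h1, h2⟩ := hw i
      rw [← h2.2, hs _ _ h1]
      exact ⟨fun h4 => sim_trans h4 h2.1, fun h4 => sim_trans h4 (sim_symm h2.1)⟩
    refine ⟨w 0, w 1, w, rfl, rfl, ?_, ?_⟩
    · intro i
      obtain ⟨a, h1, h2⟩ := hw i
      exact ⟨a, h1, h2.1⟩
    · intro i h1
      apply hn i
      refine ⟨h1, ?_⟩
      have h2 := hb i
      have h3 : (s (w (i + 1)) ≠ s (w (i + 2)) ↔ Sim H (w (i + 1)) (w (i + 2))) := hb (i + 1)
      have h4 : Sim H (w i) (w (i + 1)) ↔ Sim H (w (i + 1)) (w (i + 2)) :=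
        ⟨fun h5 => sim_trans (sim_symm h5) h1, fun h5 => sim_trans h1 (sim_symm h5)⟩
      have h5 := h2.trans (h4.trans h3.symm)
      apply FDc_bool (a := s (w (i + 1)))
      rw [ne_comm, h5]

end Pool.Agent.H24.GE
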