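import Pool.Agent.H24.GE.FRing

/-!
# JOB GE-33: the values of a cut ring

`I = Fin (N + 1)`, `s = finRotate (N + 1)`, the cut arc is `r = ((N, x), (0, y))` (`s N = 0`). Let `f, φ` be a partial cover.
For the copy `i` let `f i = f (i, ·)`, `φ i u v = φ (i, u) (ringN x y s i u v)`; `a i = (f (i, x), φ (i, x) (s i, y))`,
`b i = (φ (i, y) (s⁻¹ i, x), f (i, y))`. So `av r = a N`, `bv r = b 0`, and `a i = b (i + 1)` for `i < N` (not cut).

`ring_copy`: `f i`, `φ i` is a partial cover of `oneKit H` with the cut arc `(x, y)` (`ring_nu`, `Set.BijOn.comp`; the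
other edges of the copy are not cut), with the values `a i`, `b i`. If one of `NB H (a i)`, `NB H (b i)` holds, then
`a i = b i` by `sv_one` (`one_mult`, `nb_swap`), so `f i` is a cover of `H` by `H`, hence an automorphism
(`IsCover H H (f i)`; all fibres have the same number of elements, `1`, since `H` is connected, or use that a
cover of a connected finite graph is surjective, so `f i` is a bijection of `V`), and `a i = (f i x, f i y)`.

`ring_val`. (1) Suppose `NB H (a i)` or `NB H (b i)` for some `i`. By `ring_copy` `a i = b i`, and then `b (i + 1) = a i`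
and `a (i - 1) = b i` satisfy `NB`; by induction in both directions `a j = b j = a i` for all `j`. So
`av r = a N = a i = b 0 = bv r`, and it is the image of `(x, y)` under the automorphism `f i`.
(2) Otherwise `¬ NB H (a i)` for all `i ≤ N`. As `Nat.card (V × V) < N` there are `i < j < N` with `a i = a j`. Let
`I' = Fin (j - i)`, `s' = finRotate (j - i)`, `F' (l, v) = f (i + 1 + l, v)`. This is a cover of `ringG H x y s'`: inside of a
copy clear; `(l, x)` and `(l + 1, y)`, `l + 1 < j - i`: the edge `(i + 1 + l, x), (i + 2 + l, y)` is not cut; for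
`l = j - i - 1`: `F' (l, x) = f (j, x)`, `F' (0, y) = f (i + 1, y)`: `a i = a j` says `f (i, x) = f (j, x)`,
`f (i + 1, y) = f (j + 1, y)`. Its arc `((l, x), (0, y))` has the label `(f (j, x), f (j + 1, y)) = a j`, contradiction to
`ring_nb`.
`ring_str`: from `ring_val` (`Straight_red`). `ring_full`: the projection.
-/

namespace Pool.Agent.H24.GE

open Pool.Agent.H24.GC Pool.Agent.H24.GD

variable {V : Type} {H : SimpleGraph V}

/-- `e` is the image of `(x, y)` under an automorphism -/
def AutIm (H : SimpleGraph V) (x y : V) (e : V × V) : Prop :=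
  ∃ α : H ≃g H, e = (α x, α y)

/-- the projection of the neighbour -/
theorem ge33_snd (x y : V) {I : Type} (s : Equiv.Perm I) (i : I) (u v : V) :
    (ringN x y s i u v).2 = v := by
  unfold ringN
  split_ifs <;> rfl

theorem ge33_xy (x y : V) {I : Type} (s : Equiv.Perm I) (i : I) :
    ringN x y s i x y = (s i, y) := by
  unfold ringN
  rw [if_pos rfl]

theorem ge33_yx {x y : V} (hxy : x ≠ y) {I : Type} (s : Equiv.Perm I) (i : I) :
    ringN x y s i y x = (s.symm i, x) := by
  unfold ringN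
  rw [if_neg, if_pos rfl]
  intro h
  exact hxy (congrArg Prod.fst h).symm

theorem ge33_oth {x y u v : V} {I : Type} (s : Equiv.Perm I) (i : I) (h1 : (u, v) ≠ (x, y))
    (h2 : (u, v) ≠ (y, x)) : ringN x y s i u v = (i, v) := by
  unfold ringN
  rw [if_neg h1, if_neg h2]

/-- a cover of a finite connected graph by itself is an automorphism -/
theorem ge33_aut [Finite V] (hcon : H.Connected) {f : V → V} (hf : IsCover H H f) :
    ∃ α : H ≃g H, ∀ v, α v = f v := by
  have hsurj : Function.Surjective f := by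
    obtain ⟨v₀⟩ := hcon.nonempty
    intro v
    obtain ⟨p⟩ := hcon.preconnected (f v₀) v
    have key : ∀ (a b : V) (p : H.Walk a b), (∃ u, f u = a) → ∃ u, f u = b := by
      intro a b p
      induction p with
      | nil => exact id
      | cons h q ih =>
        rintro ⟨u, rfl⟩
        apply ih
        obtain ⟨w, hw, rfl⟩ := (hf u).surjOn h
        exact ⟨w, rfl⟩
    exact key _ _ p ⟨v₀, rfl⟩
  have hinj : Function.Injective f := Finite.injective_iff_surjective.2 hsurj
  refine ⟨⟨Equiv.ofBijective f ⟨hinj, hsurj⟩, ?_⟩, fun v => rfl⟩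
  intro a b
  constructor
  · intro h
    have h' : H.Adj (f a) (f b) := h
    obtain ⟨c, hc, hcb⟩ := (hf a).surjOn h'
    rw [← hinj hcb]
    exact hc
  · intro h
    exact (hf a).mapsTo h

theorem ge33_bij {A B C : Type} {g : A → B} {F : B → C} {φ : A → C} {s : Set A} {t : Set B}
    {u : Set C} (hg : Set.BijOn g s t) (hφ : Set.BijOn φ s u) (h : ∀ a ∈ s, F (g a) = φ a) :
    Set.BijOn F t u := by
  refine ⟨?_, ?_, ?_⟩
  · intro b hb
    obtain ⟨a, ha, rfl⟩ := hg.surjOn hb
    rw [h a ha]
    exact hφ.mapsTo ha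
  · intro b hb b' hb' he
    obtain ⟨a, ha, rfl⟩ := hg.surjOn hb
    obtain ⟨a', ha', rfl⟩ := hg.surjOn hb'
    rw [h a ha, h a' ha'] at he
    rw [hφ.injOn ha ha' he]
  · intro c hc
    obtain ⟨a, ha, rfl⟩ := hφ.surjOn hc
    exact ⟨g a, hg.mapsTo ha, h a ha⟩

theorem ring_copy [Finite V] (hcon : H.Connected) {x y : V} (hxy : H.Adj x y) {I : Type}
    [Finite I] (s : Equiv.Perm I) {cut : I × V → I × V → Prop}
    (hcut : ∀ a b, cut a b → ∃ j, a = (j, x) ∧ b = (s j, y)) {f : I × V → V}
    {φ : I × V → I × V → V} (h : PCov H (ringG H x y s) Prod.snd cut f φ) (i : I)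
    (hb : NB H (f (i, x), φ (i, x) (s i, y)) ∨ NB H (φ (i, y) (s.symm i, x), f (i, y))) :
    (f (i, x), φ (i, x) (s i, y)) = (φ (i, y) (s.symm i, x), f (i, y)) ∧
      AutIm H x y (f (i, x), φ (i, x) (s i, y)) := by
  have hne : x ≠ y := hxy.ne
  let f' : V → V := fun v => f (i, v)
  let φ' : V → V → V := fun u v => φ (i, u) (ringN x y s i u v)
  have hadj : ∀ u v, H.Adj u v → (ringG H x y s).Adj (i, u) (ringN x y s i u v) :=
    fun u v huv => (ring_nu hxy s i u).mapsTo huv
  have hP0 : PCov H (W := V) H id (cut1 ((x, y) : V × V)) f' φ' := by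
    refine ⟨fun u => (h.bij (i, u)).comp (ring_nu hxy s i u), ?_, fun u => h.simf (i, u), ?_⟩
    · intro w w' hw h1 h2
      have h1' : (w, w') ≠ (x, y) := h1
      have h2' : (w, w') ≠ (y, x) := by
        intro h3
        apply h2
        show (w', w) = (x, y)
        rw [Prod.mk.injEq] at h3
        rw [h3.1, h3.2]
      have h4 := hadj w w' hw
      show φ (i, w) (ringN x y s i w w') = f (i, w')
      rw [ge33_oth s i h1' h2'] at h4 ⊢
      refine h.unc _ _ h4 ?_ ?_
      · intro h5
        obtain ⟨j, h6, h7⟩ := hcut _ _ h5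
        apply h1'
        have e6 := congrArg Prod.snd h6
        have e7 := congrArg Prod.snd h7
        exact Prod.ext e6 e7
      · intro h5
        obtain ⟨j, h6, h7⟩ := hcut _ _ h5
        apply h2'
        have e6 := congrArg Prod.snd h6
        have e7 := congrArg Prod.snd h7
        exact Prod.ext e7 e6
    · intro w w' hw
      have h1 := h.simp _ _ (hadj w w' hw)
      rw [ge33_snd] at h1
      exact h1
  have hP : PCov H (oneKit H).gr (oneKit H).π (cut1 ((x, y) : (oneKit H).W × (oneKit H).W))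
      f' φ' := hP0
  have hav : av f' φ' (x, y) = (f (i, x), φ (i, x) (s i, y)) := by
    show (f (i, x), φ (i, x) (ringN x y s i x y)) = _
    rw [ge33_xy]
  have hbv : bv f' φ' (x, y) = (φ (i, y) (s.symm i, x), f (i, y)) := by
    show (φ (i, y) (ringN x y s i y x), f (i, y)) = _
    rw [ge33_yx hne]
  have hb' : NB H (av f' φ' (x, y)) ∨ NB H (bv f' φ' (x, y)).swap := by
    rw [hav, hbv]
    rcases hb with hb | hb
    · exact Or.inl hb
    · exact Or.inr (nb_swap hb)
  have heq := sv_one (K := oneKit H) hcon (one_mult H) (r := (x, y)) hxy hP hb'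
  have hst := Straight_red (K := oneKit H) (r₁ := (x, y)) (r₂ := (x, y))
    (fun w w' hw => Or.inl hw) hP heq heq
  have hc : IsCover H H f' := by
    intro v
    refine (hP.bij v).congr ?_
    intro v' hv'
    exact hst v v' hv'
  obtain ⟨α, hα⟩ := ge33_aut hcon hc
  rw [← hav, ← hbv]
  refine ⟨heq, α, ?_⟩
  rw [hα, hα]
  have h1 : φ' x y = f' y := hst x y hxy
  show (f' x, φ' x y) = (f' x, f' y)
  rw [h1]

theorem ge33_up {n k : ℕ} (h : k < n) :
    finRotate (n + 1) ⟨k, by omega⟩ = ⟨k + 1, by omega⟩ := finRotate_of_lt h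

theorem ge33_down {n k : ℕ} (h : k < n) :
    (finRotate (n + 1)).symm ⟨k + 1, by omega⟩ = ⟨k, by omega⟩ := by
  rw [Equiv.symm_apply_eq, ge33_up h]

theorem ge33_last (n : ℕ) : finRotate (n + 1) (Fin.last n) = 0 := finRotate_last

theorem ge33_zero (n : ℕ) : (finRotate (n + 1)).symm 0 = Fin.last n := by
  rw [Equiv.symm_apply_eq, ge33_last]

section Ring

variable [Finite V] {x y : V} {N : ℕ} {f : Fin (N + 1) × V → V}
  {φ : Fin (N + 1) × V → Fin (N + 1) × V → V}

/-- the value at the tail -/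
def ge33A (x y : V) (f : Fin (N + 1) × V → V) (φ : Fin (N + 1) × V → Fin (N + 1) × V → V)
    (i : Fin (N + 1)) : V × V := (f (i, x), φ (i, x) (finRotate (N + 1) i, y))

/-- the value at the head -/
def ge33B (x y : V) (f : Fin (N + 1) × V → V) (φ : Fin (N + 1) × V → Fin (N + 1) × V → V)
    (i : Fin (N + 1)) : V × V := (φ (i, y) ((finRotate (N + 1)).symm i, x), f (i, y))

omit [Finite V] in
theorem ge33_cut (a b : Fin (N + 1) × V)
    (h : cut1 ((Fin.last N, x), ((0 : Fin (N + 1)), y)) a b) :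
    ∃ j, a = (j, x) ∧ b = (finRotate (N + 1) j, y) := by
  have h' : (a, b) = ((Fin.last N, x), ((0 : Fin (N + 1)), y)) := h
  rw [Prod.mk.injEq] at h'
  exact ⟨Fin.last N, h'.1, by rw [ge33_last]; exact h'.2⟩

omit [Finite V] in
theorem ge33_adj (hxy : H.Adj x y) (k : Fin (N + 1)) :
    (ringG H x y (finRotate (N + 1))).Adj (k, x) (finRotate (N + 1) k, y) :=
  ⟨hxy, Or.inr (Or.inl ⟨rfl, rfl⟩)⟩

omit [Finite V] in
/-- uncut edges between copies, seen from the tail -/
theorem ge33_t (hxy : H.Adj x y)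
    (h : PCov H (ringG H x y (finRotate (N + 1))) Prod.snd
      (cut1 ((Fin.last N, x), ((0 : Fin (N + 1)), y))) f φ) {k : ℕ} (hk : k < N) :
    φ (⟨k, by omega⟩, x) (⟨k + 1, by omega⟩, y) = f (⟨k + 1, by omega⟩, y) := by
  have h1 := ge33_adj (N := N) hxy ⟨k, by omega⟩
  rw [ge33_up hk] at h1
  refine h.unc _ _ h1 ?_ ?_
  · intro h2
    have h3 : (((⟨k, by omega⟩ : Fin (N + 1)), x), ((⟨k + 1, by omega⟩ : Fin (N + 1)), y)) =
      ((Fin.last N, x), ((0 : Fin (N + 1)), y)) := h2
    have h4 := congrArg (fun z => z.1.1.val) h3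
    simp only [Fin.val_last] at h4
    omega
  · intro h2
    have h3 : (((⟨k + 1, by omega⟩ : Fin (N + 1)), y), ((⟨k, by omega⟩ : Fin (N + 1)), x)) =
      ((Fin.last N, x), ((0 : Fin (N + 1)), y)) := h2
    exact hxy.ne (congrArg (fun z => z.1.2) h3).symm

omit [Finite V] in
/-- uncut edges between copies, seen from the head -/
theorem ge33_h (hxy : H.Adj x y)
    (h : PCov H (ringG H x y (finRotate (N + 1))) Prod.snd
      (cut1 ((Fin.last N, x), ((0 : Fin (N + 1)), y))) f φ) {k : ℕ} (hk : k < N) :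
    φ (⟨k + 1, by omega⟩, y) (⟨k, by omega⟩, x) = f (⟨k, by omega⟩, x) := by
  have h1 := ge33_adj (N := N) hxy ⟨k, by omega⟩
  rw [ge33_up hk] at h1
  refine h.unc _ _ h1.symm ?_ ?_
  · intro h2
    have h3 : (((⟨k + 1, by omega⟩ : Fin (N + 1)), y), ((⟨k, by omega⟩ : Fin (N + 1)), x)) =
      ((Fin.last N, x), ((0 : Fin (N + 1)), y)) := h2
    exact hxy.ne (congrArg (fun z => z.1.2) h3).symm
  · intro h2
    have h3 : (((⟨k, by omega⟩ : Fin (N + 1)), x), ((⟨k + 1, by omega⟩ : Fin (N + 1)), y)) =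
      ((Fin.last N, x), ((0 : Fin (N + 1)), y)) := h2
    have h4 := congrArg (fun z => z.1.1.val) h3
    simp only [Fin.val_last] at h4
    omega

omit [Finite V] in
theorem ge33_link (hxy : H.Adj x y)
    (h : PCov H (ringG H x y (finRotate (N + 1))) Prod.snd
      (cut1 ((Fin.last N, x), ((0 : Fin (N + 1)), y))) f φ) {k : ℕ} (hk : k < N) :
    ge33A x y f φ ⟨k, by omega⟩ = ge33B x y f φ ⟨k + 1, by omega⟩ := by
  unfold ge33A ge33B
  rw [ge33_up hk, ge33_down hk, ge33_t hxy h hk, ge33_h hxy h hk]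

/-- the first case: one good value, then all the values are the same -/
theorem ge33_one (hcon : H.Connected) (hxy : H.Adj x y)
    (h : PCov H (ringG H x y (finRotate (N + 1))) Prod.snd
      (cut1 ((Fin.last N, x), ((0 : Fin (N + 1)), y))) f φ) {i : ℕ} (hi : i < N + 1)
    (hb : NB H (ge33A x y f φ ⟨i, hi⟩) ∨ NB H (ge33B x y f φ ⟨i, hi⟩)) :
    ge33A x y f φ (Fin.last N) = ge33B x y f φ 0 ∧ AutIm H x y (ge33A x y f φ (Fin.last N)) := by
  have copy : ∀ j : Fin (N + 1), NB H (ge33A x y f φ j) ∨ NB H (ge33B x y f φ j) →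
      ge33A x y f φ j = ge33B x y f φ j ∧ AutIm H x y (ge33A x y f φ j) :=
    fun j hj => ring_copy hcon hxy (finRotate (N + 1)) ge33_cut h j hj
  obtain ⟨h0, h1⟩ := copy _ hb
  have hnb : NB H (ge33A x y f φ ⟨i, hi⟩) := by
    rcases hb with hb | hb
    · exact hb
    · rw [h0]
      exact hb
  have up : ∀ d, ∀ hd : i + d < N + 1,
      ge33A x y f φ ⟨i + d, hd⟩ = ge33A x y f φ ⟨i, hi⟩ := by
    intro d
    induction d with
    | zero => intro _; rfl
    | succ d ih =>
      intro hd
      have h2 := ih (by omega)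
      have h3 : ge33A x y f φ ⟨i + d, by omega⟩ = ge33B x y f φ ⟨i + d + 1, by omega⟩ :=
        ge33_link hxy h (by omega)
      have h4 : ge33B x y f φ ⟨i + d + 1, by omega⟩ = ge33A x y f φ ⟨i, hi⟩ := by
        rw [← h3, h2]
      have h5 := copy ⟨i + d + 1, by omega⟩ (Or.inr (by rw [h4]; exact hnb))
      exact h5.1.trans h4
  have down : ∀ d, ∀ hd : d ≤ i,
      ge33B x y f φ ⟨i - d, by omega⟩ = ge33A x y f φ ⟨i, hi⟩ := by
    intro d
    induction d with
    | zero => intro _; exact h0.symm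
    | succ d ih =>
      intro hd
      have h2 := ih (by omega)
      have h3 : ge33A x y f φ ⟨i - (d + 1), by omega⟩ =
          ge33B x y f φ ⟨i - (d + 1) + 1, by omega⟩ := ge33_link hxy h (by omega)
      have h6 : (⟨i - (d + 1) + 1, by omega⟩ : Fin (N + 1)) = ⟨i - d, by omega⟩ := by
        ext
        show i - (d + 1) + 1 = i - d
        omega
      rw [h6, h2] at h3
      have h5 := copy ⟨i - (d + 1), by omega⟩ (Or.inl (by rw [h3]; exact hnb))
      exact h5.1.symm.trans h3
  have h2 := up (N - i) (by omega)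
  have h3 : (⟨i + (N - i), by omega⟩ : Fin (N + 1)) = Fin.last N := by
    ext
    show i + (N - i) = N
    omega
  rw [h3] at h2
  have h4 := down i le_rfl
  have h5 : (⟨i - i, by omega⟩ : Fin (N + 1)) = 0 := by
    ext
    show i - i = 0
    omega
  rw [h5] at h4
  exact ⟨h2.trans h4.symm, by rw [h2]; exact h1⟩

/-- the second case -/
theorem ge33_two (hcon : H.Connected) (hxy : H.Adj x y) (hnb : NB H (x, y))
    (h : PCov H (ringG H x y (finRotate (N + 1))) Prod.snd
      (cut1 ((Fin.last N, x), ((0 : Fin (N + 1)), y))) f φ) {i d : ℕ} (hi : i + d + 1 < N)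
    (he : ge33A x y f φ ⟨i, by omega⟩ = ge33A x y f φ ⟨i + d + 1, by omega⟩) :
    NB H (ge33A x y f φ ⟨i, by omega⟩) := by
  have hne : x ≠ y := hxy.ne
  have e1 : f (⟨i, by omega⟩, x) = f (⟨i + d + 1, by omega⟩, x) := congrArg Prod.fst he
  have e2 : f (⟨i + 1, by omega⟩, y) = f (⟨i + d + 1 + 1, by omega⟩, y) := by
    have h1 := congrArg Prod.snd he
    unfold ge33A at h1
    rw [ge33_up (show i < N by omega), ge33_up hi, ge33_t hxy h (by omega),
      ge33_t hxy h hi] at h1
    exact h1
  let F : Fin (d + 1) × V → V := fun p => f (⟨i + 1 + p.1.1, by have := p.1.2; omega⟩, p.2)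
  have hF : ∀ (a : ℕ) (ha : a < d + 1) (v : V),
      F (⟨a, ha⟩, v) = f (⟨i + 1 + a, by omega⟩, v) := fun _ _ _ => rfl
  have hcov : IsCover (ringG H x y (finRotate (d + 1))) H F := by
    rintro ⟨⟨l, hl⟩, u⟩
    have b1 := (h.bij (⟨i + 1 + l, by omega⟩, u)).comp
      (ring_nu hxy (finRotate (N + 1)) ⟨i + 1 + l, by omega⟩ u)
    have b2 := ring_nu hxy (finRotate (d + 1)) ⟨l, hl⟩ u
    refine ge33_bij b2 b1 ?_
    intro v hv
    show F (ringN x y (finRotate (d + 1)) ⟨l, hl⟩ u v) = φ (⟨i + 1 + l, by omega⟩, u)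
      (ringN x y (finRotate (N + 1)) ⟨i + 1 + l, by omega⟩ u v)
    by_cases c1 : (u, v) = (x, y)
    · rw [Prod.mk.injEq] at c1
      obtain ⟨rfl, rfl⟩ := c1
      rw [ge33_xy, ge33_xy, ge33_up (show i + 1 + l < N by omega), ge33_t hxy h (by omega)]
      by_cases c2 : l < d
      · rw [ge33_up c2, hF]
        rfl
      · have c3 : l = d := by omega
        subst c3
        have h4 : finRotate (l + 1) ⟨l, hl⟩ = ⟨0, by omega⟩ := ge33_last l
        rw [h4, hF]
        have h5 : (⟨i + 1 + l + 1, by omega⟩ : Fin (N + 1)) = ⟨i + l + 1 + 1, by omega⟩ := by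
          ext
          show i + 1 + l + 1 = i + l + 1 + 1
          omega
        rw [h5]
        exact e2
    · by_cases c2 : (u, v) = (y, x)
      · rw [Prod.mk.injEq] at c2
        obtain ⟨rfl, rfl⟩ := c2
        rw [ge33_yx hne, ge33_yx hne]
        have h6 : (⟨i + 1 + l, by omega⟩ : Fin (N + 1)) = ⟨i + l + 1, by omega⟩ := by
          ext
          show i + 1 + l = i + l + 1
          omega
        rw [h6, ge33_down (show i + l < N by omega), ge33_h hxy h (by omega)]
        rcases l with _ | l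
        · have h4 : (finRotate (d + 1)).symm ⟨0, hl⟩ = ⟨d, by omega⟩ := ge33_zero d
          rw [h4, hF]
          have h5 : (⟨i + 1 + d, by omega⟩ : Fin (N + 1)) = ⟨i + d + 1, by omega⟩ := by
            ext
            show i + 1 + d = i + d + 1
            omega
          rw [h5]
          exact e1.symm
        · rw [ge33_down (show l < d by omega), hF]
          have h5 : (⟨i + 1 + l, by omega⟩ : Fin (N + 1)) = ⟨i + (l + 1), by omega⟩ := by
            ext
            show i + 1 + l = i + (l + 1)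
            omega
          rw [h5]
      · rw [ge33_oth _ _ c1 c2, ge33_oth _ _ c1 c2, hF]
        have h4 := (ring_nu hxy (finRotate (N + 1)) ⟨i + 1 + l, by omega⟩ u).mapsTo hv
        rw [ge33_oth _ _ c1 c2] at h4
        refine (h.unc _ _ h4 ?_ ?_).symm
        · intro h5
          obtain ⟨j, h6, h7⟩ := ge33_cut _ _ h5
          have e6 := congrArg Prod.snd h6
          have e7 := congrArg Prod.snd h7
          exact c1 (Prod.ext e6 e7)
        · intro h5
          obtain ⟨j, h6, h7⟩ := ge33_cut _ _ h5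
          have e6 := congrArg Prod.snd h6
          have e7 := congrArg Prod.snd h7
          exact c2 (Prod.ext e7 e6)
  have h1 := ring_nb hcon hxy hnb (finRotate (d + 1)) hcov (Fin.last d)
  rw [ge33_last] at h1
  have h2 : (F (Fin.last d, x), F (0, y)) = ge33A x y f φ ⟨i, by omega⟩ := by
    unfold ge33A
    rw [ge33_up (show i < N by omega), ge33_t hxy h (by omega), e1]
    have h5 : (⟨i + 1 + d, by omega⟩ : Fin (N + 1)) = ⟨i + d + 1, by omega⟩ := by
      ext
      show i + 1 + d = i + d + 1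
      omega
    have h6 : F (Fin.last d, x) = f (⟨i + d + 1, by omega⟩, x) := by
      rw [← h5]
      rfl
    rw [h6]
    rfl
  rw [← h2]
  exact h1

end Ring

theorem ring_val [Finite V] (hcon : H.Connected) {x y : V} (hxy : H.Adj x y)
    (hnb : NB H (x, y)) {N : ℕ} (hN : Nat.card (V × V) < N) {f : Fin (N + 1) × V → V}
    {φ : Fin (N + 1) × V → Fin (N + 1) × V → V}
    (h : PCov H (ringG H x y (finRotate (N + 1))) Prod.snd
      (cut1 ((Fin.last N, x), ((0 : Fin (N + 1)), y))) f φ) :
    av f φ ((Fin.last N, x), ((0 : Fin (N + 1)), y)) =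
      bv f φ ((Fin.last N, x), ((0 : Fin (N + 1)), y)) ∧
    AutIm H x y (av f φ ((Fin.last N, x), ((0 : Fin (N + 1)), y))) := by
  have hA : av f φ ((Fin.last N, x), ((0 : Fin (N + 1)), y)) = ge33A x y f φ (Fin.last N) := by
    unfold ge33A
    rw [ge33_last]
    rfl
  have hB : bv f φ ((Fin.last N, x), ((0 : Fin (N + 1)), y)) = ge33B x y f φ 0 := by
    unfold ge33B
    rw [ge33_zero]
    rfl
  rw [hA, hB]
  have hex : ∃ i, ∃ hi : i < N + 1, NB H (ge33A x y f φ ⟨i, hi⟩) := by
    have hninj : ¬ Function.Injective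
        (fun k : Fin N => ge33A x y f φ ⟨k.1, by have := k.2; omega⟩) := by
      intro hinj
      have h1 := Nat.card_le_card_of_injective _ hinj
      rw [Nat.card_fin] at h1
      omega
    rw [Function.Injective] at hninj
    push Not at hninj
    obtain ⟨⟨a, ha⟩, ⟨b, hb⟩, hab, hne⟩ := hninj
    have hne' : a ≠ b := fun h0 => hne (by subst h0; rfl)
    have hab' : ge33A x y f φ ⟨a, by omega⟩ = ge33A x y f φ ⟨b, by omega⟩ := hab
    rcases Nat.lt_or_gt_of_ne hne' with hlt | hlt
    · obtain ⟨d, rfl⟩ : ∃ d, b = a + d + 1 := ⟨b - a - 1, by omega⟩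
      exact ⟨a, by omega, ge33_two hcon hxy hnb h hb hab'⟩
    · obtain ⟨d, rfl⟩ : ∃ d, a = b + d + 1 := ⟨a - b - 1, by omega⟩
      exact ⟨b, by omega, ge33_two hcon hxy hnb h ha hab'.symm⟩
  obtain ⟨i, hi, hnbi⟩ := hex
  exact ge33_one hcon hxy h hi (Or.inl hnbi)

/-- a kit with a straight arc which always has the value of an image of `(x, y)` -/
theorem exists_ring [Finite V] (hcon : H.Connected) {x y : V} (hxy : H.Adj x y)
    (hnb : NB H (x, y)) :
    ∃ (K : Kit H) (r : K.W × K.W), K.gr.Adj r.1 r.2 ∧ (K.π r.1, K.π r.2) = (x, y) ∧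
      Straight H K.gr K.π (cut1 r) ∧ (∀ g, IsCover K.gr H g → AutIm H x y (g r.1, g r.2)) ∧
      ∀ w, ∃ w', K.gr.Adj w w' := by
  have hN : Nat.card (V × V) < Nat.card (V × V) + 1 := Nat.lt_succ_self _
  generalize Nat.card (V × V) + 1 = N at hN
  refine ⟨ringK hxy (finRotate (N + 1)), ((Fin.last N, x), ((0 : Fin (N + 1)), y)), ?_, rfl,
    ?_, ?_, ?_⟩
  · have h1 := ge33_adj (N := N) hxy (Fin.last N)
    rw [ge33_last] at h1
    exact h1
  · intro f φ h
    have h1 := (ring_val hcon hxy hnb hN h).1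
    exact Straight_red (K := ringK hxy (finRotate (N + 1)))
      (r₁ := ((Fin.last N, x), ((0 : Fin (N + 1)), y)))
      (r₂ := ((Fin.last N, x), ((0 : Fin (N + 1)), y))) (fun w w' hw => Or.inl hw) h h1 h1
  · intro g hg
    have h : PCov H (ringG H x y (finRotate (N + 1))) Prod.snd
        (cut1 ((Fin.last N, x), ((0 : Fin (N + 1)), y))) g (fun _ w' => g w') :=
      ⟨fun w => hg w, fun _ _ _ _ _ => rfl,
        fun w => cover_sim hg (ringK hxy (finRotate (N + 1))).cov w,
        fun _ w' _ => cover_sim hg (ringK hxy (finRotate (N + 1))).cov w'⟩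
    exact (ring_val hcon hxy hnb hN h).2
  · rintro ⟨i, v⟩
    obtain ⟨v', hv'⟩ : ∃ v', H.Adj v v' := by
      by_cases hvx : v = x
      · subst hvx
        exact ⟨y, hxy⟩
      · obtain ⟨p⟩ := hcon.preconnected v x
        cases p with
        | nil => exact absurd rfl hvx
        | cons h q => exact ⟨_, h⟩
    exact ⟨_, (ring_nu hxy (finRotate (N + 1)) i v).mapsTo hv'⟩

end Pool.Agent.H24.GE
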