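import Pool.Agent.H24.GE.FIns
import Pool.Agent.H24.GE.FRingV
import Pool.Agent.H24.GD.KitAll
import Pool.Agent.H24.GC.Star

/-!
# JOB GE-35: guards

`star_two`: let `x₁ = K.π w`. `cp_two` (file `Pool.Agent.H24.GC.Perm`) at `w` gives `τw` with `CP H (K.π w) x τw`,
`τw (K.π v₁) = a₁`, `τw (K.π v₂) = a₂`. Let `y = τw (K.π q)`, a neighbour of `x` similar to `K.π q`. `cp_one` gives `σ` with
`CP H (K.π q) y σ`, `σ (K.π w) = x`. For the neighbour `K.π w` of `K.π q` take `τ = τw` (`τw (K.π q) = y`), for the other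
neighbours `u` take `τ u` from `cp_one` (as in `star_ext`, file `Pool.Agent.H24.GC.Star`). `K.Univ q` gives the cover.

`GV H v`: `v` and all its neighbours satisfy `NV`. `Grd H x K r S`: the arc `r` of `K` starts over `x`, is straight, the
tails of its values satisfy `GV`, and all values `(x, y)`, `y ∈ S`, occur.
`gv_iso`: `NV` is invariant under automorphisms. `grd_ring`: `exists_ring` for `(x, y)` (`nv_nb`).
`grd_step`: the kit is `insK K (w, v) K' r'`, the arc `r'' = (inl w, inl v')`. Let `f, φ` be a partial cover for `cut1 r''`; by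
`ins_pcov` (`cut = cut1 (w, v')`; `(w, v) ≠ (w, v')`, `(v, w) ≠ (w, v')`) the restriction `f₁, φ₁` to `K` is a partial cover
for `cut1 (w, v')`, and there is a cover `g` of `K'` with `(g r'.1, g r'.2) = (f₁ w, f₁ v)`; so `GV H (f₁ w)`,
`sv_one` gives `av = bv` (`nv_nb`): use `ins_straight`. Values of covers `f` of the insertion: as `f` is a partial cover for the
empty cut (`φ = fun _ b => f b`), `ins_pcov` gives `GV H (f (inl w))`. `full`: for `y ∈ S'` there is `y' ∈ S` with `y' ≠ y`;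
`star_two` gives a cover `f` of `K` with `f w = x`, `f v' = y`, `f v = y'`, and `Grd.full` a cover `g` of `K'` with
`g r'.1 = x`, `g r'.2 = y'`; `ins_cover`. (`S, S'` are subsets of the neighbourhood of `x`; all neighbours of `x` are
similar: `hLf`.) `ins_deg`.
`exists_guard`: let `y₂, y₃` be two neighbours of `x`, different from `K.π q = y₁`, with the neighbours `v₂, v₃` of `w`
over them (`lift_adj`). `grd_ring` for `y₃` (`S = {y₃}`), `grd_step` for `v = v₃`, `v' = v₂`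
(`S' = {y | y ≠ y₃}`), and `grd_step` for `v = v₂`, `v' = v₃` (`S'` contains all neighbours `y` of `x`, as there is a
neighbour `y' ≠ y`, `y' ≠ y₃`).
-/

namespace Pool.Agent.H24.GE

open Pool.Agent.H24.GC Pool.Agent.H24.GD

variable {V : Type} {H : SimpleGraph V}

theorem star_two [Finite V] {K : Kit H} {q w v₁ v₂ : K.W} (hU : K.Univ q) (hw : K.gr.Adj q w)
    (h1 : K.gr.Adj w v₁) (h2 : K.gr.Adj w v₂) (hne : v₁ ≠ v₂) {x a₁ a₂ : V}
    (hx : Sim H (K.π w) x) (ha₁ : H.Adj x a₁) (ha₂ : H.Adj x a₂) (haa : a₁ ≠ a₂)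
    (hs₁ : Sim H (K.π v₁) a₁) (hs₂ : Sim H (K.π v₂) a₂) :
    ∃ f : K.W → V, IsCover K.gr H f ∧ f w = x ∧ f v₁ = a₁ ∧ f v₂ = a₂ := by
  have hneπ : K.π v₁ ≠ K.π v₂ := fun h => hne ((K.cov w).injOn h1 h2 h)
  obtain ⟨τw, hτ, e1, e2⟩ := cp_two hx ((K.cov w).mapsTo h1) ha₁ hs₁ ((K.cov w).mapsTo h2) ha₂ hs₂
    hneπ haa
  have hwq : H.Adj (K.π w) (K.π q) := (K.cov w).mapsTo hw.symm
  have hxy : H.Adj x (τw (K.π q)) := (hτ.2 (K.π q)).1 hwq
  obtain ⟨σ, hσ, e3⟩ := cp_one (sim_symm (hτ.1 (K.π q))) hwq.symm hxy.symm hx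
  have h3 : ∀ u, ∃ τ : Equiv.Perm V, (H.Adj (K.π q) u → CP H u (σ u) τ ∧ τ (K.π q) = τw (K.π q)) ∧
      (u = K.π w → τ = τw) := by
    intro u
    by_cases hu : u = K.π w
    · refine ⟨τw, fun _ => ?_, fun _ => rfl⟩
      rw [hu, e3]
      exact ⟨hτ, rfl⟩
    · by_cases hq : H.Adj (K.π q) u
      · obtain ⟨τ, h4, h5⟩ := cp_one (sim_symm (hσ.1 u)) hq.symm ((hσ.2 u).1 hq).symm
          (sim_symm (hτ.1 (K.π q)))
        exact ⟨τ, fun _ => ⟨h4, h5⟩, fun h => absurd h hu⟩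
      · exact ⟨τw, fun h => absurd h hq, fun h => absurd h hu⟩
  choose τ hτ1 hτ2 using h3
  obtain ⟨f, hf, -, h4, h5⟩ := hU (τw (K.π q)) σ τ (sim_symm (hτ.1 (K.π q))) hσ hτ1
  refine ⟨f, hf, (h4 w hw).trans e3, ?_, ?_⟩
  · rw [h5 w v₁ hw h1, hτ2 (K.π w) rfl]
    exact e1
  · rw [h5 w v₂ hw h2, hτ2 (K.π w) rfl]
    exact e2

/-- `v` and all its neighbours are not cut vertices and have at least three neighbours -/
def GV (H : SimpleGraph V) (v : V) : Prop := NV H v ∧ ∀ c, H.Adj v c → NV H c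

private theorem FGuard_nv_iso [Finite V] (α : H ≃g H) {v : V} (h : NV H v) : NV H (α v) := by
  constructor
  · have e : H.neighborSet (α v) = α '' (H.neighborSet v) := by
      ext u
      constructor
      · intro hu
        refine ⟨α.symm u, ?_, α.apply_symm_apply u⟩
        have h1 : H.Adj (α v) (α (α.symm u)) := by
          rw [α.apply_symm_apply]
          exact hu
        exact (α.map_adj_iff).1 h1
      · rintro ⟨u, hu, rfl⟩
        exact (α.map_adj_iff).2 hu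
    rw [e, Set.ncard_image_of_injective _ α.injective]
    exact h.1
  · intro S hS hv hu
    obtain ⟨s, hs⟩ := hS
    obtain ⟨u, hu1, hu2⟩ := hu
    obtain ⟨s', hs', u', hu', hne, hadj⟩ := h.2 (α ⁻¹' S)
      ⟨α.symm s, by
        show α (α.symm s) ∈ S
        rw [α.apply_symm_apply]
        exact hs⟩ hv
      ⟨α.symm u, by
        show ¬ (α (α.symm u) ∈ S)
        rw [α.apply_symm_apply]
        exact hu1, by
        intro he
        apply hu2
        rw [← he, α.apply_symm_apply]⟩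
    exact ⟨α s', hs', α u', hu', fun he => hne (α.injective he), (α.map_adj_iff).2 hadj⟩

theorem gv_iso [Finite V] (α : H ≃g H) {v : V} (h : GV H v) : GV H (α v) := by
  refine ⟨FGuard_nv_iso α h.1, fun c hc => ?_⟩
  have h1 : H.Adj v (α.symm c) := by
    have h2 : H.Adj (α v) (α (α.symm c)) := by
      rw [α.apply_symm_apply]
      exact hc
    exact (α.map_adj_iff).1 h2
  have h3 := FGuard_nv_iso α (h.2 _ h1)
  rw [α.apply_symm_apply] at h3
  exact h3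

/-- a guard -/
structure Grd (H : SimpleGraph V) (x : V) (K : Kit H) (r : K.W × K.W) (S : Set V) : Prop where
  adj : K.gr.Adj r.1 r.2
  tl : K.π r.1 = x
  str : Straight H K.gr K.π (cut1 r)
  val : ∀ g, IsCover K.gr H g → GV H (g r.1)
  full : ∀ y ∈ S, ∃ g, IsCover K.gr H g ∧ g r.1 = x ∧ g r.2 = y
  deg : ∀ w, ∃ w', K.gr.Adj w w'

theorem grd_ring [Finite V] (hcon : H.Connected) {x y : V} (hx : GV H x) (hxy : H.Adj x y) :
    ∃ (K : Kit H) (r : K.W × K.W), Grd H x K r {y} ∧ K.π r.2 = y := by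
  obtain ⟨K, r, hr, hπ, hstr, hval, hdeg⟩ := exists_ring hcon hxy (nv_nb (e := (x, y)) hx.1)
  have e1 : K.π r.1 = x := congrArg Prod.fst hπ
  have e2 : K.π r.2 = y := congrArg Prod.snd hπ
  refine ⟨K, r, ⟨hr, e1, hstr, ?_, ?_, hdeg⟩, e2⟩
  · intro g hg
    obtain ⟨α, hα⟩ := hval g hg
    have e3 : g r.1 = α x := congrArg Prod.fst hα
    rw [e3]
    exact gv_iso α hx
  · intro y' hy'
    refine ⟨K.π, K.cov, e1, ?_⟩
    rw [Set.mem_singleton_iff.1 hy']
    exact e2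

theorem grd_step [Finite V] (hcon : H.Connected) {x : V}
    (hLf : ∀ y y', H.Adj x y → H.Adj x y' → Sim H y y') {K : Kit H} {M : ℕ} (hM : K.Mult M)
    (hdeg : ∀ w, ∃ w', K.gr.Adj w w') {q w v v' : K.W} (hU : K.Univ q) (hw : K.gr.Adj q w)
    (hwx : K.π w = x) (hv : K.gr.Adj w v) (hv' : K.gr.Adj w v') (hne : v ≠ v') {K' : Kit H}
    {r' : K'.W × K'.W} {S : Set V} (hG : Grd H x K' r' S) (hπ : K'.π r'.2 = K.π v)
    (hS : S ⊆ H.neighborSet x) :
    ∃ (K'' : Kit H) (r'' : K''.W × K''.W),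
      Grd H x K'' r'' {y | H.Adj x y ∧ ∃ y' ∈ S, y' ≠ y} ∧ K''.π r''.2 = K.π v' := by
  have hh : (K.π (w, v).1, K.π (w, v).2) = (K'.π r'.1, K'.π r'.2) := by
    show (K.π w, K.π v) = (K'.π r'.1, K'.π r'.2)
    rw [hwx, hG.tl, hπ]
  have hne1 : (w, v') ≠ (w, v) := fun he => hne (congrArg Prod.snd he).symm
  have hne2 : (w, v') ≠ (w, v).swap := fun he => hv.ne (congrArg Prod.fst he)
  refine ⟨insK K (w, v) K' r' hv hG.adj hh, (Sum.inl w, Sum.inl v'), ⟨?_, hwx, ?_, ?_, ?_, ?_⟩, rfl⟩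
  · exact ⟨hv', hne1, hne2⟩
  · refine ins_straight (r := (w, v)) hv hG.adj hh hG.str (r₀ := (w, v')) hv' hne1 hne2 ?_
    intro f φ hp hg
    obtain ⟨g, hg1, hg2⟩ := hg
    have e1 : g r'.1 = f w := congrArg Prod.fst hg2
    have h1 := (hG.val g hg1).1
    rw [e1] at h1
    exact sv_one hcon hM (r := (w, v')) hv' hp (Or.inl (nv_nb (e := av f φ (w, v')) h1))
  · intro g hg
    have hp : PCov H (insG K.gr (w, v) K'.gr r') (Sum.elim K.π K'.π) (fun _ _ => False) g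
        (fun _ b => g b) := by
      have hcov := ins_cover (r := (w, v)) hv hG.adj K.cov K'.cov hh
      exact ⟨fun a => hg a, fun _ _ _ _ _ => rfl, fun a => cover_sim hg hcov a,
        fun _ b _ => cover_sim hg hcov b⟩
    obtain ⟨-, ⟨g', hg1, hg2, -⟩, -⟩ := ins_pcov (r := (w, v)) hv hG.adj hh hG.str
      (cut := fun _ _ => False) ⟨not_false, not_false⟩
      (fun a b => ⟨fun h => h.elim, fun ⟨_, _, _, _, h⟩ => h⟩) hp
    have e1 : g' r'.1 = g (Sum.inl w) := congrArg Prod.fst hg2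
    have h1 := hG.val g' hg1
    rw [e1] at h1
    exact h1
  · rintro y ⟨hxy, y', hy', hyy⟩
    have hxy' : H.Adj x y' := hS hy'
    have e1 : H.Adj x (K.π v') := by
      rw [← hwx]
      exact (K.cov w).mapsTo hv'
    have e2 : H.Adj x (K.π v) := by
      rw [← hwx]
      exact (K.cov w).mapsTo hv
    obtain ⟨f, hf, f1, f2, f3⟩ := star_two hU hw hv' hv hne.symm (x := x) (a₁ := y) (a₂ := y')
      (by rw [hwx]; exact sim_refl H x) hxy hxy' hyy.symm (hLf _ _ e1 hxy) (hLf _ _ e2 hxy')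
    obtain ⟨g, hg, g1, g2⟩ := hG.full y' hy'
    refine ⟨Sum.elim f g, ins_cover (r := (w, v)) hv hG.adj hf hg ?_, f1, f2⟩
    show (f w, f v) = (g r'.1, g r'.2)
    rw [f1, f3, g1, g2]
  · exact ins_deg (r := (w, v)) hv hG.adj hh hdeg hG.deg

theorem exists_guard [Finite V] (hcon : H.Connected) {x : V} (hx : GV H x)
    (hLf : ∀ y y', H.Adj x y → H.Adj x y' → Sim H y y') {K : Kit H} {M : ℕ} (hM : K.Mult M)
    (hdeg : ∀ w, ∃ w', K.gr.Adj w w') {q w : K.W} (hU : K.Univ q) (hw : K.gr.Adj q w)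
    (hwx : K.π w = x) :
    ∃ (v₂ v₃ : K.W) (K' : Kit H) (r' : K'.W × K'.W), K.gr.Adj w v₂ ∧ K.gr.Adj w v₃ ∧
      v₂ ≠ q ∧ v₃ ≠ q ∧ v₂ ≠ v₃ ∧ Grd H x K' r' (H.neighborSet x) ∧ K'.π r'.2 = K.π v₃ := by
  have h3 : 3 ≤ (H.neighborSet x).ncard := hx.1.1
  have hex : ∀ a b : V, ∃ y, H.Adj x y ∧ y ≠ a ∧ y ≠ b := by
    intro a b
    by_contra hno
    push Not at hno
    have h1 : H.neighborSet x ⊆ {a, b} := by
      intro y hy
      by_cases h2 : y = a
      · exact Or.inl h2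
      · exact Or.inr (hno y hy h2)
    have h2 := Set.ncard_le_ncard h1 (Set.toFinite _)
    have h4 := Set.ncard_insert_le a {b}
    rw [Set.ncard_singleton] at h4
    omega
  obtain ⟨y₂, hy₂, hy₂q, -⟩ := hex (K.π q) (K.π q)
  obtain ⟨y₃, hy₃, hy₃q, hy₃₂⟩ := hex (K.π q) y₂
  obtain ⟨v₂, hv₂, e₂⟩ := lift_adj K (p := w) (y := y₂) (by rw [hwx]; exact hy₂)
  obtain ⟨v₃, hv₃, e₃⟩ := lift_adj K (p := w) (y := y₃) (by rw [hwx]; exact hy₃)
  have hne : v₂ ≠ v₃ := by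
    rintro rfl
    exact hy₃₂ (e₃.symm.trans e₂)
  obtain ⟨K₁, r₁, hG₁, hπ₁⟩ := grd_ring hcon hx hy₃
  obtain ⟨K₂, r₂, hG₂, hπ₂⟩ := grd_step hcon hLf hM hdeg hU hw hwx hv₃ hv₂ hne.symm hG₁
    (hπ₁.trans e₃.symm) (fun y hy => by
      rw [Set.mem_singleton_iff.1 hy]
      exact hy₃)
  obtain ⟨K₃, r₃, hG₃, hπ₃⟩ := grd_step hcon hLf hM hdeg hU hw hwx hv₂ hv₃ hne hG₂ hπ₂
    (fun y hy => hy.1)
  refine ⟨v₂, v₃, K₃, r₃, hv₂, hv₃, ?_, ?_, hne, ?_, hπ₃⟩
  · rintro rfl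
    exact hy₂q e₂.symm
  · rintro rfl
    exact hy₃q e₃.symm
  · refine ⟨hG₃.adj, hG₃.tl, hG₃.str, hG₃.val, ?_, hG₃.deg⟩
    intro y hy
    refine hG₃.full y ⟨hy, ?_⟩
    obtain ⟨y', h4, h5, h6⟩ := hex y₃ y
    exact ⟨y', ⟨h4, y₃, rfl, h5.symm⟩, h6⟩

end Pool.Agent.H24.GE
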