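import Pool.Agent.H24.GE.FTree
import Pool.Agent.H24.GE.FGuard

/-!
# JOB GE-42: the choice of the good vertex

`GV H x` (file `FGuard`): `x` and its neighbours satisfy `NV` (file `FNc`).
`tree_good`. A pair `(v, S)` is bad if `S ≠ ∅`, `v ∉ S`, there is `u ∉ S`, `u ≠ v`, and no edge joins `S` to the complement
of `S ∪ {v}`. By `hd3`, `NV H v` holds iff there is no bad pair `(v, S)`.
(1) No bad pair: take any `t`, `d` from `tree_level`, and `x` with `d x` maximal. The neighbours `y` of `x` satisfy
`d x = d y + 1` (otherwise `d y = d x + 1`), so they are pairwise related.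
(2) Otherwise let `(t, S)` be a bad pair with `S.ncard` minimal. Claim: `NV H s` for all `s ∈ S`. Let `(s, A)` be a bad
pair. Replacing `A` by the complement of `A ∪ {s}` (this is a bad pair too) we may assume `t ∉ A` (`t ≠ s`). Let
`A₁ = A \ S`. An edge from `a ∈ A₁` goes to `A ∪ {s}`; it does not go to `S` (as `a ∉ S ∪ {t}`, and there is no edge from
`S` to such an `a`), so it goes to `A₁`. As `H` is connected and `s ∉ A₁`, `A₁ = ∅`. So `A ⊆ S \ {s}`, contradiction to the
minimality.
So it is enough to find `x ∈ S` all of whose neighbours are in `S` and pairwise related. All neighbours of an element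
of `S` are in `S ∪ {t}`. Let `d` be from `tree_level` for `t`, and `x₁ ∈ S` with `d x₁` maximal (on `S`). The neighbours `y` of
`x₁` satisfy `d x₁ = d y + 1`: otherwise `0 < d y = d x₁ + 1`, so `y ≠ t`, `y ∈ S`, contradiction. So `1 ≤ d x₁` and the
neighbours of `x₁` are pairwise related. If `2 ≤ d x₁` then `t` is not a neighbour of `x₁` (`d t = 0`), so `x = x₁`. If
`d x₁ = 1`: let `y ∈ S` be a neighbour of `x₁`, `y ≠ t`; `d y = 0`, so `R t y`. Suppose that all neighbours of `y` are
neighbours of `t`. For a neighbour `v` of `t` the set `{w | H.Adj y w ∧ R w v}` is contained in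
`{w | H.Adj t w ∧ R w v}` and has the same number of elements (`eq`), so `v` is a neighbour of `y`. So the neighbours of `t`
are neighbours of `y`, so in `S` (they are in `S ∪ {t}`), `S ∪ {t}` is closed under neighbours, and by connectedness it
is everything, contradiction to the definition of a bad pair. So there is a neighbour `x` of `y` which is not a
neighbour of `t`. `x ≠ t` (`irr`, `R t y`), so `x ∈ S`; `d x = 1` (`≤ d x₁ = 1`, and it differs from `d y = 0`). Its neighbours
are in `S` and satisfy `d = 0` (`d ≤ 1` on `S`), so they are pairwise related.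
-/

namespace Pool.Agent.H24.GE

open Pool.Agent.H24.GC

variable {V : Type} {H : SimpleGraph V}

private def FGoodBad (H : SimpleGraph V) (v : V) (S : Set V) : Prop :=
  S.Nonempty ∧ v ∉ S ∧ (∃ u, u ∉ S ∧ u ≠ v) ∧ ∀ s ∈ S, ∀ u, u ∉ S → u ≠ v → ¬ H.Adj s u

private theorem FGood_closed (hcon : H.Connected) {C : Set V}
    (hcl : ∀ a ∈ C, ∀ b, H.Adj a b → b ∈ C) {a : V} (ha : a ∈ C) (b : V) : b ∈ C := by
  obtain ⟨p⟩ := hcon.preconnected a b
  induction p with
  | nil => exact ha
  | cons h p ih => exact ih (hcl _ ha _ h)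

private theorem FGood_nv (hd3 : ∀ v, 3 ≤ (H.neighborSet v).ncard) {v : V}
    (h : ∀ S, ¬ FGoodBad H v S) : NV H v := by
  refine ⟨hd3 v, fun S hS hv hu => ?_⟩
  by_contra hno
  push Not at hno
  exact h S ⟨hS, hv, hu, fun s hs u hu1 hu2 => hno s hs u hu1 hu2⟩

private theorem FGood_compl {v : V} {S : Set V} (h : FGoodBad H v S) :
    FGoodBad H v {u | u ∉ S ∧ u ≠ v} := by
  obtain ⟨⟨s, hs⟩, hv, ⟨u, hu⟩, hno⟩ := h
  refine ⟨⟨u, hu⟩, fun hc => hc.2 rfl, ⟨s, fun hc => hc.1 hs, fun e => hv (by rw [← e]; exact hs)⟩,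
    fun a ha b hb1 hb2 hab => ?_⟩
  have hb : b ∈ S := by
    by_contra hc
    exact hb1 ⟨hc, hb2⟩
  exact hno b hb a ha.1 ha.2 hab.symm

private theorem FGood_claim [Finite V] (hcon : H.Connected)
    (hd3 : ∀ v, 3 ≤ (H.neighborSet v).ncard) {t : V} {S : Set V} (hb : FGoodBad H t S)
    (hmin : ∀ t' S', FGoodBad H t' S' → S.ncard ≤ S'.ncard) {s : V} (hs : s ∈ S) : NV H s := by
  refine FGood_nv hd3 fun A₀ hA₀ => ?_
  have hts : t ≠ s := fun e => hb.2.1 (by rw [e]; exact hs)
  obtain ⟨A, hA, htA⟩ : ∃ A, FGoodBad H s A ∧ t ∉ A := by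
    by_cases h : t ∈ A₀
    · exact ⟨_, FGood_compl hA₀, fun hc => hc.1 h⟩
    · exact ⟨A₀, hA₀, h⟩
  have hsub : A ⊆ S := by
    intro a ha
    by_contra haS
    have hcl : ∀ a ∈ A \ S, ∀ b, H.Adj a b → b ∈ A \ S := by
      intro a ha b hab
      have hbS : b ∉ S := by
        intro hbS
        exact hb.2.2.2 b hbS a ha.2 (fun e => htA (by rw [← e]; exact ha.1)) hab.symm
      refine ⟨?_, hbS⟩
      by_contra hbA
      exact hA.2.2.2 a ha.1 b hbA (fun e => hbS (by rw [e]; exact hs)) hab
    exact (FGood_closed hcon hcl (a := a) ⟨ha, haS⟩ s).2 hs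
  have hss : A ⊂ S := by
    refine ⟨hsub, fun hc => hA.2.1 (hc hs)⟩
  have h1 := Set.ncard_lt_ncard hss (Set.toFinite S)
  have h2 := hmin s A hA
  omega

theorem tree_good [Finite V] (hcon : H.Connected) (hd3 : ∀ v, 3 ≤ (H.neighborSet v).ncard)
    {R : V → V → Prop} (hT : TreeP H R) :
    ∃ x, GV H x ∧ ∀ y y', H.Adj x y → H.Adj x y' → R y y' := by
  by_cases hbad : ∃ t S, FGoodBad H t S
  · have hex : ∃ n, ∃ t S, FGoodBad H t S ∧ S.ncard = n := by
      obtain ⟨t, S, h⟩ := hbad
      exact ⟨_, t, S, h, rfl⟩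
    classical
    obtain ⟨t, S, hb, hn⟩ := Nat.find_spec hex
    have hmin : ∀ t' S', FGoodBad H t' S' → S.ncard ≤ S'.ncard := by
      intro t' S' h
      rw [hn]
      exact Nat.find_min' hex ⟨t', S', h, rfl⟩
    have hNV : ∀ s ∈ S, NV H s := fun s hs => FGood_claim hcon hd3 hb hmin hs
    have hnb : ∀ s ∈ S, ∀ u, H.Adj s u → u ≠ t → u ∈ S := by
      intro s hs u hsu hut
      by_contra hc
      exact hb.2.2.2 s hs u hc hut hsu
    -- enough
    suffices hx : ∃ x ∈ S, (¬ H.Adj x t) ∧ ∀ y y', H.Adj x y → H.Adj x y' → R y y' by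
      obtain ⟨x, hxS, hxt, hR⟩ := hx
      refine ⟨x, ⟨hNV x hxS, fun c hc => hNV c (hnb x hxS c hc ?_)⟩, hR⟩
      intro e
      rw [e] at hc
      exact hxt hc
    obtain ⟨d, hd0, hd1, hd2, hd4⟩ := tree_level hcon hT t
    have hdt : d t = 0 := (hd0 t).2 (hT.refl t)
    obtain ⟨x₁, hx₁, hmax⟩ := Set.exists_max_image S d (Set.toFinite S) hb.1
    have hdx : ∀ y, H.Adj x₁ y → d x₁ = d y + 1 := by
      intro y hy
      rcases hd1 x₁ y hy with h | h
      · have hyt : y ≠ t := by
          intro e
          rw [e, hdt] at h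
          omega
        have := hmax y (hnb x₁ hx₁ y hy hyt)
        omega
      · exact h
    by_cases h2 : 2 ≤ d x₁
    · refine ⟨x₁, hx₁, ?_, ?_⟩
      · intro hc
        have := hdx t hc
        omega
      · intro y y' hy hy'
        exact hd4 x₁ y y' hy hy' (hdx y hy) (hdx y' hy')
    · obtain ⟨y, hy, hyt, -⟩ := fnc_three (hd3 x₁) t t
      have hyS : y ∈ S := hnb x₁ hx₁ y hy hyt
      have hdy : d y = 0 := by
        have := hdx y hy
        omega
      have hdx1 : d x₁ = 1 := by
        have := hdx y hy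
        omega
      have hty : R t y := (hd0 y).1 hdy
      have hexx : ∃ x, H.Adj y x ∧ ¬ H.Adj t x := by
        by_contra hno
        push Not at hno
        have hback : ∀ v, H.Adj t v → H.Adj y v := by
          intro v hv
          have hsub : {w | H.Adj y w ∧ R w v} ⊆ {w | H.Adj t w ∧ R w v} :=
            fun w hw => ⟨hno w hw.1, hw.2⟩
          have heq := Set.eq_of_subset_of_ncard_le hsub (le_of_eq (hT.eq t y hty v))
            (Set.toFinite _)
          have hm : v ∈ {w | H.Adj t w ∧ R w v} := ⟨hv, hT.refl v⟩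
          rw [← heq] at hm
          exact hm.1
        have hcl : ∀ a ∈ insert t S, ∀ b, H.Adj a b → b ∈ insert t S := by
          intro a ha b hab
          rcases Set.mem_insert_iff.1 ha with rfl | haS
          · exact Set.mem_insert_of_mem _ (hnb y hyS b (hback b hab) hab.ne.symm)
          · by_cases hbt : b = t
            · rw [hbt]
              exact Set.mem_insert _ _
            · exact Set.mem_insert_of_mem _ (hnb a haS b hab hbt)
        obtain ⟨u, hu1, hu2⟩ := hb.2.2.1
        rcases Set.mem_insert_iff.1 (FGood_closed hcon hcl (Set.mem_insert t S) u) with h | h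
        · exact hu2 h
        · exact hu1 h
      obtain ⟨x, hx1, hx2⟩ := hexx
      have hxt : x ≠ t := by
        intro e
        rw [e] at hx1
        exact hT.irr y t hx1 (hT.symm _ _ hty)
      have hxS : x ∈ S := hnb y hyS x hx1 hxt
      have hdx' : d x = 1 := by
        rcases hd1 y x hx1 with h | h <;> omega
      have hxt' : ¬ H.Adj x t := fun hc => hx2 hc.symm
      have hz : ∀ z, H.Adj x z → d x = d z + 1 := by
        intro z hxz
        have hzt : z ≠ t := by
          intro e
          rw [e] at hxz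
          exact hxt' hxz
        have h3 := hmax z (hnb x hxS z hxz hzt)
        rcases hd1 x z hxz with h | h <;> omega
      exact ⟨x, hxS, hxt', fun z z' h h' => hd4 x z z' h h' (hz z h) (hz z' h')⟩
  · push Not at hbad
    have hNV : ∀ v, NV H v := fun v => FGood_nv hd3 (hbad v)
    obtain ⟨t⟩ := hcon.nonempty
    obtain ⟨d, hd0, hd1, hd2, hd4⟩ := tree_level hcon hT t
    obtain ⟨x, -, hmax⟩ := Set.exists_max_image Set.univ d Set.finite_univ ⟨t, Set.mem_univ t⟩
    have hz : ∀ z, H.Adj x z → d x = d z + 1 := by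
      intro z hxz
      have h3 := hmax z (Set.mem_univ z)
      rcases hd1 x z hxz with h | h <;> omega
    exact ⟨x, ⟨hNV x, fun c _ => hNV c⟩, fun z z' h h' => hd4 x z z' h h' (hz z h) (hz z' h')⟩

end Pool.Agent.H24.GE
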