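import Pool.Agent.H24.GE.FDc
import Pool.Agent.H24.GD.CoreF

/-!
# JOB GE-44: covers of instance graphs can be lifted to the double cover

`dc_up`: `K` is a kit of the double cover `dcG H` (file `FDc`). Let `F` be a cover of the graph `I.graph K.gr` to `H`, and
`ρ (q, w) = (K.π w).1`. (1) `ρ` is typed (`Typed`, file `Pool.Agent.H24.GC.Types`): for the vertex `(q, w)` let `nu` be from
`exists_nu` (file `Pool.Agent.H24.GC.CoreA`, as in the proof of `core_fwd`): a bijection `nu q w` from the neighbours `w'` of `w`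
in `K.gr` to the neighbours of `(q, w)`, and `K.π (nu q w w').2` and `K.π w'` are related by `DR H` (as `hnu` in the proof of
`core_fwd`, with `h1`, `h2` in place of `sim1`, `sim2`; `DR` is reflexive and symmetric). As `w' ↦ (K.π w').1` is a
bijection from the neighbours of `w` to those of `(K.π w).1` (`K.cov`, `dc_cover`), `Typed` follows. So
`Sim H (F (q, w)) (K.π w).1` by `sim_of_cover`.
(2) Let `F' (q, w) = (F (q, w), (K.π w).2)`. It is a cover of `dcG H`: let `(q', w'')` be the neighbour `nu q w w'` of `(q, w)`.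
`(K.π w'').2 = (K.π w').2` and `(K.π w).2 ≠ (K.π w').2 ↔ Sim H (K.π w).1 (K.π w').1`, which is equivalent to
`Sim H (F (q, w)) (F (q', w''))` by (1) (and `Sim H (K.π w'').1 (K.π w').1`). So `F'` maps edges to edges. It is
injective on the neighbourhoods as `F` is. Surjective: a neighbour `(v, b)` of `F' (q, w)`: `v` is a neighbour of `F (q, w)`, so
`v = F x` for a neighbour `x` of `(q, w)`; `F' x = (v, b')` is a neighbour of `F' (q, w)`, and `b' = b` as both are determined by
`F' (q, w)` and `v`.
-/

namespace Pool.Agent.H24.GE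

open Pool.Agent.H24.GC Pool.Agent.H24.GD

variable {V : Type} {H : SimpleGraph V}

theorem dc_up [Finite V] {K : Kit (dcG H)} {I : Inst K.W} (hI : Fine K I)
    (h1 : ∀ o, DR H (K.π (I.ar (I.sg o)).1) (K.π (I.ar o).1))
    (h2 : ∀ o, DR H (K.π (I.ar (I.sg o)).2) (K.π (I.ar o).2))
    (hF : Covers (I.graph K.gr) H) : Covers (I.graph K.gr) (dcG H) := by
  classical
  obtain ⟨nu, hbij, hin1, hin2, hv1, hv2, hc1, hc2⟩ := exists_nu (g := K.gr) hI.adj hI.inj
  obtain ⟨F, hF⟩ := hF
  -- the values of `nu` up to `DR`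
  have hnu : ∀ q w w', K.gr.Adj w w' → DR H (K.π w') (K.π (nu q w w').2) := by
    intro q w w' hw
    have hrefl : DR H (K.π w') (K.π w') := ⟨sim_refl H _, rfl⟩
    rcases q with p | o
    · rcases coreB_cases I p w w' with ⟨o, ho, har⟩ | ⟨o, ho, har⟩ | hun
      · have e := hv1 o
        rw [ho, har] at e
        rw [e]
        exact hrefl
      · have e := hc2 (I.sg.symm o)
        have h3 := h1 (I.sg.symm o)
        rw [Equiv.apply_symm_apply] at e h3
        rw [ho, har] at e
        rw [e]
        rw [har] at h3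
        exact h3
      · rw [hin1 p w w' hw hun]
        exact hrefl
    · by_cases h3 : I.ar o = (w, w')
      · have e := hc1 o
        rw [h3] at e
        rw [e]
        have h4 := h2 o
        rw [h3] at h4
        exact ⟨sim_symm h4.1, h4.2.symm⟩
      · by_cases h4 : I.ar o = (w', w)
        · have e := hv2 o
          rw [h4] at e
          rw [e]
          exact hrefl
        · rw [hin2 o w w' hw h3 h4]
          exact hrefl
  have htyped : Typed (I.graph K.gr) H (fun x : I.Vx => (K.π x.2).1) := by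
    rintro ⟨q, w⟩
    have hne : Nonempty K.W := ⟨w⟩
    have hb := hbij q w
    refine ⟨fun b => (K.π (Function.invFunOn (nu q w) (K.gr.neighborSet w) b)).1, ?_, ?_⟩
    · refine coreB_bijOn hb ?_
      have hcov := (dc_cover H (K.π w)).comp (K.cov w)
      refine hcov.congr ?_
      intro w' hw'
      show (K.π w').1 =
        (K.π (Function.invFunOn (nu q w) (K.gr.neighborSet w) (nu q w w'))).1
      rw [hb.injOn.leftInvOn_invFunOn hw']
    · intro b hadj
      obtain ⟨w', hw', e⟩ := hb.surjOn (show b ∈ (I.graph K.gr).neighborSet (q, w) from hadj)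
      have e2 : Function.invFunOn (nu q w) (K.gr.neighborSet w) b = w' := by
        rw [← e]
        exact hb.injOn.leftInvOn_invFunOn hw'
      show Sim H (K.π (Function.invFunOn (nu q w) (K.gr.neighborSet w) b)).1 (K.π b.2).1
      rw [e2, ← e]
      exact (hnu q w w' hw').1
  have hsim : ∀ x : I.Vx, Sim H (F x) (K.π x.2).1 := fun x => sim_of_cover htyped hF x
  -- edges of the instance graph
  have hedge : ∀ x y : I.Vx, (I.graph K.gr).Adj x y →
      ((K.π x.2).2 ≠ (K.π y.2).2 ↔ Sim H (F x) (F y)) := by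
    rintro ⟨q, w⟩ y hxy
    obtain ⟨w', hw', e⟩ := (hbij q w).surjOn
      (show y ∈ (I.graph K.gr).neighborSet (q, w) from hxy)
    have h3 := hnu q w w' hw'
    rw [e] at h3
    have h4 : (dcG H).Adj (K.π w) (K.π w') := (K.cov w).mapsTo hw'
    have h5 := h4.2
    show (K.π w).2 ≠ (K.π y.2).2 ↔ Sim H (F (q, w)) (F y)
    rw [← h3.2, h5]
    have s1 := hsim (q, w)
    have s2 := hsim y
    constructor
    · intro h
      exact sim_trans s1 (sim_trans h (sim_trans h3.1 (sim_symm s2)))
    · intro h
      exact sim_trans (sim_symm s1) (sim_trans h (sim_trans s2 (sim_symm h3.1)))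
  refine ⟨fun x => (F x, (K.π x.2).2), ?_⟩
  intro x
  refine ⟨?_, ?_, ?_⟩
  · intro y hy
    exact ⟨(hF x).mapsTo hy, hedge x y hy⟩
  · intro y hy z hz hyz
    exact (hF x).injOn hy hz (congrArg Prod.fst hyz)
  · rintro ⟨v, b⟩ hvb
    have hvb' : H.Adj (F x) v ∧ ((K.π x.2).2 ≠ b ↔ Sim H (F x) v) := hvb
    obtain ⟨y, hy, rfl⟩ := (hF x).surjOn (show v ∈ H.neighborSet (F x) from hvb'.1)
    refine ⟨y, hy, Prod.ext rfl ?_⟩
    have h6 := (hedge x y hy).trans hvb'.2.symm
    show (K.π y.2).2 = b
    revert h6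
    generalize (K.π x.2).2 = a
    generalize (K.π y.2).2 = c
    cases a <;> cases b <;> cases c <;> simp

end Pool.Agent.H24.GE
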