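import Pool.Agent.H24.GE.Loll

/-!
# JOB GE-28: the choice of the leaf class

`live_all`: every vertex has a live neighbour. By connectedness it suffices to show: if `H.Adj a b` and `Live H b e`
then there is `e'` with `Live H a e'`, `CA H a e'` (for `live_all` replace `e'` by a neighbour of `a`, `live_congr`).
Let `w` be the walk of `Live H b e`. If `e ≁ a`: the walk `a, w 0, w 1, ...` shows `Live H a b`. If `e ~ a`:
the walk `w 1, w 2, ...` shows `Live H (w 1) (w 2)`, so `Live H a (w 2)` (`live_congr`).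
`dead_wf`: the relation `(b, e) ◁ (a, b')` iff `Sim b b'`, `CA H b e`, `¬ Sim e a`, and both pairs are dead, has no infinite
descending chain (it would be an infinite walk, replace the vertices by similar ones), so every nonempty set of
dead pairs has a minimal element.
`exists_nd`. (1) Suppose there is a dead pair `(a, b)` (`H.Adj a b`, `¬ Live H a b`) with `¬ Lf H b`; take a minimal one.
If `H.Adj b e`, `e ≁ a` then `(b, e)` is dead (a walk of `Live H b e` preceded by `a` shows `Live H a b`), so `Lf H e`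
by minimality. There is such an `e` as `¬ Lf H b`. Let `d = b`, `c = e`. `b` has a live neighbour
(`live_all`), it is similar to `a`; so all neighbours of `b` similar to `a` are live. (2) Otherwise take `c` with
`Lf H c`, and a (live) neighbour `d` of `c`.
Remaining: if `H.Adj d e`, `Lf H e` and `d` has a neighbour which is not similar to `e`, or a live neighbour, then
`¬ Sim H e d`: if `e ~ d` then `Lf H d`, all neighbours of `d` are similar to `e ~ d`; so no neighbour is
not similar to `e`, and no neighbour `e'` is live: `w 1 ~ e' ~ d` and `w 2` is in the class of a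
neighbour of `w 1 ~ d`, so `w 2 ~ d = w 0`. In (2) the neighbours `e` of `d` with `¬ Live H d e` satisfy `Lf H e`, by the
assumption of (2). `¬ Sim H c d` in (2): the same with the live neighbour of `d`.
-/

namespace Pool.Agent.H24.GE

open Pool.Agent.H24.GC Pool.Agent.H24.GD

variable {V : Type} {H : SimpleGraph V}

theorem nd_pre [Finite V] {a b e : V} (hab : CA H a b) (h : Live H b e) (hne : ¬ Sim H e a) :
    Live H a b := by
  obtain ⟨w, e0, e1, e2, e3⟩ := h
  refine ⟨fun i => Nat.casesOn i a w, rfl, e0, ?_, ?_⟩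
  · intro i
    cases i with
    | zero =>
      show CA H a (w 0)
      rw [e0]
      exact hab
    | succ i => exact e2 i
  · intro i
    cases i with
    | zero =>
      show ¬ Sim H a (w 1)
      rw [e1]
      exact fun h => hne (sim_symm h)
    | succ i => exact e3 i

theorem nd_step [Finite V] {a b : V} (hab : H.Adj a b) (h : ∃ e, Live H b e) :
    ∃ e, Live H a e := by
  obtain ⟨e, he⟩ := h
  by_cases hs : Sim H e a
  · obtain ⟨w, e0, e1, e2, e3⟩ := he
    have h1 : Live H (w 1) (w 2) := ⟨fun i => w (i + 1), rfl, rfl, fun i => e2 (i + 1),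
      fun i => e3 (i + 1)⟩
    exact ⟨w 2, live_congr h1 (by rw [e1]; exact hs) (sim_refl H _)⟩
  · exact ⟨b, nd_pre ⟨b, hab, sim_refl H b⟩ he hs⟩

theorem live_all [Finite V] (hc : H.Connected) (hl : ∃ x y, Live H x y) (v : V) :
    ∃ e, H.Adj v e ∧ Live H v e := by
  obtain ⟨x, y, hxy⟩ := hl
  have key : ∃ e, Live H v e := by
    obtain ⟨p⟩ := hc.preconnected v x
    induction p with
    | nil => exact ⟨y, hxy⟩
    | cons h _ ih => exact nd_step h (ih hxy)
  obtain ⟨e, he⟩ := key
  obtain ⟨w, e0, e1, e2, e3⟩ := id he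
  have h1 := e2 0
  rw [e0, e1] at h1
  obtain ⟨z, hz, hs⟩ := h1
  exact ⟨z, hz, live_congr he (sim_refl H _) (sim_symm hs)⟩

/-- a smaller dead pair -/
def DeadR (H : SimpleGraph V) (s t : V × V) : Prop :=
  Sim H s.1 t.2 ∧ H.Adj s.1 s.2 ∧ ¬ Sim H s.2 t.1 ∧ ¬ Live H s.1 s.2 ∧ ¬ Live H t.1 t.2 ∧
    H.Adj t.1 t.2

theorem dead_wf [Finite V] (H : SimpleGraph V) : WellFounded (DeadR H) := by
  rw [wellFounded_iff_isEmpty_descending_chain]
  refine ⟨fun ⟨f, hf⟩ => ?_⟩
  obtain ⟨_, _, _, _, h5, _⟩ := hf 0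
  apply h5
  have h1 : Live H (f 0).1 (f 1).1 := by
    refine ⟨fun i => (f i).1, rfl, rfl, ?_, ?_⟩
    · intro i
      obtain ⟨k1, _, _, _, _, k6⟩ := hf i
      exact ⟨(f i).2, k6, sim_symm k1⟩
    · intro i hi
      obtain ⟨_, _, k3, _, _, _⟩ := hf i
      obtain ⟨l1, _, _, _, _, _⟩ := hf (i + 1)
      exact k3 (sim_symm (sim_trans hi l1))
  exact live_congr h1 (sim_refl H _) (hf 0).1

theorem nd_leaf [Finite V] {d e e' : V} (hde : H.Adj d e) (hl : Lf H e) (hde' : H.Adj d e')
    (hlive : Live H d e') : ¬ Sim H e d := by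
  intro hs
  have hd : Lf H d := lf_congr hl hs
  obtain ⟨w, e0, e1, e2, e3⟩ := hlive
  have h1 : Sim H (w 1) d := by
    rw [e1]
    exact sim_trans (hd e' e hde' hde) hs
  obtain ⟨z, hz1, hz2⟩ := ca_left (e2 1) (sim_symm h1)
  apply e3 0
  rw [e0]
  exact sim_symm (sim_trans (sim_trans (sim_symm hz2) (hd z e hz1 hde)) hs)

theorem exists_nd [Finite V] (hc : H.Connected) (hl : ∃ x y, Live H x y)
    (hnm : ∃ c, Lf H c) :
    ∃ d c, H.Adj d c ∧ Lf H c ∧ ¬ Sim H c d ∧ (∃ e, H.Adj d e ∧ Live H d e) ∧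
      ∀ e, H.Adj d e → Live H d e ∨ (Lf H e ∧ ¬ Sim H e d) := by
  have hall := live_all hc hl
  have hns : ∀ d e, H.Adj d e → Lf H e → ¬ Sim H e d := fun d e hde he => by
    obtain ⟨e', h1, h2⟩ := hall d
    exact nd_leaf hde he h1 h2
  have hfin : ∀ d c, H.Adj d c → Lf H c → (∀ e, H.Adj d e → Live H d e ∨ Lf H e) →
      ∃ d c, H.Adj d c ∧ Lf H c ∧ ¬ Sim H c d ∧ (∃ e, H.Adj d e ∧ Live H d e) ∧
        ∀ e, H.Adj d e → Live H d e ∨ (Lf H e ∧ ¬ Sim H e d) := fun d c hdc hc h =>
    ⟨d, c, hdc, hc, hns d c hdc hc, hall d, fun e he => (h e he).imp id fun h1 =>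
      ⟨h1, hns d e he h1⟩⟩
  by_cases hdead : ∃ s : V × V, H.Adj s.1 s.2 ∧ ¬ Live H s.1 s.2 ∧ ¬ Lf H s.2
  · obtain ⟨⟨a, b⟩, ⟨hab, hnl, hnf⟩, hmin⟩ := (dead_wf H).has_min
      {s : V × V | H.Adj s.1 s.2 ∧ ¬ Live H s.1 s.2 ∧ ¬ Lf H s.2} hdead
    simp only at hab hnl hnf
    have hd : ∀ e, H.Adj b e → ¬ Sim H e a → ¬ Live H b e := fun e _ hne hlv =>
      hnl (nd_pre ⟨b, hab, sim_refl H b⟩ hlv hne)
    have hf : ∀ e, H.Adj b e → ¬ Sim H e a → Lf H e := by
      intro e he hne
      by_contra hcon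
      exact hmin (b, e) ⟨he, hd e he hne, hcon⟩ ⟨sim_refl H b, he, hne, hd e he hne, hnl, hab⟩
    obtain ⟨e, he, hne⟩ : ∃ e, H.Adj b e ∧ ¬ Sim H e a := by
      by_contra hcon
      push Not at hcon
      exact hnf fun x y hx hy => sim_trans (hcon x hx) (sim_symm (hcon y hy))
    refine hfin b e he (hf e he hne) fun e' he' => ?_
    by_cases hs : Sim H e' a
    · left
      obtain ⟨e2, h1, h2⟩ := hall b
      have h3 : Sim H e2 a := by
        by_contra hcon
        exact hd e2 h1 hcon h2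
      exact live_congr h2 (sim_refl H b) (sim_trans h3 (sim_symm hs))
    · exact Or.inr (hf e' he' hs)
  · obtain ⟨c, hcl⟩ := hnm
    obtain ⟨d, hd, _⟩ := hall c
    refine hfin d c hd.symm hcl fun e he => ?_
    by_contra hcon
    rw [not_or] at hcon
    exact hdead ⟨(d, e), he, hcon.1, hcon.2⟩

end Pool.Agent.H24.GE
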