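import Pool.Agent.H24.GE.NStar
import Pool.Agent.H24.GE.Zero

/-!
# JOB GE-25: vanishing defects at a leaf class

For `nq`, `dq`, `pot_at`, `pot_off` see the file `Pot`. Let `n x κ = nq f x κ`.
`dq_none`: no indicator is positive: `(f b, φ b (u i)) = (x, y)` would give `π (u i) ~ φ b (u i) = y` (`simp`), and
`(φ (u i) b, f (u i)) = (x, y)` would give `π (u i) ~ f (u i) = y` (`simf`).
`dq_const'`: if `0 < ν` then for every `x ∈ N` there is `i` with `(f b, φ b (u i)) = (x, y)`, so `x = f b` for all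
`x ∈ N`, contradiction to `2 ≤ N.ncard`. If `ν < 0` then for every `x ∈ N` there is `i` with
`(φ (u i) b, f (u i)) = (x, y)`, so `i ∈ {i | Sim H (π (u i)) y}`; different `x` give different `i`.
`narr_off`: the hypothesis of `st` for `n = nq f` holds, if the cut arcs start at `(p, κ₀)` with `κ₀ = κD` or
`κ₀ = κc c`: `pot_off`.
`narr_x` (cut arcs at `b = (p, κc c₀)`, `K.π p ~ ch c₀`): let `x ~ K.π p`; all neighbours `y` of `x` are similar to `d`
(`lf`), `T.g x y (κc c₀) = κD` (`c1`); `pot_at` (`h2` by `cd`): `n x (κc c₀) - n y κD = dq x y`. By `ht` and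
`StepDef_nbr` every `y ~ d` has a neighbour `v` with `tt v`, similar to `t`; `pot_off` (conditions: classes `cd`,
`tc`): `n y κD = n v (T.g y v κD)`; by `st` the same number for all neighbours `y` of `x`. So `dq x ·` is constant on
the neighbourhood of `x`, which has at least three elements, and `dq_const`.
`narr_y` (cut arcs at `b = (q, κD)`, `K.π q ~ d`). Let `y ~ d`.
(1) For `v ∈ nbc H y t`: `pot_at` (`h2` by `t1`): `n y κD - n v (T.g y v κD) = dq y v`. Let `x` be a neighbour of `y`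
similar to `ch c₀` (`hc`, `StepDef_nbr`); by `st` (with `y = y'`) `n v (T.g y v κD)` does not depend on
`v ∈ nbc H y t`, so `dq y v` is constant on `nbc H y t`; `dq_const` and `hA` (`nbc_ncard`) give `dq y v = 0`.
(2) So `n y κD = n v (T.g y v κD)` for `v ∈ nbc H y t`, and by `st` again `n y κD = n y' κD` for any two
neighbours `y, y'` of a vertex `x` similar to some `ch c`.
(3) Let `H.Adj y v`, `v ~ ch c`. Then `T.g y v κD = κc c` (`c1`, `T.inv`), and for all neighbours `y'` of `v`: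
`dq y' v = n y' κD - n v (κc c) = n y κD - n v (κc c)`. `dq_const'` with `N = H.neighborSet v`
(`3 ≤ N.ncard`, at most `card ι ≤ 2` indices).
(4) Let `H.Adj y v`, `tt v`. Let `x` be a neighbour of `y` similar to `ch c₀`, `ν = dq y v`. For all neighbours `y'` of
`x` and all neighbours `v'` of `y'` with `v' ~ v` (there is one, `StepDef_nbr`):
`dq y' v' = n y' κD - n v' (T.g y' v' κD) = ν` by (2) and `st`. If `0 < ν` then `y' = f b` for all neighbours `y'` of `x`,
contradiction. If `ν < 0` then for every `y'` there is `i` with `(φ (u i) b, f (u i)) = (y', v')`, so `π (u i) ~ v`;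
there is at most one such `i` by `hB`, so all `y'` are equal, contradiction.
(5) If no `u i` is over the class of `v`: `dq_none`. Otherwise `v` is in the class of some `π (u i)`, so (3) or (4)
applies by `hu'` (`tS`).
-/

namespace Pool.Agent.H24.GE

open Pool.Agent.H24.GC Pool.Agent.H24.GD

variable {V : Type} {H : SimpleGraph V}

private theorem NPot_pos {W : Type} {f : W → V} {φ : W → W → V} {ι : Type} [Fintype ι] {b : W}
    {u : ι → W} {x y : V} (h : 0 < dq f φ b u x y) : ∃ i, (f b, φ b (u i)) = (x, y) := by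
  classical
  by_contra hno
  push Not at hno
  have h3 : dq f φ b u x y ≤ 0 := by
    unfold dq
    refine Finset.sum_nonpos fun i _ => ?_
    rw [if_neg (hno i)]
    split_ifs <;> norm_num
  omega

private theorem NPot_neg {W : Type} {f : W → V} {φ : W → W → V} {ι : Type} [Fintype ι] {b : W}
    {u : ι → W} {x y : V} (h : dq f φ b u x y < 0) : ∃ i, (φ (u i) b, f (u i)) = (x, y) := by
  classical
  by_contra hno
  push Not at hno
  have h3 : 0 ≤ dq f φ b u x y := by
    unfold dq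
    refine Finset.sum_nonneg fun i _ => ?_
    rw [if_neg (hno i)]
    split_ifs <;> norm_num
  omega

private theorem NPot_card {ι : Type} [Fintype ι] (hι : Fintype.card ι ≤ 2) (S : Set ι) :
    S.ncard ≤ 2 := by
  have h1 := Set.ncard_le_ncard (Set.subset_univ S) (Set.toFinite _)
  rw [Set.ncard_univ, Nat.card_eq_fintype_card] at h1
  omega

theorem dq_none {W : Type} {g : SimpleGraph W} {π : W → V} {cut : W → W → Prop} {f : W → V}
    {φ : W → W → V} (h : PCov H g π cut f φ) {ι : Type} [Fintype ι] {b : W} {u : ι → W}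
    (hu : ∀ i, g.Adj b (u i)) {x y : V} (hn : ∀ i, ¬ Sim H (π (u i)) y) :
    dq f φ b u x y = 0 := by
  unfold dq
  refine Finset.sum_eq_zero fun i _ => ?_
  rw [if_neg, if_neg]
  · norm_num
  · intro he
    have h4 : f (u i) = y := congrArg Prod.snd he
    have h5 := h.simf (u i)
    rw [h4] at h5
    exact hn i (sim_symm h5)
  · intro he
    have h4 : φ b (u i) = y := congrArg Prod.snd he
    have h5 := h.simp b (u i) (hu i)
    rw [h4] at h5
    exact hn i (sim_symm h5)

theorem dq_const' {W : Type} {g : SimpleGraph W} {π : W → V} {cut : W → W → Prop} {f : W → V}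
    {φ : W → W → V} (h : PCov H g π cut f φ) {ι : Type} [Fintype ι] {b : W} {u : ι → W}
    (hu : ∀ i, g.Adj b (u i)) {y : V} {N : Set V} {ν : ℤ} (h2 : 2 ≤ N.ncard)
    (hN : {i | Sim H (π (u i)) y}.ncard < N.ncard) (h0 : ∀ x ∈ N, dq f φ b u x y = ν) :
    ν = 0 := by
  have _ := hu
  rcases lt_trichotomy ν 0 with hν | hν | hν
  · exfalso
    have h1 : ∀ x ∈ N, ∃ i, (φ (u i) b, f (u i)) = (x, y) := by
      intro x hx
      refine NPot_neg ?_
      rw [h0 x hx]
      exact hν
    have hNe : N.Nonempty := by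
      rw [Set.nonempty_iff_ne_empty]
      rintro rfl
      simp at h2
    obtain ⟨x₀, hx₀⟩ := hNe
    have : Nonempty ι := ⟨(h1 x₀ hx₀).choose⟩
    choose! j hj using h1
    have h3 := Set.ncard_le_ncard_of_injOn (s := N)
      (t := {i | Sim H (π (u i)) y}) j (fun x hx => ?_) (fun x hx x' hx' he => ?_)
      (Set.toFinite _)
    · omega
    · have h4 : f (u (j x)) = y := congrArg Prod.snd (hj x hx)
      have h5 := h.simf (u (j x))
      rw [h4] at h5
      exact sim_symm h5
    · have h4 : φ (u (j x)) b = x := congrArg Prod.fst (hj x hx)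
      have h5 : φ (u (j x')) b = x' := congrArg Prod.fst (hj x' hx')
      rw [← h4, ← h5, he]
  · exact hν
  · exfalso
    have h1 : N ⊆ {f b} := by
      intro x hx
      obtain ⟨i, hi⟩ := NPot_pos (f := f) (φ := φ) (b := b) (u := u) (x := x) (y := y)
        (by rw [h0 x hx]; exact hν)
      exact (congrArg Prod.fst hi).symm
    have h3 := Set.ncard_le_ncard h1 (Set.finite_singleton _)
    rw [Set.ncard_singleton] at h3
    omega

section

variable [Finite V] {K : Kit H} {Q : Type} [Finite Q] {T : Vlt H Q} {d : V} {Ch : Type}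
  {ch : Ch → V} {κD : Q} {κc : Ch → Q} {tt : V → Prop} {ι : Type} [Fintype ι] {p : K.W}
  {κ₀ : Q} {u : ι → K.W × Q} {cut : K.W × Q → K.W × Q → Prop} {f : K.W × Q → V}
  {φ : K.W × Q → K.W × Q → V}

theorem narr_off (h : PCov H (liftG K T) (fun a => K.π a.1) cut f φ)
    (hu : ∀ i, (liftG K T).Adj (p, κ₀) (u i)) (hinj : Function.Injective u)
    (hcut : ∀ a b, cut a b ↔ ∃ i, (a, b) = ((p, κ₀), u i)) (h0 : κ₀ = κD ∨ ∃ c, κ₀ = κc c)
    (x y : V) (κ : Q) (hxy : H.Adj x y) (h1 : κ ≠ κD) (h2 : ∀ c, κ ≠ κc c)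
    (h3 : T.g x y κ ≠ κD) (h4 : ∀ c, T.g x y κ ≠ κc c) :
    nq f x κ = nq f y (T.g x y κ) := by
  refine pot_off hu hinj hcut h hxy ?_ ?_
  · rintro ⟨e1, -⟩
    rcases h0 with h0 | ⟨c, h0⟩
    · exact h1 (e1.trans h0)
    · exact h2 c (e1.trans h0)
  · rintro ⟨e1, -⟩
    rcases h0 with h0 | ⟨c, h0⟩
    · exact h3 (e1.trans h0)
    · exact h4 c (e1.trans h0)

theorem narr_x (hA : NArr H T d ch κD κc tt) (hd3 : ∀ x, 3 ≤ (H.neighborSet x).ncard)
    (ht : ∃ t, H.Adj d t ∧ tt t) {c₀ : Ch} (hp : Sim H (K.π p) (ch c₀))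
    (hu : ∀ i, (liftG K T).Adj (p, κc c₀) (u i)) (hinj : Function.Injective u)
    (hι : Fintype.card ι ≤ 2) (hcut : ∀ a b, cut a b ↔ ∃ i, (a, b) = ((p, κc c₀), u i))
    (h : PCov H (liftG K T) (fun a => K.π a.1) cut f φ) {x y : V} (hxy : H.Adj x y)
    (hx : Sim H x (K.π p)) : dq f φ (p, κc c₀) u x y = 0 := by
  have hxc : Sim H x (ch c₀) := sim_trans hx hp
  have hnp : ∀ y, Sim H y d → ¬ Sim H y (K.π p) := fun y hy h1 =>
    hA.cd c₀ (sim_trans (sim_symm (sim_trans h1 hp)) hy)
  obtain ⟨t, ht1, ht2⟩ := ht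
  -- the defect
  have hdef : ∀ y', H.Adj x y' → nq f x (κc c₀) - nq f y' κD = dq f φ (p, κc c₀) u x y' := by
    intro y' hy'
    have hyd := hA.lf c₀ x y' hxc hy'
    have h1 := pot_at hu hinj hcut h hy' hx (fun h2 => hnp y' hyd h2.2)
    rw [hA.c1 c₀ x y' hxc hyd] at h1
    exact h1
  -- the number at the neighbours
  have hnum : ∀ y', H.Adj x y' → ∃ v, H.Adj y' v ∧ Sim H v t ∧
      nq f y' κD = nq f v (T.g y' v κD) := by
    intro y' hy'
    have hyd := hA.lf c₀ x y' hxc hy'
    obtain ⟨v, hv1, hv2⟩ := StepDef_nbr hyd ht1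
    have hv3 := hA.tS t v ht2 (sim_symm hv2)
    refine ⟨v, hv1, hv2, pot_off hu hinj hcut h hv1 (fun h2 => hnp y' hyd h2.2) (fun h2 => ?_)⟩
    exact hA.tc c₀ v hv3 (sim_trans h2.2 hp)
  have hconst : ∀ y', H.Adj x y' → nq f y' κD = nq f y κD := by
    intro y' hy'
    obtain ⟨v, hv1, hv2, hv3⟩ := hnum y' hy'
    obtain ⟨v', hw1, hw2, hw3⟩ := hnum y hxy
    rw [hv3, hw3]
    exact hA.st (nq f) (narr_off h hu hinj hcut (Or.inr ⟨c₀, rfl⟩)) c₀ x y' y v v' hxc hy' hxy
      hv1 hw1 (hA.tS t v ht2 (sim_symm hv2)) (sim_trans hv2 (sim_symm hw2))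
  have h3 := hd3 x
  refine dq_const h hu (x := x) (N := H.neighborSet x) ?_ ?_
  · have h4 := NPot_card hι {i | ∃ y ∈ H.neighborSet x, Sim H (K.π (u i).1) y}
    omega
  · intro y' hy'
    rw [← hdef y' hy', ← hdef y hxy, hconst y' hy']

theorem narr_y (hA : NArr H T d ch κD κc tt) (hd3 : ∀ x, 3 ≤ (H.neighborSet x).ncard)
    {c₀ : Ch} (hc : CA H d (ch c₀)) (hp : Sim H (K.π p) d)
    (hu : ∀ i, (liftG K T).Adj (p, κD) (u i)) (hinj : Function.Injective u)
    (hι : Fintype.card ι ≤ 2) (hcut : ∀ a b, cut a b ↔ ∃ i, (a, b) = ((p, κD), u i))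
    (hu' : ∀ i, (∃ c, Sim H (K.π (u i).1) (ch c)) ∨ tt (K.π (u i).1))
    (ht : ∃ t, H.Adj d t ∧ tt t ∧ {i | Sim H (K.π (u i).1) t}.ncard < (nbc H d t).ncard)
    (hB : ∀ i i', tt (K.π (u i).1) → Sim H (K.π (u i').1) (K.π (u i).1) → i = i')
    (h : PCov H (liftG K T) (fun a => K.π a.1) cut f φ) {y v : V} (hyv : H.Adj y v)
    (hy : Sim H y (K.π p)) : dq f φ (p, κD) u y v = 0 := by
  have hnpd : ∀ v c, Sim H v (ch c) → ¬ Sim H v (K.π p) := fun v c hv h1 =>
    hA.cd c (sim_trans (sim_symm hv) (sim_trans h1 hp))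
  have hyd : Sim H y d := sim_trans hy hp
  have hoff := narr_off h hu hinj hcut (κD := κD) (κc := κc) (Or.inl rfl)
  have hchild : ∀ y, Sim H y d → ∃ x, H.Adj y x ∧ Sim H x (ch c₀) := by
    intro y hy
    obtain ⟨y', h1, h2⟩ := hc
    obtain ⟨x, h3, h4⟩ := StepDef_nbr hy h1
    exact ⟨x, h3, sim_trans h4 h2⟩
  -- (0)
  have hdef : ∀ y v, Sim H y d → H.Adj y v → tt v →
      nq f y κD - nq f v (T.g y v κD) = dq f φ (p, κD) u y v := by
    intro y v hy hyv hv
    exact pot_at hu hinj hcut h hyv (sim_trans hy (sim_symm hp)) (fun h2 => hA.t1 y v hy hv h2.1)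
  obtain ⟨t, ht1, ht2, ht3⟩ := ht
  -- (1)
  have hone : ∀ y v, Sim H y d → H.Adj y v → Sim H v t →
      nq f y κD = nq f v (T.g y v κD) := by
    intro y v hy hyv hv
    obtain ⟨x, hx1, hx2⟩ := hchild y hy
    have htv : ∀ v, Sim H v t → tt v := fun v hv => hA.tS t v ht2 (sim_symm hv)
    have h1 : dq f φ (p, κD) u y v = 0 := by
      refine dq_const h hu (x := y) (N := nbc H y t) ?_ ?_
      · have h2 : (nbc H y t).ncard = (nbc H d t).ncard := nbc_ncard hy (sim_refl H t)
        have h3 : {i | ∃ z ∈ nbc H y t, Sim H (K.π (u i).1) z}.ncard ≤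
            {i | Sim H (K.π (u i).1) t}.ncard := by
          refine Set.ncard_le_ncard ?_ (Set.toFinite _)
          rintro i ⟨z, hz, hi⟩
          exact sim_trans hi hz.2
        have h4 := lt_of_le_of_lt h3 ht3
        rw [← h2] at h4
        exact h4
      · intro v' hv'
        rw [← hdef y v' hy hv'.1 (htv v' hv'.2), ← hdef y v hy hyv (htv v hv)]
        have h2 := hA.st (nq f) hoff c₀ x y y v' v hx2 hx1.symm hx1.symm hv'.1 hyv
          (htv v' hv'.2) (sim_trans hv'.2 (sim_symm hv))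
        rw [h2]
    have h2 := hdef y v hy hyv (htv v hv)
    rw [h1] at h2
    omega
  -- (2)
  have htwo : ∀ c x y y', Sim H x (ch c) → H.Adj x y → H.Adj x y' → nq f y κD = nq f y' κD := by
    intro c x y y' hx hxy hxy'
    have e1 := hA.lf c x y hx hxy
    have e2 := hA.lf c x y' hx hxy'
    obtain ⟨v, hv1, hv2⟩ := StepDef_nbr e1 ht1
    obtain ⟨v', hw1, hw2⟩ := StepDef_nbr e2 ht1
    rw [hone y v e1 hv1 hv2, hone y' v' e2 hw1 hw2]
    exact hA.st (nq f) hoff c x y y' v v' hx hxy hxy' hv1 hw1 (hA.tS t v ht2 (sim_symm hv2))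
      (sim_trans hv2 (sim_symm hw2))
  -- (3)
  have hthree : ∀ c, Sim H v (ch c) → dq f φ (p, κD) u y v = 0 := by
    intro c hv
    have hg : ∀ y', Sim H y' d → T.g y' v κD = κc c := by
      intro y' hy'
      rw [T.inv v y', Equiv.symm_apply_eq]
      exact (hA.c1 c v y' hv hy').symm
    have hdq : ∀ y', H.Adj v y' →
        nq f y' κD - nq f v (κc c) = dq f φ (p, κD) u y' v := by
      intro y' hy'
      have e1 := hA.lf c v y' hv hy'
      have e2 := pot_at hu hinj hcut h hy'.symm (sim_trans e1 (sim_symm hp))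
        (fun h2 => hnpd v c hv h2.2)
      rw [hg y' e1] at e2
      exact e2
    have h3 := hd3 v
    refine dq_const' h hu (y := v) (N := H.neighborSet v) (by omega) ?_ ?_
    · have h4 := NPot_card hι {i | Sim H (K.π (u i).1) v}
      omega
    · intro y' hy'
      rw [← hdq y' hy', ← hdq y hyv.symm, htwo c v y' y hv hy' hyv.symm]
  -- (4)
  have hfour : tt v → dq f φ (p, κD) u y v = 0 := by
    intro hv
    obtain ⟨x, hx1, hx2⟩ := hchild y hyd
    have hcst : ∀ y' v', H.Adj x y' → H.Adj y' v' → Sim H v' v →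
        dq f φ (p, κD) u y' v' = dq f φ (p, κD) u y v := by
      intro y' v' hy' hv' hvv
      have e1 := hA.lf c₀ x y' hx2 hy'
      have e2 := hA.tS v v' hv (sim_symm hvv)
      rw [← hdef y' v' e1 hv' e2, ← hdef y v hyd hyv hv, htwo c₀ x y' y hx2 hy' hx1.symm,
        hA.st (nq f) hoff c₀ x y' y v' v hx2 hy' hx1.symm hv' hyv e2 hvv]
    have hex : ∀ y', H.Adj x y' → ∃ v', H.Adj y' v' ∧ Sim H v' v := by
      intro y' hy'
      have e1 := hA.lf c₀ x y' hx2 hy'
      exact StepDef_nbr (sim_trans e1 (sim_symm hyd)) hyv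
    have hnot : ∀ z, (∀ y', H.Adj x y' → y' = z) → False := by
      intro z hz
      have h1 : H.neighborSet x ⊆ {z} := fun y' hy' => hz y' hy'
      have h2 := Set.ncard_le_ncard h1 (Set.finite_singleton _)
      rw [Set.ncard_singleton] at h2
      have h3 := hd3 x
      omega
    rcases lt_trichotomy (dq f φ (p, κD) u y v) 0 with hν | hν | hν
    · exfalso
      obtain ⟨i, hi⟩ := NPot_neg hν
      refine hnot (φ (u i) (p, κD)) fun y' hy' => ?_
      obtain ⟨v', hv1, hv2⟩ := hex y' hy'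
      rw [← hcst y' v' hy' hv1 hv2] at hν
      obtain ⟨i', hi'⟩ := NPot_neg hν
      have e1 : f (u i) = v := congrArg Prod.snd hi
      have e2 : f (u i') = v' := congrArg Prod.snd hi'
      have e3 := h.simf (u i)
      have e4 := h.simf (u i')
      rw [e1] at e3
      rw [e2] at e4
      have e5 : i = i' := hB i i' (hA.tS v _ hv e3)
        (sim_trans (sim_symm e4) (sim_trans hv2 e3))
      rw [e5]
      exact (congrArg Prod.fst hi').symm
    · exact hν
    · exfalso
      refine hnot (f (p, κD)) fun y' hy' => ?_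
      obtain ⟨v', hv1, hv2⟩ := hex y' hy'
      rw [← hcst y' v' hy' hv1 hv2] at hν
      obtain ⟨i', hi'⟩ := NPot_pos hν
      exact (congrArg Prod.fst hi').symm
  -- (5)
  by_cases hn : ∀ i, ¬ Sim H (K.π (u i).1) v
  · exact dq_none h hu hn
  · push Not at hn
    obtain ⟨i, hi⟩ := hn
    rcases hu' i with ⟨c, hc'⟩ | ht'
    · exact hthree c (sim_trans (sim_symm hi) hc')
    · exact hfour (hA.tS _ v ht' hi)

end

end Pool.Agent.H24.GE
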