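import Pool.Agent.H24.GE.WdH
import Pool.Agent.H24.GE.NPot

/-!
# JOB GE-27: hardness at a leaf class

`narr_hard`. Let `K₀, P` be from `exists_kitall H` (file `Pool.Agent.H24.GD.KitAll`), `K = liftK K₀ T`,
`p = (P (ch c₀), κc c₀)`, `u₁, u₂` the neighbours of `p` over `d` and over another neighbour `y₂` of `ch c₀` (`lift_adj`;
there are at least three neighbours, all similar to `d` by `NArr.lf`), `q = (P d, κD)`, `w` the neighbour of `q`
over `ch c₀`, `z'` the neighbour over `z`. Apply `wd_of_dq` with `narr_x` (for `u = fun _ : Unit => u₁`,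
`fun _ : Unit => u₂`, `![u₁, u₂]`) and `narr_y` (for `fun _ : Unit => w`, `fun _ : Unit => z'`, `![w, z']`); `cut1`, `cut2`
are of the form `hcut`. Conditions of `narr_y`: `hu'`: `w` is over `ch c₀`, `z'` over `z` (`hz`). `ht` for `![w, z']`:
if `Sim z (ch c)` or the only cut arc is `w`: take any `t` from `ht`; no cut arc is over the class of `t` (`tc`), and
`t ∈ nbc H d t`. If `tt z`, `2 ≤ (nbc H d z).ncard`: `t = z`, at most one index. If `tt z` and `t` is not similar to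
`z`: no index. `hB`: `tt (π (u i))` is possible only for `z'`, and then `π w ~ ch c₀` is not similar to `z`.
Then `hard_of_wd`; `lift_univ`, `lift_deg`; `nbc H (K.π p) (K.π u₁)` is the neighbourhood of `ch c₀`.

`live_hard`: take `d, c` from `hnd`. For a live neighbour `e` of `d`, `loll_of_live` gives `w, i, j` with `w 0 = d`,
`w 1 = e`.
(A) `2 ≤ (nbc H d c).ncard`: `Ch = Unit`, `ch = fun _ => c`, `exists_narr`, `z` another element of `nbc H d c`.
(B) `(nbc H d c).ncard = 1`, and there is a neighbour `c₂` of `d` with `Lf H c₂`, not similar to `c` (nor to `d`, by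
`hnd`): `Ch = Bool`, `z = c₂`.
(C) There is a live neighbour `t` with `2 ≤ (nbc H d t).ncard`: `loll_of_live` for `t`, `Ch = Unit`, `z = t`.
(D) Otherwise: the neighbours of `d` are `c` and at least two further ones, which are live (`hnd`) and pairwise
not similar (otherwise (C)): `t₁, t₂`. `closed_nb` and `loll_of_closed` give `w`, `i = 0`, `j = l` with `w 1 = t₁`,
`w (j - 1) = t₂`, so `tt t₁`, `tt t₂`. `Ch = Unit`, `z = t₁`.
In all cases `hca`: `H.Adj d c` gives `CA H d c`; `t = e` (or `t₁`, `t₂`) is adjacent to `d = w 0` and `tt t` holds.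
-/

namespace Pool.Agent.H24.GE

open Pool.Agent.H24.GC Pool.Agent.H24.GD

variable {V : Type} {H : SimpleGraph V}

theorem NHard_cond [Finite V] {Q : Type} {T : Vlt H Q} {d : V} {Ch : Type}
    {ch : Ch → V} {κD : Q} {κc : Ch → Q} {tt : V → Prop} (hA : NArr H T d ch κD κc tt)
    {c₀ : Ch} (ht : ∃ t, H.Adj d t ∧ tt t) {z : V} (hz : H.Adj d z)
    (hz' : (∃ c, Sim H z (ch c)) ∨
      (tt z ∧ (2 ≤ (nbc H d z).ncard ∨ ∃ t, H.Adj d t ∧ tt t ∧ ¬ Sim H t z)))
    {ι : Type} [Fintype ι] (v : ι → V) (hv : ∀ i, v i = ch c₀ ∨ v i = z)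
    (h1 : ∀ i i', v i = z → v i' = z → i = i') :
    (∀ i, (∃ c, Sim H (v i) (ch c)) ∨ tt (v i)) ∧
    (∃ t, H.Adj d t ∧ tt t ∧ {i | Sim H (v i) t}.ncard < (nbc H d t).ncard) ∧
    (∀ i i', tt (v i) → Sim H (v i') (v i) → i = i') := by
  have hpos : ∀ t, H.Adj d t → 0 < (nbc H d t).ncard := fun t h =>
    (Set.ncard_pos (Set.toFinite _)).2 ⟨t, h, sim_refl H t⟩
  have hempty : ∀ t, H.Adj d t → (∀ i, ¬ Sim H (v i) t) →
      {i | Sim H (v i) t}.ncard < (nbc H d t).ncard := by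
    intro t h1 h2
    have h3 : {i | Sim H (v i) t} = ∅ := by
      ext i
      simp only [Set.mem_ofPred_eq, Set.mem_empty_iff_false, iff_false]
      exact h2 i
    rw [h3, Set.ncard_empty]
    exact hpos t h1
  refine ⟨?_, ?_, ?_⟩
  · intro i
    rcases hv i with h | h
    · exact Or.inl ⟨c₀, by rw [h]; exact sim_refl H _⟩
    · rw [h]
      rcases hz' with h2 | h2
      · exact Or.inl h2
      · exact Or.inr h2.1
  · rcases hz' with ⟨c, hc⟩ | ⟨h2, h3 | ⟨t, h3, h4, h5⟩⟩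
    · obtain ⟨t, h3, h4⟩ := ht
      refine ⟨t, h3, h4, hempty t h3 fun i hi => ?_⟩
      rcases hv i with h | h
      · rw [h] at hi
        exact hA.tc c₀ t h4 (sim_symm hi)
      · rw [h] at hi
        exact hA.tc c t h4 (sim_trans (sim_symm hi) hc)
    · refine ⟨z, hz, h2, lt_of_le_of_lt ?_ (lt_of_lt_of_le one_lt_two h3)⟩
      rw [Set.ncard_le_one (Set.toFinite _)]
      have h6 : ∀ i, Sim H (v i) z → v i = z := by
        intro i hi
        rcases hv i with h | h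
        · rw [h] at hi
          exact absurd (sim_symm hi) (hA.tc c₀ z h2)
        · exact h
      intro i hi i' hi'
      exact h1 i i' (h6 i hi) (h6 i' hi')
    · refine ⟨t, h3, h4, hempty t h3 fun i hi => ?_⟩
      rcases hv i with h | h
      · rw [h] at hi
        exact hA.tc c₀ t h4 (sim_symm hi)
      · rw [h] at hi
        exact h5 (sim_symm hi)
  · intro i i' hi hs
    have h2 : v i = z := by
      rcases hv i with h | h
      · rw [h] at hi
        exact absurd (sim_refl H _) (hA.tc c₀ _ hi)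
      · exact h
    rw [h2] at hi hs
    have h3 : v i' = z := by
      rcases hv i' with h | h
      · rw [h] at hs
        exact absurd (sim_symm hs) (hA.tc c₀ _ hi)
      · exact h
    exact h1 i i' h2 h3

theorem NHard_cut1 {W : Type} (p u : W) (a b : W) :
    cut1 (p, u) a b ↔ ∃ i : Unit, (a, b) = (p, (fun _ : Unit => u) i) :=
  ⟨fun h => ⟨(), h⟩, fun ⟨_, h⟩ => h⟩

theorem NHard_cut2 {W : Type} (p u₁ u₂ : W) (a b : W) :
    cut2 (p, u₁) (p, u₂) a b ↔ ∃ i : Fin 2, (a, b) = (p, ![u₁, u₂] i) := by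
  rw [Fin.exists_fin_two]
  rfl

theorem NHard_inj {W : Type} {u₁ u₂ : W} (h : u₁ ≠ u₂) : Function.Injective ![u₁, u₂] := by
  intro i j hij
  fin_cases i <;> fin_cases j
  · rfl
  · exact absurd hij h
  · exact absurd hij.symm h
  · rfl

theorem NHard_inj1 {W : Type} (u : W) : Function.Injective (fun _ : Unit => u) :=
  fun _ _ _ => rfl

theorem narr_hard [Finite V] {Q : Type} [Finite Q] {T : Vlt H Q} {d : V} {Ch : Type}
    {ch : Ch → V} {κD : Q} {κc : Ch → Q} {tt : V → Prop} (hA : NArr H T d ch κD κc tt)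
    (hd3 : ∀ x, 3 ≤ (H.neighborSet x).ncard) {c₀ : Ch} (hdc : H.Adj d (ch c₀))
    (ht : ∃ t, H.Adj d t ∧ tt t) {z : V} (hz : H.Adj d z) (hzc : z ≠ ch c₀)
    (hz' : (∃ c, Sim H z (ch c)) ∨
      (tt z ∧ (2 ≤ (nbc H d z).ncard ∨ ∃ t, H.Adj d t ∧ tt t ∧ ¬ Sim H t z))) : HardH H := by
  obtain ⟨K₀, -, -, P, -, -, hπ, -, hU⟩ := exists_kitall H
  have hadj : ∀ w : K₀.W, ∃ w', K₀.gr.Adj w w' := by
    intro w
    have h1 : 0 < (H.neighborSet (K₀.π w)).ncard := lt_of_lt_of_le (by norm_num) (hd3 _)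
    obtain ⟨y, hy⟩ := (Set.ncard_pos (Set.toFinite _)).1 h1
    obtain ⟨w', hw', -⟩ := lift_adj K₀ hy
    exact ⟨w', hw'⟩
  -- the second neighbour
  obtain ⟨y₂, hy₂, hne⟩ : ∃ y₂, H.Adj (ch c₀) y₂ ∧ y₂ ≠ d := by
    have h1 : 1 < (H.neighborSet (ch c₀)).ncard := lt_of_lt_of_le (by norm_num) (hd3 _)
    obtain ⟨y, hy, hne⟩ := Set.exists_ne_of_one_lt_ncard h1 d
    exact ⟨y, hy, hne⟩
  have hpc : (liftK K₀ T).π (P (ch c₀), κc c₀) = ch c₀ := hπ _
  have hqd : (liftK K₀ T).π (P d, κD) = d := hπ _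
  obtain ⟨u₁, hu₁, hpu₁⟩ := lift_adj (liftK K₀ T) (p := (P (ch c₀), κc c₀)) (y := d)
    (by rw [hpc]; exact hdc.symm)
  obtain ⟨u₂, hu₂, hpu₂⟩ := lift_adj (liftK K₀ T) (p := (P (ch c₀), κc c₀)) (y := y₂)
    (by rw [hpc]; exact hy₂)
  obtain ⟨w, hw, hpw⟩ := lift_adj (liftK K₀ T) (p := (P d, κD)) (y := ch c₀)
    (by rw [hqd]; exact hdc)
  obtain ⟨z₁, hz₁, hpz⟩ := lift_adj (liftK K₀ T) (p := (P d, κD)) (y := z)
    (by rw [hqd]; exact hz)
  have ne1 : u₁ ≠ u₂ := by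
    intro h
    rw [h] at hpu₁
    exact hne (hpu₂.symm.trans hpu₁)
  have ne2 : w ≠ z₁ := by
    intro h
    rw [h] at hpw
    exact hzc (hpz.symm.trans hpw)
  have hs : Sim H y₂ d := hA.lf c₀ (ch c₀) y₂ (sim_refl H _) hy₂
  have hpc' : Sim H (K₀.π (P (ch c₀))) (ch c₀) := by
    rw [hπ]
    exact sim_refl H _
  have hqd' : Sim H (K₀.π (P d)) d := by
    rw [hπ]
    exact sim_refl H _
  have hca : CA H d (ch c₀) := ⟨ch c₀, hdc, sim_refl H _⟩
  have hpw' : K₀.π w.1 = ch c₀ := hpw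
  have hpz' : K₀.π z₁.1 = z := hpz
  obtain ⟨a1, a2, a3⟩ := NHard_cond hA (c₀ := c₀) ht hz hz' (fun _ : Unit => K₀.π w.1)
    (fun _ => Or.inl hpw') (fun _ _ _ _ => rfl)
  obtain ⟨b1, b2, b3⟩ := NHard_cond hA (c₀ := c₀) ht hz hz' (fun _ : Unit => K₀.π z₁.1)
    (fun _ => Or.inr hpz') (fun _ _ _ _ => rfl)
  obtain ⟨c1, c2, c3⟩ := NHard_cond hA (c₀ := c₀) ht hz hz'
    (fun i : Fin 2 => K₀.π ((![w, z₁] : Fin 2 → K₀.W × Q) i).1)
    (by
      intro i
      fin_cases i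
      · exact Or.inl hpw'
      · exact Or.inr hpz')
    (by
      intro i i' h1 h2
      have h3 : ∀ j : Fin 2, K₀.π ((![w, z₁] : Fin 2 → K₀.W × Q) j).1 = z → j = 1 := by
        intro j hj
        fin_cases j
        · exact absurd (hj.symm.trans hpw') hzc
        · rfl
      rw [h3 i h1, h3 i' h2])
  have hWD : WD (liftK K₀ T) (P (ch c₀), κc c₀) u₁ u₂ (P d, κD) w z₁ := by
    refine wd_of_dq hu₁ hu₂ hw hz₁ ne1 ne2 ?_ ?_ ?_ ?_ ?_ ?_ ?_ ?_ ?_
    · rw [hpu₁, hpu₂]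
      exact hs
    · rw [hpu₁]
      exact hqd'
    · rw [hpw]
      exact sim_symm hpc'
    · intro f φ h x y hxy hx
      exact narr_x hA hd3 ht (c₀ := c₀) hpc' (u := fun _ : Unit => u₁) (fun _ => hu₁)
        (NHard_inj1 _) (by simp) (NHard_cut1 _ _) h hxy hx
    · intro f φ h x y hxy hx
      exact narr_x hA hd3 ht (c₀ := c₀) hpc' (u := fun _ : Unit => u₂) (fun _ => hu₂)
        (NHard_inj1 _) (by simp) (NHard_cut1 _ _) h hxy hx
    · intro f φ h x y hxy hx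
      refine narr_x hA hd3 ht (c₀ := c₀) hpc' (u := ![u₁, u₂]) ?_
        (NHard_inj ne1) (by simp) (NHard_cut2 _ _ _) h hxy hx
      intro i
      fin_cases i
      · exact hu₁
      · exact hu₂
    · intro f φ h x y hxy hx
      exact narr_y hA hd3 hca hqd' (u := fun _ : Unit => w) (fun _ => hw)
        (NHard_inj1 _) (by simp) (NHard_cut1 _ _) a1 a2 a3 h hxy hx
    · intro f φ h x y hxy hx
      exact narr_y hA hd3 hca hqd' (u := fun _ : Unit => z₁) (fun _ => hz₁)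
        (NHard_inj1 _) (by simp) (NHard_cut1 _ _) b1 b2 b3 h hxy hx
    · intro f φ h x y hxy hx
      refine narr_y hA hd3 hca hqd' (u := ![w, z₁]) ?_
        (NHard_inj ne2) (by simp) (NHard_cut2 _ _ _) c1 c2 c3 h hxy hx
      intro i
      fin_cases i
      · exact hw
      · exact hz₁
  refine hard_of_wd hWD (lift_univ T (hU _) _) (lift_univ T (hU _) _) (lift_deg T hadj) ?_
  rw [hpc, hpu₁]
  have h1 : nbc H (ch c₀) d = H.neighborSet (ch c₀) := by
    ext y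
    constructor
    · intro h
      exact h.1
    · intro h
      exact ⟨h, hA.lf c₀ (ch c₀) y (sim_refl H _) h⟩
  rw [h1]
  exact hd3 _

theorem live_hard [Finite V] (hd3 : ∀ x, 3 ≤ (H.neighborSet x).ncard)
    (hnd : ∃ d c, H.Adj d c ∧ Lf H c ∧ ¬ Sim H c d ∧ (∃ e, H.Adj d e ∧ Live H d e) ∧
      ∀ e, H.Adj d e → Live H d e ∨ (Lf H e ∧ ¬ Sim H e d)) : HardH H := by
  obtain ⟨d, c, hdc, hlf, hcd, ⟨e, hde, hlive⟩, hall⟩ := hnd
  by_cases hA : 2 ≤ (nbc H d c).ncard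
  · obtain ⟨z, hz, hzc⟩ := Set.exists_ne_of_one_lt_ncard (s := nbc H d c)
      (lt_of_lt_of_le one_lt_two hA) c
    obtain ⟨w, i, j, h0, h1, hL⟩ := loll_of_live hlive
    subst h0
    obtain ⟨Q, hQ, T, κD, κc, hN⟩ := exists_narr hL (fun _ : Unit => c)
      (fun _ => ⟨c, hdc, sim_refl H c⟩) (fun _ _ _ => rfl) (fun _ => hlf)
    refine narr_hard hN hd3 (c₀ := ()) hdc ⟨e, hde, Or.inl ?_⟩ hz.1 hzc (Or.inl ⟨(), hz.2⟩)
    rw [h1]
    exact sim_refl H e
  have hone : ∀ x ∈ nbc H d c, x = c := by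
    intro x hx
    by_contra hne
    refine hA ?_
    have h1 : 1 < (nbc H d c).ncard :=
      (Set.one_lt_ncard (Set.toFinite _)).2 ⟨x, hx, c, ⟨hdc, sim_refl H c⟩, hne⟩
    exact h1
  by_cases hB : ∃ c₂, H.Adj d c₂ ∧ Lf H c₂ ∧ ¬ Sim H c₂ c
  · obtain ⟨c₂, hd2, hlf2, hs2⟩ := hB
    obtain ⟨w, i, j, h0, h1, hL⟩ := loll_of_live hlive
    subst h0
    obtain ⟨Q, hQ, T, κD, κc, hN⟩ := exists_narr hL (fun b : Bool => if b then c else c₂)
      (by
        intro b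
        cases b
        · exact ⟨c₂, hd2, sim_refl H _⟩
        · exact ⟨c, hdc, sim_refl H _⟩)
      (by
        intro b b' h
        cases b <;> cases b'
        · rfl
        · exact absurd h hs2
        · exact absurd (sim_symm h) hs2
        · rfl)
      (by
        intro b
        cases b
        · exact hlf2
        · exact hlf)
    refine narr_hard hN hd3 (c₀ := true) hdc ⟨e, hde, Or.inl ?_⟩ hd2 ?_
      (Or.inl ⟨false, sim_refl H _⟩)
    · rw [h1]
      exact sim_refl H e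
    · intro h
      have h' : c₂ = c := h
      rw [h'] at hs2
      exact hs2 (sim_refl H c)
  by_cases hC : ∃ t, H.Adj d t ∧ Live H d t ∧ 2 ≤ (nbc H d t).ncard
  · obtain ⟨t, hdt, hlt, h2⟩ := hC
    obtain ⟨w, i, j, h0, h1, hL⟩ := loll_of_live hlt
    subst h0
    obtain ⟨Q, hQ, T, κD, κc, hN⟩ := exists_narr hL (fun _ : Unit => c)
      (fun _ => ⟨c, hdc, sim_refl H c⟩) (fun _ _ _ => rfl) (fun _ => hlf)
    have htt : Sim H t (w 1) := by
      rw [h1]
      exact sim_refl H t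
    refine narr_hard hN hd3 (c₀ := ()) hdc ⟨t, hdt, Or.inl htt⟩ hdt ?_
      (Or.inr ⟨Or.inl htt, Or.inl h2⟩)
    intro h
    have h' : t = c := h
    rw [h'] at h2
    exact hA h2
  -- (D)
  have hoth : ∀ x, H.Adj d x → x ≠ c → Live H d x := by
    intro x hx hne
    rcases hall x hx with h | ⟨h, -⟩
    · exact h
    · exfalso
      by_cases hs : Sim H x c
      · exact hne (hone x ⟨hx, hs⟩)
      · exact hB ⟨x, hx, h, hs⟩
  obtain ⟨t₁, t₂, h1, h2, hne1, hne2, hne⟩ : ∃ t₁ t₂, H.Adj d t₁ ∧ H.Adj d t₂ ∧ t₁ ≠ c ∧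
      t₂ ≠ c ∧ t₁ ≠ t₂ := by
    have h3 : 1 < (H.neighborSet d \ {c}).ncard := by
      have h4 := Set.ncard_sdiff_singleton_add_one (s := H.neighborSet d) (a := c) hdc
        (Set.toFinite _)
      have h5 := hd3 d
      omega
    obtain ⟨a, ha, b, hb, hab⟩ := (Set.one_lt_ncard (Set.toFinite _)).1 h3
    exact ⟨a, b, ha.1, hb.1, ha.2, hb.2, hab⟩
  have hl1 := hoth t₁ h1 hne1
  have hl2 := hoth t₂ h2 hne2
  have hns : ¬ Sim H t₁ t₂ := by
    intro hs
    refine hC ⟨t₂, h2, hl2, ?_⟩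
    have h3 : 1 < (nbc H d t₂).ncard :=
      (Set.one_lt_ncard (Set.toFinite _)).2 ⟨t₁, ⟨h1, hs⟩, t₂, ⟨h2, sim_refl H _⟩, hne⟩
    exact h3
  obtain ⟨l, w, hl, h0, hw1, hwl, hw0, h4, h5⟩ := closed_nb hl1 hl2 hns
  have hL := loll_of_closed hns hl h0 hw1 hwl hw0 h4 h5
  subst h0
  obtain ⟨Q, hQ, T, κD, κc, hN⟩ := exists_narr hL (fun _ : Unit => c)
    (fun _ => ⟨c, hdc, sim_refl H c⟩) (fun _ _ _ => rfl) (fun _ => hlf)
  have ht1 : Sim H t₁ (w 1) := by
    rw [hw1]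
    exact sim_refl H _
  have ht2 : Sim H t₂ (w (l - 1)) := by
    rw [hwl]
    exact sim_refl H _
  exact narr_hard hN hd3 (c₀ := ()) hdc ⟨t₁, h1, Or.inl ht1⟩ h1 hne1
    (Or.inr ⟨Or.inl ht1, Or.inr ⟨t₂, h2, Or.inr ⟨rfl, ht2⟩, fun h => hns (sim_symm h)⟩⟩)

end Pool.Agent.H24.GE
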