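import Pool.Agent.H24.GE.FForce
import Pool.Agent.H24.GE.FGood
import Pool.Agent.H24.GE.FUp
import Pool.Agent.H24.GE.NHard
import Pool.Agent.H24.GE.ND

/-!
# JOB GE-45: hardness at a vertex with only one neighbour class

`dead_hard`. (1) There is `s : V → Bool` with `s u ≠ s v ↔ Sim H u v` for all adjacent `u, v`. `side_tree`, `tree_good` (for
`R u v = (Sim H u v ∧ s u = s v)`) give `x`; `force_hard` with `H₀ = H`, `R = fun _ _ => True`, `hup`, `hdown` trivial, `hLf` by the
first component of `R`. (2) Otherwise `dcG H` is connected (`dc_conn`), `dc_tree`, `tree_good` (`dc_deg`), `force_hard` for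
`dcG H` with `H₀ = H`, `R = DR H`: `hLf` by `dr_sim`, `hup` by `dc_up`, `hdown`: compose the cover with `Prod.fst` (`dc_cover`).
`one_class_hard`: if there are `x, y` with `Live H x y`: `exists_nd`, `live_hard`. Otherwise `dead_hard`.
-/

namespace Pool.Agent.H24.GE

open Pool.Agent.H24.GC Pool.Agent.H24.GD

variable {V : Type} {H : SimpleGraph V}

theorem dead_hard [Finite V] (hcon : H.Connected) (hd3 : ∀ v, 3 ≤ (H.neighborSet v).ncard)
    (hdead : ¬ ∃ x y, Live H x y) : HardH H := by
  by_cases hs : ∃ s : V → Bool, ∀ u v, H.Adj u v → (s u ≠ s v ↔ Sim H u v)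
  · obtain ⟨s, hs⟩ := hs
    obtain ⟨x, hx, hR⟩ := tree_good hcon hd3 (side_tree hdead hs)
    exact force_hard hcon hd3 hx (fun y y' h h' => (hR y y' h h').1)
      (R := fun _ _ => True) (fun _ => trivial) (fun _ _ _ _ => trivial)
      (fun _ _ _ _ _ h => h) (fun _ _ h => h)
  · have hcon' : (dcG H).Connected := dc_conn hcon hs
    have hd3' : ∀ v, 3 ≤ ((dcG H).neighborSet v).ncard := by
      intro v
      rw [dc_deg H v]
      exact hd3 v.1
    obtain ⟨x, hx, hR⟩ := tree_good hcon' hd3' (dc_tree hdead)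
    exact force_hard hcon' hd3' hx (fun y y' h h' => dr_sim (hR y y' h h'))
      (R := DR H) (fun v => ⟨sim_refl H v.1, rfl⟩) hR
      (fun _ _ hI h1 h2 hF => dc_up hI h1 h2 hF)
      (fun _ _ h => by
        obtain ⟨f, hf⟩ := h
        exact ⟨fun a => (f a).1, fun a => (dc_cover H (f a)).comp (hf a)⟩)

theorem one_class_hard [Finite V] (hcon : H.Connected)
    (hd3 : ∀ v, 3 ≤ (H.neighborSet v).ncard) (hLf : ∃ c, Lf H c) : HardH H := by
  by_cases hl : ∃ x y, Live H x y
  · exact live_hard hd3 (exists_nd hcon hl hLf)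
  · exact dead_hard hcon hd3 hl

end Pool.Agent.H24.GE
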