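import Pool.Agent.H24.GE.FWH

/-!
# JOB GE-40: hardness at a good vertex

`force_hard`. Let `K₀, P, M` be from `exists_kitall H` (`Mult`), `y₀` a neighbour of `x`, `q = P y₀`, `w` the neighbour of `q`
over `x` (`lift_adj`). `exists_guard` gives `v₂, v₃, K', r'`. `K = insK K₀ (w, v₃) K' r'`, and
`p = inl w`, `u₁ = inl q`, `u₂ = inl v₂`, `z = inl z'`, where `z' ≠ w` is a neighbour of `q`.
`Gd e = (NV H e.1 ∧ NV H e.2)`, `Gz e = NV H e.2`. `GV H x`: `hx`.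
A cover or partial cover `f, φ` of `K` whose cut arcs are among `(inl w, inl q)`, `(inl w, inl v₂)`, `(inl z', inl q)`
restricts to a partial cover `f₁, φ₁` of `K₀` (`ins_pcov`) with `(f₁ w, f₁ v₃) = (g r'.1, g r'.2)` for a cover `g` of `K'`, so
`GV H (f₁ w)`, in particular `NV H (f₁ w)` and `NV H c` for all neighbours `c` of `f₁ w`.
`s1` (and `s3`, by `straight_congr`, `cut1 (w, q)`, `cut1 (q, w)`), `s2`: `ins_straight` with `sv_one` (`av.1 = f₁ w`, `nv_nb`). `s4`: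
the arc `(z', q)` is cut, `(w, q)` is not, so `f₁ q = φ₁ w q` is a neighbour of `f₁ w`, `NV H (f₁ q)`, and
`bv f₁ φ₁ (z', q) = (φ₁ q z', f₁ q)`, `nv_nb`, `nb_swap`, `sv_one`.
`v1`, `v2`, `v3`: for a cover `g` of `K` both `g (inl w)` and its neighbours satisfy `NV`. `v4`: `NV H (g (inl q))`.
`tail`: `NV H (f₁ w)`, the values `bv` satisfy `Gd`, so `sv_t` for `p = w`, `u = q`, `o = v₂` (`nv_nb`, `nb_swap`); the
conclusion follows as in the proof of `sw_tail` (file `Pool.Agent.H24.GD.Str`).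
`head`: `bv f φ (w, q) = (φ q w, f q)` satisfies `Gd`, so `NV H (f q)`; `av f φ (w, q)` satisfies `Gd`, `av f φ (z', q)` satisfies
`Gz`, so `NB` (`nv_nb`, `nv_nb'`); `sv_h`; then as in `sw_head`.
`cX`: `star_two` (`y, y'` at `q, v₂`) gives a cover `f` of `K₀` with `f w = x`; `f v₃` is a neighbour of `x`, so by `Grd.full` there
is a cover `g` of `K'` with `(g r'.1, g r'.2) = (x, f v₃)`; `ins_cover`. `cY`: for a neighbour `y` of `x` let `ζ y` be a
neighbour of `y`, `ζ y ≠ x`, `Sim H (ζ y) (K₀.π z')` (see the header of `Pool.Agent.H24.GD.WideC`), `star_cover` at `q` with the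
values `x, ζ y` at `w, z'`, and `ins_cover` as before.
`we_hard`: `nbc H x (K.π u₁)` is the neighbourhood of `x` (`hLf`), `hpw`: both are `x`; `hR`: the three vertices are neighbours
of `x`, `hRx`. `ins_deg`.
-/

namespace Pool.Agent.H24.GE

open Pool.Agent.H24.GC Pool.Agent.H24.GD

variable {V : Type} {H : SimpleGraph V}

/-- the data: the base kit `K₀`, the guard `K'`, and the vertices -/
structure FForceD (K₀ K' : Kit H) (x : V) (q w v₂ v₃ z : K₀.W) (r' : K'.W × K'.W) : Prop where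
  qw : K₀.gr.Adj q w
  qz : K₀.gr.Adj q z
  w2 : K₀.gr.Adj w v₂
  w3 : K₀.gr.Adj w v₃
  n2 : v₂ ≠ q
  n3 : v₃ ≠ q
  n23 : v₂ ≠ v₃
  wz : w ≠ z
  wx : K₀.π w = x
  G : Grd H x K' r' (H.neighborSet x)
  r3 : K'.π r'.2 = K₀.π v₃

section

variable {K₀ K' : Kit H} {x : V} {q w v₂ v₃ z : K₀.W} {r' : K'.W × K'.W}

theorem FForce_pi (d : FForceD K₀ K' x q w v₂ v₃ z r') :
    (K₀.π (w, v₃).1, K₀.π (w, v₃).2) = (K'.π r'.1, K'.π r'.2) := by
  show (K₀.π w, K₀.π v₃) = (K'.π r'.1, K'.π r'.2)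
  rw [d.wx, d.G.tl, d.r3]

/-- the kit with the guard -/
abbrev FForceK (d : FForceD K₀ K' x q w v₂ v₃ z r') : Kit H :=
  insK K₀ (w, v₃) K' r' d.w3 d.G.adj (FForce_pi d)

theorem FForce_res [Finite V] (d : FForceD K₀ K' x q w v₂ v₃ z r')
    {cut : K₀.W → K₀.W → Prop} (hc : ¬ cut w v₃ ∧ ¬ cut v₃ w)
    {cutI : K₀.W ⊕ K'.W → K₀.W ⊕ K'.W → Prop}
    (hcut : ∀ a b, cutI a b ↔ ∃ a' b', a = Sum.inl a' ∧ b = Sum.inl b' ∧ cut a' b')
    {f : K₀.W ⊕ K'.W → V} {φ : K₀.W ⊕ K'.W → K₀.W ⊕ K'.W → V}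
    (h : PCov H (FForceK d).gr (FForceK d).π cutI f φ) :
    ∃ φ₁ : K₀.W → K₀.W → V, PCov H K₀.gr K₀.π cut (fun a => f (Sum.inl a)) φ₁ ∧
      GV H (f (Sum.inl w)) ∧
      ∀ a b, K₀.gr.Adj a b → (a, b) ≠ (w, v₃) → (a, b) ≠ (v₃, w) →
        φ₁ a b = φ (Sum.inl a) (Sum.inl b) := by
  obtain ⟨h1, ⟨g, hg, h2, -⟩, h3⟩ := ins_pcov d.w3 d.G.adj (FForce_pi d) d.G.str hc hcut h
  refine ⟨_, h1, ?_, h3⟩
  have h4 : g r'.1 = f (Sum.inl w) := congrArg Prod.fst h2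
  rw [← h4]
  exact d.G.val g hg

theorem FForce_adj (d : FForceD K₀ K' x q w v₂ v₃ z r') {a b : K₀.W} (h : K₀.gr.Adj a b)
    (h1 : (a, b) ≠ (w, v₃)) (h2 : (a, b) ≠ (v₃, w)) :
    (FForceK d).gr.Adj (Sum.inl a) (Sum.inl b) := ⟨h, h1, h2⟩

/-- the arc `(w, q)` is not the arc of the guard -/
theorem FForce_wq (d : FForceD K₀ K' x q w v₂ v₃ z r') : (w, q) ≠ (w, v₃) ∧ (w, q) ≠ (v₃, w) ∧
    (q, w) ≠ (w, v₃) ∧ (q, w) ≠ (v₃, w) := by
  have e1 := d.qw.ne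
  have e2 := d.n3
  refine ⟨?_, ?_, ?_, ?_⟩
  · intro h
    exact e2 (congrArg Prod.snd h).symm
  · intro h
    exact e1 (congrArg Prod.snd h)
  · intro h
    exact e1 (congrArg Prod.fst h)
  · intro h
    exact e2 (congrArg Prod.fst h).symm

theorem FForce_w2 (d : FForceD K₀ K' x q w v₂ v₃ z r') : (w, v₂) ≠ (w, v₃) ∧
    (w, v₂) ≠ (v₃, w) ∧ (v₂, w) ≠ (w, v₃) ∧ (v₂, w) ≠ (v₃, w) := by
  have e1 := d.w2.ne
  have e2 := d.n23
  refine ⟨?_, ?_, ?_, ?_⟩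
  · intro h
    exact e2 (congrArg Prod.snd h)
  · intro h
    exact e1 (congrArg Prod.snd h).symm
  · intro h
    exact e1 (congrArg Prod.fst h).symm
  · intro h
    exact e2 (congrArg Prod.fst h)

theorem FForce_zq (d : FForceD K₀ K' x q w v₂ v₃ z r') : (z, q) ≠ (w, v₃) ∧ (z, q) ≠ (v₃, w) ∧
    (q, z) ≠ (w, v₃) ∧ (q, z) ≠ (v₃, w) := by
  have e1 := d.qw.ne
  have e2 := d.n3
  refine ⟨?_, ?_, ?_, ?_⟩
  · intro h
    exact e2 (congrArg Prod.snd h).symm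
  · intro h
    exact e1 (congrArg Prod.snd h)
  · intro h
    exact e1 (congrArg Prod.fst h)
  · intro h
    exact e2 (congrArg Prod.fst h).symm

theorem FForce_s [Finite V] (hcon : H.Connected) {M : ℕ} (hM : K₀.Mult M)
    (d : FForceD K₀ K' x q w v₂ v₃ z r') {u : K₀.W} (hu : K₀.gr.Adj w u)
    (h1 : (w, u) ≠ (w, v₃)) (h2 : (w, u) ≠ (v₃, w)) :
    Straight H (FForceK d).gr (FForceK d).π (cut1 (Sum.inl w, Sum.inl u)) := by
  refine ins_straight (r₀ := (w, u)) d.w3 d.G.adj (FForce_pi d) d.G.str hu h1 h2 ?_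
  rintro f φ h ⟨g, hg, h3⟩
  have h4 : g r'.1 = f w := congrArg Prod.fst h3
  have h5 : GV H (f w) := by
    rw [← h4]
    exact d.G.val g hg
  exact sv_one hcon hM (r := (w, u)) hu h (Or.inl (nv_nb h5.1))

theorem FForce_s4 [Finite V] (hcon : H.Connected) {M : ℕ} (hM : K₀.Mult M)
    (d : FForceD K₀ K' x q w v₂ v₃ z r') :
    Straight H (FForceK d).gr (FForceK d).π (cut1 (Sum.inl z, Sum.inl q)) := by
  obtain ⟨e1, e2, -, -⟩ := FForce_zq d
  refine ins_straight (r₀ := (z, q)) d.w3 d.G.adj (FForce_pi d) d.G.str d.qz.symm e1 e2 ?_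
  rintro f φ h ⟨g, hg, h3⟩
  have h4 : g r'.1 = f w := congrArg Prod.fst h3
  have h5 : GV H (f w) := by
    rw [← h4]
    exact d.G.val g hg
  have h6 : φ w q = f q := by
    refine h.unc w q d.qw.symm ?_ ?_
    · intro h7
      exact d.wz (congrArg Prod.fst h7)
    · intro h7
      exact d.qz.ne (congrArg Prod.fst h7)
  have h7 : H.Adj (f w) (φ w q) := (h.bij w).mapsTo d.qw.symm
  rw [h6] at h7
  exact sv_one hcon hM (r := (z, q)) d.qz.symm h (Or.inr (nv_nb (h5.2 _ h7)))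

theorem FForce_val [Finite V] (d : FForceD K₀ K' x q w v₂ v₃ z r') {g : K₀.W ⊕ K'.W → V}
    (hg : IsCover (FForceK d).gr H g) : GV H (g (Sum.inl w)) := by
  obtain ⟨-, -, h1, -⟩ := FForce_res (cut := fun _ _ => False) (cutI := fun _ _ => False)
    (f := g) (φ := fun _ b => g b) d ⟨id, id⟩ (by
      intro a b
      constructor
      · exact False.elim
      · rintro ⟨_, _, -, -, h⟩
        exact h) ⟨fun a => hg a, fun _ _ _ _ _ => rfl,
      fun a => cover_sim hg (FForceK d).cov a, fun _ a _ => cover_sim hg (FForceK d).cov a⟩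
  exact h1

theorem FForce_v [Finite V] (d : FForceD K₀ K' x q w v₂ v₃ z r') {u : K₀.W}
    (hu : K₀.gr.Adj w u) (h1 : (w, u) ≠ (w, v₃)) (h2 : (w, u) ≠ (v₃, w))
    {g : K₀.W ⊕ K'.W → V} (hg : IsCover (FForceK d).gr H g) :
    NV H (g (Sum.inl w)) ∧ NV H (g (Sum.inl u)) := by
  have h3 := FForce_val d hg
  exact ⟨h3.1, h3.2 _ ((hg (Sum.inl w)).mapsTo (FForce_adj d hu h1 h2))⟩

/-- a cover of `K₀` with the value `x` at `w` can be extended -/
theorem FForce_ext [Finite V] (d : FForceD K₀ K' x q w v₂ v₃ z r') {f : K₀.W → V}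
    (hf : IsCover K₀.gr H f) (hw : f w = x) :
    ∃ F : K₀.W ⊕ K'.W → V, IsCover (FForceK d).gr H F ∧ ∀ a, F (Sum.inl a) = f a := by
  have h1 : H.Adj x (f v₃) := by
    rw [← hw]
    exact (hf w).mapsTo d.w3
  obtain ⟨g, hg, h2, h3⟩ := d.G.full (f v₃) h1
  refine ⟨Sum.elim f g, ?_, fun _ => rfl⟩
  refine ins_cover (r := (w, v₃)) d.w3 d.G.adj hf hg ?_
  show (f w, f v₃) = (g r'.1, g r'.2)
  rw [hw, h2, h3]

theorem FForce_tail [Finite V] {M : ℕ} (hM : K₀.Mult M) (d : FForceD K₀ K' x q w v₂ v₃ z r')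
    {cut : K₀.W ⊕ K'.W → K₀.W ⊕ K'.W → Prop} {f : K₀.W ⊕ K'.W → V}
    {φ : K₀.W ⊕ K'.W → K₀.W ⊕ K'.W → V}
    (hcut : ∀ a b, cut a b ↔ (a, b) = ((Sum.inl w : K₀.W ⊕ K'.W), (Sum.inl q : K₀.W ⊕ K'.W)) ∨
      (a, b) = ((Sum.inl w : K₀.W ⊕ K'.W), (Sum.inl v₂ : K₀.W ⊕ K'.W)))
    (h : PCov H (FForceK d).gr (FForceK d).π cut f φ)
    (h1 : NV H (f (Sum.inl q))) (h2 : NV H (f (Sum.inl v₂))) :
    φ (Sum.inl q) (Sum.inl w) = f (Sum.inl w) ∧ φ (Sum.inl v₂) (Sum.inl w) = f (Sum.inl w) := by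
  obtain ⟨φ₁, h3, h4, h5⟩ := FForce_res (cut := cut2 (w, q) (w, v₂)) (cutI := cut) (f := f)
    (φ := φ) d (by
      constructor
      · rintro (h7 | h7)
        · exact d.n3 (congrArg Prod.snd h7)
        · exact d.n23 (congrArg Prod.snd h7).symm
      · rintro (h7 | h7)
        · exact d.w3.ne (congrArg Prod.fst h7).symm
        · exact d.w3.ne (congrArg Prod.fst h7).symm) (by
      intro a b
      rw [hcut]
      constructor
      · rintro (h7 | h7)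
        · exact ⟨w, q, congrArg Prod.fst h7, congrArg Prod.snd h7, Or.inl rfl⟩
        · exact ⟨w, v₂, congrArg Prod.fst h7, congrArg Prod.snd h7, Or.inr rfl⟩
      · rintro ⟨a', b', rfl, rfl, h7 | h7⟩
        · have e1 : a' = w := congrArg Prod.fst h7
          have e2 : b' = q := congrArg Prod.snd h7
          rw [e1, e2]
          exact Or.inl rfl
        · have e1 : a' = w := congrArg Prod.fst h7
          have e2 : b' = v₂ := congrArg Prod.snd h7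
          rw [e1, e2]
          exact Or.inr rfl) h
  obtain ⟨-, -, e1, e2⟩ := FForce_wq d
  obtain ⟨-, -, e3, e4⟩ := FForce_w2 d
  rw [← h5 q w d.qw e1 e2, ← h5 v₂ w d.w2.symm e3 e4]
  rcases sv_t hM d.qw.symm d.w2 d.n2.symm h3 h4.1 (nv_nb h1) (nv_nb h2) with ⟨h6, h7⟩ | ⟨h6, h7⟩
  · exact ⟨(congrArg Prod.fst h6).symm, (congrArg Prod.fst h7).symm⟩
  · exact ⟨(congrArg Prod.fst h7).symm, (congrArg Prod.fst h6).symm⟩

theorem FForce_head [Finite V] {M : ℕ} (hM : K₀.Mult M) (d : FForceD K₀ K' x q w v₂ v₃ z r')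
    {cut : K₀.W ⊕ K'.W → K₀.W ⊕ K'.W → Prop} {f : K₀.W ⊕ K'.W → V}
    {φ : K₀.W ⊕ K'.W → K₀.W ⊕ K'.W → V}
    (hcut : ∀ a b, cut a b ↔ (a, b) = ((Sum.inl w : K₀.W ⊕ K'.W), (Sum.inl q : K₀.W ⊕ K'.W)) ∨
      (a, b) = ((Sum.inl z : K₀.W ⊕ K'.W), (Sum.inl q : K₀.W ⊕ K'.W)))
    (h : PCov H (FForceK d).gr (FForceK d).π cut f φ)
    (h0 : NV H (f (Sum.inl q))) (h1 : NV H (φ (Sum.inl w) (Sum.inl q)))
    (h2 : NV H (φ (Sum.inl z) (Sum.inl q))) :
    φ (Sum.inl w) (Sum.inl q) = f (Sum.inl q) ∧ φ (Sum.inl z) (Sum.inl q) = f (Sum.inl q) := by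
  obtain ⟨φ₁, h3, h4, h5⟩ := FForce_res (cut := cut2 (w, q) (z, q)) (cutI := cut) (f := f)
    (φ := φ) d (by
      constructor
      · rintro (h7 | h7)
        · exact d.n3 (congrArg Prod.snd h7)
        · exact d.n3 (congrArg Prod.snd h7)
      · rintro (h7 | h7)
        · exact d.qw.ne (congrArg Prod.snd h7).symm
        · exact d.qw.ne (congrArg Prod.snd h7).symm) (by
      intro a b
      rw [hcut]
      constructor
      · rintro (h7 | h7)
        · exact ⟨w, q, congrArg Prod.fst h7, congrArg Prod.snd h7, Or.inl rfl⟩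
        · exact ⟨z, q, congrArg Prod.fst h7, congrArg Prod.snd h7, Or.inr rfl⟩
      · rintro ⟨a', b', rfl, rfl, h7 | h7⟩
        · have e1 : a' = w := congrArg Prod.fst h7
          have e2 : b' = q := congrArg Prod.snd h7
          rw [e1, e2]
          exact Or.inl rfl
        · have e1 : a' = z := congrArg Prod.fst h7
          have e2 : b' = q := congrArg Prod.snd h7
          rw [e1, e2]
          exact Or.inr rfl) h
  obtain ⟨e1, e2, -, -⟩ := FForce_wq d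
  obtain ⟨e3, e4, -, -⟩ := FForce_zq d
  have f1 := h5 w q d.qw.symm e1 e2
  have f2 := h5 z q d.qz.symm e3 e4
  rw [← f1] at h1
  rw [← f2] at h2
  rw [← f1, ← f2]
  rcases sv_h hM d.qw d.qz d.wz h3 h0 (nv_nb' h1) (nv_nb' h2) with ⟨h6, h7⟩ | ⟨h6, h7⟩
  · exact ⟨congrArg Prod.snd h6, congrArg Prod.snd h7⟩
  · exact ⟨congrArg Prod.snd h6, congrArg Prod.snd h7⟩

theorem FForce_zeta [Finite V] (d : FForceD K₀ K' x q w v₂ v₃ z r') {y : V}
    (hs : Sim H y (K₀.π q)) : ∃ z', H.Adj y z' ∧ Sim H z' (K₀.π z) ∧ x ≠ z' := by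
  have hc : (nbc H y (K₀.π z)).ncard = (nbc H (K₀.π q) (K₀.π z)).ncard :=
    nbc_ncard hs (sim_refl H _)
  have hz : K₀.π z ∈ nbc H (K₀.π q) (K₀.π z) := ⟨(K₀.cov q).mapsTo d.qz, sim_refl H _⟩
  by_cases hx : Sim H (K₀.π z) x
  · have hw : K₀.π w ∈ nbc H (K₀.π q) (K₀.π z) :=
      ⟨(K₀.cov q).mapsTo d.qw, by rw [d.wx]; exact sim_symm hx⟩
    have hne : K₀.π w ≠ K₀.π z := fun he => d.wz ((K₀.cov q).injOn d.qw d.qz he)
    have h1 : 1 < (nbc H y (K₀.π z)).ncard := by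
      rw [hc]
      exact (Set.one_lt_ncard (Set.toFinite _)).2 ⟨_, hw, _, hz, hne⟩
    obtain ⟨z', hz', hn⟩ := Set.exists_ne_of_one_lt_ncard h1 x
    exact ⟨z', hz'.1, hz'.2, hn.symm⟩
  · have h1 : 0 < (nbc H y (K₀.π z)).ncard := by
      rw [hc]
      exact (Set.ncard_pos (Set.toFinite _)).2 ⟨_, hz⟩
    obtain ⟨z', hz'⟩ := (Set.ncard_pos (Set.toFinite _)).1 h1
    refine ⟨z', hz'.1, hz'.2, fun he => hx ?_⟩
    rw [he]
    exact sim_symm hz'.2

theorem FForce_nb (d : FForceD K₀ K' x q w v₂ v₃ z r') {u : K₀.W} (hu : K₀.gr.Adj w u) :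
    H.Adj x (K₀.π u) := by
  rw [← d.wx]
  exact (K₀.cov w).mapsTo hu

theorem FForce_cX [Finite V] (d : FForceD K₀ K' x q w v₂ v₃ z r')
    (hLf : ∀ y y', H.Adj x y → H.Adj x y' → Sim H y y') (hU : K₀.Univ q) {y y' : V}
    (hy : H.Adj x y) (hy' : H.Adj x y') (hne : y ≠ y') :
    ∃ F : K₀.W ⊕ K'.W → V, IsCover (FForceK d).gr H F ∧ F (Sum.inl w) = x ∧
      F (Sum.inl q) = y ∧ F (Sum.inl v₂) = y' := by
  obtain ⟨f, hf, h1, h2, h3⟩ := star_two (x := x) hU d.qw d.qw.symm d.w2 d.n2.symm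
    (by rw [d.wx]; exact sim_refl H x) hy hy' hne (hLf _ _ (FForce_nb d d.qw.symm) hy)
    (hLf _ _ (FForce_nb d d.w2) hy')
  obtain ⟨F, hF, h4⟩ := FForce_ext d hf h1
  exact ⟨F, hF, (h4 _).trans h1, (h4 _).trans h2, (h4 _).trans h3⟩

theorem FForce_cY [Finite V] (d : FForceD K₀ K' x q w v₂ v₃ z r')
    (hLf : ∀ y y', H.Adj x y → H.Adj x y' → Sim H y y') (hU : K₀.Univ q) {y : V}
    (hy : H.Adj x y) :
    ∃ z', ∃ F : K₀.W ⊕ K'.W → V, IsCover (FForceK d).gr H F ∧ F (Sum.inl q) = y ∧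
      F (Sum.inl w) = x ∧ F (Sum.inl z) = z' := by
  have hs : Sim H y (K₀.π q) := hLf _ _ hy (FForce_nb d d.qw.symm)
  obtain ⟨z', h1, h2, h3⟩ := FForce_zeta d hs
  obtain ⟨f, hf, h4, h5, h6⟩ := star_cover hU d.qw d.qz d.wz (sim_symm hs) hy.symm h1 h3
    (by rw [d.wx]; exact sim_refl H x) (sim_symm h2)
  obtain ⟨F, hF, h7⟩ := FForce_ext d hf h5
  exact ⟨z', F, hF, (h7 _).trans h4, (h7 _).trans h5, (h7 _).trans h6⟩

theorem FForce_WE [Finite V] (hcon : H.Connected) {M : ℕ} (hM : K₀.Mult M)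
    (d : FForceD K₀ K' x q w v₂ v₃ z r')
    (hLf : ∀ y y', H.Adj x y → H.Adj x y' → Sim H y y') (hU : K₀.Univ q) :
    WE (FForceK d) (Sum.inl w) (Sum.inl q) (Sum.inl v₂) (Sum.inl q) (Sum.inl w) (Sum.inl z)
      (fun e => NV H e.1 ∧ NV H e.2) (fun e => NV H e.2) := by
  obtain ⟨a1, a2, a3, a4⟩ := FForce_wq d
  obtain ⟨b1, b2, b3, b4⟩ := FForce_w2 d
  obtain ⟨c1, c2, c3, c4⟩ := FForce_zq d
  have j1 : (FForceK d).gr.Adj (Sum.inl w) (Sum.inl q) := FForce_adj d d.qw.symm a1 a2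
  have j2 : (FForceK d).gr.Adj (Sum.inl w) (Sum.inl v₂) := FForce_adj d d.w2 b1 b2
  have nx : ∀ {y}, y ∈ nbc H ((FForceK d).π (Sum.inl w)) ((FForceK d).π (Sum.inl q)) →
      H.Adj x y := by
    intro y hy
    have h1 : H.Adj (K₀.π w) y := hy.1
    rw [d.wx] at h1
    exact h1
  have wx : (FForceK d).π (Sum.inl w) = x := d.wx
  exact
    { p1 := j1
      p2 := j2
      q1 := j1.symm
      q2 := FForce_adj d d.qz c3 c4
      ne1 := fun h => d.n2 (Sum.inl_injective h).symm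
      ne2 := fun h => d.wz (Sum.inl_injective h)
      s12 := hLf _ _ (FForce_nb d d.w2) (FForce_nb d d.qw.symm)
      sq := sim_refl H _
      sw := sim_refl H _
      s1 := FForce_s hcon hM d d.qw.symm a1 a2
      s2 := FForce_s hcon hM d d.w2 b1 b2
      s3 := FForce_s hcon hM d d.qw.symm a1 a2
      s4 := FForce_s4 hcon hM d
      v1 := fun g hg => FForce_v d d.qw.symm a1 a2 hg
      v2 := fun g hg => FForce_v d d.w2 b1 b2 hg
      v3 := fun g hg => FForce_v d d.qw.symm a1 a2 hg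
      v4 := fun g hg => (FForce_v d d.qw.symm a1 a2 hg).2
      tail := by
        intro cut f φ hcut h g1 g2 g3 g4
        obtain ⟨t1, t2⟩ := FForce_tail hM d hcut h g3.2 g4.2
        exact ⟨rfl, rfl, t1, t2, fun h0 => d.n2 (Sum.inl_injective
          ((h.bij (Sum.inl w)).injOn j1 j2 h0)).symm, (h.bij (Sum.inl w)).mapsTo j1,
          (h.bij (Sum.inl w)).mapsTo j2⟩
      head := by
        intro cut f φ hcut h g1 g2 g3 g4
        obtain ⟨t1, t2⟩ := FForce_head hM d hcut h g3.2 g1.2 g2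
        exact ⟨t1, t2, rfl, rfl⟩
      cX := by
        intro y y' hy hy' hne
        rw [wx]
        exact FForce_cX d hLf hU (nx hy) (nx hy') hne
      cY := by
        have h1 : ∀ y, ∃ z', y ∈ nbc H ((FForceK d).π (Sum.inl w)) ((FForceK d).π (Sum.inl q)) →
            ∃ F : K₀.W ⊕ K'.W → V, IsCover (FForceK d).gr H F ∧ F (Sum.inl q) = y ∧
              F (Sum.inl w) = x ∧ F (Sum.inl z) = z' := by
          intro y
          by_cases hy : y ∈ nbc H ((FForceK d).π (Sum.inl w)) ((FForceK d).π (Sum.inl q))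
          · obtain ⟨z', h2⟩ := FForce_cY d hLf hU (nx hy)
            exact ⟨z', fun _ => h2⟩
          · exact ⟨x, fun h => absurd h hy⟩
        choose ζ hζ using h1
        refine ⟨ζ, fun y hy => ?_⟩
        rw [wx]
        exact hζ y hy }

end

theorem force_hard [Finite V] (hcon : H.Connected) (hd3 : ∀ v, 3 ≤ (H.neighborSet v).ncard)
    {V₀ : Type} {H₀ : SimpleGraph V₀} {x : V} (hx : GV H x)
    (hLf : ∀ y y', H.Adj x y → H.Adj x y' → Sim H y y') {R : V → V → Prop} (hrefl : ∀ v, R v v)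
    (hRx : ∀ y y', H.Adj x y → H.Adj x y' → R y y')
    (hup : ∀ (K : Kit H) (I : Inst K.W), Fine K I →
      (∀ o, R (K.π (I.ar (I.sg o)).1) (K.π (I.ar o).1)) →
      (∀ o, R (K.π (I.ar (I.sg o)).2) (K.π (I.ar o).2)) →
      Covers (I.graph K.gr) H₀ → Covers (I.graph K.gr) H)
    (hdown : ∀ (A : Type) (G : SimpleGraph A), Covers G H → Covers G H₀) : HardH H₀ := by
  obtain ⟨K₀, sd, M, P, -, hM, hπ, -, hU⟩ := exists_kitall H
  have hnb : ∀ v, ∃ u, H.Adj v u := by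
    intro v
    have h1 : 0 < (H.neighborSet v).ncard := by
      have := hd3 v
      omega
    exact (Set.ncard_pos (Set.toFinite _)).1 h1
  have hdeg : ∀ w, ∃ w', K₀.gr.Adj w w' := by
    intro w
    obtain ⟨u, hu⟩ := hnb (K₀.π w)
    obtain ⟨w', hw', -⟩ := lift_adj K₀ hu
    exact ⟨w', hw'⟩
  obtain ⟨y₀, hy₀⟩ := hnb x
  obtain ⟨w, hw, hwx⟩ := lift_adj K₀ (p := P y₀) (y := x) (by rw [hπ]; exact hy₀.symm)
  obtain ⟨t, ht, htx⟩ := Set.exists_ne_of_one_lt_ncard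
    (by have := hd3 y₀; omega : 1 < (H.neighborSet y₀).ncard) x
  obtain ⟨z, hz, hzt⟩ := lift_adj K₀ (p := P y₀) (y := t) (by rw [hπ]; exact ht)
  obtain ⟨v₂, v₃, K', r', k1, k2, k3, k4, k5, hG, k6⟩ :=
    exists_guard hcon hx hLf hM hdeg (hU y₀) hw hwx
  have d : FForceD K₀ K' x (P y₀) w v₂ v₃ z r' :=
    { qw := hw
      qz := hz
      w2 := k1
      w3 := k2
      n2 := k3
      n3 := k4
      n23 := k5
      wz := fun h => htx (by rw [← hzt, ← h, hwx])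
      wx := hwx
      G := hG
      r3 := k6 }
  have hWE := FForce_WE hcon hM d hLf (hU y₀)
  refine we_hard hWE (ins_deg _ _ _ hdeg hG.deg) ?_ hrefl rfl ?_ (fun I => hup (FForceK d) I)
    hdown
  · have h1 : nbc H ((FForceK d).π (Sum.inl w)) ((FForceK d).π (Sum.inl (P y₀))) =
        H.neighborSet x := by
      show nbc H (K₀.π w) (K₀.π (P y₀)) = H.neighborSet x
      rw [hwx, hπ]
      ext u
      exact ⟨fun h => h.1, fun h => ⟨h, hLf _ _ h hy₀⟩⟩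
    rw [h1]
    exact hd3 x
  · have h1 : ∀ a ∈ ({(FForceK d).π (Sum.inl (P y₀)), (FForceK d).π (Sum.inl v₂),
        (FForceK d).π (Sum.inl (P y₀))} : Set V), H.Adj x a := by
      rintro a (rfl | rfl | rfl)
      · exact FForce_nb d d.qw.symm
      · exact FForce_nb d d.w2
      · exact FForce_nb d d.qw.symm
    exact fun a ha b hb => hRx a b (h1 a ha) (h1 b hb)

end Pool.Agent.H24.GE
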