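import Pool.Agent.H24.GC.Straight
import Pool.Agent.H24.GC.Types

/-!
# JOB GE-34: insertion of a kit into an arc of a kit

`insG K r K' r'`: the disjoint union of `K` without the edge `r` and `K'` without the edge `r'`, and the edges joining
`r.1` (of `K`) to `r'.2`, and `r.2` (of `K`) to `r'.1`.

`insN1 a b`: the neighbour of `inl a` which replaces `b`: `inr r'.2` if `(a, b) = r`, `inr r'.1` if `(a, b) = r.swap`,
`inl b` otherwise; `insN2` for `inr a`: `inl r.2` if `(a, b) = r'`, `inl r.1` if `(a, b) = r'.swap`. `ins_nu1`, `ins_nu2`: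
bijections between the neighbourhoods (`r.1 ≠ r.2`).
`ins_cover`: let `F = Sum.elim f g`. `F (insN1 a b) = f b`: if `(a, b) = r`: `g r'.2 = f r.2 = f b`; if `(a, b) = r.swap`:
`g r'.1 = f r.1 = f b`. The same for `insN2`. So `F` is a cover. `insK`: `cov` by `ins_cover` for the projections.
`ins_pcov`: let `f₁ a = f (inl a)`, `φ₁ a b = φ (inl a) (insN1 a b)`, `f₂ a = f (inr a)`, `φ₂ a b = φ (inr a) (insN2 a b)`.
Both have the property `bij` (`ins_nu1`, `ins_nu2`). The four edges between the two parts are not cut. So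
`φ₂ r'.2 r'.1 = φ (inr r'.2) (inl r.1) = f₁ r.1`, `φ₁ r.1 r.2 = φ (inl r.1) (inr r'.2) = f₂ r'.2`,
`φ₂ r'.1 r'.2 = φ (inr r'.1) (inl r.2) = f₁ r.2`, `φ₁ r.2 r.1 = φ (inl r.2) (inr r'.1) = f₂ r'.1`. No other arc of `K'` is
cut, so `f₂, φ₂` is a partial cover of `K'` for `cut1 r'` (types: `hπ`), so `φ₂ a b = f₂ b` for all adjacent `a, b`
(`hstr`): `f₁ r.1 = f₂ r'.1`, `f₁ r.2 = f₂ r'.2`, and `f₂` is a cover, `g = f₂`. Hence `φ₁ r.1 r.2 = f₁ r.2`,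
`φ₁ r.2 r.1 = f₁ r.1`, and `f₁, φ₁` is a partial cover for `cut`. For `a, b ∈ K` adjacent, `(a, b) ≠ r, r.swap`:
`φ₁ a b = φ (inl a) (inl b)`; last statement: `insN1`.
`ins_straight`: `ins_pcov` for `cut = cut1 r₀`; by `h0` `av f₁ φ₁ r₀ = bv f₁ φ₁ r₀`, and by the last statement of `ins_pcov`
these are the values of `f, φ` for the arc `(inl r₀.1, inl r₀.2)`; `Straight_red` (file `Pool.Agent.H24.GC.Straight`).
-/

namespace Pool.Agent.H24.GE

open Pool.Agent.H24.GC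

variable {V : Type} {H : SimpleGraph V}

/-- the graph of the insertion -/
def insG {W W' : Type} (g : SimpleGraph W) (r : W × W) (g' : SimpleGraph W') (r' : W' × W') :
    SimpleGraph (W ⊕ W') where
  Adj
    | Sum.inl a, Sum.inl b => g.Adj a b ∧ (a, b) ≠ r ∧ (a, b) ≠ r.swap
    | Sum.inr a, Sum.inr b => g'.Adj a b ∧ (a, b) ≠ r' ∧ (a, b) ≠ r'.swap
    | Sum.inl a, Sum.inr b => (a = r.1 ∧ b = r'.2) ∨ (a = r.2 ∧ b = r'.1)
    | Sum.inr b, Sum.inl a => (a = r.1 ∧ b = r'.2) ∨ (a = r.2 ∧ b = r'.1)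
  symm := ⟨by
    rintro (a | a) (b | b) h
    · refine ⟨h.1.symm, fun h1 => h.2.2 ?_, fun h1 => h.2.1 ?_⟩
      · rw [← h1]
        rfl
      · have h2 := congrArg Prod.swap h1
        rw [Prod.swap_swap] at h2
        exact h2
    · exact h
    · exact h
    · refine ⟨h.1.symm, fun h1 => h.2.2 ?_, fun h1 => h.2.1 ?_⟩
      · rw [← h1]
        rfl
      · have h2 := congrArg Prod.swap h1
        rw [Prod.swap_swap] at h2
        exact h2⟩
  loopless := ⟨by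
    rintro (a | a) h
    · exact g.irrefl h.1
    · exact g'.irrefl h.1⟩

open Classical in
/-- the neighbour of `inl a` which replaces `b` -/
noncomputable def insN1 {W W' : Type} (r : W × W) (r' : W' × W') (a b : W) : W ⊕ W' :=
  if (a, b) = r then Sum.inr r'.2 else if (a, b) = r.swap then Sum.inr r'.1 else Sum.inl b

open Classical in
/-- the neighbour of `inr a` which replaces `b` -/
noncomputable def insN2 {W W' : Type} (r : W × W) (r' : W' × W') (a b : W') : W ⊕ W' :=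
  if (a, b) = r' then Sum.inl r.2 else if (a, b) = r'.swap then Sum.inl r.1 else Sum.inr b

section

variable {W W' : Type} {g : SimpleGraph W} {r : W × W} {g' : SimpleGraph W'} {r' : W' × W'}

private theorem FIns_n1a (r : W × W) (r' : W' × W') : insN1 r r' r.1 r.2 = Sum.inr r'.2 := by
  unfold insN1
  exact if_pos rfl

private theorem FIns_n1b (hr : r.1 ≠ r.2) (r' : W' × W') :
    insN1 r r' r.2 r.1 = Sum.inr r'.1 := by
  unfold insN1
  rw [if_neg (fun h : (r.2, r.1) = r => hr (congrArg Prod.snd h))]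
  exact if_pos rfl

private theorem FIns_n1c {a b : W} (h1 : (a, b) ≠ r) (h2 : (a, b) ≠ r.swap) (r' : W' × W') :
    insN1 r r' a b = Sum.inl b := by
  unfold insN1
  rw [if_neg h1, if_neg h2]

private theorem FIns_n2a (r : W × W) (r' : W' × W') : insN2 r r' r'.1 r'.2 = Sum.inl r.2 := by
  unfold insN2
  exact if_pos rfl

private theorem FIns_n2b (hr : r'.1 ≠ r'.2) (r : W × W) :
    insN2 r r' r'.2 r'.1 = Sum.inl r.1 := by
  unfold insN2
  rw [if_neg (fun h : (r'.2, r'.1) = r' => hr (congrArg Prod.snd h))]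
  exact if_pos rfl

private theorem FIns_n2c {a b : W'} (h1 : (a, b) ≠ r') (h2 : (a, b) ≠ r'.swap) (r : W × W) :
    insN2 r r' a b = Sum.inr b := by
  unfold insN2
  rw [if_neg h1, if_neg h2]

/-- the three kinds of arcs -/
private theorem FIns_cases (r : W × W) (a b : W) :
    (a = r.1 ∧ b = r.2) ∨ (a = r.2 ∧ b = r.1) ∨ ((a, b) ≠ r ∧ (a, b) ≠ r.swap) := by
  by_cases h1 : (a, b) = r
  · exact Or.inl ⟨congrArg Prod.fst h1, congrArg Prod.snd h1⟩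
  · by_cases h2 : (a, b) = r.swap
    · exact Or.inr (Or.inl ⟨congrArg Prod.fst h2, congrArg Prod.snd h2⟩)
    · exact Or.inr (Or.inr ⟨h1, h2⟩)

private theorem FIns_bij {α β γ : Type} {n : α → β} {F : β → γ} {f : α → γ} {S : Set α}
    {T : Set β} {U : Set γ} (hn : Set.BijOn n S T) (hf : Set.BijOn f S U)
    (h : ∀ x ∈ S, F (n x) = f x) : Set.BijOn F T U := by
  refine ⟨?_, ?_, ?_⟩
  · intro y hy
    obtain ⟨x, hx, rfl⟩ := hn.surjOn hy
    rw [h x hx]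
    exact hf.mapsTo hx
  · intro y hy y' hy' he
    obtain ⟨x, hx, rfl⟩ := hn.surjOn hy
    obtain ⟨x', hx', rfl⟩ := hn.surjOn hy'
    rw [h x hx, h x' hx'] at he
    rw [hf.injOn hx hx' he]
  · intro u hu
    obtain ⟨x, hx, rfl⟩ := hf.surjOn hu
    exact ⟨n x, hn.mapsTo hx, h x hx⟩

theorem ins_nu1 (hr : g.Adj r.1 r.2) (hr' : g'.Adj r'.1 r'.2) (a : W) :
    Set.BijOn (insN1 r r' a) (g.neighborSet a) ((insG g r g' r').neighborSet (Sum.inl a)) := by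
  have hne : r.1 ≠ r.2 := hr.ne
  refine ⟨?_, ?_, ?_⟩
  · intro b hb
    have hb' : g.Adj a b := hb
    rcases FIns_cases r a b with ⟨h1, h2⟩ | ⟨h1, h2⟩ | ⟨h1, h2⟩
    · subst h1 h2
      rw [FIns_n1a]
      exact Or.inl ⟨rfl, rfl⟩
    · subst h1 h2
      rw [FIns_n1b hne]
      exact Or.inr ⟨rfl, rfl⟩
    · rw [FIns_n1c h1 h2]
      exact ⟨hb', h1, h2⟩
  · intro b hb c hc he
    rcases FIns_cases r a b with ⟨h1, h2⟩ | ⟨h1, h2⟩ | ⟨h1, h2⟩ <;>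
      rcases FIns_cases r a c with ⟨h3, h4⟩ | ⟨h3, h4⟩ | ⟨h3, h4⟩
    · rw [h2, h4]
    · exact absurd (h1.symm.trans h3) hne
    · rw [h1] at h3 h4 he
      rw [h2, FIns_n1a, FIns_n1c h3 h4] at he
      exact absurd he Sum.inr_ne_inl
    · exact absurd (h3.symm.trans h1) hne
    · rw [h2, h4]
    · rw [h1] at h3 h4 he
      rw [h2, FIns_n1b hne, FIns_n1c h3 h4] at he
      exact absurd he Sum.inr_ne_inl
    · rw [h3] at h1 h2 he
      rw [h4, FIns_n1a, FIns_n1c h1 h2] at he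
      exact absurd he Sum.inl_ne_inr
    · rw [h3] at h1 h2 he
      rw [h4, FIns_n1b hne, FIns_n1c h1 h2] at he
      exact absurd he Sum.inl_ne_inr
    · rw [FIns_n1c h1 h2, FIns_n1c h3 h4] at he
      exact Sum.inl_injective he
  · rintro (b | b) hb
    · have hb' : g.Adj a b ∧ (a, b) ≠ r ∧ (a, b) ≠ r.swap := hb
      exact ⟨b, hb'.1, FIns_n1c hb'.2.1 hb'.2.2 r'⟩
    · have hb' : (a = r.1 ∧ b = r'.2) ∨ (a = r.2 ∧ b = r'.1) := hb
      rcases hb' with ⟨h1, h2⟩ | ⟨h1, h2⟩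
      · subst h1 h2
        exact ⟨r.2, hr, FIns_n1a r r'⟩
      · subst h1 h2
        exact ⟨r.1, hr.symm, FIns_n1b hne r'⟩

theorem ins_nu2 (hr : g.Adj r.1 r.2) (hr' : g'.Adj r'.1 r'.2) (a : W') :
    Set.BijOn (insN2 r r' a) (g'.neighborSet a) ((insG g r g' r').neighborSet (Sum.inr a)) := by
  have hne : r'.1 ≠ r'.2 := hr'.ne
  refine ⟨?_, ?_, ?_⟩
  · intro b hb
    have hb' : g'.Adj a b := hb
    rcases FIns_cases r' a b with ⟨h1, h2⟩ | ⟨h1, h2⟩ | ⟨h1, h2⟩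
    · subst h1 h2
      rw [FIns_n2a]
      exact Or.inr ⟨rfl, rfl⟩
    · subst h1 h2
      rw [FIns_n2b hne]
      exact Or.inl ⟨rfl, rfl⟩
    · rw [FIns_n2c h1 h2]
      exact ⟨hb', h1, h2⟩
  · intro b hb c hc he
    rcases FIns_cases r' a b with ⟨h1, h2⟩ | ⟨h1, h2⟩ | ⟨h1, h2⟩ <;>
      rcases FIns_cases r' a c with ⟨h3, h4⟩ | ⟨h3, h4⟩ | ⟨h3, h4⟩
    · rw [h2, h4]
    · exact absurd (h1.symm.trans h3) hne
    · rw [h1] at h3 h4 he
      rw [h2, FIns_n2a, FIns_n2c h3 h4] at he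
      exact absurd he Sum.inl_ne_inr
    · exact absurd (h3.symm.trans h1) hne
    · rw [h2, h4]
    · rw [h1] at h3 h4 he
      rw [h2, FIns_n2b hne, FIns_n2c h3 h4] at he
      exact absurd he Sum.inl_ne_inr
    · rw [h3] at h1 h2 he
      rw [h4, FIns_n2a, FIns_n2c h1 h2] at he
      exact absurd he Sum.inr_ne_inl
    · rw [h3] at h1 h2 he
      rw [h4, FIns_n2b hne, FIns_n2c h1 h2] at he
      exact absurd he Sum.inr_ne_inl
    · rw [FIns_n2c h1 h2, FIns_n2c h3 h4] at he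
      exact Sum.inr_injective he
  · rintro (b | b) hb
    · have hb' : (b = r.1 ∧ a = r'.2) ∨ (b = r.2 ∧ a = r'.1) := hb
      rcases hb' with ⟨h1, h2⟩ | ⟨h1, h2⟩
      · subst h1 h2
        exact ⟨r'.1, hr'.symm, FIns_n2b hne r⟩
      · subst h1 h2
        exact ⟨r'.2, hr', FIns_n2a r r'⟩
    · have hb' : g'.Adj a b ∧ (a, b) ≠ r' ∧ (a, b) ≠ r'.swap := hb
      exact ⟨b, hb'.1, FIns_n2c hb'.2.1 hb'.2.2 r⟩

private theorem FIns_elim1 (hr : r.1 ≠ r.2) {f : W → V} {f' : W' → V}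
    (h : (f r.1, f r.2) = (f' r'.1, f' r'.2)) (a b : W) :
    Sum.elim f f' (insN1 r r' a b) = f b := by
  rcases FIns_cases r a b with ⟨h1, h2⟩ | ⟨h1, h2⟩ | ⟨h1, h2⟩
  · rw [h1, h2, FIns_n1a]
    exact (congrArg Prod.snd h).symm
  · rw [h1, h2, FIns_n1b hr]
    exact (congrArg Prod.fst h).symm
  · rw [FIns_n1c h1 h2]
    rfl

private theorem FIns_elim2 (hr : r'.1 ≠ r'.2) {f : W → V} {f' : W' → V}
    (h : (f r.1, f r.2) = (f' r'.1, f' r'.2)) (a b : W') :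
    Sum.elim f f' (insN2 r r' a b) = f' b := by
  rcases FIns_cases r' a b with ⟨h1, h2⟩ | ⟨h1, h2⟩ | ⟨h1, h2⟩
  · rw [h1, h2, FIns_n2a]
    exact congrArg Prod.snd h
  · rw [h1, h2, FIns_n2b hr]
    exact congrArg Prod.fst h
  · rw [FIns_n2c h1 h2]
    rfl

theorem ins_cover (hr : g.Adj r.1 r.2) (hr' : g'.Adj r'.1 r'.2) {f : W → V} {f' : W' → V}
    (hf : IsCover g H f) (hf' : IsCover g' H f') (h : (f r.1, f r.2) = (f' r'.1, f' r'.2)) :
    IsCover (insG g r g' r') H (Sum.elim f f') := by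
  rintro (a | a)
  · exact FIns_bij (ins_nu1 hr hr' a) (hf a) fun b _ => FIns_elim1 hr.ne h a b
  · exact FIns_bij (ins_nu2 hr hr' a) (hf' a) fun b _ => FIns_elim2 hr'.ne h a b

end

/-- the kit of the insertion -/
def insK (K : Kit H) (r : K.W × K.W) (K' : Kit H) (r' : K'.W × K'.W) (hr : K.gr.Adj r.1 r.2)
    (hr' : K'.gr.Adj r'.1 r'.2) (h : (K.π r.1, K.π r.2) = (K'.π r'.1, K'.π r'.2)) : Kit H where
  W := K.W ⊕ K'.W
  fin := inferInstance
  gr := insG K.gr r K'.gr r'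
  π := Sum.elim K.π K'.π
  cov := ins_cover hr hr' K.cov K'.cov h

theorem ins_deg {K : Kit H} {r : K.W × K.W} {K' : Kit H} {r' : K'.W × K'.W}
    (hr : K.gr.Adj r.1 r.2) (hr' : K'.gr.Adj r'.1 r'.2)
    (h : (K.π r.1, K.π r.2) = (K'.π r'.1, K'.π r'.2)) (h1 : ∀ w, ∃ w', K.gr.Adj w w')
    (h2 : ∀ w, ∃ w', K'.gr.Adj w w') (w : (insK K r K' r' hr hr' h).W) :
    ∃ w', (insK K r K' r' hr hr' h).gr.Adj w w' := by
  have hw : ∀ x : K.W ⊕ K'.W, ∃ y, (insG K.gr r K'.gr r').Adj x y := by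
    rintro (a | a)
    · obtain ⟨b, hb⟩ := h1 a
      exact ⟨_, (ins_nu1 hr hr' a).mapsTo hb⟩
    · obtain ⟨b, hb⟩ := h2 a
      exact ⟨_, (ins_nu2 hr hr' a).mapsTo hb⟩
  exact hw w

theorem ins_pcov [Finite V] {K : Kit H} {r : K.W × K.W} {K' : Kit H} {r' : K'.W × K'.W}
    (hr : K.gr.Adj r.1 r.2) (hr' : K'.gr.Adj r'.1 r'.2)
    (hπ : (K.π r.1, K.π r.2) = (K'.π r'.1, K'.π r'.2))
    (hstr : Straight H K'.gr K'.π (cut1 r')) {cut : K.W → K.W → Prop}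
    (hc : ¬ cut r.1 r.2 ∧ ¬ cut r.2 r.1) {cutI : K.W ⊕ K'.W → K.W ⊕ K'.W → Prop}
    (hcut : ∀ a b, cutI a b ↔ ∃ a' b', a = Sum.inl a' ∧ b = Sum.inl b' ∧ cut a' b')
    {f : K.W ⊕ K'.W → V} {φ : K.W ⊕ K'.W → K.W ⊕ K'.W → V}
    (h : PCov H (insG K.gr r K'.gr r') (Sum.elim K.π K'.π) cutI f φ) :
    PCov H K.gr K.π cut (fun a => f (Sum.inl a)) (fun a b => φ (Sum.inl a) (insN1 r r' a b)) ∧
    (∃ g, IsCover K'.gr H g ∧
      (g r'.1, g r'.2) = (f (Sum.inl r.1), f (Sum.inl r.2)) ∧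
      ∀ a, g a = f (Sum.inr a)) ∧
    (∀ a b, K.gr.Adj a b → (a, b) ≠ r → (a, b) ≠ r.swap →
      φ (Sum.inl a) (insN1 r r' a b) = φ (Sum.inl a) (Sum.inl b)) := by
  have hne : r.1 ≠ r.2 := hr.ne
  have hne' : r'.1 ≠ r'.2 := hr'.ne
  have hlr : ∀ a b, ¬ cutI (Sum.inl a) (Sum.inr b) := by
    intro a b h1
    obtain ⟨_, _, _, h2, _⟩ := (hcut _ _).1 h1
    exact Sum.inr_ne_inl h2
  have hrl : ∀ a b, ¬ cutI (Sum.inr a) b := by
    intro a b h1
    obtain ⟨_, _, h2, _, _⟩ := (hcut _ _).1 h1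
    exact Sum.inr_ne_inl h2
  have e1 : φ (Sum.inr r'.2) (Sum.inl r.1) = f (Sum.inl r.1) :=
    h.unc _ _ (Or.inl ⟨rfl, rfl⟩) (hrl _ _) (hlr _ _)
  have e2 : φ (Sum.inl r.1) (Sum.inr r'.2) = f (Sum.inr r'.2) :=
    h.unc _ _ (Or.inl ⟨rfl, rfl⟩) (hlr _ _) (hrl _ _)
  have e3 : φ (Sum.inr r'.1) (Sum.inl r.2) = f (Sum.inl r.2) :=
    h.unc _ _ (Or.inr ⟨rfl, rfl⟩) (hrl _ _) (hlr _ _)
  have e4 : φ (Sum.inl r.2) (Sum.inr r'.1) = f (Sum.inr r'.1) :=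
    h.unc _ _ (Or.inr ⟨rfl, rfl⟩) (hlr _ _) (hrl _ _)
  have hb2 : ∀ a, Set.BijOn (fun b => φ (Sum.inr a) (insN2 r r' a b)) (K'.gr.neighborSet a)
      (H.neighborSet (f (Sum.inr a))) := fun a => (h.bij (Sum.inr a)).comp (ins_nu2 hr hr' a)
  have hp2 : PCov H K'.gr K'.π (cut1 r') (fun a => f (Sum.inr a))
      (fun a b => φ (Sum.inr a) (insN2 r r' a b)) := by
    refine ⟨hb2, ?_, fun w => h.simf (Sum.inr w), ?_⟩
    · intro w w' hw h1 h2
      have h3 : (w, w') ≠ r'.swap := by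
        intro h4
        apply h2
        have h5 := congrArg Prod.swap h4
        rw [Prod.swap_swap] at h5
        exact h5
      show φ (Sum.inr w) (insN2 r r' w w') = f (Sum.inr w')
      rw [FIns_n2c h1 h3]
      exact h.unc _ _ ⟨hw, h1, h3⟩ (hrl _ _) (hrl _ _)
    · intro w w' hw
      have h1 := h.simp (Sum.inr w) (insN2 r r' w w') ((ins_nu2 hr hr' w).mapsTo hw)
      rw [FIns_elim2 hne' hπ] at h1
      exact h1
  have hs := hstr _ _ hp2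
  have e5 : f (Sum.inl r.2) = f (Sum.inr r'.2) := by
    have h1 := hs r'.1 r'.2 hr'
    have h2 : φ (Sum.inr r'.1) (insN2 r r' r'.1 r'.2) = f (Sum.inr r'.2) := h1
    rw [FIns_n2a] at h2
    rw [← e3]
    exact h2
  have e6 : f (Sum.inl r.1) = f (Sum.inr r'.1) := by
    have h1 := hs r'.2 r'.1 hr'.symm
    have h2 : φ (Sum.inr r'.2) (insN2 r r' r'.2 r'.1) = f (Sum.inr r'.1) := h1
    rw [FIns_n2b hne'] at h2
    rw [← e1]
    exact h2
  refine ⟨⟨fun a => (h.bij (Sum.inl a)).comp (ins_nu1 hr hr' a), ?_,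
    fun w => h.simf (Sum.inl w), ?_⟩, ⟨fun a => f (Sum.inr a), ?_, ?_, fun _ => rfl⟩, ?_⟩
  · intro w w' hw h1 h2
    show φ (Sum.inl w) (insN1 r r' w w') = f (Sum.inl w')
    rcases FIns_cases r w w' with ⟨h3, h4⟩ | ⟨h3, h4⟩ | ⟨h3, h4⟩
    · rw [h3, h4, FIns_n1a, e2, e5]
    · rw [h3, h4, FIns_n1b hne, e4, e6]
    · rw [FIns_n1c h3 h4]
      have hcc : ∀ x y, ¬ cut x y → ¬ cutI (Sum.inl x) (Sum.inl y) := by
        intro x y hxy h5
        obtain ⟨x', y', h6, h7, h8⟩ := (hcut _ _).1 h5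
        rw [← Sum.inl_injective h6, ← Sum.inl_injective h7] at h8
        exact hxy h8
      exact h.unc _ _ ⟨hw, h3, h4⟩ (hcc _ _ h1) (hcc _ _ h2)
  · intro w w' hw
    have h1 := h.simp (Sum.inl w) (insN1 r r' w w') ((ins_nu1 hr hr' w).mapsTo hw)
    rw [FIns_elim1 hne hπ] at h1
    exact h1
  · intro a
    exact (hb2 a).congr fun b hb => hs a b hb
  · rw [e5, e6]
  · intro a b _ h1 h2
    rw [FIns_n1c h1 h2]

/-- a cut of `K` which is straight at `r₀` gives a straight cut of the insertion -/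
theorem ins_straight [Finite V] {K : Kit H} {r : K.W × K.W} {K' : Kit H} {r' : K'.W × K'.W}
    (hr : K.gr.Adj r.1 r.2) (hr' : K'.gr.Adj r'.1 r'.2)
    (hπ : (K.π r.1, K.π r.2) = (K'.π r'.1, K'.π r'.2))
    (hstr : Straight H K'.gr K'.π (cut1 r')) {r₀ : K.W × K.W} (hr₀ : K.gr.Adj r₀.1 r₀.2)
    (hne : r₀ ≠ r) (hne' : r₀ ≠ r.swap)
    (h0 : ∀ f φ, PCov H K.gr K.π (cut1 r₀) f φ →
      (∃ g, IsCover K'.gr H g ∧ (g r'.1, g r'.2) = (f r.1, f r.2)) → av f φ r₀ = bv f φ r₀) :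
    Straight H (insK K r K' r' hr hr' hπ).gr (insK K r K' r' hr hr' hπ).π
      (cut1 (Sum.inl r₀.1, Sum.inl r₀.2)) := by
  intro f φ h
  have h' : PCov H (insG K.gr r K'.gr r') (Sum.elim K.π K'.π)
      (cut1 (Sum.inl r₀.1, Sum.inl r₀.2)) f φ := h
  have hc : ¬ cut1 r₀ r.1 r.2 ∧ ¬ cut1 r₀ r.2 r.1 :=
    ⟨fun h1 => hne h1.symm, fun h1 => hne' h1.symm⟩
  have hcut : ∀ a b : K.W ⊕ K'.W, cut1 (Sum.inl r₀.1, Sum.inl r₀.2) a b ↔
      ∃ a' b', a = Sum.inl a' ∧ b = Sum.inl b' ∧ cut1 r₀ a' b' := by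
    intro a b
    constructor
    · intro h1
      exact ⟨r₀.1, r₀.2, congrArg Prod.fst h1, congrArg Prod.snd h1, rfl⟩
    · rintro ⟨a', b', h1, h2, h3⟩
      have h4 : (a', b') = r₀ := h3
      show (a, b) = (Sum.inl r₀.1, Sum.inl r₀.2)
      rw [h1, h2, ← h4]
  obtain ⟨h1, ⟨g, h2, h3, h4⟩, h5⟩ := ins_pcov hr hr' hπ hstr hc hcut h'
  have h6 := h0 _ _ h1 ⟨g, h2, h3⟩
  have h7 := h5 r₀.1 r₀.2 hr₀ hne hne'
  have h8 := h5 r₀.2 r₀.1 hr₀.symm
    (fun h9 => hne' (congrArg Prod.swap h9))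
    (fun h9 => hne (by
      have h10 := congrArg Prod.swap h9
      rw [Prod.swap_swap] at h10
      exact h10))
  have h9 : av f φ (Sum.inl r₀.1, Sum.inl r₀.2) = bv f φ (Sum.inl r₀.1, Sum.inl r₀.2) := by
    have h10 : (f (Sum.inl r₀.1), φ (Sum.inl r₀.1) (insN1 r r' r₀.1 r₀.2)) =
      (φ (Sum.inl r₀.2) (insN1 r r' r₀.2 r₀.1), f (Sum.inl r₀.2)) := h6
    rw [h7, h8] at h10
    exact h10
  exact Straight_red (fun w w' hw => Or.inl hw) h h9 h9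

end Pool.Agent.H24.GE
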