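import Pool.Agent.H24.GD.Cut

/-!
# JOB GE-30: the flow lemma at a vertex which is not a cut vertex

`NV H v`: `v` has at least three neighbours and `H - v` is connected (every nonempty set `S` which does not
contain `v` and is not everything else has an edge to the rest of `H - v`). `NB H e`: `e` is not a bridge
with the side `S ∋ e.1`: for every `S` with `e.1 ∈ S`, `e.2 ∉ S` there is another edge from `S` to the complement.

`nv_cut`: if `S = {v}`: `v` has at least three neighbours, take one different from `a`, `b`. If `v ∉ S` and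
`S ≠ {v}ᶜ`: `NV`. If `v ∉ S` and `S = {v}ᶜ`: take a neighbour `s` of `v`, `s ≠ a, b`, and the pair `(s, v)`. If `v ∈ S`,
`S ≠ {v}`: `NV` for `Sᶜ` (which does not contain `v`; there is `u ∈ S`, `u ≠ v`), and exchange the pair.
`nv_nb`, `nv_nb'`: `nv_cut` with `a = b = e.2` (or `e.1`). `nb_swap`: `Sᶜ`.
`n_const_t`: as `n_const2` (file `Pool.Agent.H24.GD.Cut`): suppose that `n` is not constant `c`; `gdc_pm`, `W = dlW ...`,
`E₁ = gdcE H n (c + 1)`, `E₂ = gdcE H n c`. Every element of `E i` is one of `a₁`, `a₂`, `b₁.swap`, `b₂.swap` (as `1 ≤ W e`).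
`E i` is not empty (`nv_cut`), and has at least two elements: if `e ∈ E i` is `a₁` or `a₂` use `nv_nb`, if it is
`b₁.swap` or `b₂.swap` use `h1`, `h2`. `gdc_le`, `gdc_sum`, `dl_sumW`: both have exactly two elements, and the termwise
inequality is an equality. As in `n_const2`, `a₁` and `a₂` are in `E₁ ∪ E₂`, and in the same one, so one of them
is `{a₁, a₂}`. But by `nv_cut` (with `v = a₁.1`, `a = a₁.2`, `b = a₂.2`) it contains another pair.
`n_const_h`: apply `n_const_t` to `b₁.swap, b₂.swap, a₁.swap, a₂.swap` and the same function `n`: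
`DD b₁.swap b₂.swap a₁.swap a₂.swap x y = - DD a₁ a₂ b₁ b₂ y x`.
`n_const_s`: `W e = ind a e.1 e.2 + ind b e.2 e.1` has the sum `2`, so `E₁`, `E₂` (not empty, by connectedness) have one
element each, `a` or `b.swap`, and termwise equality. In the case `NB H a` neither is `{a}` (otherwise `NB H a` gives a
second element), so both are `{b.swap}`, and `W b.swap = 2`, so `a = b.swap`, contradiction. In the case
`NB H b.swap` neither is `{b.swap}`, both are `{a}`, `W a = 2`, `a = b.swap`, contradiction.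
-/

namespace Pool.Agent.H24.GE

open Pool.Agent.H24.GC Pool.Agent.H24.GD

variable {V : Type} {H : SimpleGraph V}

/-- `v` has at least three neighbours and is not a cut vertex -/
def NV (H : SimpleGraph V) (v : V) : Prop :=
  3 ≤ (H.neighborSet v).ncard ∧ ∀ S : Set V, S.Nonempty → v ∉ S → (∃ u, u ∉ S ∧ u ≠ v) →
    ∃ s ∈ S, ∃ u, u ∉ S ∧ u ≠ v ∧ H.Adj s u

/-- `e` is not a bridge -/
def NB (H : SimpleGraph V) (e : V × V) : Prop :=
  ∀ S : Set V, e.1 ∈ S → e.2 ∉ S → ∃ s ∈ S, ∃ u, u ∉ S ∧ H.Adj s u ∧ (s, u) ≠ e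

theorem fnc_three [Finite V] {v : V} (h : 3 ≤ (H.neighborSet v).ncard) (a b : V) :
    ∃ w, H.Adj v w ∧ w ≠ a ∧ w ≠ b := by
  by_contra hc
  push Not at hc
  have hsub : H.neighborSet v ⊆ {a, b} := by
    intro w hw
    by_cases h1 : w = a
    · exact Or.inl h1
    · exact Or.inr (hc w hw h1)
  have h2 := Set.ncard_le_ncard hsub (Set.toFinite _)
  have h3 := Set.ncard_insert_le a ({b} : Set V)
  rw [Set.ncard_singleton] at h3
  omega

theorem nv_cut [Finite V] {v : V} (h : NV H v) {S : Set V} (hS : S.Nonempty)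
    (hSc : Sᶜ.Nonempty) (a b : V) : ∃ s ∈ S, ∃ u ∈ Sᶜ, H.Adj s u ∧ (s, u) ≠ (v, a) ∧
      (s, u) ≠ (v, b) ∧ (s, u) ≠ (a, v) ∧ (s, u) ≠ (b, v) := by
  obtain ⟨w, hw, hwa, hwb⟩ := fnc_three h.1 a b
  have hwv : w ≠ v := hw.ne.symm
  by_cases hv : v ∈ S
  · by_cases hu : ∃ u, u ∈ S ∧ u ≠ v
    · obtain ⟨u, hu1, hu2⟩ := hu
      obtain ⟨s, hs, t, ht, htv, hst⟩ := h.2 Sᶜ hSc (fun hc => hc hv)
        ⟨u, fun hc => hc hu1, hu2⟩
      have ht' : t ∈ S := by
        by_contra hc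
        exact ht hc
      have hsv : s ≠ v := fun e => hs (by rw [e]; exact hv)
      exact ⟨t, ht', s, hs, hst.symm, fun e => htv (congrArg Prod.fst e),
        fun e => htv (congrArg Prod.fst e), fun e => hsv (congrArg Prod.snd e),
        fun e => hsv (congrArg Prod.snd e)⟩
    · push Not at hu
      have hwS : w ∈ Sᶜ := fun hc => hwv (hu w hc)
      exact ⟨v, hv, w, hwS, hw, fun e => hwa (congrArg Prod.snd e),
        fun e => hwb (congrArg Prod.snd e), fun e => hwv (congrArg Prod.snd e),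
        fun e => hwv (congrArg Prod.snd e)⟩
  · by_cases hu : ∃ u, u ∉ S ∧ u ≠ v
    · obtain ⟨s, hs, t, ht, htv, hst⟩ := h.2 S hS hv hu
      have hsv : s ≠ v := fun e => hv (by rw [← e]; exact hs)
      exact ⟨s, hs, t, ht, hst, fun e => hsv (congrArg Prod.fst e),
        fun e => hsv (congrArg Prod.fst e), fun e => htv (congrArg Prod.snd e),
        fun e => htv (congrArg Prod.snd e)⟩
    · push Not at hu
      have hwS : w ∈ S := by
        by_contra hc
        exact hwv (hu w hc)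
      exact ⟨w, hwS, v, hv, hw.symm, fun e => hwv (congrArg Prod.fst e),
        fun e => hwv (congrArg Prod.fst e), fun e => hwa (congrArg Prod.fst e),
        fun e => hwb (congrArg Prod.fst e)⟩

theorem nb_swap {e : V × V} (h : NB H e) : NB H e.swap := by
  intro S h1 h2
  obtain ⟨s, hs, u, hu, hsu, hne⟩ := h Sᶜ h2 (fun hc => hc h1)
  have hu' : u ∈ S := by
    by_contra hc
    exact hu hc
  exact ⟨u, hu', s, hs, hsu.symm, fun e' => hne (by
    have := congrArg Prod.swap e'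
    exact this)⟩

theorem nv_nb [Finite V] {e : V × V} (h : NV H e.1) : NB H e := by
  intro S h1 h2
  obtain ⟨s, hs, u, hu, hsu, hne, -⟩ := nv_cut h ⟨e.1, h1⟩ ⟨e.2, h2⟩ e.2 e.2
  exact ⟨s, hs, u, hu, hsu, hne⟩

theorem nv_nb' [Finite V] {e : V × V} (h : NV H e.2) : NB H e := by
  intro S h1 h2
  obtain ⟨s, hs, u, hu, hsu, -, -, hne, -⟩ := nv_cut h ⟨e.1, h1⟩ ⟨e.2, h2⟩ e.1 e.1
  exact ⟨s, hs, u, hu, hsu, hne⟩

theorem fnc_two [Finite V] {n : V → ℤ} {t : ℤ} {e : V × V} (he : e ∈ gdcE H n t)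
    (hnb : NB H e) : 2 ≤ (gdcE H n t).ncard := by
  have he' := gdc_mem.1 he
  obtain ⟨s, hs, u, hu, hsu, hne⟩ := hnb {x | t ≤ n x} he'.1 (by
    intro hc
    have hc' : t ≤ n e.2 := hc
    omega)
  have hm : (s, u) ∈ gdcE H n t := ⟨hs, hu, hsu⟩
  have := (Set.one_lt_ncard (Set.toFinite (gdcE H n t))).2 ⟨e, he, (s, u), hm, hne.symm⟩
  omega

theorem fnc_dlW {a₁ a₂ b₁ b₂ e : V × V} (h : 1 ≤ dlW a₁ a₂ b₁ b₂ e) :
    (e = a₁ ∨ e = a₂) ∨ (e = b₁.swap ∨ e = b₂.swap) := by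
  by_contra hc
  push Not at hc
  obtain ⟨⟨c1, c2⟩, c3, c4⟩ := hc
  unfold dlW at h
  rw [dl_ind_zero (fun e' => c1 e'.symm), dl_ind_zero (fun e' => c2 e'.symm),
    dl_ind_zero (fun e' => c3 (by rw [e']; rfl)), dl_ind_zero (fun e' => c4 (by rw [e']; rfl))] at h
  omega

theorem n_const_t [Fintype V] {a₁ a₂ b₁ b₂ : V × V} (ha₁ : H.Adj a₁.1 a₁.2)
    (ha₂ : H.Adj a₂.1 a₂.2) (hb₁ : H.Adj b₁.1 b₁.2) (hb₂ : H.Adj b₂.1 b₂.2)
    (hv : NV H a₁.1) (ht : a₁.1 = a₂.1) (hne : a₁ ≠ a₂) (h1 : NB H b₁.swap) (h2 : NB H b₂.swap)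
    {n : V → ℤ}
    (hn : ∀ x y, H.Adj x y → n x - n y = DD a₁ a₂ b₁ b₂ x y - DD a₁ a₂ b₁ b₂ y x) {c : ℤ}
    (hs : ∑ x, n x = c * Fintype.card V) (x : V) : n x = c := by
  classical
  by_contra hx
  obtain ⟨⟨p, hp⟩, m, hm⟩ := gdc_pm hs hx
  have hcut : ∀ t : ℤ, (∃ x, t ≤ n x) → (∃ x, n x < t) → ∀ a b : V,
      ∃ e ∈ gdcE H n t, e ≠ (a₁.1, a) ∧ e ≠ (a₁.1, b) := by
    intro t ⟨x₁, h1⟩ ⟨x₀, h0⟩ a b
    obtain ⟨s, hs, u, hu, hsu, e1, e2, -⟩ := nv_cut hv (S := {x | t ≤ n x}) ⟨x₁, h1⟩ ⟨x₀, by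
      intro hc
      have hc' : t ≤ n x₀ := hc
      omega⟩ a b
    exact ⟨(s, u), ⟨hs, hu, hsu⟩, e1, e2⟩
  have htwo : ∀ t : ℤ, (∃ x, t ≤ n x) → (∃ x, n x < t) → 2 ≤ (gdcE H n t).ncard := by
    intro t h3 h4
    obtain ⟨e, he, -⟩ := hcut t h3 h4 x x
    have he' := gdc_mem.1 he
    have hW := dl_W_ge (hn e.1 e.2 he'.2.2)
    have hW1 : 1 ≤ dlW a₁ a₂ b₁ b₂ e := by
      have : dlW a₁ a₂ b₁ b₂ (e.1, e.2) = dlW a₁ a₂ b₁ b₂ e := rfl
      omega
    have hnb : NB H e := by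
      rcases fnc_dlW hW1 with (h | h) | (h | h)
      · rw [h]
        exact nv_nb hv
      · rw [h]
        exact nv_nb (by rw [← ht]; exact hv)
      · rw [h]
        exact h1
      · rw [h]
        exact h2
    exact fnc_two he hnb
  have k1 := htwo (c + 1) ⟨p, by omega⟩ ⟨m, by omega⟩
  have k2 := htwo c ⟨p, by omega⟩ ⟨m, by omega⟩
  have hle := gdc_le (H := H) (n := n) (W := dlW a₁ a₂ b₁ b₂) (dl_W_nonneg a₁ a₂ b₁ b₂)
    (fun e he => dl_W_ge (hn e.1 e.2 he)) c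
  have hsum := Finset.sum_le_sum (s := (Finset.univ : Finset (V × V))) fun e _ => hle e
  rw [gdc_sum, dl_sumW] at hsum
  have q1 : (gdcE H n (c + 1)).ncard = 2 := by omega
  have q2 : (gdcE H n c).ncard = 2 := by omega
  have heq := (Finset.sum_eq_sum_iff_of_le (s := (Finset.univ : Finset (V × V)))
    fun e _ => hle e).1 (by rw [gdc_sum, dl_sumW, q1, q2]; norm_num)
  have key : ∀ t : ℤ, (∃ x, t ≤ n x) → (∃ x, n x < t) → (gdcE H n t).ncard = 2 →
      a₁ ∈ gdcE H n t → a₂ ∈ gdcE H n t → False := by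
    intro t h3 h4 h5 m1 m2
    obtain ⟨e, he, e1, e2⟩ := hcut t h3 h4 a₁.2 a₂.2
    have hsub : ({a₁, a₂} : Set (V × V)) ⊆ gdcE H n t := by
      rintro z (rfl | rfl)
      · exact m1
      · exact m2
    have hE : ({a₁, a₂} : Set (V × V)) = gdcE H n t := by
      refine Set.eq_of_subset_of_ncard_le hsub ?_ (Set.toFinite _)
      rw [h5, Set.ncard_pair hne]
    rw [← hE] at he
    rcases he with h | h
    · exact e1 h
    · exact e2 (by rw [ht]; exact h)
  have w1 : 1 ≤ dlW a₁ a₂ b₁ b₂ a₁ := by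
    have h1 := dl_ind_self a₁
    have h2 := dl_ind_nonneg a₂ a₁.1 a₁.2
    have h3 := dl_ind_nonneg b₁ a₁.2 a₁.1
    have h4 := dl_ind_nonneg b₂ a₁.2 a₁.1
    unfold dlW
    omega
  have w2 : 1 ≤ dlW a₁ a₂ b₁ b₂ a₂ := by
    have h1 := dl_ind_self a₂
    have h2 := dl_ind_nonneg a₁ a₂.1 a₂.2
    have h3 := dl_ind_nonneg b₁ a₂.2 a₂.1
    have h4 := dl_ind_nonneg b₂ a₂.2 a₂.1
    unfold dlW
    omega
  have r : ∀ a : V × V, 1 ≤ dlW a₁ a₂ b₁ b₂ a → a ∈ gdcE H n (c + 1) ∨ a ∈ gdcE H n c := by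
    intro a ha
    by_contra hc
    push Not at hc
    have := heq a (Finset.mem_univ a)
    rw [if_neg hc.1, if_neg hc.2] at this
    omega
  by_cases hcase : c + 1 ≤ n a₁.1
  · have up : ∀ a : V × V, a.1 = a₁.1 → (a ∈ gdcE H n (c + 1) ∨ a ∈ gdcE H n c) →
        a ∈ gdcE H n (c + 1) := by
      rintro a ha (h | h)
      · exact h
      · rw [gdc_mem] at h ⊢
        refine ⟨by rw [ha]; exact hcase, by omega, h.2.2⟩
    exact key _ ⟨p, by omega⟩ ⟨m, by omega⟩ q1 (up a₁ rfl (r a₁ w1)) (up a₂ ht.symm (r a₂ w2))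
  · have up : ∀ a : V × V, a.1 = a₁.1 → (a ∈ gdcE H n (c + 1) ∨ a ∈ gdcE H n c) →
        a ∈ gdcE H n c := by
      rintro a ha (h | h)
      · rw [gdc_mem, ha] at h
        exact absurd h.1 hcase
      · exact h
    exact key _ ⟨p, by omega⟩ ⟨m, by omega⟩ q2 (up a₁ rfl (r a₁ w1)) (up a₂ ht.symm (r a₂ w2))

theorem fnc_ind_swap (a : V × V) (x y : V) : ind a.swap x y = ind a y x := by
  by_cases h : a = (y, x)
  · rw [h]
    show ind (x, y) x y = ind (y, x) y x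
    rw [dl_ind_self (x, y), dl_ind_self (y, x)]
  · rw [dl_ind_zero h, dl_ind_zero]
    intro h2
    apply h
    have := congrArg Prod.swap h2
    rw [Prod.swap_swap] at this
    exact this

theorem n_const_h [Fintype V] {a₁ a₂ b₁ b₂ : V × V} (ha₁ : H.Adj a₁.1 a₁.2)
    (ha₂ : H.Adj a₂.1 a₂.2) (hb₁ : H.Adj b₁.1 b₁.2) (hb₂ : H.Adj b₂.1 b₂.2)
    (hv : NV H b₁.2) (ht : b₁.2 = b₂.2) (hne : b₁ ≠ b₂) (h1 : NB H a₁) (h2 : NB H a₂)
    {n : V → ℤ}
    (hn : ∀ x y, H.Adj x y → n x - n y = DD a₁ a₂ b₁ b₂ x y - DD a₁ a₂ b₁ b₂ y x) {c : ℤ}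
    (hs : ∑ x, n x = c * Fintype.card V) (x : V) : n x = c := by
  refine n_const_t (a₁ := b₁.swap) (a₂ := b₂.swap) (b₁ := a₁.swap) (b₂ := a₂.swap) hb₁.symm
    hb₂.symm ha₁.symm ha₂.symm hv ht (fun e => hne (Prod.swap_injective e)) ?_ ?_ ?_ hs x
  · rw [Prod.swap_swap]
    exact h1
  · rw [Prod.swap_swap]
    exact h2
  · intro x y hxy
    rw [hn x y hxy]
    unfold DD
    rw [fnc_ind_swap, fnc_ind_swap, fnc_ind_swap, fnc_ind_swap, fnc_ind_swap, fnc_ind_swap,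
      fnc_ind_swap, fnc_ind_swap]
    ring

theorem n_const_s [Fintype V] (hcon : H.Connected) {a b : V × V} (ha : H.Adj a.1 a.2)
    (hb : H.Adj b.1 b.2) (h1 : NB H a ∨ NB H b.swap) {n : V → ℤ}
    (hn : ∀ x y, H.Adj x y → n x - n y = DD a a b a x y - DD a a b a y x) {c : ℤ}
    (hs : ∑ x, n x = c * Fintype.card V) (x : V) : n x = c := by
  classical
  by_contra hx
  obtain ⟨⟨p, hp⟩, m, hm⟩ := gdc_pm hs hx
  have hWn : ∀ e : V × V, 0 ≤ ind a e.1 e.2 + ind b e.2 e.1 :=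
    fun e => add_nonneg (dl_ind_nonneg a e.1 e.2) (dl_ind_nonneg b e.2 e.1)
  have hWg : ∀ e : V × V, H.Adj e.1 e.2 → n e.1 - n e.2 ≤ ind a e.1 e.2 + ind b e.2 e.1 := by
    intro e he
    have h1 := hn e.1 e.2 he
    have h2 := dl_ind_nonneg a e.2 e.1
    have h3 := dl_ind_nonneg b e.1 e.2
    unfold DD at h1
    omega
  have hne : ∀ t : ℤ, t ≤ n p → n m < t → ∃ e, e ∈ gdcE H n t := by
    intro t h3 h4
    obtain ⟨w⟩ := hcon.preconnected p m
    obtain ⟨d, -, h5, h6⟩ := w.exists_boundary_dart {x | t ≤ n x} h3 (by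
      intro hc
      have hc' : t ≤ n m := hc
      omega)
    exact ⟨(d.fst, d.snd), ⟨h5, h6, d.adj⟩⟩
  have hone : ∀ t : ℤ, t ≤ n p → n m < t → 1 ≤ (gdcE H n t).ncard := by
    intro t h3 h4
    have := (Set.ncard_pos (Set.toFinite (gdcE H n t))).2 (hne t h3 h4)
    omega
  have k1 := hone (c + 1) (by omega) (by omega)
  have k2 := hone c (by omega) (by omega)
  have hle := gdc_le (H := H) (n := n) (W := fun e => ind a e.1 e.2 + ind b e.2 e.1) hWn hWg c
  have hsum := Finset.sum_le_sum (s := (Finset.univ : Finset (V × V))) fun e _ => hle e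
  have hsW : ∑ e : V × V, (ind a e.1 e.2 + ind b e.2 e.1) = 2 := by
    rw [Finset.sum_add_distrib, dl_sum, dl_sum']
    norm_num
  rw [gdc_sum, hsW] at hsum
  have q1 : (gdcE H n (c + 1)).ncard = 1 := by omega
  have q2 : (gdcE H n c).ncard = 1 := by omega
  have heq := (Finset.sum_eq_sum_iff_of_le (s := (Finset.univ : Finset (V × V)))
    fun e _ => hle e).1 (by rw [gdc_sum, hsW, q1, q2]; norm_num)
  have hmem : ∀ t : ℤ, ∀ e ∈ gdcE H n t, e = a ∨ e = b.swap := by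
    intro t e he
    have he' := gdc_mem.1 he
    have hW := hWg e he'.2.2
    by_contra hc
    push Not at hc
    rw [dl_ind_zero (fun e' => hc.1 e'.symm), dl_ind_zero (fun e' => hc.2 (by rw [e']; rfl))] at hW
    omega
  obtain ⟨e₁, he₁⟩ := hne (c + 1) (by omega) (by omega)
  obtain ⟨e₂, he₂⟩ := hne c (by omega) (by omega)
  rcases h1 with h1 | h1
  · have hno : ∀ t : ℤ, (gdcE H n t).ncard = 1 → a ∉ gdcE H n t := by
      intro t h3 h4
      have := fnc_two h4 h1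
      omega
    have m1 : b.swap ∈ gdcE H n (c + 1) := by
      rcases hmem _ e₁ he₁ with h | h
      · exact absurd (h ▸ he₁) (hno _ q1)
      · exact h ▸ he₁
    have m2 : b.swap ∈ gdcE H n c := by
      rcases hmem _ e₂ he₂ with h | h
      · exact absurd (h ▸ he₂) (hno _ q2)
      · exact h ▸ he₂
    have h3 := heq b.swap (Finset.mem_univ _)
    rw [if_pos m1, if_pos m2] at h3
    have h4 : ind b b.swap.2 b.swap.1 = 1 := dl_ind_self b
    rw [h4] at h3
    have h5 : a = b.swap := dl_ind_ne (a := a) (x := b.swap.1) (y := b.swap.2) (by omega)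
    exact hno _ q1 (by rw [h5]; exact m1)
  · have hno : ∀ t : ℤ, (gdcE H n t).ncard = 1 → b.swap ∉ gdcE H n t := by
      intro t h3 h4
      have := fnc_two h4 h1
      omega
    have m1 : a ∈ gdcE H n (c + 1) := by
      rcases hmem _ e₁ he₁ with h | h
      · exact h ▸ he₁
      · exact absurd (h ▸ he₁) (hno _ q1)
    have m2 : a ∈ gdcE H n c := by
      rcases hmem _ e₂ he₂ with h | h
      · exact h ▸ he₂
      · exact absurd (h ▸ he₂) (hno _ q2)
    have h3 := heq a (Finset.mem_univ _)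
    rw [if_pos m1, if_pos m2] at h3
    rw [dl_ind_self a] at h3
    have h5 : b = (a.2, a.1) := dl_ind_ne (a := b) (x := a.2) (y := a.1) (by omega)
    exact hno _ q1 (by rw [h5]; exact m1)

end Pool.Agent.H24.GE
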