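import Pool.Agent.H24.GE.FSv

/-!
# JOB GE-32: rings of copies of the graph

`ringG H x y s` (`s` a permutation of `I`): copies `(i, ·)` of `H` without the edge `x y`, and edges joining `(i, x)` to
`(s i, y)`. `ringK`: the kit with the projection.

`ringG.symm`, `loopless`: clear. `ring_nu`: let `nu i u v = (s i, v)` if `(u, v) = (x, y)`, `(s⁻¹ i, v)` if
`(u, v) = (y, x)` and `(i, v)` otherwise. It maps the neighbourhood of `u` in `H` bijectively onto the neighbourhood of
`(i, u)` (`x ≠ y`); `cov`: `Prod.snd ∘ nu i u = id`.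

`bridge_img`: let `F` be a cover of the finite graph `G`, `g ∈ A`, `g' ∉ A` adjacent, and `(g, g')` the only pair of
adjacent vertices in `A ×ˢ Aᶜ`. Let `n v = {w ∈ A | F w = v}.ncard` and let `u, v` be adjacent. Every `w ∈ A` with `F w = u`
has exactly one neighbour `w'` with `F w' = v`; so `n u` is the number of pairs `(w, w')` of adjacent vertices with
`w, w' ∈ A`, labels `u, v`, plus `1` if `(F g, F g') = (u, v)`. The same for `n v`; so
`n u - n v = [(F g, F g') = (u, v)] - [(F g, F g') = (v, u)]`. Let `S = {v | n (F g) ≤ n v}`. Then `F g ∈ S`, `F g' ∉ S`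
(`n (F g') = n (F g) - 1`), and a pair of adjacent vertices `u ∈ S`, `v ∉ S` has `n v < n u`, so it is `(F g, F g')`.
`ring_bridge`: a pair `(u, v)` of adjacent vertices of `H` with `¬ NB H (u, v)` and the copy `i`: `(u, v)` is different
from `(x, y)`, `(y, x)` (`nb_swap`). Let `S` be the side (`u ∈ S`, `v ∉ S`, no other edge). `x, y` are both in `S` or both
not in `S`. In the second case `A = {(i, a) | a ∈ S}`, in the first case `A = {(j, a) | j ≠ i ∨ a ∈ S}`: the only
pair of adjacent vertices in `A ×ˢ Aᶜ` is `((i, u), (i, v))`. So by `bridge_img` `¬ NB H (F (i, u), F (i, v))`.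
`ring_nb`: let `B = {e | H.Adj e.1 e.2 ∧ ¬ NB H e}`, `A₀ = {(g, g') | adjacent, (F g, F g') ∈ B}`. All fibres of `F`
have the same number of elements `k` (adjacent labels have equally many preimages; `H` is connected), and
`k * Nat.card V = Nat.card I * Nat.card V`. So `A₀.ncard = k * B.ncard = Nat.card I * B.ncard`. The pairs
`((i, u), (i, v))`, `(u, v) ∈ B`, are `Nat.card I * B.ncard` elements of `A₀` (`ring_bridge`), so all. A pair
`((i, x), (s i, y))` is not one of them (`(x, y) ∉ B`), so its label is not in `B`.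
-/

namespace Pool.Agent.H24.GE

open Pool.Agent.H24.GC Pool.Agent.H24.GD

variable {V : Type} {H : SimpleGraph V}

/-- the ring -/
def ringG (H : SimpleGraph V) (x y : V) {I : Type} (s : Equiv.Perm I) : SimpleGraph (I × V) where
  Adj a b := H.Adj a.2 b.2 ∧ ((a.1 = b.1 ∧ (a.2, b.2) ≠ (x, y) ∧ (a.2, b.2) ≠ (y, x)) ∨
    (b.1 = s a.1 ∧ (a.2, b.2) = (x, y)) ∨ (a.1 = s b.1 ∧ (a.2, b.2) = (y, x)))
  symm := by
    constructor
    rintro a b ⟨h1, h2⟩
    refine ⟨h1.symm, ?_⟩
    rcases h2 with ⟨h3, h4, h5⟩ | ⟨h3, h4⟩ | ⟨h3, h4⟩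
    · refine Or.inl ⟨h3.symm, fun h => h5 ?_, fun h => h4 ?_⟩
      · rw [Prod.mk.injEq] at h ⊢
        exact ⟨h.2, h.1⟩
      · rw [Prod.mk.injEq] at h ⊢
        exact ⟨h.2, h.1⟩
    · refine Or.inr (Or.inr ⟨h3, ?_⟩)
      rw [Prod.mk.injEq] at h4 ⊢
      exact ⟨h4.2, h4.1⟩
    · refine Or.inr (Or.inl ⟨h3, ?_⟩)
      rw [Prod.mk.injEq] at h4 ⊢
      exact ⟨h4.2, h4.1⟩
  loopless := by
    constructor
    rintro a ⟨h, -⟩
    exact H.irrefl h

open Classical in
/-- the neighbour over `v` of the vertex `(i, u)` -/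
noncomputable def ringN (x y : V) {I : Type} (s : Equiv.Perm I) (i : I) (u v : V) : I × V :=
  if (u, v) = (x, y) then (s i, v) else if (u, v) = (y, x) then (s.symm i, v) else (i, v)

private theorem frg_snd (x y : V) {I : Type} (s : Equiv.Perm I) (i : I) (u v : V) :
    (ringN x y s i u v).2 = v := by
  unfold ringN
  split_ifs <;> rfl

theorem ring_nu {x y : V} (hxy : H.Adj x y) {I : Type} (s : Equiv.Perm I) (i : I) (u : V) :
    Set.BijOn (ringN x y s i u) (H.neighborSet u) ((ringG H x y s).neighborSet (i, u)) := by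
  refine ⟨?_, ?_, ?_⟩
  · intro v hv
    have hv' : H.Adj u v := hv
    show (ringG H x y s).Adj (i, u) (ringN x y s i u v)
    unfold ringN
    split_ifs with h1 h2
    · exact ⟨hv', Or.inr (Or.inl ⟨rfl, h1⟩)⟩
    · exact ⟨hv', Or.inr (Or.inr ⟨(s.apply_symm_apply i).symm, h2⟩)⟩
    · exact ⟨hv', Or.inl ⟨rfl, h1, h2⟩⟩
  · intro v _ v' _ h
    have h1 := congrArg Prod.snd h
    rwa [frg_snd, frg_snd] at h1
  · rintro ⟨j, v⟩ hv
    have hv' : (ringG H x y s).Adj (i, u) (j, v) := hv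
    obtain ⟨h1, h2⟩ := hv'
    have h1' : H.Adj u v := h1
    refine ⟨v, h1', ?_⟩
    unfold ringN
    rcases h2 with ⟨h3, h4, h5⟩ | ⟨h3, h4⟩ | ⟨h3, h4⟩
    · have h3' : i = j := h3
      rw [if_neg h4, if_neg h5, h3']
    · have h3' : j = s i := h3
      rw [if_pos h4, h3']
    · have h3' : i = s j := h3
      have h6 : ¬ (u, v) = (x, y) := by
        intro h7
        have h4' : (u, v) = (y, x) := h4
        rw [h7, Prod.mk.injEq] at h4'
        exact hxy.ne h4'.1
      rw [if_neg h6, if_pos h4, h3', s.symm_apply_apply]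

/-- the kit -/
def ringK [Finite V] {x y : V} (hxy : H.Adj x y) {I : Type} [Finite I] (s : Equiv.Perm I) :
    Kit H where
  W := I × V
  fin := inferInstance
  gr := ringG H x y s
  π := Prod.snd
  cov := by
    rintro ⟨i, u⟩
    have hb := ring_nu hxy s i u
    refine ⟨fun b hb' => hb'.1, ?_, ?_⟩
    · intro b hb1 b' hb2 h
      obtain ⟨v, _, rfl⟩ := hb.surjOn hb1
      obtain ⟨v', _, rfl⟩ := hb.surjOn hb2
      have h' : (ringN x y s i u v).2 = (ringN x y s i u v').2 := h
      rw [frg_snd, frg_snd] at h'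
      rw [h']
    · intro v hv
      exact ⟨ringN x y s i u v, hb.mapsTo hv, frg_snd x y s i u v⟩

private theorem frg_nb {A : Type} {G : SimpleGraph A} {F : A → V} (hF : IsCover G H F)
    {u v : V} (huv : H.Adj u v) : ∃ f : A → A, ∀ a, F a = u → G.Adj a (f a) ∧ F (f a) = v := by
  have h : ∀ a, ∃ b, F a = u → G.Adj a b ∧ F b = v := by
    intro a
    by_cases ha : F a = u
    · have hv : v ∈ H.neighborSet (F a) := by
        rw [ha]
        exact huv
      obtain ⟨b, hb, hb'⟩ := (hF a).surjOn hv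
      exact ⟨b, fun _ => ⟨hb, hb'⟩⟩
    · exact ⟨a, fun h => absurd h ha⟩
  choose f hf using h
  exact ⟨f, hf⟩

private theorem frg_inj {A : Type} {G : SimpleGraph A} {F : A → V} (hF : IsCover G H F)
    {u v : V} {f : A → A} (hf : ∀ a, F a = u → G.Adj a (f a) ∧ F (f a) = v) {a b : A}
    (ha : F a = u) (hb : F b = u) (h : f a = f b) : a = b := by
  have h1 : a ∈ G.neighborSet (f a) := (hf a ha).1.symm
  have h2 : b ∈ G.neighborSet (f a) := by
    rw [h]
    exact (hf b hb).1.symm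
  exact (hF (f a)).injOn h1 h2 (ha.trans hb.symm)

private theorem frg_le {A : Type} [Finite A] {G : SimpleGraph A} {F : A → V}
    (hF : IsCover G H F) (S : Set A) {u v : V} (huv : H.Adj u v)
    (hS : ∀ a ∈ S, F a = u → ∀ b, G.Adj a b → F b = v → b ∈ S) :
    {w | w ∈ S ∧ F w = u}.ncard ≤ {w | w ∈ S ∧ F w = v}.ncard := by
  obtain ⟨f, hf⟩ := frg_nb hF huv
  refine Set.ncard_le_ncard_of_injOn f ?_ ?_ (Set.toFinite _)
  · rintro a ⟨ha, hau⟩
    exact ⟨hS a ha hau _ (hf a hau).1 (hf a hau).2, (hf a hau).2⟩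
  · rintro a ⟨_, ha⟩ b ⟨_, hb⟩ h
    exact frg_inj hF hf ha hb h

private theorem frg_lt {A : Type} [Finite A] {G : SimpleGraph A} {F : A → V}
    (hF : IsCover G H F) (S : Set A) {u v : V} (huv : H.Adj u v)
    (hS : ∀ a ∈ S, F a = u → ∀ b, G.Adj a b → F b = v → b ∈ S) {g g' : A} (hg : g ∈ S)
    (hg' : g' ∉ S) (hgg : G.Adj g g') (h1 : F g = v) (h2 : F g' = u) :
    {w | w ∈ S ∧ F w = u}.ncard < {w | w ∈ S ∧ F w = v}.ncard := by
  obtain ⟨f, hf⟩ := frg_nb hF huv
  have hinj : Set.InjOn f {w | w ∈ S ∧ F w = u} := by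
    rintro a ⟨_, ha⟩ b ⟨_, hb⟩ h
    exact frg_inj hF hf ha hb h
  rw [← hinj.ncard_image]
  refine Set.ncard_lt_ncard ?_ (Set.toFinite _)
  refine ⟨?_, ?_⟩
  · rintro _ ⟨a, ⟨ha, hau⟩, rfl⟩
    exact ⟨hS a ha hau _ (hf a hau).1 (hf a hau).2, (hf a hau).2⟩
  · intro hsub
    obtain ⟨a, ⟨ha, hau⟩, hfa⟩ := hsub ⟨hg, h1⟩
    have h3 : a ∈ G.neighborSet g := by
      rw [← hfa]
      exact (hf a hau).1.symm
    have h4 : g' ∈ G.neighborSet g := hgg
    have h5 : a = g' := (hF g).injOn h3 h4 (hau.trans h2.symm)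
    rw [h5] at ha
    exact hg' ha

theorem bridge_img {A : Type} [Finite A] {G : SimpleGraph A} {F : A → V} (hF : IsCover G H F)
    {S : Set A} {g g' : A} (hg : g ∈ S) (hg' : g' ∉ S) (hgg : G.Adj g g')
    (hS : ∀ a ∈ S, ∀ b, b ∉ S → G.Adj a b → (a, b) = (g, g')) : ¬ NB H (F g, F g') := by
  intro hnb
  have hFF : H.Adj (F g) (F g') := (hF g).mapsTo hgg
  have hlt : {w | w ∈ S ∧ F w = F g'}.ncard < {w | w ∈ S ∧ F w = F g}.ncard := by
    refine frg_lt hF S hFF.symm ?_ hg hg' hgg rfl rfl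
    intro a ha hag b hab hbg
    by_contra hb
    have h1 := hS a ha b hb hab
    rw [Prod.mk.injEq] at h1
    rw [h1.1] at hag
    exact hFF.ne hag
  have hg1 : F g ∈ {v | {w | w ∈ S ∧ F w = F g}.ncard ≤ {w | w ∈ S ∧ F w = v}.ncard} := by
    rw [Set.mem_ofPred_eq]
  have hg2 : F g' ∉ {v | {w | w ∈ S ∧ F w = F g}.ncard ≤ {w | w ∈ S ∧ F w = v}.ncard} := by
    rw [Set.mem_ofPred_eq]
    exact not_le.2 hlt
  obtain ⟨s, hs, u, hu, hsu, hne⟩ := hnb _ hg1 hg2
  rw [Set.mem_ofPred_eq] at hs hu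
  refine hu (le_trans hs ?_)
  refine frg_le hF S hsu ?_
  intro a ha has b hab hbu
  by_contra hb
  have h1 := hS a ha b hb hab
  rw [Prod.mk.injEq] at h1
  apply hne
  rw [← has, ← hbu, h1.1, h1.2]

theorem ring_bridge [Finite V] {x y : V} (hxy : H.Adj x y) (hnb : NB H (x, y)) {I : Type}
    [Finite I] (s : Equiv.Perm I) {F : I × V → V} (hF : IsCover (ringG H x y s) H F) (i : I)
    {u v : V} (huv : H.Adj u v) (hb : ¬ NB H (u, v)) : ¬ NB H (F (i, u), F (i, v)) := by
  have h1 : (u, v) ≠ (x, y) := by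
    intro h
    rw [h] at hb
    exact hb hnb
  have h2 : (u, v) ≠ (y, x) := by
    intro h
    rw [h] at hb
    exact hb (nb_swap hnb)
  have hadj : (ringG H x y s).Adj (i, u) (i, v) := ⟨huv, Or.inl ⟨rfl, h1, h2⟩⟩
  unfold NB at hb
  push Not at hb
  obtain ⟨S, hu, hv, hS⟩ := hb
  have hu' : u ∈ S := hu
  have hv' : v ∉ S := hv
  by_cases hx : x ∈ S
  · have hy : y ∈ S := by
      by_contra hy
      exact h1 (hS x hx y hy hxy).symm
    refine bridge_img hF (S := {a | a.1 ≠ i ∨ a.2 ∈ S}) (Or.inr hu') ?_ hadj ?_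
    · rintro (h | h)
      · exact h rfl
      · exact hv' h
    · rintro ⟨j, a⟩ ha ⟨k, b⟩ hb hab
      have hk : k = i := by
        by_contra hk
        exact hb (Or.inl hk)
      have hb' : b ∉ S := fun h => hb (Or.inr h)
      obtain ⟨h3, h4⟩ := hab
      have h3' : H.Adj a b := h3
      rcases h4 with ⟨h5, _, _⟩ | ⟨_, h5⟩ | ⟨_, h5⟩
      · have h5' : j = k := h5
        have ha' : a ∈ S := by
          rcases ha with ha | ha
          · exact absurd (h5'.trans hk) ha
          · exact ha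
        have h6 := hS a ha' b hb' h3'
        rw [Prod.mk.injEq] at h6
        rw [h6.1, h6.2, h5', hk]
      · have h5' : (a, b) = (x, y) := h5
        rw [Prod.mk.injEq] at h5'
        rw [h5'.2] at hb'
        exact absurd hy hb'
      · have h5' : (a, b) = (y, x) := h5
        rw [Prod.mk.injEq] at h5'
        rw [h5'.2] at hb'
        exact absurd hx hb'
  · have hy : y ∉ S := by
      intro hy
      exact h2 (hS y hy x hx hxy.symm).symm
    refine bridge_img hF (S := {a | a.1 = i ∧ a.2 ∈ S}) ⟨rfl, hu'⟩ (fun h => hv' h.2) hadj ?_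
    rintro ⟨j, a⟩ ⟨hj, ha⟩ ⟨k, b⟩ hb hab
    have hj' : j = i := hj
    have ha' : a ∈ S := ha
    obtain ⟨h3, h4⟩ := hab
    have h3' : H.Adj a b := h3
    rcases h4 with ⟨h5, _, _⟩ | ⟨_, h5⟩ | ⟨_, h5⟩
    · have h5' : j = k := h5
      have hb' : b ∉ S := fun h => hb ⟨h5'.symm.trans hj', h⟩
      have h6 := hS a ha' b hb' h3'
      rw [Prod.mk.injEq] at h6
      rw [h6.1, h6.2, ← h5', hj']
    · have h5' : (a, b) = (x, y) := h5
      rw [Prod.mk.injEq] at h5'
      rw [h5'.1] at ha'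
      exact absurd ha' hx
    · have h5' : (a, b) = (y, x) := h5
      rw [Prod.mk.injEq] at h5'
      rw [h5'.1] at ha'
      exact absurd ha' hy

private theorem frg_fib {A : Type} [Finite A] [Finite V] (hcon : H.Connected)
    {G : SimpleGraph A} {F : A → V} (hF : IsCover G H F) (u v : V) :
    {w | F w = u}.ncard = {w | F w = v}.ncard := by
  have hle : ∀ a b, H.Adj a b → {w | F w = a}.ncard ≤ {w | F w = b}.ncard := by
    intro a b hab
    have h := frg_le hF Set.univ hab (fun _ _ _ _ _ _ => Set.mem_univ _)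
    simpa using h
  obtain ⟨p⟩ := hcon.preconnected u v
  induction p with
  | nil => rfl
  | cons h _ ih => exact (le_antisymm (hle _ _ h) (hle _ _ h.symm)).trans ih

open Classical in
private theorem frg_card [Finite V] (hcon : H.Connected) {I : Type} [Finite I]
    {G : SimpleGraph (I × V)} {F : I × V → V} (hF : IsCover G H F) (u : V) :
    {w | F w = u}.ncard = Nat.card I := by
  let _ : Fintype V := Fintype.ofFinite V
  let _ : Fintype I := Fintype.ofFinite I
  have h1 : Fintype.card (I × V) = ∑ v : V, {w | F w = v}.ncard := by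
    have h := Finset.card_eq_sum_card_fiberwise (s := (Finset.univ : Finset (I × V)))
      (t := (Finset.univ : Finset V)) (f := F) (fun _ _ => Finset.mem_coe.2 (Finset.mem_univ _))
    rw [Finset.card_univ] at h
    rw [h]
    refine Finset.sum_congr rfl fun v _ => ?_
    rw [Set.ncard_eq_toFinset_card']
    congr 1
    ext w
    simp
  have h2 : ∑ v : V, {w | F w = v}.ncard = Fintype.card V * {w | F w = u}.ncard := by
    rw [Finset.sum_congr rfl (fun v _ => frg_fib hcon hF v u), Finset.sum_const,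
      Finset.card_univ, smul_eq_mul]
  rw [h2, Fintype.card_prod, mul_comm] at h1
  have h3 : 0 < Fintype.card V := Fintype.card_pos_iff.2 ⟨u⟩
  rw [Nat.card_eq_fintype_card]
  exact (Nat.eq_of_mul_eq_mul_left h3 h1).symm

theorem ring_nb [Finite V] (hcon : H.Connected) {x y : V} (hxy : H.Adj x y)
    (hnb : NB H (x, y)) {I : Type} [Finite I] (s : Equiv.Perm I) {F : I × V → V}
    (hF : IsCover (ringG H x y s) H F) (i : I) : NB H (F (i, x), F (s i, y)) := by
  classical
  let _ : Fintype V := Fintype.ofFinite V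
  let _ : Fintype I := Fintype.ofFinite I
  by_contra hcc
  let B : Finset (V × V) := Finset.univ.filter fun e => H.Adj e.1 e.2 ∧ ¬ NB H e
  let A₀ : Finset ((I × V) × (I × V)) :=
    Finset.univ.filter fun e => (ringG H x y s).Adj e.1 e.2 ∧ ¬ NB H (F e.1, F e.2)
  have hB : ∀ e, e ∈ B ↔ H.Adj e.1 e.2 ∧ ¬ NB H e := by
    intro e
    simp [B]
  have hA : ∀ e, e ∈ A₀ ↔ (ringG H x y s).Adj e.1 e.2 ∧ ¬ NB H (F e.1, F e.2) := by
    intro e
    simp [A₀]
  have hle : A₀.card ≤ Nat.card I * B.card := by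
    refine Finset.card_le_mul_card_image_of_maps_to (f := fun e => (F e.1, F e.2)) ?_ _ ?_
    · intro e he
      rw [hA] at he
      rw [hB]
      exact ⟨(hF e.1).mapsTo he.1, he.2⟩
    · intro b _
      rw [← frg_card hcon hF b.1]
      have h1 : {w | F w = b.1}.ncard = (Finset.univ.filter fun w => F w = b.1).card := by
        rw [Set.ncard_eq_toFinset_card']
        congr 1
        ext w
        simp
      rw [h1]
      refine Finset.card_le_card_of_injOn Prod.fst ?_ ?_
      · intro e he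
        rw [Finset.mem_coe, Finset.mem_filter] at he
        rw [Finset.mem_coe, Finset.mem_filter]
        exact ⟨Finset.mem_univ _, congrArg Prod.fst he.2⟩
      · intro e he e' he' h
        rw [Finset.mem_coe, Finset.mem_filter, hA] at he he'
        have h2 : e.2 ∈ (ringG H x y s).neighborSet e.1 := he.1.1
        have h3 : e'.2 ∈ (ringG H x y s).neighborSet e.1 := by
          rw [h]
          exact he'.1.1
        have h4 : F e.2 = F e'.2 := (congrArg Prod.snd he.2).trans (congrArg Prod.snd he'.2).symm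
        exact Prod.ext h ((hF e.1).injOn h2 h3 h4)
  let Φ : I × (V × V) → (I × V) × (I × V) := fun p => ((p.1, p.2.1), (p.1, p.2.2))
  have hΦ : Function.Injective Φ := by
    rintro ⟨j, u, v⟩ ⟨j', u', v'⟩ h
    simp only [Φ, Prod.mk.injEq] at h
    obtain ⟨⟨rfl, rfl⟩, -, rfl⟩ := h
    rfl
  have hsub : (Finset.univ ×ˢ B).image Φ ⊆ A₀ := by
    intro e he
    rw [Finset.mem_image] at he
    obtain ⟨⟨j, u, v⟩, h1, rfl⟩ := he
    rw [Finset.mem_product, hB] at h1
    have h2 : H.Adj u v := h1.2.1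
    have h3 : ¬ NB H (u, v) := h1.2.2
    rw [hA]
    refine ⟨⟨h2, Or.inl ⟨rfl, fun h => ?_, fun h => ?_⟩⟩, ring_bridge hxy hnb s hF j h2 h3⟩
    · have h' : (u, v) = (x, y) := h
      rw [h'] at h3
      exact h3 hnb
    · have h' : (u, v) = (y, x) := h
      rw [h'] at h3
      exact h3 (nb_swap hnb)
  have hcard : A₀.card ≤ ((Finset.univ ×ˢ B).image Φ).card := by
    rw [Finset.card_image_of_injective _ hΦ, Finset.card_product, Finset.card_univ,
      ← Nat.card_eq_fintype_card]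
    exact hle
  have heq := Finset.eq_of_subset_of_card_le hsub hcard
  have hmem : ((i, x), (s i, y)) ∈ A₀ := by
    rw [hA]
    exact ⟨⟨hxy, Or.inr (Or.inl ⟨rfl, rfl⟩)⟩, hcc⟩
  rw [← heq, Finset.mem_image] at hmem
  obtain ⟨⟨j, u, v⟩, h1, h2⟩ := hmem
  rw [Finset.mem_product, hB] at h1
  simp only [Φ, Prod.mk.injEq] at h2
  obtain ⟨⟨-, hu⟩, -, hv⟩ := h2
  have h3 : ¬ NB H (u, v) := h1.2.2
  rw [hu, hv] at h3
  exact h3 hnb

end Pool.Agent.H24.GE
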