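import Pool.Agent.H24.GE.FNc
import Pool.Agent.H24.GD.Str

/-!
# JOB GE-31: cuts of kits at vertices which are not cut vertices

`sv_one`: as `str_one` (file `Pool.Agent.H24.GD.Str`): `count_one`, `Straight_sum`, `n_const_s` in place of `n_const1`;
`str_symm`, `dd_cases`. (`Arc H (fun _ _ => True) a` for adjacent `a`.)
`sv_t`: as `sw_two` (file `Pool.Agent.H24.GD.Str`), with `n_const_t` in place of `n_const2`
(`av f φ (p, u) = (f p, φ p u)`).
`sv_h`: the same for `r₁ = (w, q)`, `r₂ = (z, q)` with `n_const_h`: `bv f φ (w, q) = (φ q w, f q)`, and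
`φ q w ≠ φ q z` by `h.bij q`. `count_two` for `r₁, r₂` (different edges as `w ≠ z`, `q ≠ w`).
`one_kit`: the kit `H` itself, `Mult 1`.
-/

namespace Pool.Agent.H24.GE

open Pool.Agent.H24.GC Pool.Agent.H24.GD

variable {V : Type} {H : SimpleGraph V} {K : Kit H}

theorem sv_one [Finite V] (hcon : H.Connected) {c : ℕ} (hc : K.Mult c) {r : K.W × K.W}
    (hr : K.gr.Adj r.1 r.2) {f : K.W → V} {φ : K.W → K.W → V}
    (h : PCov H K.gr K.π (cut1 r) f φ) (hb : NB H (av f φ r) ∨ NB H (bv f φ r).swap) :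
    av f φ r = bv f φ r := by
  have := Fintype.ofFinite V
  have ha := Straight_arc (P' := fun _ _ => True) (fun _ _ _ => trivial) (arc_av h hr)
  have hbv := Straight_arc (P' := fun _ _ => True) (fun _ _ _ => trivial) (arc_bv h hr)
  have hn := fun x y hxy => count_one hr h x y hxy
  have hconst := n_const_s hcon ha.1 hbv.1 hb (n := fun x => ({w | f w = x}.ncard : ℤ)) hn
    (Straight_sum hc f)
  have hsym := str_symm ha ha hbv ha (n := fun x => ({w | f w = x}.ncard : ℤ)) hn hconst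
  rcases dd_cases ha.1.ne ha.1.ne hbv.1.ne ha.1.ne hsym with h1 | h1 | h1
  · exact h1.1
  · exact h1.2
  · exfalso
    exact ha.1.ne (congrArg Prod.fst h1.1)

theorem sv_t [Finite V] {c : ℕ} (hc : K.Mult c) {p u o : K.W} (hu : K.gr.Adj p u)
    (ho : K.gr.Adj p o) (huo : u ≠ o) {f : K.W → V} {φ : K.W → K.W → V}
    (h : PCov H K.gr K.π (cut2 (p, u) (p, o)) f φ) (hv : NV H (f p))
    (h1 : NB H (bv f φ (p, u)).swap) (h2 : NB H (bv f φ (p, o)).swap) :
    (av f φ (p, u) = bv f φ (p, u) ∧ av f φ (p, o) = bv f φ (p, o)) ∨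
      (av f φ (p, u) = bv f φ (p, o) ∧ av f φ (p, o) = bv f φ (p, u)) := by
  have := Fintype.ofFinite V
  have hu' : K.gr.Adj (p, u).1 (p, u).2 := hu
  have ho' : K.gr.Adj (p, o).1 (p, o).2 := ho
  have hne : (p, u) ≠ (p, o) := fun h0 => huo (congrArg Prod.snd h0)
  have hne' : (p, u) ≠ (p, o).swap := by
    intro h0
    have h1 : p = o := congrArg Prod.fst h0
    exact ho.ne h1
  have ha₁ := Straight_arc (P' := fun _ _ => True) (fun _ _ _ => trivial) (arc_av h hu')
  have hb₁ := Straight_arc (P' := fun _ _ => True) (fun _ _ _ => trivial) (arc_bv h hu')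
  have ha₂ := Straight_arc (P' := fun _ _ => True) (fun _ _ _ => trivial) (arc_av h ho')
  have hb₂ := Straight_arc (P' := fun _ _ => True) (fun _ _ _ => trivial) (arc_bv h ho')
  have hn := fun x y hxy => count_two hu' ho' hne hne' h x y hxy
  have hane : av f φ (p, u) ≠ av f φ (p, o) := by
    intro h0
    exact huo ((h.bij p).injOn hu ho (congrArg Prod.snd h0))
  have hconst := n_const_t ha₁.1 ha₂.1 hb₁.1 hb₂.1 hv rfl hane h1 h2
    (n := fun x => ({w | f w = x}.ncard : ℤ)) hn (Straight_sum hc f)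
  have hsym := str_symm ha₁ ha₂ hb₁ hb₂ (n := fun x => ({w | f w = x}.ncard : ℤ)) hn hconst
  rcases dd_cases ha₁.1.ne ha₂.1.ne hb₁.1.ne hb₂.1.ne hsym with h1 | h1 | h1
  · exact Or.inl h1
  · exact Or.inr h1
  · exfalso
    exact ha₁.1.ne (congrArg Prod.fst h1.1)

theorem sv_h [Finite V] {c : ℕ} (hc : K.Mult c) {q w z : K.W} (hw : K.gr.Adj q w)
    (hz : K.gr.Adj q z) (hwz : w ≠ z) {f : K.W → V} {φ : K.W → K.W → V}
    (h : PCov H K.gr K.π (cut2 (w, q) (z, q)) f φ) (hv : NV H (f q))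
    (h1 : NB H (av f φ (w, q))) (h2 : NB H (av f φ (z, q))) :
    (av f φ (w, q) = bv f φ (w, q) ∧ av f φ (z, q) = bv f φ (z, q)) ∨
      (av f φ (w, q) = bv f φ (z, q) ∧ av f φ (z, q) = bv f φ (w, q)) := by
  have := Fintype.ofFinite V
  have hw' : K.gr.Adj (w, q).1 (w, q).2 := hw.symm
  have hz' : K.gr.Adj (z, q).1 (z, q).2 := hz.symm
  have hne : (w, q) ≠ (z, q) := fun h0 => hwz (congrArg Prod.fst h0)
  have hne' : (w, q) ≠ (z, q).swap := by
    intro h0
    have h1 : w = q := congrArg Prod.fst h0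
    exact hw.ne h1.symm
  have ha₁ := Straight_arc (P' := fun _ _ => True) (fun _ _ _ => trivial) (arc_av h hw')
  have hb₁ := Straight_arc (P' := fun _ _ => True) (fun _ _ _ => trivial) (arc_bv h hw')
  have ha₂ := Straight_arc (P' := fun _ _ => True) (fun _ _ _ => trivial) (arc_av h hz')
  have hb₂ := Straight_arc (P' := fun _ _ => True) (fun _ _ _ => trivial) (arc_bv h hz')
  have hn := fun x y hxy => count_two hw' hz' hne hne' h x y hxy
  have hbne : bv f φ (w, q) ≠ bv f φ (z, q) := by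
    intro h0
    exact hwz ((h.bij q).injOn hw hz (congrArg Prod.fst h0))
  have hconst := n_const_h ha₁.1 ha₂.1 hb₁.1 hb₂.1 hv rfl hbne h1 h2
    (n := fun x => ({w | f w = x}.ncard : ℤ)) hn (Straight_sum hc f)
  have hsym := str_symm ha₁ ha₂ hb₁ hb₂ (n := fun x => ({w | f w = x}.ncard : ℤ)) hn hconst
  rcases dd_cases ha₁.1.ne ha₂.1.ne hb₁.1.ne hb₂.1.ne hsym with h1 | h1 | h1
  · exact Or.inl h1
  · exact Or.inr h1
  · exfalso
    exact hb₁.1.ne (congrArg Prod.snd h1.2.1).symm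

/-- the graph itself as a kit -/
def oneKit [Finite V] (H : SimpleGraph V) : Kit H where
  W := V
  fin := inferInstance
  gr := H
  π := id
  cov := fun _ => Set.bijOn_id _

theorem one_mult [Finite V] (H : SimpleGraph V) : (oneKit H).Mult 1 := by
  show Nat.card V = 1 * Nat.card V
  rw [one_mul]

end Pool.Agent.H24.GE
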