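import Pool.Agent.H24.GD.WideA
import Pool.Agent.H24.GE.FGuard

/-!
# JOB GE-36: the pattern with forced labels

`core_fwd'`: the proof of `core_fwd` (file `Pool.Agent.H24.GD.CoreF`) with the additional statement that the values `a' o`
are values of covers of the kit: the spacer `o` is a partial cover with respect to `cut1 (ar o)`, which is straight,
so `w ↦ F (inr o, w)` is a cover, and `a' o` is its value.

`WE`: the conditions on the kit vertices as in `WD` (file `Pool.Agent.H24.GD.WideA`), but the conditions `tail`, `head` are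
only required if the values `av`, `bv` satisfy `Gd` (arcs `(p, u₁)`, `(p, u₂)`, `(w, q)`) and `Gz` (arc `(z, q)`), which
hold for the values of covers (`v1` to `v4`). `cX`, `cY`: the covers which are needed for completeness.

`we_fine`: exactly the proof of `wide_fine`.
-/

namespace Pool.Agent.H24.GE

open Pool.Agent.H24.GC Pool.Agent.H24.GD

variable {V : Type} {H : SimpleGraph V}

theorem core_fwd' [Finite V] {K : Kit H} {I : Inst K.W} (hI : Fine K I)
    (h : Covers (I.graph K.gr) H) :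
    ∃ a' : I.O → V × V, (∀ o, ∃ g, IsCover K.gr H g ∧ (g (I.ar o).1, g (I.ar o).2) = a' o) ∧
      ∀ p : I.P, ∃ (f : K.W → V) (φ : K.W → K.W → V),
      PCov H K.gr K.π (fun w w' => ∃ o, I.pc o = p ∧ I.ar o = (w, w')) f φ ∧
      ∀ o, I.pc o = p → av f φ (I.ar o) = a' o ∧ bv f φ (I.ar o) = a' (I.sg.symm o) := by
  classical
  obtain ⟨nu, hbij, hin1, hin2, hv1, hv2, hc1, hc2⟩ := exists_nu (g := K.gr) hI.adj hI.inj
  have := hI.fin
  obtain ⟨F, hF⟩ := h
  -- types of the values of `nu`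
  have hnu : ∀ q w w', K.gr.Adj w w' → Sim H (K.π w') (K.π (nu q w w').2) := by
    intro q w w' hw
    rcases q with p | o
    · rcases coreB_cases I p w w' with ⟨o, ho, har⟩ | ⟨o, ho, har⟩ | hun
      · have e := hv1 o
        rw [ho, har] at e
        rw [e]
        exact sim_refl H _
      · have e := hc2 (I.sg.symm o)
        have h1 := hI.sim1 (I.sg.symm o)
        rw [Equiv.apply_symm_apply] at e h1
        rw [ho, har] at e
        rw [e]
        rw [har] at h1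
        exact h1
      · rw [hin1 p w w' hw hun]
        exact sim_refl H _
    · by_cases h1 : I.ar o = (w, w')
      · have e := hc1 o
        rw [h1] at e
        rw [e]
        have h2 := hI.sim2 o
        rw [h1] at h2
        exact sim_symm h2
      · by_cases h2 : I.ar o = (w', w)
        · have e := hv2 o
          rw [h2] at e
          rw [e]
          exact sim_refl H _
        · rw [hin2 o w w' hw h1 h2]
          exact sim_refl H _
  have htyped : Typed (I.graph K.gr) H (fun x : I.Vx => K.π x.2) := by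
    rintro ⟨q, w⟩
    by_cases hne : Nonempty K.W
    · have hb := hbij q w
      refine ⟨fun b => K.π (Function.invFunOn (nu q w) (K.gr.neighborSet w) b), ?_, ?_⟩
      · refine coreB_bijOn hb ?_
        have hcov := K.cov w
        refine hcov.congr ?_
        intro w' hw'
        show K.π w' = K.π (Function.invFunOn (nu q w) (K.gr.neighborSet w) (nu q w w'))
        rw [hb.injOn.leftInvOn_invFunOn hw']
      · intro b hadj
        obtain ⟨w', hw', e⟩ := hb.surjOn (show b ∈ (I.graph K.gr).neighborSet (q, w) from hadj)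
        have e2 : Function.invFunOn (nu q w) (K.gr.neighborSet w) b = w' := by
          rw [← e]
          exact hb.injOn.leftInvOn_invFunOn hw'
        show Sim H (K.π (Function.invFunOn (nu q w) (K.gr.neighborSet w) b)) (K.π b.2)
        rw [e2, ← e]
        exact hnu q w w' hw'
    · exact absurd ⟨w⟩ hne
  have hsim : ∀ x : I.Vx, Sim H (F x) (K.π x.2) := fun x => sim_of_cover htyped hF x
  have hpcov : ∀ (q : I.P ⊕ I.O) (cut : K.W → K.W → Prop),
      (∀ w w', K.gr.Adj w w' → ¬ cut w w' → ¬ cut w' w → nu q w w' = (q, w')) →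
      PCov H K.gr K.π cut (fun w => F (q, w)) (fun w w' => F (nu q w w')) := by
    intro q cut hcut
    refine ⟨fun w => (hF (q, w)).comp (hbij q w), ?_, fun w => hsim (q, w), ?_⟩
    · intro w w' hw h1 h2
      show F (nu q w w') = F (q, w')
      rw [hcut w w' hw h1 h2]
    · intro w w' hw
      exact sim_trans (hsim (nu q w w')) (sim_symm (hnu q w w' hw))
  -- the spacers are straight
  have hsp : ∀ o w w', K.gr.Adj w w' → F (nu (Sum.inr o) w w') = F (Sum.inr o, w') := by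
    intro o
    refine hI.str1 o _ _ (hpcov (Sum.inr o) (cut1 (I.ar o)) ?_)
    intro w w' hw h1 h2
    exact hin2 o w w' hw (fun e => h1 e.symm) (fun e => h2 e.symm)
  have hsp1 : ∀ o, F (Sum.inl (I.pc o), (I.ar o).1) = F (Sum.inr o, (I.ar o).1) := by
    intro o
    have h := hsp o _ _ (hI.adj o).symm
    rw [hv2 o] at h
    exact h
  have hsp2 : ∀ o, F (Sum.inl (I.pc (I.sg o)), (I.ar (I.sg o)).2) =
      F (Sum.inr o, (I.ar o).2) := by
    intro o
    have h := hsp o _ _ (hI.adj o)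
    rw [hc1 o] at h
    exact h
  refine ⟨fun o => (F (Sum.inr o, (I.ar o).1), F (Sum.inr o, (I.ar o).2)), ?_, fun p =>
    ⟨fun w => F (Sum.inl p, w), fun w w' => F (nu (Sum.inl p) w w'), ?_, ?_⟩⟩
  · intro o
    refine ⟨fun w => F (Sum.inr o, w), fun w => ?_, rfl⟩
    refine ((hF (Sum.inr o, w)).comp (hbij (Sum.inr o) w)).congr ?_
    intro w' hw'
    exact hsp o w w' hw'
  · refine hpcov (Sum.inl p) _ ?_
    intro w w' hw h1 h2
    exact hin1 _ w w' hw (fun o' ho' => ⟨fun e => h1 ⟨o', ho', e⟩, fun e => h2 ⟨o', ho', e⟩⟩)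
  · intro o ho
    subst ho
    constructor
    · show (F (Sum.inl (I.pc o), (I.ar o).1), F (nu (Sum.inl (I.pc o)) (I.ar o).1 (I.ar o).2)) =
        (F (Sum.inr o, (I.ar o).1), F (Sum.inr o, (I.ar o).2))
      rw [hsp1 o, hv1 o]
    · have e1 := hc2 (I.sg.symm o)
      have e2 := hsp2 (I.sg.symm o)
      rw [Equiv.apply_symm_apply] at e1 e2
      show (F (nu (Sum.inl (I.pc o)) (I.ar o).2 (I.ar o).1), F (Sum.inl (I.pc o), (I.ar o).2)) =
        (F (Sum.inr (I.sg.symm o), (I.ar (I.sg.symm o)).1),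
          F (Sum.inr (I.sg.symm o), (I.ar (I.sg.symm o)).2))
      rw [e1, e2]

/-- the conditions on the kit -/
structure WE (K : Kit H) (p u₁ u₂ q w z : K.W) (Gd Gz : V × V → Prop) : Prop where
  p1 : K.gr.Adj p u₁
  p2 : K.gr.Adj p u₂
  q1 : K.gr.Adj q w
  q2 : K.gr.Adj q z
  ne1 : u₁ ≠ u₂
  ne2 : w ≠ z
  s12 : Sim H (K.π u₂) (K.π u₁)
  sq : Sim H (K.π q) (K.π u₁)
  sw : Sim H (K.π w) (K.π p)
  s1 : Straight H K.gr K.π (cut1 (p, u₁))
  s2 : Straight H K.gr K.π (cut1 (p, u₂))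
  s3 : Straight H K.gr K.π (cut1 (w, q))
  s4 : Straight H K.gr K.π (cut1 (z, q))
  v1 : ∀ g, IsCover K.gr H g → Gd (g p, g u₁)
  v2 : ∀ g, IsCover K.gr H g → Gd (g p, g u₂)
  v3 : ∀ g, IsCover K.gr H g → Gd (g w, g q)
  v4 : ∀ g, IsCover K.gr H g → Gz (g z, g q)
  tail : ∀ (cut : K.W → K.W → Prop) (f : K.W → V) (φ : K.W → K.W → V),
    (∀ a b, cut a b ↔ (a, b) = (p, u₁) ∨ (a, b) = (p, u₂)) → PCov H K.gr K.π cut f φ →
    Gd (av f φ (p, u₁)) → Gd (av f φ (p, u₂)) → Gd (bv f φ (p, u₁)) → Gd (bv f φ (p, u₂)) →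
    (av f φ (p, u₁)).1 = f p ∧ (av f φ (p, u₂)).1 = f p ∧ (bv f φ (p, u₁)).1 = f p ∧
      (bv f φ (p, u₂)).1 = f p ∧ (av f φ (p, u₁)).2 ≠ (av f φ (p, u₂)).2 ∧
      H.Adj (f p) (av f φ (p, u₁)).2 ∧ H.Adj (f p) (av f φ (p, u₂)).2
  head : ∀ (cut : K.W → K.W → Prop) (f : K.W → V) (φ : K.W → K.W → V),
    (∀ a b, cut a b ↔ (a, b) = (w, q) ∨ (a, b) = (z, q)) → PCov H K.gr K.π cut f φ →
    Gd (av f φ (w, q)) → Gz (av f φ (z, q)) → Gd (bv f φ (w, q)) → Gz (bv f φ (z, q)) →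
    (av f φ (w, q)).2 = f q ∧ (av f φ (z, q)).2 = f q ∧ (bv f φ (w, q)).2 = f q ∧
      (bv f φ (z, q)).2 = f q
  cX : ∀ y y', y ∈ nbc H (K.π p) (K.π u₁) → y' ∈ nbc H (K.π p) (K.π u₁) → y ≠ y' →
    ∃ f, IsCover K.gr H f ∧ f p = K.π p ∧ f u₁ = y ∧ f u₂ = y'
  cY : ∃ ζ : V → V, ∀ y, y ∈ nbc H (K.π p) (K.π u₁) →
    ∃ f, IsCover K.gr H f ∧ f q = y ∧ f w = K.π p ∧ f z = ζ y

theorem FWE_sim [Finite V] {K : Kit H} {p u₁ u₂ q w z : K.W} {Gd Gz : V × V → Prop}
    (h : WE K p u₁ u₂ q w z Gd Gz)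
    (s s' : Fin 8 × Bool) (hk : WideA_kd (wsy s.1 s.2) = WideA_kd (wsy s'.1 s'.2)) :
    Sim H (K.π ((wPat p u₁ u₂ q w z).ar s).1) (K.π ((wPat p u₁ u₂ q w z).ar s').1) ∧
    Sim H (K.π ((wPat p u₁ u₂ q w z).ar s).2) (K.π ((wPat p u₁ u₂ q w z).ar s').2) := by
  have r : ∀ x, Sim H x x := sim_refl H
  have q2 : Sim H (K.π q) (K.π u₂) := sim_trans h.sq (sim_symm h.s12)
  have h3 : ∀ x : Fin 3, x = 0 ∨ x = 1 ∨ x = 2 := by decide
  rcases h3 (WideA_kd (wsy s.1 s.2)) with h0 | h0 | h0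
  · rw [WideA_ar0 p u₁ u₂ q w z s h0, WideA_ar0 p u₁ u₂ q w z s' (hk ▸ h0)]
    exact ⟨r _, r _⟩
  · rcases WideA_ar1 p u₁ u₂ q w z s h0 with h1 | h1 <;>
      rcases WideA_ar1 p u₁ u₂ q w z s' (hk ▸ h0) with h2 | h2 <;> rw [h1, h2]
    · exact ⟨r _, r _⟩
    · exact ⟨r _, sim_symm h.s12⟩
    · exact ⟨r _, h.s12⟩
    · exact ⟨r _, r _⟩
  · rcases WideA_ar2 p u₁ u₂ q w z s h0 with h1 | h1 | h1 <;>
      rcases WideA_ar2 p u₁ u₂ q w z s' (hk ▸ h0) with h2 | h2 | h2 <;> rw [h1, h2]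
    · exact ⟨r _, r _⟩
    · exact ⟨r _, sim_symm h.s12⟩
    · exact ⟨sim_symm h.sw, sim_symm h.sq⟩
    · exact ⟨r _, h.s12⟩
    · exact ⟨r _, r _⟩
    · exact ⟨sim_symm h.sw, sim_symm q2⟩
    · exact ⟨h.sw, h.sq⟩
    · exact ⟨h.sw, q2⟩
    · exact ⟨r _, r _⟩

theorem we_fine [Finite V] {K : Kit H} {p u₁ u₂ q w z : K.W} {Gd Gz : V × V → Prop}
    (h : WE K p u₁ u₂ q w z Gd Gz) {β : Type}
    [Inhabited β] (D : List (β × β))
    (sg : Equiv.Perm (Fin (D.map wTup).length × (wPat p u₁ u₂ q w z).Sl))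
    (hsg : ∀ o, (wPat p u₁ u₂ q w z).var (D.map wTup) (sg o) =
      (wPat p u₁ u₂ q w z).var (D.map wTup) o) :
    Fine K ((wPat p u₁ u₂ q w z).inst (D.map wTup) sg) := by
  refine ⟨?_, ?_, ?_, ?_, ?_, ?_⟩
  · exact (inferInstance : Finite (Fin (D.map wTup).length × (Fin 8 × Bool)))
  · rintro ⟨k, c, b⟩
    show K.gr.Adj ((wPat p u₁ u₂ q w z).ar (c, b)).1 ((wPat p u₁ u₂ q w z).ar (c, b)).2
    rw [WideA_cases]
    cases wX (c, b).1 <;> cases (c, b).2
    · exact h.q1.symm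
    · exact h.q2.symm
    · exact h.p1
    · exact h.p2
  · rintro ⟨k, c, b⟩ ⟨k', c', b'⟩ hpc har
    have hk : k = k' := congrArg Prod.fst hpc
    have hc : c = c' := congrArg Prod.snd hpc
    subst hk hc
    by_cases hb : b = b'
    · rw [hb]
    · exfalso
      have har' : (wPat p u₁ u₂ q w z).ar (c, b) = (wPat p u₁ u₂ q w z).ar (c, b') ∨
          (wPat p u₁ u₂ q w z).ar (c, b) = ((wPat p u₁ u₂ q w z).ar (c, b')).swap := har
      rw [WideA_cases, WideA_cases] at har'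
      dsimp only at har'
      revert har'
      have a1 := h.ne1
      have a2 := h.ne2
      have a3 := h.p1.ne
      have a4 := h.p2.ne
      have a5 := h.q1.ne
      have a6 := h.q2.ne
      cases wX c <;> cases b <;> cases b' <;> simp_all [Prod.ext_iff, eq_comm]
  · rintro o
    exact (FWE_sim h _ _ (WideA_var p u₁ u₂ q w z D (sg o) o (hsg o))).1
  · rintro o
    exact (FWE_sim h _ _ (WideA_var p u₁ u₂ q w z D (sg o) o (hsg o))).2
  · rintro ⟨k, c, b⟩
    show Straight H K.gr K.π (cut1 ((wPat p u₁ u₂ q w z).ar (c, b)))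
    rw [WideA_cases]
    cases wX (c, b).1 <;> cases (c, b).2
    · exact h.s3
    · exact h.s4
    · exact h.s1
    · exact h.s2

end Pool.Agent.H24.GE
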