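import Pool.Agent.H24.GE.FWS
import Pool.Agent.H24.GE.FWC
import Pool.Agent.H24.GD.Wide

/-!
# JOB GE-39: hardness from forced labels

`pat_red'`: the proof of `pat_red` (file `Pool.Agent.H24.GD.RedSpec`); `mat_cover` (file `Pool.Agent.H24.GC.HardPat`) gives the last
statement for all graphs `H₀`.
`we_hard`: as `wide_hard` (file `Pool.Agent.H24.GD.Wide`): for `x ∈ L` the list `D` is colourable, `we_complete` gives a cover of
`H`, so the graph covers `H`, and `hdown` gives a cover of `H₀`. If the graph covers `H₀` then the graph of the instance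
covers `H₀`, `hup` (`we_fine`) gives a cover of `H`, and `we_sound` a colouring. The conditions of `hup` on `R`: the slots `o`
and `sg o` have the same variable, so either both arcs are `(z, q)`, or both are in `{(p, u₁), (p, u₂), (w, q)}` (as for
the fields `sim1`, `sim2` in `wide_fine`); `hpw`, `hR`.
-/

namespace Pool.Agent.H24.GE

open Pool.Agent.H24.GC Pool.Agent.H24.GD Pool.Agent.PPS Pool.Agent.H64.Cook Pool.Agent.H79.Thr

variable {V : Type} {H : SimpleGraph V}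

theorem pat_red' {K : Kit H} {h : ℕ} (p : Pat h K.W)
    (hadj : ∀ s, K.gr.Adj (p.ar s).1 (p.ar s).2)
    (hinj : ∀ s s', p.pc s = p.pc s' → (p.ar s = p.ar s' ∨ p.ar s = (p.ar s').swap) → s = s')
    (hdeg : ∀ w : K.W, ∃ w', K.gr.Adj w w') (α : Type) [Inhabited α] [DecidableEq α] [Rep α] :
    ∃ Rd : List (List α) → List Bool,
      (∀ (β : Type) [Rep β] (E : β → List (List α)), PT true E → PT true (fun b => Rd (E b))) ∧
      ∀ E : List (List α), ∃ (n : ℕ) (G : SimpleGraph (Fin n))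
        (sg : Equiv.Perm (Fin E.length × p.Sl)), Rd E = enc G ∧
        (∀ o, p.var E (sg o) = p.var E o) ∧
        (∀ o o', p.var E o = p.var E o' → sg.SameCycle o o') ∧
        ∀ (V₀ : Type) (H₀ : SimpleGraph V₀),
          (Covers G H₀ ↔ Covers ((p.inst E sg).graph K.gr) H₀) := by
  obtain ⟨cst, m, J, pcT, tl, hdT, sy, hs⟩ := redL_spec p
  refine ⟨fun E => mat (redL cst m J h pcT tl hdT sy E), ?_, fun E => ?_⟩
  · intro β _ E hE
    exact PT.mat' (PT.redL' cst m J h pcT tl hdT sy hE)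
  · obtain ⟨sg, ι, s1, s2, s3, s4, s5⟩ := hs α E
    have h3 : ∀ a : (p.inst E sg).Vx, ∃ b, ((p.inst E sg).graph K.gr).Adj a b := by
      rintro ⟨q, w⟩
      obtain ⟨nu, hnu, -⟩ := exists_nu (g := K.gr) (I := p.inst E sg)
        (fun o => hadj o.2) (fun o o' ho ho' => Prod.ext (Prod.ext_iff.1 ho).1
          (hinj o.2 o'.2 (Prod.ext_iff.1 ho).2 ho'))
      obtain ⟨w', hw'⟩ := hdeg w
      exact ⟨nu q w w', (hnu q w).mapsTo hw'⟩
    obtain ⟨n, G, g1, g2⟩ := mat_cover _ _ ι s3 s4 s5 h3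
    exact ⟨n, G, sg, g1, s1, s2, g2⟩

theorem fwh_adj {K : Kit H} {p u₁ u₂ q w z : K.W} {Gd Gz : V × V → Prop}
    (h : WE K p u₁ u₂ q w z Gd Gz) (s : (wPat p u₁ u₂ q w z).Sl) :
    K.gr.Adj ((wPat p u₁ u₂ q w z).ar s).1 ((wPat p u₁ u₂ q w z).ar s).2 := by
  obtain ⟨c, b⟩ := s
  show K.gr.Adj (if wX c = true then (if b = true then (p, u₂) else (p, u₁)) else
      (if b = true then (z, q) else (w, q))).1
    (if wX c = true then (if b = true then (p, u₂) else (p, u₁)) else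
      (if b = true then (z, q) else (w, q))).2
  cases wX c <;> cases b
  · exact h.q1.symm
  · exact h.q2.symm
  · exact h.p1
  · exact h.p2

theorem fwh_inj {K : Kit H} {p u₁ u₂ q w z : K.W} {Gd Gz : V × V → Prop}
    (h : WE K p u₁ u₂ q w z Gd Gz) (s s' : (wPat p u₁ u₂ q w z).Sl)
    (h1 : (wPat p u₁ u₂ q w z).pc s = (wPat p u₁ u₂ q w z).pc s')
    (h2 : (wPat p u₁ u₂ q w z).ar s = (wPat p u₁ u₂ q w z).ar s' ∨
      (wPat p u₁ u₂ q w z).ar s = ((wPat p u₁ u₂ q w z).ar s').swap) : s = s' := by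
  obtain ⟨c, b⟩ := s
  obtain ⟨c', b'⟩ := s'
  have h3 : c = c' := h1
  subst h3
  have hpu1 := h.p1.ne
  have hpu2 := h.p2.ne
  have hqw := h.q1.ne
  have hqz := h.q2.ne
  have hn1 := h.ne1
  have hn2 := h.ne2
  have h4 : (if wX c = true then (if b = true then (p, u₂) else (p, u₁)) else
      (if b = true then (z, q) else (w, q))) =
      (if wX c = true then (if b' = true then (p, u₂) else (p, u₁)) else
      (if b' = true then (z, q) else (w, q))) ∨
      (if wX c = true then (if b = true then (p, u₂) else (p, u₁)) else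
      (if b = true then (z, q) else (w, q))) =
      (if wX c = true then (if b' = true then (p, u₂) else (p, u₁)) else
      (if b' = true then (z, q) else (w, q))).swap := h2
  have h5 : b = b' := by
    cases b <;> cases b'
    · rfl
    · exfalso
      cases hc : wX c <;> rw [hc] at h4 <;> rcases h4 with h4 | h4
      · exact hn2 (congrArg Prod.fst h4)
      · exact hqw (congrArg Prod.fst h4).symm
      · exact hn1 (congrArg Prod.snd h4)
      · exact hpu2 (congrArg Prod.fst h4)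
    · exfalso
      cases hc : wX c <;> rw [hc] at h4 <;> rcases h4 with h4 | h4
      · exact hn2 (congrArg Prod.fst h4).symm
      · exact hqz (congrArg Prod.fst h4).symm
      · exact hn1 (congrArg Prod.snd h4).symm
      · exact hpu1 (congrArg Prod.fst h4)
    · rfl
  rw [h5]

theorem fwh_rel [Finite V] {K : Kit H} {p u₁ u₂ q w z : K.W} {R : V → V → Prop}
    (hrefl : ∀ v, R v v) (hpw : K.π p = K.π w)
    (hR : ∀ a ∈ ({K.π u₁, K.π u₂, K.π q} : Set V), ∀ b ∈ ({K.π u₁, K.π u₂, K.π q} : Set V), R a b)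
    (s s' : Fin 8 × Bool) (hk : WideA_kd (wsy s.1 s.2) = WideA_kd (wsy s'.1 s'.2)) :
    R (K.π ((wPat p u₁ u₂ q w z).ar s).1) (K.π ((wPat p u₁ u₂ q w z).ar s').1) ∧
    R (K.π ((wPat p u₁ u₂ q w z).ar s).2) (K.π ((wPat p u₁ u₂ q w z).ar s').2) := by
  have m1 : K.π u₁ ∈ ({K.π u₁, K.π u₂, K.π q} : Set V) := Or.inl rfl
  have m2 : K.π u₂ ∈ ({K.π u₁, K.π u₂, K.π q} : Set V) := Or.inr (Or.inl rfl)
  have m3 : K.π q ∈ ({K.π u₁, K.π u₂, K.π q} : Set V) := Or.inr (Or.inr rfl)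
  have h3 : ∀ x : Fin 3, x = 0 ∨ x = 1 ∨ x = 2 := by decide
  have key : ∀ t : Fin 8 × Bool, WideA_kd (wsy t.1 t.2) ≠ 0 →
      K.π ((wPat p u₁ u₂ q w z).ar t).1 = K.π p ∧
      K.π ((wPat p u₁ u₂ q w z).ar t).2 ∈ ({K.π u₁, K.π u₂, K.π q} : Set V) := by
    intro t ht
    rcases h3 (WideA_kd (wsy t.1 t.2)) with h0 | h0 | h0
    · exact absurd h0 ht
    · rcases WideA_ar1 p u₁ u₂ q w z t h0 with h1 | h1 <;> rw [h1]
      · exact ⟨rfl, m1⟩
      · exact ⟨rfl, m2⟩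
    · rcases WideA_ar2 p u₁ u₂ q w z t h0 with h1 | h1 | h1 <;> rw [h1]
      · exact ⟨rfl, m1⟩
      · exact ⟨rfl, m2⟩
      · exact ⟨hpw.symm, m3⟩
  by_cases h0 : WideA_kd (wsy s.1 s.2) = 0
  · rw [WideA_ar0 p u₁ u₂ q w z s h0, WideA_ar0 p u₁ u₂ q w z s' (hk ▸ h0)]
    exact ⟨hrefl _, hrefl _⟩
  · obtain ⟨a1, a2⟩ := key s h0
    obtain ⟨b1, b2⟩ := key s' (hk ▸ h0)
    exact ⟨by rw [a1, b1]; exact hrefl _, hR _ a2 _ b2⟩

theorem we_hard [Finite V] {V₀ : Type} {H₀ : SimpleGraph V₀} {K : Kit H}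
    {p u₁ u₂ q w z : K.W} {Gd Gz : V × V → Prop} (h : WE K p u₁ u₂ q w z Gd Gz)
    (hdeg : ∀ w : K.W, ∃ w', K.gr.Adj w w')
    (h3 : 3 ≤ (nbc H (K.π p) (K.π u₁)).ncard) {R : V → V → Prop} (hrefl : ∀ v, R v v)
    (hpw : K.π p = K.π w)
    (hR : ∀ a ∈ ({K.π u₁, K.π u₂, K.π q} : Set V), ∀ b ∈ ({K.π u₁, K.π u₂, K.π q} : Set V), R a b)
    (hup : ∀ I : Inst K.W, Fine K I → (∀ o, R (K.π (I.ar (I.sg o)).1) (K.π (I.ar o).1)) →
      (∀ o, R (K.π (I.ar (I.sg o)).2) (K.π (I.ar o).2)) →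
      Covers (I.graph K.gr) H₀ → Covers (I.graph K.gr) H)
    (hdown : ∀ (A : Type) (G : SimpleGraph A), Covers G H → Covers G H₀) : HardH H₀ := by
  classical
  intro L hL
  obtain ⟨φ, hφ, hφ'⟩ := hardk h3 hL
  obtain ⟨Rd, hR1, hR2⟩ := pat_red' (wPat p u₁ u₂ q w z) (fwh_adj h) (fwh_inj h) hdeg
    ((ℕ × V3) × ℕ)
  refine ⟨fun s => Rd ((φ s).map wTup), ?_, fun s => ?_⟩
  · rw [mem_FP_iff]
    refine hR1 _ _ ?_
    refine PT.map' (l := φ) (f := fun v : List Bool × ((ℕ × V3) × (ℕ × V3)) => wTup v.2) hφ ?_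
    unfold wTup
    fun_prop
  · obtain ⟨n, G, sg, g1, g2, g3, g4⟩ := hR2 ((φ s).map wTup)
    refine ⟨n, G, g1, ?_⟩
    rw [(hφ' s).2]
    constructor
    · intro hc
      exact hdown _ _ ((g4 V H).2 (we_complete h (φ s) sg g2 (by omega) hc))
    · intro hC
      have h4 := (g4 V₀ H₀).1 hC
      have hrel : ∀ o : Fin ((φ s).map wTup).length × (Fin 8 × Bool),
          R (K.π ((wPat p u₁ u₂ q w z).ar (sg o).2).1) (K.π ((wPat p u₁ u₂ q w z).ar o.2).1) ∧
          R (K.π ((wPat p u₁ u₂ q w z).ar (sg o).2).2) (K.π ((wPat p u₁ u₂ q w z).ar o.2).2) :=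
        fun o => fwh_rel hrefl hpw hR _ _
          (WideA_var p u₁ u₂ q w z (φ s) (sg o) o (g2 o))
      have h5 := hup ((wPat p u₁ u₂ q w z).inst ((φ s).map wTup) sg) (we_fine h (φ s) sg g2)
        (fun o => (hrel o).1) (fun o => (hrel o).2) h4
      exact we_sound h (φ s) sg g2 g3 (by omega) h5

end Pool.Agent.H24.GE
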