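import Pool.Agent.H24.GE.FWE
import Pool.Agent.H24.GD.WideS
import Pool.Agent.H24.GC.Star
import Pool.Agent.H79.Thr.ColK

/-!
# JOB GE-37: a cover gives a colouring (forced labels)

`we_sound`: the proof of `wide_sound` (file `Pool.Agent.H24.GD.WideS`, with `WideS_X`, `WideS_Y`, ...), with `core_fwd'` and
`we_fine`. The only difference: `WE.tail`, `WE.head` have the additional conditions `Gd`, `Gz`. By the first statement
of `core_fwd'` and `WE.v1` to `WE.v4` the value `a' o` of a slot `o` satisfies `Gd` if the arc of the slot is `(p, u₁)`,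
`(p, u₂)` or `(w, q)`, and `Gz` if it is `(z, q)`. For a slot `o` of a piece the value `av` is `a' o` and `bv` is
`a' (sg.symm o)`. The slot `sg.symm o` has the same variable as `o`; the variables `γ` occur only in slots with the arc
`(z, q)`, the variables `δ` and the auxiliary variables only in slots with one of the three other arcs (see
`WideA_kd`, `WideA_sim` in the file `Pool.Agent.H24.GD.WideA`). So `Gd`, `Gz` hold for `av` and `bv`. (`wide_two` can be used
as it is.)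
-/

namespace Pool.Agent.H24.GE

open Pool.Agent.H24.GC Pool.Agent.H24.GD Pool.Agent.H79.Thr

variable {V : Type} {H : SimpleGraph V}

/-- the values of the occurrences -/
theorem FWS_X [Finite V] {K : Kit H} {p u₁ u₂ q w z : K.W} {Gd Gz : V × V → Prop}
    (h : WE K p u₁ u₂ q w z Gd Gz) {N : ℕ}
    (sg : Equiv.Perm (Fin N × (Fin 8 × Bool))) (a' : Fin N × (Fin 8 × Bool) → V × V)
    (k : Fin N) (c : Fin 8) (hc : wX c = true)
    (hG : ∀ b, Gd (a' (k, (c, b))) ∧ Gd (a' (sg.symm (k, (c, b))))) (f : K.W → V) (φ : K.W → K.W → V)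
    (hP : PCov H K.gr K.π (fun x y => ∃ o : Fin N × (Fin 8 × Bool), (o.1, o.2.1) = (k, c) ∧
      (wPat p u₁ u₂ q w z).ar o.2 = (x, y)) f φ)
    (hv : ∀ o : Fin N × (Fin 8 × Bool), (o.1, o.2.1) = (k, c) →
      av f φ ((wPat p u₁ u₂ q w z).ar o.2) = a' o ∧
      bv f φ ((wPat p u₁ u₂ q w z).ar o.2) = a' (sg.symm o)) :
    ∃ t, (∀ b, (a' (k, (c, b))).1 = t ∧ (a' (sg.symm (k, (c, b)))).1 = t) ∧
      (∀ b, H.Adj t (a' (k, (c, b))).2 ∧ Sim H (a' (k, (c, b))).2 (K.π u₁)) ∧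
      (a' (k, (c, false))).2 ≠ (a' (k, (c, true))).2 ∧ Sim H t (K.π p) := by
  have har : ∀ b : Bool, (wPat p u₁ u₂ q w z).ar (c, b) = if b then (p, u₂) else (p, u₁) := by
    intro b
    rw [WideA_cases]
    simp only [hc, if_true]
  have hcut : ∀ x y, (∃ o : Fin N × (Fin 8 × Bool), (o.1, o.2.1) = (k, c) ∧
      (wPat p u₁ u₂ q w z).ar o.2 = (x, y)) ↔ (x, y) = (p, u₁) ∨ (x, y) = (p, u₂) := by
    intro x y
    constructor
    · rintro ⟨⟨k', c', b⟩, h1, h2⟩
      have h3 : c' = c := congrArg Prod.snd h1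
      subst h3
      rw [har b] at h2
      cases b
      · exact Or.inl h2.symm
      · exact Or.inr h2.symm
    · rintro (h1 | h1)
      · exact ⟨(k, (c, false)), rfl, (har false).trans h1.symm⟩
      · exact ⟨(k, (c, true)), rfl, (har true).trans h1.symm⟩
  obtain ⟨g1, g2⟩ := hv (k, (c, false)) rfl
  obtain ⟨g3, g4⟩ := hv (k, (c, true)) rfl
  have g1' : av f φ (p, u₁) = a' (k, (c, false)) := by
    have := har false
    rw [← g1]
    exact (congrArg (av f φ) this).symm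
  have g2' : bv f φ (p, u₁) = a' (sg.symm (k, (c, false))) := by
    rw [← g2]
    exact (congrArg (bv f φ) (har false)).symm
  have g3' : av f φ (p, u₂) = a' (k, (c, true)) := by
    rw [← g3]
    exact (congrArg (av f φ) (har true)).symm
  have g4' : bv f φ (p, u₂) = a' (sg.symm (k, (c, true))) := by
    rw [← g4]
    exact (congrArg (bv f φ) (har true)).symm
  obtain ⟨e1, e2, e3, e4, e5, e6, e7⟩ := h.tail _ f φ hcut hP (by rw [g1']; exact (hG false).1)
    (by rw [g3']; exact (hG true).1) (by rw [g2']; exact (hG false).2)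
    (by rw [g4']; exact (hG true).2)
  have s1 : Sim H (av f φ (p, u₁)).2 (K.π u₁) := hP.simp p u₁ h.p1
  have s2 : Sim H (av f φ (p, u₂)).2 (K.π u₁) := sim_trans (hP.simp p u₂ h.p2) h.s12
  rw [g1', g3'] at e5
  rw [g1'] at e1 e6 s1
  rw [g2'] at e3
  rw [g3'] at e2 e7 s2
  rw [g4'] at e4
  refine ⟨f p, ?_, ?_, e5, hP.simf p⟩
  · intro b
    cases b
    · exact ⟨e1, e3⟩
    · exact ⟨e2, e4⟩
  · intro b
    cases b
    · exact ⟨e6, s1⟩
    · exact ⟨e7, s2⟩

theorem FWS_Y [Finite V] {K : Kit H} {p u₁ u₂ q w z : K.W} {Gd Gz : V × V → Prop}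
    (h : WE K p u₁ u₂ q w z Gd Gz) {N : ℕ}
    (sg : Equiv.Perm (Fin N × (Fin 8 × Bool))) (a' : Fin N × (Fin 8 × Bool) → V × V)
    (k : Fin N) (c : Fin 8) (hc : wX c = false)
    (hG : Gd (a' (k, (c, false))) ∧ Gd (a' (sg.symm (k, (c, false)))))
    (hG' : Gz (a' (k, (c, true))) ∧ Gz (a' (sg.symm (k, (c, true))))) (f : K.W → V) (φ : K.W → K.W → V)
    (hP : PCov H K.gr K.π (fun x y => ∃ o : Fin N × (Fin 8 × Bool), (o.1, o.2.1) = (k, c) ∧
      (wPat p u₁ u₂ q w z).ar o.2 = (x, y)) f φ)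
    (hv : ∀ o : Fin N × (Fin 8 × Bool), (o.1, o.2.1) = (k, c) →
      av f φ ((wPat p u₁ u₂ q w z).ar o.2) = a' o ∧
      bv f φ ((wPat p u₁ u₂ q w z).ar o.2) = a' (sg.symm o)) :
    ∃ t, ∀ b, (a' (k, (c, b))).2 = t ∧ (a' (sg.symm (k, (c, b)))).2 = t := by
  have har : ∀ b : Bool, (wPat p u₁ u₂ q w z).ar (c, b) = if b then (z, q) else (w, q) := by
    intro b
    rw [WideA_cases]
    simp only [hc, Bool.false_eq_true, if_false]
  have hcut : ∀ x y, (∃ o : Fin N × (Fin 8 × Bool), (o.1, o.2.1) = (k, c) ∧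
      (wPat p u₁ u₂ q w z).ar o.2 = (x, y)) ↔ (x, y) = (w, q) ∨ (x, y) = (z, q) := by
    intro x y
    constructor
    · rintro ⟨⟨k', c', b⟩, h1, h2⟩
      have h3 : c' = c := congrArg Prod.snd h1
      subst h3
      rw [har b] at h2
      cases b
      · exact Or.inl h2.symm
      · exact Or.inr h2.symm
    · rintro (h1 | h1)
      · exact ⟨(k, (c, false)), rfl, (har false).trans h1.symm⟩
      · exact ⟨(k, (c, true)), rfl, (har true).trans h1.symm⟩
  obtain ⟨g1, g2⟩ := hv (k, (c, false)) rfl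
  obtain ⟨g3, g4⟩ := hv (k, (c, true)) rfl
  have g1' : av f φ (w, q) = a' (k, (c, false)) := by
    rw [← g1]
    exact (congrArg (av f φ) (har false)).symm
  have g2' : bv f φ (w, q) = a' (sg.symm (k, (c, false))) := by
    rw [← g2]
    exact (congrArg (bv f φ) (har false)).symm
  have g3' : av f φ (z, q) = a' (k, (c, true)) := by
    rw [← g3]
    exact (congrArg (av f φ) (har true)).symm
  have g4' : bv f φ (z, q) = a' (sg.symm (k, (c, true))) := by
    rw [← g4]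
    exact (congrArg (bv f φ) (har true)).symm
  obtain ⟨e1, e2, e3, e4⟩ := h.head _ f φ hcut hP (by rw [g1']; exact hG.1)
    (by rw [g3']; exact hG'.1) (by rw [g2']; exact hG.2) (by rw [g4']; exact hG'.2)
  rw [g1'] at e1
  rw [g2'] at e3
  rw [g3'] at e2
  rw [g4'] at e4
  refine ⟨f q, ?_⟩
  intro b
  cases b
  · exact ⟨e1, e3⟩
  · exact ⟨e2, e4⟩

theorem we_sound [Finite V] {K : Kit H} {p u₁ u₂ q w z : K.W} {Gd Gz : V × V → Prop}
    (h : WE K p u₁ u₂ q w z Gd Gz) {β : Type}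
    [Inhabited β] (D : List (β × β))
    (sg : Equiv.Perm (Fin (D.map wTup).length × (wPat p u₁ u₂ q w z).Sl))
    (hsg : ∀ o, (wPat p u₁ u₂ q w z).var (D.map wTup) (sg o) =
      (wPat p u₁ u₂ q w z).var (D.map wTup) o)
    (hcy : ∀ o o', (wPat p u₁ u₂ q w z).var (D.map wTup) o =
      (wPat p u₁ u₂ q w z).var (D.map wTup) o' → sg.SameCycle o o')
    (hd : 0 < (nbc H (K.π p) (K.π u₁)).ncard)
    (hC : Covers (((wPat p u₁ u₂ q w z).inst (D.map wTup) sg).graph K.gr) H) :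
    EColourable (nbc H (K.π p) (K.π u₁)).ncard D := by
  obtain ⟨a', hval, hp⟩ := core_fwd' (we_fine h D sg hsg) hC
  have hval' : ∀ o : Fin (D.map wTup).length × (Fin 8 × Bool), ∃ g, IsCover K.gr H g ∧
      (g ((wPat p u₁ u₂ q w z).ar o.2).1, g ((wPat p u₁ u₂ q w z).ar o.2).2) = a' o :=
    fun o => hval o
  have good : ∀ o : Fin (D.map wTup).length × (Fin 8 × Bool),
      (WideA_kd (wsy o.2.1 o.2.2) = 0 → Gz (a' o)) ∧
      (WideA_kd (wsy o.2.1 o.2.2) ≠ 0 → Gd (a' o)) := by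
    intro o
    obtain ⟨g, hg, hgo⟩ := hval' o
    constructor
    · intro h0
      rw [WideA_ar0 p u₁ u₂ q w z o.2 h0] at hgo
      rw [← hgo]
      exact h.v4 g hg
    · intro h0
      have h1 : WideA_kd (wsy o.2.1 o.2.2) = 1 ∨ WideA_kd (wsy o.2.1 o.2.2) = 2 := by
        have h2 : ∀ x : Fin 3, x ≠ 0 → x = 1 ∨ x = 2 := by decide
        exact h2 _ h0
      rcases h1 with h1 | h1
      · rcases WideA_ar1 p u₁ u₂ q w z o.2 h1 with h2 | h2
        · rw [h2] at hgo
          rw [← hgo]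
          exact h.v1 g hg
        · rw [h2] at hgo
          rw [← hgo]
          exact h.v2 g hg
      · rcases WideA_ar2 p u₁ u₂ q w z o.2 h1 with h2 | h2 | h2
        · rw [h2] at hgo
          rw [← hgo]
          exact h.v1 g hg
        · rw [h2] at hgo
          rw [← hgo]
          exact h.v2 g hg
        · rw [h2] at hgo
          rw [← hgo]
          exact h.v3 g hg
  have hkd : ∀ o : Fin (D.map wTup).length × (Fin 8 × Bool),
      WideA_kd (wsy (sg.symm o).2.1 (sg.symm o).2.2) = WideA_kd (wsy o.2.1 o.2.2) := by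
    intro o
    refine WideA_var p u₁ u₂ q w z D (sg.symm o) o ?_
    have h1 := hsg (sg.symm o)
    rw [Equiv.apply_symm_apply] at h1
    exact h1.symm
  have goodD : ∀ o : Fin (D.map wTup).length × (Fin 8 × Bool),
      WideA_kd (wsy o.2.1 o.2.2) ≠ 0 → Gd (a' o) ∧ Gd (a' (sg.symm o)) := by
    intro o h0
    refine ⟨(good o).2 h0, (good (sg.symm o)).2 ?_⟩
    rw [hkd o]
    exact h0
  have goodZ : ∀ o : Fin (D.map wTup).length × (Fin 8 × Bool),
      WideA_kd (wsy o.2.1 o.2.2) = 0 → Gz (a' o) ∧ Gz (a' (sg.symm o)) := by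
    intro o h0
    refine ⟨(good o).1 h0, (good (sg.symm o)).1 ?_⟩
    rw [hkd o]
    exact h0
  have hp' : ∀ (k : Fin (D.map wTup).length) (c : Fin 8), ∃ (f : K.W → V) (φ : K.W → K.W → V),
      PCov H K.gr K.π (fun x y => ∃ o : Fin (D.map wTup).length × (Fin 8 × Bool),
        (o.1, o.2.1) = (k, c) ∧ (wPat p u₁ u₂ q w z).ar o.2 = (x, y)) f φ ∧
      ∀ o : Fin (D.map wTup).length × (Fin 8 × Bool), (o.1, o.2.1) = (k, c) →
        av f φ ((wPat p u₁ u₂ q w z).ar o.2) = a' o ∧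
        bv f φ ((wPat p u₁ u₂ q w z).ar o.2) = a' (sg.symm o) := fun k c => hp (k, c)
  have hX : ∀ (k : Fin (D.map wTup).length) (c : Fin 8), wX c = true →
      ∃ t, (∀ b, (a' (k, (c, b))).1 = t ∧ (a' (sg.symm (k, (c, b)))).1 = t) ∧
      (∀ b, H.Adj t (a' (k, (c, b))).2 ∧ Sim H (a' (k, (c, b))).2 (K.π u₁)) ∧
      (a' (k, (c, false))).2 ≠ (a' (k, (c, true))).2 ∧ Sim H t (K.π p) := by
    intro k c hc
    obtain ⟨f, φ, h1, h2⟩ := hp' k c
    have key : ∀ (c : Fin 8) (b : Bool), wX c = true → WideA_kd (wsy c b) ≠ 0 := by decide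
    exact FWS_X h sg a' k c hc (fun b => goodD (k, (c, b)) (key c b hc)) f φ h1 h2
  have hY : ∀ (k : Fin (D.map wTup).length) (c : Fin 8), wX c = false →
      ∃ t, ∀ b, (a' (k, (c, b))).2 = t ∧ (a' (sg.symm (k, (c, b)))).2 = t := by
    intro k c hc
    obtain ⟨f, φ, h1, h2⟩ := hp' k c
    have key : ∀ c : Fin 8, wX c = false → WideA_kd (wsy c false) ≠ 0 := by decide
    have key' : ∀ c : Fin 8, wX c = false → WideA_kd (wsy c true) = 0 := by decide
    exact FWS_Y h sg a' k c hc (goodD (k, (c, false)) (key c hc))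
      (goodZ (k, (c, true)) (key' c hc)) f φ h1 h2
  have hfin : Finite (Fin (D.map wTup).length × (wPat p u₁ u₂ q w z).Sl) :=
    (inferInstance : Finite (Fin (D.map wTup).length × (Fin 8 × Bool)))
  -- the values of the variables of the vertices
  have hg : ∀ v : β, ∃ t, ∀ o, (wPat p u₁ u₂ q w z).var (D.map wTup) o = Sum.inl (v, 0) →
      (a' o).2 = t := by
    intro v
    refine WideS_const (sg := sg) (Sum.inl (v, 0)) hcy hsg (fun o => (a' o).2) ?_ (K.π p)
    intro o ho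
    have h0 := (WideS_kd p u₁ u₂ q w z D (sg o) v 0 ((hsg o).trans ho)).1 rfl
    obtain ⟨t, ht⟩ := hY (sg o).1 (sg o).2.1 h0
    have h1 : (a' (sg o)).2 = t := (ht (sg o).2.2).1
    have h2 : (a' (sg.symm (sg o))).2 = t := (ht (sg o).2.2).2
    rw [Equiv.symm_apply_apply] at h2
    exact h1.trans h2.symm
  have hδ : ∀ v : β, ∃ t, ∀ o, (wPat p u₁ u₂ q w z).var (D.map wTup) o = Sum.inl (v, 1) →
      (a' o).1 = t := by
    intro v
    refine WideS_const (sg := sg) (Sum.inl (v, 1)) hcy hsg (fun o => (a' o).1) ?_ (K.π p)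
    intro o ho
    have h0 := (WideS_kd p u₁ u₂ q w z D (sg o) v 1 ((hsg o).trans ho)).2 rfl
    obtain ⟨t, ht, -⟩ := hX (sg o).1 (sg o).2.1 h0
    have h1 : (a' (sg o)).1 = t := (ht (sg o).2.2).1
    have h2 : (a' (sg.symm (sg o))).1 = t := (ht (sg o).2.2).2
    rw [Equiv.symm_apply_apply] at h2
    exact h1.trans h2.symm
  choose hh hh' using hg
  choose tt tt' using hδ
  obtain ⟨bt, hbt⟩ := exists_beta (H := H) (x₀ := K.π p) (y₀ := K.π u₁) hd
  refine ⟨fun v => bt (tt v, hh v), ?_⟩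
  rintro ⟨a, b⟩ hab
  obtain ⟨k, hk⟩ := List.mem_iff_get.1 (List.mem_map_of_mem (f := wTup) hab)
  have hvar : ∀ (s : Fin 8 × Bool) (j : Fin 4), wsy s.1 s.2 = Sum.inl j →
      (wPat p u₁ u₂ q w z).var (D.map wTup) (k, s) = Sum.inl ((wTup (a, b)).getD (j : ℕ) default) := by
    intro s j hs
    show (Sum.elim (fun j : Fin 4 => Sum.inl (((D.map wTup).get k).getD (j : ℕ) default))
      (fun y : Fin 4 => Sum.inr (k, y)) (wsy s.1 s.2) :
        (β × ℕ) ⊕ (Fin (D.map wTup).length × Fin 4)) = _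
    rw [hs, hk]
    rfl
  have v0 := hh' a _ (hvar (0, true) 0 rfl)
  have v1 := tt' a _ (hvar (1, true) 1 rfl)
  have v2 := hh' b _ (hvar (2, true) 2 rfl)
  have v3 := tt' b _ (hvar (3, true) 3 rfl)
  have v4 := hh' a _ (hvar (4, true) 0 rfl)
  have v5 := hh' b _ (hvar (5, true) 2 rfl)
  have v7 := tt' b _ (hvar (7, true) 3 rfl)
  have v7' := tt' a _ (hvar (7, false) 1 rfl)
  have w0 := (wide_two p u₁ u₂ q w z D sg hsg hcy k 0 (0, false) (1, false) (by decide) rfl rfl).2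
  have w1 := (wide_two p u₁ u₂ q w z D sg hsg hcy k 1 (2, false) (3, false) (by decide) rfl rfl).2
  have w2 := (wide_two p u₁ u₂ q w z D sg hsg hcy k 2 (4, false) (6, false) (by decide) rfl rfl).2
  have w3 := (wide_two p u₁ u₂ q w z D sg hsg hcy k 3 (5, false) (6, true) (by decide) rfl rfl).2
  obtain ⟨t0, ht0⟩ := hY k 0 rfl
  obtain ⟨t2, ht2⟩ := hY k 2 rfl
  obtain ⟨t4, ht4⟩ := hY k 4 rfl
  obtain ⟨t5, ht5⟩ := hY k 5 rfl
  obtain ⟨t1, g1, g1', -, g1''⟩ := hX k 1 rfl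
  obtain ⟨t3, g3, g3', -, g3''⟩ := hX k 3 rfl
  obtain ⟨t6, -, -, g6, -⟩ := hX k 6 rfl
  obtain ⟨t7, g7, -, -, -⟩ := hX k 7 rfl
  have e1 : (a' (k, (1, false))).2 = hh a := by
    rw [← v0, (ht0 true).1, ← (ht0 false).2, w0]
    rfl
  have e3 : (a' (k, (3, false))).2 = hh b := by
    rw [← v2, (ht2 true).1, ← (ht2 false).2, w1]
    rfl
  have e6 : (a' (k, (6, false))).2 = hh a := by
    rw [← v4, (ht4 true).1, ← (ht4 false).2, w2]
    rfl
  have e6' : (a' (k, (6, true))).2 = hh b := by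
    rw [← v5, (ht5 true).1, ← (ht5 false).2, w3]
    rfl
  have et1 : t1 = tt a := (g1 true).1.symm.trans v1
  have et3 : t3 = tt b := (g3 true).1.symm.trans v3
  have et : tt a = tt b := by
    rw [← v7', ← v7, (g7 false).1, (g7 true).1]
  have hne : hh a ≠ hh b := by
    rw [← e6, ← e6']
    exact g6
  have ha := g1' false
  rw [e1, et1] at ha
  have hb := g3' false
  rw [e3, et3, ← et] at hb
  rw [et1] at g1''
  show bt (tt a, hh a) ≠ bt (tt b, hh b)
  rw [← et]
  exact hbt (tt a) (hh a) (hh b) g1'' ha hb hne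

end Pool.Agent.H24.GE
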