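import Pool.Agent.H24.GE.R1B

/-!
# JOB GE-18: covers reduce to the constraint satisfaction problem

`red_lb_cset`. `0 < n` as there is a vertex (`hn`). Take `r` from `agH_stab`. The function is
`φ x = if mchkG n x N && ((List.range N).all fun i => decide (lk n T i < n)) then encM M (N * N) (cF n N x T) else [true]`
with `N = mroot x.length`, `T = rows H x N r`, `M = 2 * (n * (n * n))` (written with `bif`, or `PT.cond`). It is in `FP`
(`FP` is defined in `Pool.Agent.H64.Cook`; a function with `PT true` is in `FP`: see how `HardH` is proved in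
`Pool.Agent.H24.GC.HardPat`): `PT.mchkG'`, `PT.all'`, `PT.rows'`, `PT.lk'`, `PT.encM'`, `PT.cF'`.
Correctness: let `x ∈ LB H`, `x = enc G`, `G` covers `H` (a cover `f`), `N` vertices (`enc_len`, `mroot_sq`). `mchkG` holds
by `maxdeg_of_covers` (file `Pool.Agent.H24.GC.Memb`) and `mchkG_enc`. By `rows_spec` and `ag_cover`, `agH_refl` the
entry `(i, f i)` of the table is `true`, so `lk n T i < n` (`lk_lt`). Let `t i = ⟨lk n T i, _⟩`; `Ag G H r i (t i)` by
`lk_spec`, `rows_spec`. By `csp_cover` and `cF_sat` the instance has a solution; `encM_eq`: the word is in `CSet (RH H)`.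
Conversely let `φ x ∈ CSet (RH H)`. `[true]` is not an instance (`encI_len`, `2 * (n * (n * n)) * (N' * N') = 1` is
impossible), so the check is `true`, `x = enc G` (`mchkG_spec`). `φ x = encM M (N * N) F = encI c` (`encM_eq`) and
`= encI c'` with `c'` satisfiable; the lengths (`encI_len`, `isz_eq`) give `N' = N * N`, and `ient_encI` gives `c = c'`. So
the instance `c` is satisfiable; `cF_sat` and `csp_cover` give `Covers G H`.
-/

namespace Pool.Agent.H24.GE

open Pool.Agent.H24.GC Pool.Agent.PPS Pool.Agent.H64.Cook Pool.Agent.H79.Thr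

/-- the words of the instances determine the instances -/
theorem encI_inj {M N N' : ℕ} (hM : 0 < M) {c : Fin M → Fin N → Fin N → Bool}
    {c' : Fin M → Fin N' → Fin N' → Bool} (h : encI c = encI c') :
    ∃ e : N' = N, ∀ s i j, c' s i j = c s (Fin.cast e i) (Fin.cast e j) := by
  have h1 : M * (N * N) = M * (N' * N') := by
    rw [← encI_len c, ← encI_len c', h]
  have h2 : N * N = N' * N' := Nat.eq_of_mul_eq_mul_left hM h1
  have h3 : N' = N := (Nat.mul_self_inj.1 h2).symm
  subst h3
  refine ⟨rfl, fun s i j => ?_⟩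
  show c' s i j = c s i j
  rw [← ient_encI c s i j, ← ient_encI c' s i j, h]

theorem R1_cset {D : Type} {M N : ℕ} (hM : 0 < M) (R : Fin M → D → D → Prop)
    (c : Fin M → Fin N → Fin N → Bool) :
    encI c ∈ CSet R ↔ ∃ a : Fin N → D, ∀ s i j, c s i j = true → R s (a i) (a j) := by
  constructor
  · rintro ⟨N', c', h, a, ha⟩
    obtain ⟨e, he⟩ := encI_inj hM h
    subst e
    refine ⟨a, fun s i j hc => ha s i j ?_⟩
    rw [he]
    exact hc
  · rintro ⟨a, ha⟩
    exact ⟨N, c, rfl, a, ha⟩

theorem R1_pos {n : ℕ} (hn : 0 < n) : 0 < 2 * (n * (n * n)) := by positivity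

/-- the check -/
noncomputable def R1_c {n : ℕ} (H : SimpleGraph (Fin n)) (r : ℕ) (x : List Bool) : Bool :=
  mchkG n x (mroot x.length) && ((List.range (mroot x.length)).all fun i =>
    decide (lk n (rows H x (mroot x.length) r) i < n))

/-- the function -/
noncomputable def R1_f {n : ℕ} (H : SimpleGraph (Fin n)) (r : ℕ) (x : List Bool) : List Bool :=
  bif R1_c H r x then
    encM (2 * (n * (n * n))) (mroot x.length * mroot x.length)
      (cF n (mroot x.length) x (rows H x (mroot x.length) r))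
  else [true]

theorem R1_PT {n : ℕ} (H : SimpleGraph (Fin n)) (r : ℕ) : PT true (R1_f H r) := by
  have h0 : PT true (fun x : List Bool => mroot x.length) := by fun_prop
  have hT : PT true (fun x : List Bool => rows H x (mroot x.length) r) :=
    PT.rows' H r (by fun_prop) h0
  have h1 : PT true (fun x : List Bool => (List.range (mroot x.length)).all fun i =>
      decide (lk n (rows H x (mroot x.length) r) i < n)) := by
    refine H64.Cook.PT.all' (m := true) (l := fun x : List Bool => List.range (mroot x.length))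
      (f := fun z : List Bool × ℕ => decide (lk n (rows H z.1 (mroot z.1.length) r) z.2 < n))
      (by fun_prop) ?_
    have h2 : PT true (fun z : List Bool × ℕ => lk n (rows H z.1 (mroot z.1.length) r) z.2) :=
      PT.lk' n (hT.comp' (by fun_prop)) (by fun_prop)
    fun_prop
  refine PT.cond (PT.and' (PT.mchkG' n (by fun_prop) h0) h1) ?_ (PT.const' _)
  refine PT.encM' _ (N := fun x : List Bool => mroot x.length * mroot x.length)
    (F := fun x => cF n (mroot x.length) x (rows H x (mroot x.length) r)) (by fun_prop) ?_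
  exact PT.cF' n (N := fun z : List Bool × (ℕ × (ℕ × ℕ)) => mroot z.1.length)
    (x := fun z => z.1) (T := fun z => rows H z.1 (mroot z.1.length) r)
    (s := fun z => z.2.1) (p := fun z => z.2.2.1) (q := fun z => z.2.2.2)
    (by fun_prop) (by fun_prop) (hT.comp' (by fun_prop)) (by fun_prop) (by fun_prop)
    (by fun_prop)

theorem R1_key {n : ℕ} (hn : 0 < n) {H : SimpleGraph (Fin n)} (hdeg : ∀ v, ∃ c, H.Adj v c)
    {r : ℕ} (hr : 1 ≤ r) (hs : ∀ u v, AgH H r u v → Sim H u v) {N : ℕ}
    (G : SimpleGraph (Fin N)) (hc : R1_c H r (enc G) = true) :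
    Covers G H ↔ R1_f H r (enc G) ∈ CSet (RH H) := by
  have hf : R1_f H r (enc G) = encM (2 * (n * (n * n))) (N * N)
      (cF n N (enc G) (rows H (enc G) N r)) := by
    unfold R1_f
    rw [hc, enc_len, mroot_sq]
    rfl
  have hlk : ∀ i : Fin N, lk n (rows H (enc G) N r) i < n := by
    unfold R1_c at hc
    rw [enc_len, mroot_sq, Bool.and_eq_true, List.all_eq_true] at hc
    intro i
    exact of_decide_eq_true (hc.2 i (List.mem_range.2 i.2))
  have ht : ∀ i : Fin N, Ag G H r i (⟨lk n (rows H (enc G) N r) i, hlk i⟩ : Fin n) := by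
    classical
    intro i
    have h1 := lk_spec (hlk i)
    have h2 := rows_spec G H r i ⟨lk n (rows H (enc G) N r) i, hlk i⟩
    exact of_decide_eq_true (h2.symm.trans h1)
  rw [hf, encM_eq, R1_cset (R1_pos hn), csp_cover hr hs hdeg ht]
  exact cF_sat (H := H) (T := rows H (enc G) N r)
    (t := fun i => (⟨lk n (rows H (enc G) N r) i, hlk i⟩ : Fin n)) (fun i => rfl)

theorem R1_check {n : ℕ} {H : SimpleGraph (Fin n)} {r : ℕ} {N : ℕ}
    {G : SimpleGraph (Fin N)} (h : Covers G H) : R1_c H r (enc G) = true := by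
  classical
  unfold R1_c
  rw [enc_len, mroot_sq, Bool.and_eq_true, List.all_eq_true]
  refine ⟨mchkG_enc (maxdeg_of_covers h), fun i hi => ?_⟩
  obtain ⟨f, hf⟩ := h
  have hi' : i < N := List.mem_range.1 hi
  refine decide_eq_true (lk_lt (f ⟨i, hi'⟩).2 ?_)
  have h2 := rows_spec G H r ⟨i, hi'⟩ (f ⟨i, hi'⟩)
  exact h2.trans (decide_eq_true ((ag_cover hf r ⟨i, hi'⟩ _).2 (agH_refl H r _)))

theorem red_lb_cset {n : ℕ} (hn : 0 < n) (H : SimpleGraph (Fin n)) (hdeg : ∀ v, ∃ c, H.Adj v c) :
    Red (LB H) (CSet (RH H)) := by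
  obtain ⟨r, hr, hs⟩ := agH_stab H
  refine ⟨R1_f H r, mem_FP_iff.2 (R1_PT H r), fun x => ?_⟩
  constructor
  · rintro ⟨N, G, rfl, hG⟩
    exact (R1_key hn hdeg hr hs G (R1_check hG)).1 hG
  · intro h
    rcases hcx : R1_c H r x with _ | _
    · exfalso
      unfold R1_f at h
      rw [hcx] at h
      obtain ⟨N', c', h1, -⟩ := h
      have h2 : (1 : ℕ) = 2 * (n * (n * n)) * (N' * N') := by
        rw [← encI_len c', ← h1]
        rfl
      have h3 : 2 ∣ 1 := ⟨n * (n * n) * (N' * N'), by rw [← mul_assoc]; exact h2⟩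
      norm_num at h3
    · have hcx' := hcx
      unfold R1_c at hcx'
      rw [Bool.and_eq_true] at hcx'
      obtain ⟨G₀, hG₀, -⟩ := mchkG_spec hcx'.1
      obtain ⟨N, G₁, hG₁⟩ : ∃ (N : ℕ) (G : SimpleGraph (Fin N)), x = enc G := ⟨_, G₀, hG₀⟩
      clear hG₀ G₀ hcx'
      subst hG₁
      exact ⟨N, G₁, rfl, (R1_key hn hdeg hr hs G₁ hcx).2 h⟩

end Pool.Agent.H24.GE
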