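import Pool.Agent.H24.GE.R2B
import Pool.Agent.H24.GE.R1
import Pool.Agent.H24.GE.BaseM

/-!
# JOB GE-21: the constraint satisfaction problem reduces to covers

`enc_mem_lb`: `enc G` determines `G` (`enc_len`, `ment_enc`).
`red_cset_lb`. `M = 2 * (n * (n * n))`, `N = isz M x.length`, `L = onL M N x`, `Rd` from `fdef_red` (file
`Pool.Agent.H24.GD.FRed`, `α = ℕ × (ℕ × (ℕ × ℕ))`, `R = hubR H`, `hubR_fdef`), `vT`, `tT` from `exists_tabs`. The function is
`φ x = bif decide (M * (N * N) = x.length) && okL vT tT L then Rd (L.map (tupL M)) else [true]`, it is in `FP` (see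
`R1.lean`; `PT.isz'`, `PT.onL'`, `PT.okL'`, `PT.map'`, `PT.tupL'`).
`[true]` is not in `LB H`: `enc_len` gives one vertex, and `ment_enc` an edge from this vertex to itself.
Let `x ∈ CSet (RH H)`, `x = encI c` with `N'` variables, and `a` a solution. Then `N = N'` (`encI_len`, `isz_eq`; `0 < M`),
and `ient x N s i j = c s i j` (`ient_encI`). `okL` holds by `okL_of_sat`. By `sat_iff` (its condition follows from
`okL` and `Tabs.val`) there is an assignment of the tuples, so `Covers G H` by `fdef_red` (its condition is
`okL_ty`), where `Rd E = enc G`. Conversely let `φ x ∈ LB H`; then the length is right and `okL` holds, and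
`x = encI c` with `c s i j = ient x N s i j` (`encI_surj`); `enc_mem_lb`, `fdef_red`, `sat_iff` give a solution of `c`.
`multi_csp`: `base_multi` (file `BaseM`), `red_lb_cset` (file `R1`; a vertex of positive degree has a neighbour),
`red_cset_lb`.
-/

namespace Pool.Agent.H24.GE

open Pool.Agent.H24.GC Pool.Agent.H24.GD Pool.Agent.PPS Pool.Agent.H64.Cook Pool.Agent.H79.Thr

theorem enc_mem_lb {V : Type} {H : SimpleGraph V} {k : ℕ} (G : SimpleGraph (Fin k)) :
    enc G ∈ LB H ↔ Covers G H := by
  constructor
  · rintro ⟨k', G', h, hc⟩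
    have h1 : k * k = k' * k' := by
      rw [← enc_len G, ← enc_len G', h]
    have h2 : k = k' := Nat.mul_self_inj.1 h1
    subst h2
    have h3 : G = G' := by
      ext u v
      rw [← ment_enc G, ← ment_enc G', h]
    rw [h3]
    exact hc
  · intro h
    exact ⟨k, G, rfl, h⟩

theorem R2_true {V : Type} (H : SimpleGraph V) : [true] ∉ LB H := by
  rintro ⟨k, G, h, -⟩
  have h1 : k * k = 1 * 1 := by
    rw [← enc_len G, ← h]
    rfl
  have h2 : k = 1 := Nat.mul_self_inj.1 h1
  subst h2
  have h3 : G.Adj 0 0 := (ment_enc G 0 0).1 (by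
    rw [← h]
    rfl)
  exact G.irrefl h3

theorem R2_val {n : ℕ} {H : SimpleGraph (Fin n)} {vT : List Bool} {tT : List ℕ}
    (hT : Tabs H vT tT) {N : ℕ} {x : List Bool}
    (hok : okL vT tT (onL (2 * (n * (n * n))) N x) = true) :
    ∀ c ∈ onL (2 * (n * (n * n))) N x, ∀ hc : c.1 < 2 * (n * (n * n)),
      ∃ a b, RH H ⟨c.1, hc⟩ a b := by
  intro c hcm hc
  unfold okL at hok
  rw [Bool.and_eq_true] at hok
  have h1 := List.all_eq_true.1 hok.1 c hcm
  exact (hT.val ⟨c.1, hc⟩).1 h1

theorem red_cset_lb {n : ℕ} (hn : 0 < n) {H : SimpleGraph (Fin n)} {K : Kit H} {P : Fin n → K.W}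
    (hB : Base K P) (hm : Multi H) : Red (CSet (RH H)) (LB H) := by
  haveI : Nonempty (Fin n) := ⟨⟨0, hn⟩⟩
  obtain ⟨vT, tT, hT⟩ := exists_tabs H
  obtain ⟨Rd, hRd, hE⟩ := fdef_red (K := K) hB.deg (hubR_fdef hB hm) (ℕ × (ℕ × (ℕ × ℕ)))
  have hM : 0 < 2 * (n * (n * n)) := by positivity
  have key : ∀ (N : ℕ) (x : List Bool), okL vT tT (onL (2 * (n * (n * n))) N x) = true →
      (Rd ((onL (2 * (n * (n * n))) N x).map (tupL (2 * (n * (n * n))))) ∈ LB H ↔
        ∃ a : Fin N → Fin n × Fin n, ∀ (s : Fin (2 * (n * (n * n)))) (i j : Fin N),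
          ient x N s i j = true → RH H s (a i) (a j)) := by
    intro N x hok
    obtain ⟨k, G, h1, h2⟩ := hE ((onL (2 * (n * (n * n))) N x).map (tupL (2 * (n * (n * n)))))
      (fun e he e' he' j j' h => okL_ty hT hok he he' h)
    rw [h1, enc_mem_lb, h2]
    exact sat_iff hn (R2_val hT hok)
  refine ⟨fun x => bif decide (2 * (n * (n * n)) * (isz (2 * (n * (n * n))) x.length *
      isz (2 * (n * (n * n))) x.length) = x.length) && okL vT tT (onL (2 * (n * (n * n)))
      (isz (2 * (n * (n * n))) x.length) x) then
      Rd ((onL (2 * (n * (n * n))) (isz (2 * (n * (n * n))) x.length) x).map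
        (tupL (2 * (n * (n * n))))) else [true], ?_, ?_⟩
  · rw [mem_FP_iff]
    have hlen : PT true (fun x : List Bool => x.length) := PT.length' PT.id'
    have hN : PT true (fun x : List Bool => isz (2 * (n * (n * n))) x.length) :=
      PT.isz' (2 * (n * (n * n))) hlen
    have hL : PT true (fun x : List Bool => onL (2 * (n * (n * n)))
        (isz (2 * (n * (n * n))) x.length) x) :=
      PT.onL' (2 * (n * (n * n))) hN PT.id'
    refine PT.cond (PT.and' (PT.decideEq (PT.mul' (PT.const' _) (PT.mul' hN hN)) hlen)
      (PT.okL' vT tT hL)) ?_ (PT.const' _)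
    apply hRd (List Bool) (fun x : List Bool => (onL (2 * (n * (n * n)))
      (isz (2 * (n * (n * n))) x.length) x).map (tupL (2 * (n * (n * n)))))
    exact PT.map' (f := fun z : List Bool × (ℕ × (ℕ × ℕ)) => tupL (2 * (n * (n * n))) z.2) hL
      (PT.tupL' (2 * (n * (n * n))) PT.snd)
  · intro x
    constructor
    · rintro ⟨N, c, rfl, a, ha⟩
      have hl := encI_len c
      have hN : isz (2 * (n * (n * n))) (encI c).length = N := by
        rw [hl]
        exact isz_eq hM N
      have hsat : ∀ (s : Fin (2 * (n * (n * n)))) (i j : Fin N), ient (encI c) N s i j = true →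
          RH H s (a i) (a j) := by
        intro s i j h
        rw [ient_encI] at h
        exact ha s i j h
      have hok := okL_of_sat hT hsat
      show (bif _ then _ else _) ∈ LB H
      rw [hN, hok, hl, decide_eq_true rfl, Bool.and_true, cond_true]
      exact (key N _ hok).2 ⟨a, hsat⟩
    · intro h
      by_cases hlen : 2 * (n * (n * n)) * (isz (2 * (n * (n * n))) x.length *
          isz (2 * (n * (n * n))) x.length) = x.length
      · by_cases hok : okL vT tT (onL (2 * (n * (n * n)))
            (isz (2 * (n * (n * n))) x.length) x) = true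
        · have h' : (bif decide (2 * (n * (n * n)) * (isz (2 * (n * (n * n))) x.length *
              isz (2 * (n * (n * n))) x.length) = x.length) && okL vT tT (onL (2 * (n * (n * n)))
              (isz (2 * (n * (n * n))) x.length) x) then
              Rd ((onL (2 * (n * (n * n))) (isz (2 * (n * (n * n))) x.length) x).map
                (tupL (2 * (n * (n * n))))) else [true]) ∈ LB H := h
          rw [hok, decide_eq_true hlen, Bool.and_true, cond_true] at h'
          obtain ⟨a, ha⟩ := (key _ x hok).1 h'
          exact ⟨_, fun s i j => ient x (isz (2 * (n * (n * n))) x.length) s i j,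
            encI_surj hlen.symm, a, ha⟩
        · exfalso
          have h' : (bif decide (2 * (n * (n * n)) * (isz (2 * (n * (n * n))) x.length *
              isz (2 * (n * (n * n))) x.length) = x.length) && okL vT tT (onL (2 * (n * (n * n)))
              (isz (2 * (n * (n * n))) x.length) x) then
              Rd ((onL (2 * (n * (n * n))) (isz (2 * (n * (n * n))) x.length) x).map
                (tupL (2 * (n * (n * n))))) else [true]) ∈ LB H := h
          rw [Bool.eq_false_of_not_eq_true hok, Bool.and_false, cond_false] at h'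
          exact R2_true H h'
      · exfalso
        have h' : (bif decide (2 * (n * (n * n)) * (isz (2 * (n * (n * n))) x.length *
            isz (2 * (n * (n * n))) x.length) = x.length) && okL vT tT (onL (2 * (n * (n * n)))
            (isz (2 * (n * (n * n))) x.length) x) then
            Rd ((onL (2 * (n * (n * n))) (isz (2 * (n * (n * n))) x.length) x).map
              (tupL (2 * (n * (n * n))))) else [true]) ∈ LB H := h
        rw [decide_eq_false hlen, Bool.false_and, cond_false] at h'
        exact R2_true H h'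

/-- if every vertex has neighbours in two classes, and the minimum degree is at least three, then
`H`-LBHOM is equivalent to the constraint satisfaction problem of the template `RH H` -/
theorem multi_csp {n : ℕ} (hn : 0 < n) {H : SimpleGraph (Fin n)} (hm : Multi H)
    (h3 : ∀ v, 3 ≤ (H.neighborSet v).ncard) : PolyEq (LB H) (CSet (RH H)) := by
  obtain ⟨K, P, hB⟩ := base_multi hm h3
  refine ⟨red_lb_cset hn H (fun v => ?_), red_cset_lb hn hB hm⟩
  have h1 : (H.neighborSet v).ncard ≠ 0 := by
    have := h3 v
    omega
  obtain ⟨c, hc⟩ := Set.nonempty_of_ncard_ne_zero h1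
  exact ⟨c, hc⟩

end Pool.Agent.H24.GE
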