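import Pool.Agent.H24.GE.FFin
import Pool.Agent.H24.GE.R2
import Pool.Agent.H24.GE.CspNP

/-!
# JOB GE-46: the classification for connected graphs of minimum degree at least three

`final_csp`: if `Multi H`: `multi_csp`. Otherwise there are `v, c` with `H.Adj v c` and `Sim H c' c` for all neighbours `c'` of
`v`, so `Lf H v` (`sim_trans`, `sim_symm`), and `HardH H` by `one_class_hard`. `Red (LB H) (CSet (RH H))`: `red_lb_cset`.
`Red (CSet (RH H)) (LB H)`: `cset_NP` (`0 < 2 * (n * (n * n))` as there is a vertex) and `HardH H` give `φ ∈ FP` with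
`φ x = enc G`, `x ∈ CSet (RH H) ↔ Covers G H`, and `enc_mem_lb`.
`final_npc`: `one_class_hard` and `mem_cover` (file `Pool.Agent.H24.GC.Memb`): see `npc_of_hard` in the file
`Pool.Agent.H24.GC.Final`.
-/

namespace Pool.Agent.H24.GE

open Pool.Agent.H24.GC Pool.Agent.H24.GD Pool.Agent.PPS Pool.Agent.H64.Cook Pool.Agent.H79.Thr

theorem final_csp {n : ℕ} {H : SimpleGraph (Fin n)} (hcon : H.Connected)
    (hd3 : ∀ v, 3 ≤ (H.neighborSet v).ncard) : PolyEq (LB H) (CSet (RH H)) := by
  have hn : 0 < n := by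
    obtain ⟨v⟩ := hcon.nonempty
    exact v.pos
  by_cases hm : Multi H
  · exact multi_csp hn hm hd3
  · unfold Multi at hm
    push Not at hm
    obtain ⟨v, c, hvc, h⟩ := hm
    have hLf : Lf H v := fun a b ha hb => sim_trans (h a ha) (sim_symm (h b hb))
    have hhard : HardH H := one_class_hard hcon hd3 ⟨v, hLf⟩
    refine ⟨red_lb_cset hn H (fun v => ?_), ?_⟩
    · have h1 : (H.neighborSet v).ncard ≠ 0 := by
        have := hd3 v
        omega
      obtain ⟨c, hc⟩ := Set.nonempty_of_ncard_ne_zero h1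
      exact ⟨c, hc⟩
    · obtain ⟨φ, hφ, h2⟩ := hhard _ (cset_NP (by positivity) (RH H))
      refine ⟨φ, hφ, fun x => ?_⟩
      obtain ⟨k, G, h3, h4⟩ := h2 x
      rw [h3, enc_mem_lb]
      exact h4

theorem final_npc {V : Type} [Finite V] {H : SimpleGraph V} (hcon : H.Connected)
    (hd3 : ∀ v, 3 ≤ (H.neighborSet v).ncard) (hLf : ∃ c, Lf H c) :
    NPComplete (fun _ G => Covers G H) :=
  ⟨mem_cover H, one_class_hard hcon hd3 hLf⟩

end Pool.Agent.H24.GE
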