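import Pool.Agent.H24.GD.KitAll

/-!
# JOB GE-1: lifts of a kit

Project GE (helper24), MP_cb20e7_lc, continues GC, GD: kits whose cuts are straight, for graphs with bridges.
`Vlt H Q`: permutations of `Q` attached to the types of the arcs of `H` (pairs of classes), with inverse
permutations attached to the reversed types. `liftG K T`, `liftK K T`: the lift of the kit; `(w, κ)` is adjacent to
`(w', κ')` iff `w, w'` are adjacent and `κ' = g (π w) (π w') κ`.

`liftG`: symmetric by `T.inv`, loopless as `K.gr` is. `liftK`: `cov`: the neighbours of `(w, κ)` are the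
`(w', g (π w) (π w') κ)`, `w'` a neighbour of `w` (`lift_cover` with `f = π`). `lift_cover`: a bijection between the
neighbours of `(w, κ)` and of `w`. `lift_univ`: take the cover of `Univ` for `K` and compose with `Prod.fst`
(`lift_cover`).
`prodV`: the product of voltages, componentwise.
-/

namespace Pool.Agent.H24.GE

open Pool.Agent.H24.GC Pool.Agent.H24.GD

variable {V : Type} {H : SimpleGraph V}

/-- permutations of `Q` attached to the types of arcs -/
structure Vlt (H : SimpleGraph V) (Q : Type) where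
  g : V → V → Equiv.Perm Q
  cls : ∀ x x' y y', Sim H x x' → Sim H y y' → g x y = g x' y'
  inv : ∀ x y, g y x = (g x y).symm

/-- the graph of the lift -/
def liftG (K : Kit H) {Q : Type} (T : Vlt H Q) : SimpleGraph (K.W × Q) where
  Adj a b := K.gr.Adj a.1 b.1 ∧ b.2 = T.g (K.π a.1) (K.π b.1) a.2
  symm := by
    refine ⟨fun a b h => ⟨h.1.symm, ?_⟩⟩
    rw [T.inv, h.2, Equiv.symm_apply_apply]
  loopless := by
    exact ⟨fun a h => h.1.ne rfl⟩

theorem lift_cover {K : Kit H} {Q : Type} (T : Vlt H Q) {f : K.W → V} (hf : IsCover K.gr H f) :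
    IsCover (liftG K T) H (fun a => f a.1) := by
  intro a
  refine ⟨?_, ?_, ?_⟩
  · intro b hb
    exact (hf a.1).mapsTo hb.1
  · intro b hb b' hb' he
    have h1 : b.1 = b'.1 := (hf a.1).injOn hb.1 hb'.1 he
    refine Prod.ext h1 ?_
    have h2 : b.2 = T.g (K.π a.1) (K.π b.1) a.2 := hb.2
    have h3 : b'.2 = T.g (K.π a.1) (K.π b'.1) a.2 := hb'.2
    rw [h2, h3, h1]
  · intro y hy
    obtain ⟨w', hw', he⟩ := (hf a.1).surjOn hy
    exact ⟨(w', T.g (K.π a.1) (K.π w') a.2), ⟨hw', rfl⟩, he⟩

/-- the lift of the kit -/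
def liftK (K : Kit H) {Q : Type} [Finite Q] (T : Vlt H Q) : Kit H where
  W := K.W × Q
  fin := inferInstance
  gr := liftG K T
  π a := K.π a.1
  cov := lift_cover T K.cov

theorem lift_univ {K : Kit H} {Q : Type} [Finite Q] (T : Vlt H Q) {p : K.W} (h : K.Univ p) (κ : Q) :
    (liftK K T).Univ (p, κ) := by
  intro x σ τ h1 h2 h3
  obtain ⟨f, hf, hx, hσ, hτ⟩ := h x σ τ h1 h2 h3
  refine ⟨fun a => f a.1, lift_cover T hf, hx, ?_, ?_⟩
  · intro u hu
    exact hσ u.1 hu.1
  · intro u v hu hv
    exact hτ u.1 v.1 hu.1 hv.1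

theorem lift_deg {K : Kit H} {Q : Type} [Finite Q] (T : Vlt H Q)
    (h : ∀ w : K.W, ∃ w', K.gr.Adj w w') (w : (liftK K T).W) :
    ∃ w', (liftK K T).gr.Adj w w' := by
  obtain ⟨w', hw'⟩ := h w.1
  exact ⟨(w', T.g (K.π w.1) (K.π w') w.2), hw', rfl⟩

/-- the product -/
def prodV {J : Type} {Q : J → Type} (T : ∀ j, Vlt H (Q j)) : Vlt H (∀ j, Q j) where
  g x y := Equiv.piCongrRight (fun j => (T j).g x y)
  cls := by
    intro x x' y y' h1 h2
    have h : (fun j => (T j).g x y) = fun j => (T j).g x' y' := by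
      funext j
      exact (T j).cls x x' y y' h1 h2
    rw [h]
  inv := by
    intro x y
    have h : (fun j => (T j).g y x) = fun j => ((T j).g x y).symm := by
      funext j
      exact (T j).inv x y
    rw [h]
    rfl

theorem prodV_g {J : Type} {Q : J → Type} (T : ∀ j, Vlt H (Q j)) (x y : V) (κ : ∀ j, Q j) (j : J) :
    (prodV T).g x y κ j = (T j).g x y (κ j) := rfl

end Pool.Agent.H24.GE
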