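import Pool.Agent.H24.GE.TW

/-!
# JOB GE-22: eventually periodic walks of classes

`Lf H c`: all neighbours of `c` are in one class. `Loll H w i j`: the walk of classes `w 0, w 1, ..., w j` never
turns back, and the type `(w j, ·)` can be continued by `w (i + 1)`: `w j ~ w i`, `w (j - 1)` is in the class of
neither `w (i + 1)` nor `w (i - 1)`.

`lf_congr`: `StepDef_nbr` (file `Pool.Agent.H24.GC.StepDef`). `live_congr`: replace `w 0`, `w 1` (`Function.update` or
`fun i => if i = 0 then ... `), `ca_left`, `ca_right`, `sim_trans`.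
`loll_of_live`: let `w` be the walk of `Live H x y`. `V` is finite, so there are `i < j` with `Sim (w i) (w j)` and
`Sim (w (i + 1)) (w (j + 1))` (pigeonhole for `i ↦ (w i, w (i + 1))`, `Finite.exists_ne_map_eq_of_infinite`); take such
a pair with the smallest `j` (`Nat.find`). `i + 3 ≤ j`: if `j = i + 1` then `w i ~ w (i + 1) ~ w (i + 2)`, if `j = i + 2`
then `w i ~ w (i + 2)`, both impossible. `rep`: clear. `nb1`: `w (j - 1) ~ w (i + 1) ~ w (j + 1)` is impossible.
`nb2`: if `s + 1 = i` and `w (j - 1) ~ w s` then `(s, j - 1)` is a smaller pair.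
`loll_of_closed`: clear (`i = 0`).
`leaf_next`: if `c ~ w 1` then `c` has neighbours in the classes of `w 0` and of `w 2` (`ca_left`, `ca_symm`), so
`w 0 ~ w 2`. If `i = 0` and `c ~ w (j - 1)` then `c` has neighbours in the classes of `w j` and of `w (j - 2)`, so
`w (j - 2) ~ w j`. Both contradict `nb`.
-/

namespace Pool.Agent.H24.GE

open Pool.Agent.H24.GC Pool.Agent.H24.GD

variable {V : Type} {H : SimpleGraph V}

/-- all neighbours of `c` are in one class -/
def Lf (H : SimpleGraph V) (c : V) : Prop := ∀ a b, H.Adj c a → H.Adj c b → Sim H a b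

/-- an eventually periodic walk of classes -/
structure Loll (H : SimpleGraph V) (w : ℕ → V) (i j : ℕ) : Prop where
  le : i + 3 ≤ j
  ca : ∀ s < j, CA H (w s) (w (s + 1))
  nb : ∀ s, s + 2 ≤ j → ¬ Sim H (w s) (w (s + 2))
  rep : Sim H (w j) (w i)
  nb1 : ¬ Sim H (w (j - 1)) (w (i + 1))
  nb2 : ∀ s, s + 1 = i → ¬ Sim H (w (j - 1)) (w s)

theorem lf_congr [Finite V] {c c' : V} (h : Lf H c) (hs : Sim H c c') : Lf H c' := by
  intro a b ha hb
  obtain ⟨a', h1, h2⟩ := StepDef_nbr hs ha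
  obtain ⟨b', h3, h4⟩ := StepDef_nbr hs hb
  exact sim_trans (sim_symm h2) (sim_trans (h a' b' h1 h3) h4)

theorem live_congr [Finite V] {x x' y y' : V} (h : Live H x y) (hx : Sim H x x')
    (hy : Sim H y y') : Live H x' y' := by
  obtain ⟨w, h0, h1, h2, h3⟩ := h
  obtain ⟨w', hw⟩ : ∃ w' : ℕ → V, w' = fun i => if i = 0 then x' else if i = 1 then y' else w i :=
    ⟨_, rfl⟩
  have e0 : w' 0 = x' := by rw [hw]; rfl
  have e1 : w' 1 = y' := by rw [hw]; rfl
  have e2 : ∀ i, w' (i + 2) = w (i + 2) := by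
    intro i
    rw [hw]
    show (if i + 2 = 0 then x' else if i + 2 = 1 then y' else w (i + 2)) = _
    rw [if_neg (by omega), if_neg (by omega)]
  have es : ∀ i, Sim H (w' i) (w i) := by
    intro i
    rcases i with _ | _ | i
    · rw [e0, h0]
      exact sim_symm hx
    · show Sim H (w' 1) (w 1)
      rw [e1, h1]
      exact sim_symm hy
    · show Sim H (w' (i + 2)) (w (i + 2))
      rw [e2]
      exact sim_refl H _
  refine ⟨w', e0, e1, fun i => ca_right (ca_left (h2 i) (es i)) (sim_symm (es (i + 1))),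
    fun i h => h3 i (sim_trans (sim_symm (es i)) (sim_trans h (es (i + 2))))⟩

theorem loll_of_live [Finite V] {x y : V} (h : Live H x y) :
    ∃ (w : ℕ → V) (i j : ℕ), w 0 = x ∧ w 1 = y ∧ Loll H w i j := by
  classical
  obtain ⟨w, h0, h1, h2, h3⟩ := h
  have hex : ∃ j, ∃ i, i < j ∧ Sim H (w i) (w j) ∧ Sim H (w (i + 1)) (w (j + 1)) := by
    obtain ⟨a, b, hab, he⟩ := Finite.exists_ne_map_eq_of_infinite
      (fun i : ℕ => (w i, w (i + 1)))
    have he1 : w a = w b := (Prod.ext_iff.1 he).1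
    have he2 : w (a + 1) = w (b + 1) := (Prod.ext_iff.1 he).2
    rcases lt_or_gt_of_ne hab with h | h
    · exact ⟨b, a, h, he1 ▸ sim_refl H _, he2 ▸ sim_refl H _⟩
    · exact ⟨a, b, h, he1 ▸ sim_refl H _, he2 ▸ sim_refl H _⟩
  obtain ⟨j, hj, hmin⟩ : ∃ j, (∃ i, i < j ∧ Sim H (w i) (w j) ∧ Sim H (w (i + 1)) (w (j + 1))) ∧
      ∀ m < j, ¬ ∃ i, i < m ∧ Sim H (w i) (w m) ∧ Sim H (w (i + 1)) (w (m + 1)) :=
    ⟨Nat.find hex, Nat.find_spec hex, fun m hm => Nat.find_min hex hm⟩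
  obtain ⟨i, hij, h4, h5⟩ := hj
  have hle : i + 3 ≤ j := by
    by_contra hlt
    have h6 : j = i + 1 ∨ j = i + 2 := by omega
    rcases h6 with h6 | h6
    · subst h6
      exact h3 i (sim_trans h4 h5)
    · subst h6
      exact h3 i h4
  refine ⟨w, i, j, h0, h1, hle, fun s _ => h2 s, fun s _ => h3 s, sim_symm h4, ?_, ?_⟩
  · intro h6
    obtain ⟨m, rfl⟩ : ∃ m, j = m + 1 := ⟨j - 1, by omega⟩
    exact h3 m (sim_trans h6 h5)
  · rintro s rfl h6
    refine hmin (j - 1) (by omega) ⟨s, by omega, sim_symm h6, ?_⟩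
    have h7 : j - 1 + 1 = j := by omega
    rw [h7]
    exact h4

theorem loll_of_closed [Finite V] {x y y' : V} (hne : ¬ Sim H y y') {l : ℕ} {w : ℕ → V}
    (hl : 3 ≤ l) (h0 : w 0 = x) (h1 : w 1 = y) (h2 : w (l - 1) = y') (h3 : w l = x)
    (h4 : ∀ i < l, CA H (w i) (w (i + 1)))
    (h5 : ∀ i, i + 2 ≤ l → ¬ Sim H (w i) (w (i + 2))) : Loll H w 0 l := by
  refine ⟨by omega, h4, h5, ?_, ?_, fun s hs => absurd hs (by omega)⟩
  · rw [h3, h0]
    exact sim_refl H _
  · rw [h2]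
    show ¬ Sim H y' (w 1)
    rw [h1]
    exact fun h => hne (sim_symm h)

theorem leaf_next [Finite V] {w : ℕ → V} {i j : ℕ} (h : Loll H w i j) {c : V} (hc : Lf H c) :
    ¬ Sim H c (w 1) ∧ (i = 0 → ¬ Sim H c (w (j - 1))) := by
  have key : ∀ s, s + 2 ≤ j → ¬ Sim H c (w (s + 1)) := by
    intro s hs h1
    obtain ⟨a, ha, ha'⟩ := ca_left (ca_symm (h.ca s (by omega))) h1
    obtain ⟨b, hb, hb'⟩ := ca_left (h.ca (s + 1) (by omega)) h1
    exact h.nb s hs (sim_trans (sim_symm ha') (sim_trans (hc a b ha hb) hb'))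
  have hle := h.le
  refine ⟨key 0 (by omega), fun _ => ?_⟩
  have h1 := key (j - 2) (by omega)
  have h2 : j - 2 + 1 = j - 1 := by omega
  rwa [h2] at h1

end Pool.Agent.H24.GE
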