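import Pool.Agent.H24.GE.Unit
import Pool.Agent.H24.GE.Compl
import Pool.Agent.H24.GE.Lift

/-!
# JOB GE-24: the lift for a vertex with a leaf class

`NArr H T d ch κD κc tt`: the position `κD` belongs to the class of `d`, its children `κc c` to the leaf classes
`ch c`. `tt` is a set of neighbours such that (`st`) every function `n` on the points which is constant along
the steps which avoid `κD` and its children has the same value at all points `(v, ·)`, `v` in a fixed class in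
`tt`, adjacent to a point `(y, κD)`, for all `y` which are neighbours of a vertex `x` of a child.

`exists_narr`. Let `R = unitPer h ch hca`, `m₀` from `stab R`, `P` the subtype of `win U (-(m₀ + 1)) (m₀ + 1)`
(`U = Fin j ⊕ Ch`; finite: it is the product of a finite interval and the finite `U`), `cl`, `Sg` the restrictions of
`R.clz`, `R.Sg`; `exists_vlt` (with `unit_hs`, `unit_hn`, `unit_hu`) gives `T`. `κD = (0, inl 0)`,
`κc c = (0, inr c)`, `tt v = (Sim H v (w 1) ∨ (i = 0 ∧ Sim H v (w (j - 1))))`.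
`c1`: property of `T` for the neighbouring positions `κc c`, `κD`. `t1`: `T.g y v κD` is `(0, inl 1)` or, if `i = 0`
and `v ~ w (j - 1)`, `(-1, inl (j - 1))`. `cd`: `ch c ~ w 0` would give (`CA (w 0) (ch c)`, `lf_congr`) that all
neighbours of `w 0` are similar to `ch c ~ w 0`, so `w 1 ~ w 0`, and then `w 2` is in the class of a neighbour of
`w 1 ~ w 0`, so `w 2 ~ w 0`, contradiction to `nb`. `lf`: `x` has a neighbour in the class of `w 0` (`ca_symm`,
`ca_left`), and `Lf`. `tc`: `leaf_next`. `tS`: clear.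
`st`: let `Sim H v (w 1)`. Put `κ = T.g y v κD = (0, inl 1) = T.g y' v' κD`. The points `(v, (0, inl 1))`,
`(v', (0, inl 1))` are connected over `win 0 (m₀ + 1)`: via `(y, (0, inl 0))`, `(x, (0, inr c))`,
`(y', (0, inl 0))`. By `stab` (`a = 0`, `b = m₀ + 1`, `c = 1`, `X = rwin j Ch (m₀ + 1)`, `unit_right`) they are
connected over `X`. `n` is constant along every step over `X` (positions in `X` are in `P` and different from
`κD`, `κc c`; property of `T`). Induction (`Relation.ReflTransGen`) gives `n v κ = n v' κ`. If `i = 0` and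
`Sim H v (w (j - 1))`: the same with `(-1, inl (j - 1))`, `a = -(m₀ + 1)`, `b = 0`, `c = -(m₀ + 1)`,
`X = win (-(m₀ + 1)) (-1)` (`unit_win`).
-/

namespace Pool.Agent.H24.GE

open Pool.Agent.H24.GC Pool.Agent.H24.GD

variable {V : Type} {H : SimpleGraph V}

/-- a lift for the vertex `d` and its leaf neighbours `ch c` -/
structure NArr (H : SimpleGraph V) {Q : Type} (T : Vlt H Q) (d : V) {Ch : Type} (ch : Ch → V)
    (κD : Q) (κc : Ch → Q) (tt : V → Prop) : Prop where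
  c1 : ∀ c x y, Sim H x (ch c) → Sim H y d → T.g x y (κc c) = κD
  t1 : ∀ y v, Sim H y d → tt v → T.g y v κD ≠ κD
  cd : ∀ c, ¬ Sim H (ch c) d
  lf : ∀ c x y, Sim H x (ch c) → H.Adj x y → Sim H y d
  tc : ∀ c v, tt v → ¬ Sim H v (ch c)
  tS : ∀ v v', tt v → Sim H v v' → tt v'
  st : ∀ n : V → Q → ℤ,
    (∀ u v κ, H.Adj u v → κ ≠ κD → (∀ c, κ ≠ κc c) → T.g u v κ ≠ κD →
      (∀ c, T.g u v κ ≠ κc c) → n u κ = n v (T.g u v κ)) →
    ∀ c x y y' v v', Sim H x (ch c) → H.Adj x y → H.Adj x y' → H.Adj y v → H.Adj y' v' →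
      tt v → Sim H v v' → n v (T.g y v κD) = n v' (T.g y' v' κD)

theorem NStar_cd [Finite V] {w : ℕ → V} {i j : ℕ} (h : Loll H w i j) {c : V}
    (hca : CA H (w 0) c) (hlf : Lf H c) : ¬ Sim H c (w 0) := by
  intro hs
  have hj := h.le
  have hl : Lf H (w 0) := lf_congr hlf hs
  obtain ⟨y, hy, hyc⟩ := hca
  obtain ⟨z, hz, hz1⟩ := h.ca 0 (by omega)
  have h10 : Sim H (w 1) (w 0) :=
    sim_trans (sim_symm hz1) (sim_trans (hl z y hz hy) (sim_trans hyc hs))
  obtain ⟨z', hz', hz2⟩ := ca_left (h.ca 1 (by omega)) (sim_symm h10)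
  have h02 : Sim H (w 0) (w 2) :=
    sim_trans (sim_symm h10) (sim_trans (sim_symm hz1) (sim_trans (hl z z' hz hz') hz2))
  exact h.nb 0 (by omega) h02

theorem NStar_lf [Finite V] {w : ℕ → V} {c x y : V}
    (hca : CA H (w 0) c) (hlf : Lf H c) (hx : Sim H x c) (hxy : H.Adj x y) : Sim H y (w 0) := by
  obtain ⟨z, hz, hz0⟩ := ca_left (ca_symm hca) hx
  exact sim_trans (lf_congr hlf (sim_symm hx) y z hxy hz) hz0

/-- functions on the points over positions which are different from `κD` and its children -/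
theorem NStar_key {U : Type} (R : Per H U) {W : Set (ℤ × U)} (T : Vlt H {q // q ∈ W})
    (hT : ∀ (p q : {q // q ∈ W}) (x y : V), R.Sg p.1 q.1 → Sim H x (R.clz p.1) →
      Sim H y (R.clz q.1) → T.g x y p = q)
    {κD : {q // q ∈ W}} {Ch : Type} {κc : Ch → {q // q ∈ W}} {n : V → {q // q ∈ W} → ℤ}
    (hn : ∀ u v κ, H.Adj u v → κ ≠ κD → (∀ c, κ ≠ κc c) → T.g u v κ ≠ κD →
      (∀ c, T.g u v κ ≠ κc c) → n u κ = n v (T.g u v κ)) {X : Set (ℤ × U)}
    (hX : ∀ q ∈ X, q ∈ W ∧ q ≠ κD.1 ∧ ∀ c, q ≠ (κc c).1) {s t : V × (ℤ × U)}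
    (h : Cn H R.clz R.Sg X s t) (hs : s.2 ∈ W) (ht : t.2 ∈ W) :
    n s.1 ⟨s.2, hs⟩ = n t.1 ⟨t.2, ht⟩ := by
  classical
  let F : V × (ℤ × U) → ℤ := fun s => if h : s.2 ∈ W then n s.1 ⟨s.2, h⟩ else 0
  have hF : ∀ (s : V × (ℤ × U)) (h : s.2 ∈ W), F s = n s.1 ⟨s.2, h⟩ := fun s h => dif_pos h
  have hst : ∀ a b, Stp H R.clz R.Sg X a b → F a = F b := by
    rintro a b ⟨h1, h2, h3, h4, h5, h6⟩
    obtain ⟨ha, ha1, ha2⟩ := hX _ h1
    obtain ⟨hb, hb1, hb2⟩ := hX _ h2
    rw [hF a ha, hF b hb]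
    have h7 : T.g a.1 b.1 ⟨a.2, ha⟩ = ⟨b.2, hb⟩ := hT ⟨a.2, ha⟩ ⟨b.2, hb⟩ a.1 b.1 h3 h5 h6
    have h8 := hn a.1 b.1 ⟨a.2, ha⟩ h4 (fun h => ha1 (congrArg Subtype.val h))
      (fun c h => ha2 c (congrArg Subtype.val h))
      (by rw [h7]; exact fun h => hb1 (congrArg Subtype.val h))
      (by rw [h7]; exact fun c h => hb2 c (congrArg Subtype.val h))
    rw [h8, h7]
  rw [← hF s hs, ← hF t ht]
  clear hs ht
  induction h with
  | refl => rfl
  | tail _ h1 ih => rw [ih, hst _ _ h1]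

/-- the path through the child -/
theorem NStar_path {U : Type} (R : Per H U) {X : Set (ℤ × U)} {d e f : ℤ × U}
    (hd : d ∈ X) (he : e ∈ X) (hf : f ∈ X) (h1 : R.Sg d f) (h2 : R.Sg d e)
    {x y y' v v' : V} (hx : Sim H x (R.clz e)) (hy : Sim H y (R.clz d)) (hy' : Sim H y' (R.clz d))
    (hv : Sim H v (R.clz f)) (hv' : Sim H v' (R.clz f)) (a1 : H.Adj x y) (a2 : H.Adj x y')
    (a3 : H.Adj y v) (a4 : H.Adj y' v') : Cn H R.clz R.Sg X (v, f) (v', f) := by
  refine Relation.ReflTransGen.head (b := (y, d)) ?_ (Relation.ReflTransGen.head (b := (x, e)) ?_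
    (Relation.ReflTransGen.head (b := (y', d)) ?_ (Relation.ReflTransGen.single ?_)))
  · exact ⟨hf, hd, stab_Sg_symm R h1, a3.symm, hv, hy⟩
  · exact ⟨hd, he, h2, a1.symm, hy, hx⟩
  · exact ⟨he, hd, stab_Sg_symm R h2, a2, hx, hy'⟩
  · exact ⟨hd, hf, h1, a4, hy', hv'⟩

theorem exists_narr [Finite V] {w : ℕ → V} {i j : ℕ} (h : Loll H w i j) {Ch : Type} [Finite Ch]
    (ch : Ch → V) (hca : ∀ c, CA H (w 0) (ch c)) (hinj : ∀ c c', Sim H (ch c) (ch c') → c = c')
    (hlf : ∀ c, Lf H (ch c)) :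
    ∃ (Q : Type) (_ : Finite Q) (T : Vlt H Q) (κD : Q) (κc : Ch → Q),
      NArr H T (w 0) ch κD κc (fun v => Sim H v (w 1) ∨ (i = 0 ∧ Sim H v (w (j - 1)))) := by
  have hj : i + 3 ≤ j := h.le
  obtain ⟨m₀, hst⟩ := stab (unitPer h ch hca)
  obtain ⟨W, hW⟩ : ∃ W, W = win (Fin j ⊕ Ch) (-((m₀ : ℤ) + 1)) ((m₀ : ℤ) + 1) := ⟨_, rfl⟩
  have hWf : Finite {q // q ∈ W} := by
    rw [hW]
    exact (stab_winfin (Fin j ⊕ Ch) _ _).to_subtype
  have hmem : ∀ q : ℤ × (Fin j ⊕ Ch), -((m₀ : ℤ) + 1) ≤ q.1 → q.1 ≤ (m₀ : ℤ) + 1 → q ∈ W := by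
    intro q h1 h2
    rw [hW]
    exact ⟨h1, h2⟩
  obtain ⟨T, hT⟩ := exists_vlt (H := H) (P := {q // q ∈ W})
    (fun p => (unitPer h ch hca).clz p.1) (fun p q => (unitPer h ch hca).Sg p.1 q.1)
    (fun p q hpq => unit_hs h ch hca p.1 q.1 hpq) (fun p => unit_hn h ch hca p.1)
    (fun p q r hq hr hs => Subtype.ext (unit_hu h ch hca hinj hlf p.1 q.1 r.1 hq hr hs))
  -- the positions
  obtain ⟨d, hd⟩ : ∃ d : ℤ × (Fin j ⊕ Ch), d = (0, Sum.inl ⟨0, by omega⟩) := ⟨_, rfl⟩
  obtain ⟨e, he⟩ : ∃ e : Ch → ℤ × (Fin j ⊕ Ch), e = fun c => (0, Sum.inr c) := ⟨_, rfl⟩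
  obtain ⟨f, hf⟩ : ∃ f : ℤ × (Fin j ⊕ Ch), f = (0, Sum.inl ⟨1, by omega⟩) := ⟨_, rfl⟩
  obtain ⟨g, hg⟩ : ∃ g : ℤ × (Fin j ⊕ Ch), g = (-1, Sum.inl ⟨j - 1, by omega⟩) := ⟨_, rfl⟩
  have dW : d ∈ W := hmem _ (by rw [hd]; simp only; omega) (by rw [hd]; simp only; omega)
  have eW : ∀ c, e c ∈ W := fun c =>
    hmem _ (by rw [he]; simp only; omega) (by rw [he]; simp only; omega)
  have fW : f ∈ W := hmem _ (by rw [hf]; simp only; omega) (by rw [hf]; simp only; omega)
  have gW : g ∈ W := hmem _ (by rw [hg]; simp only; omega) (by rw [hg]; simp only; omega)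
  have cld : (unitPer h ch hca).clz d = w 0 := by rw [hd]; rfl
  have cle : ∀ c, (unitPer h ch hca).clz (e c) = ch c := fun c => by rw [he]; rfl
  have clf : (unitPer h ch hca).clz f = w 1 := by rw [hf]; rfl
  have clg : (unitPer h ch hca).clz g = w (j - 1) := by rw [hg]; rfl
  have Sde : ∀ c, (unitPer h ch hca).Sg d (e c) := fun c => by
    rw [hd, he]
    exact Or.inl ⟨rfl, rfl⟩
  have Sdf : (unitPer h ch hca).Sg d f := by
    rw [hd, hf]
    exact Or.inl ⟨rfl, Or.inl rfl⟩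
  have Sdg : i = 0 → (unitPer h ch hca).Sg d g := fun hi => by
    rw [hd, hg]
    exact Or.inr (Or.inr ⟨by norm_num, rfl, congrArg Sum.inl (Fin.ext hi.symm)⟩)
  have nfd : f ≠ d := by
    rw [hf, hd]
    intro h1
    have h2 := Fin.mk.inj (Sum.inl.inj (Prod.mk.inj h1).2)
    omega
  have ngd : g ≠ d := by
    rw [hg, hd]
    intro h1
    have h2 := (Prod.mk.inj h1).1
    omega
  have gf : ∀ y v, Sim H y (w 0) → Sim H v (w 1) → T.g y v ⟨d, dW⟩ = ⟨f, fW⟩ := fun y v hy hv =>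
    hT ⟨d, dW⟩ ⟨f, fW⟩ y v Sdf (by rw [cld]; exact hy) (by rw [clf]; exact hv)
  have gg : i = 0 → ∀ y v, Sim H y (w 0) → Sim H v (w (j - 1)) →
      T.g y v ⟨d, dW⟩ = ⟨g, gW⟩ := fun hi y v hy hv =>
    hT ⟨d, dW⟩ ⟨g, gW⟩ y v (Sdg hi) (by rw [cld]; exact hy) (by rw [clg]; exact hv)
  refine ⟨{q // q ∈ W}, hWf, T, ⟨d, dW⟩, fun c => ⟨e c, eW c⟩, ?_, ?_, ?_, ?_, ?_, ?_, ?_⟩
  · intro c x y hx hy
    exact hT ⟨e c, eW c⟩ ⟨d, dW⟩ x y (stab_Sg_symm _ (Sde c)) (by rw [cle]; exact hx)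
      (by rw [cld]; exact hy)
  · rintro y v hy (hv | ⟨hi, hv⟩)
    · rw [gf y v hy hv]
      exact fun h1 => nfd (congrArg Subtype.val h1)
    · rw [gg hi y v hy hv]
      exact fun h1 => ngd (congrArg Subtype.val h1)
  · intro c
    exact NStar_cd h (hca c) (hlf c)
  · intro c x y hx hxy
    exact NStar_lf (hca c) (hlf c) hx hxy
  · rintro c v (hv | ⟨hi, hv⟩) hs
    · exact (leaf_next h (hlf c)).1 (sim_trans (sim_symm hs) hv)
    · exact (leaf_next h (hlf c)).2 hi (sim_trans (sim_symm hs) hv)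
  · rintro v v' (hv | ⟨hi, hv⟩) hs
    · exact Or.inl (sim_trans (sim_symm hs) hv)
    · exact Or.inr ⟨hi, sim_trans (sim_symm hs) hv⟩
  · intro n hn c x y y' v v' hx hxy hxy' hyv hyv' htt hvv
    have hy : Sim H y (w 0) := NStar_lf (hca c) (hlf c) hx hxy
    have hy' : Sim H y' (w 0) := NStar_lf (hca c) (hlf c) hx hxy'
    rcases htt with hv | ⟨hi, hv⟩
    · have hv' : Sim H v' (w 1) := sim_trans (sim_symm hvv) hv
      rw [gf y v hy hv, gf y' v' hy' hv']
      have hp : Cn H (unitPer h ch hca).clz (unitPer h ch hca).Sg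
          (win (Fin j ⊕ Ch) 0 ((m₀ : ℤ) + 1)) (v, f) (v', f) := by
        refine NStar_path (unitPer h ch hca) (d := d) (e := e c) ?_ ?_ ?_ Sdf (Sde c) (x := x)
          (y := y) (y' := y') (by rw [cle]; exact hx) (by rw [cld]; exact hy)
          (by rw [cld]; exact hy') (by rw [clf]; exact hv) (by rw [clf]; exact hv') hxy hxy'
          hyv hyv'
        · rw [hd]
          exact ⟨by simp only; omega, by simp only; omega⟩
        · rw [he]
          exact ⟨by simp only; omega, by simp only; omega⟩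
        · rw [hf]
          exact ⟨by simp only; omega, by simp only; omega⟩
      have fX : f ∈ rwin j Ch ((m₀ : ℤ) + 1) := by
        rw [hf]
        exact ⟨by simp only; omega, by simp only; omega, fun _ => ⟨⟨1, by omega⟩, rfl, by simp⟩⟩
      have hc := hst 0 ((m₀ : ℤ) + 1) 1 (rwin j Ch ((m₀ : ℤ) + 1)) (by omega) (by omega)
        (fun q hq => ⟨hq.1, hq.2.1⟩)
        (fun q hq => ⟨by have := hq.1; omega, by have := hq.2; omega,
          fun h0 => by have := hq.1; omega⟩)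
        (fun p hp q hq => unit_right h ch hca _ p q hp hq) (v, f) (v', f) fX fX (by rw [clf]; exact hv)
        (by rw [clf]; exact hv') hp
      refine NStar_key (unitPer h ch hca) T hT hn ?_ hc fW fW
      intro q hq
      refine ⟨hmem q (by have := hq.1; omega) hq.2.1, ?_, ?_⟩
      · show q ≠ d
        rintro rfl
        obtain ⟨s, hs1, hs2⟩ := hq.2.2 (by rw [hd])
        rw [hd] at hs1
        have h2 := Sum.inl.inj hs1
        rw [← h2] at hs2
        exact hs2 rfl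
      · intro c'
        show q ≠ e c'
        rintro rfl
        obtain ⟨s, hs1, -⟩ := hq.2.2 (by rw [he])
        rw [he] at hs1
        exact absurd hs1 (by simp)
    · have hv' : Sim H v' (w (j - 1)) := sim_trans (sim_symm hvv) hv
      rw [gg hi y v hy hv, gg hi y' v' hy' hv']
      have hp : Cn H (unitPer h ch hca).clz (unitPer h ch hca).Sg
          (win (Fin j ⊕ Ch) (-((m₀ : ℤ) + 1)) 0) (v, g) (v', g) := by
        refine NStar_path (unitPer h ch hca) (d := d) (e := e c) ?_ ?_ ?_ (Sdg hi) (Sde c) (x := x)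
          (y := y) (y' := y') (by rw [cle]; exact hx) (by rw [cld]; exact hy)
          (by rw [cld]; exact hy') (by rw [clg]; exact hv) (by rw [clg]; exact hv') hxy hxy'
          hyv hyv'
        · rw [hd]
          exact ⟨by simp only; omega, by simp only; omega⟩
        · rw [he]
          exact ⟨by simp only; omega, by simp only; omega⟩
        · rw [hg]
          exact ⟨by simp only; omega, by simp only; omega⟩
      have gX : g ∈ win (Fin j ⊕ Ch) (-((m₀ : ℤ) + 1)) (-1) := by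
        rw [hg]
        exact ⟨by simp only; omega, by simp only; omega⟩
      have hc := hst (-((m₀ : ℤ) + 1)) 0 (-((m₀ : ℤ) + 1)) (win (Fin j ⊕ Ch) (-((m₀ : ℤ) + 1)) (-1))
        (by omega) (by omega)
        (fun q hq => ⟨hq.1, by have := hq.2; omega⟩)
        (fun q hq => ⟨hq.1, by have := hq.2; omega⟩)
        (fun p hp q hq => unit_win h ch hca _ _ p q hp hq) (v, g) (v', g) gX gX (by rw [clg]; exact hv)
        (by rw [clg]; exact hv') hp
      refine NStar_key (unitPer h ch hca) T hT hn ?_ hc gW gW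
      intro q hq
      have hq1 := hq.1
      have hq2 := hq.2
      refine ⟨hmem q hq1 (by omega), ?_, ?_⟩
      · show q ≠ d
        rintro rfl
        rw [hd] at hq2
        simp at hq2
      · intro c'
        show q ≠ e c'
        rintro rfl
        rw [he] at hq2
        simp at hq2

end Pool.Agent.H24.GE
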