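import Pool.Agent.H24.GE.Lift
import Pool.Agent.H24.GC.Count

/-!
# JOB GE-2: counting the labels over a point of the lift

Let `f, φ` be a partial cover of the lift `liftK K T`, cut at the arcs `(b, u i)`, `b = (p, κ₀)`. `nq f x κ` is the
number of the vertices over `κ` with the label `x`; `dq f φ b u x y` is the defect.

Let `x y` be adjacent, `κ : Q`, `κ' = T.g x y κ`. Let `A` be the set of the pairs `(w, w')` of adjacent vertices of
the lift with `w.2 = κ`, `f w = x`, `φ w w' = y`, and `B` the set of the pairs of adjacent vertices with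
`w'.2 = κ'`, `f w' = y`, `φ w' w = x`.
(1) `A.ncard = nq f x κ`: every `w` over `κ` with `f w = x` has exactly one neighbour `w'` with `φ w w' = y`
(`h.bij w`). In the same way `B.ncard = nq f y κ'`.
(2) `(w, w') ∈ A` implies `w'.2 = κ'` as `π w ~ f w = x`, `π w' ~ φ w w' = y` (`simf`, `simp`, `T.cls`); `(w, w') ∈ B`
implies `w.2 = κ` (`T.inv`).
(3) If neither `(w, w')` nor `(w', w)` is a cut arc then `φ w w' = f w'`, `φ w' w = f w` (`unc`), so
`(w, w') ∈ A ↔ (w, w') ∈ B`.
(4) If `(w, w') = (u i, b)` is in `A` or in `B` then `κ' = w'.2 = κ₀` and `y ~ π b = K.π p` (and `x ~ π (u i)`,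
`κ = (u i).2`). If `(w, w') = (b, u i)` is in `A` or `B` then `κ = κ₀`, `x ~ K.π p`, `y ~ π (u i)`.
`pot_at`: by the hypothesis `h2` the pairs `(u i, b)` are in neither set. `(b, u i) ∈ A` iff
`(f b, φ b (u i)) = (x, y)`, `(b, u i) ∈ B` iff `(φ (u i) b, f (u i)) = (x, y)` (for the other conditions use (2),
(4)). So `A.ncard - B.ncard` is the defect (`hinj`: the pairs `(b, u i)` are different).
`pot_off`: no cut pair is in `A` or `B`. `pot_type`: the same: if `(b, u i)` is in `A` or `B` then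
`y ~ π (u i)`, excluded by `hno`; if `(u i, b)` is in `A` or `B` then `y ~ K.π p ~ x ~ π (u i)`, excluded too.
-/

namespace Pool.Agent.H24.GE

open Pool.Agent.H24.GC Pool.Agent.H24.GD

variable {V : Type} {H : SimpleGraph V}

/-- the number of vertices over `κ` with the label `x` -/
noncomputable def nq {W Q : Type} (f : W × Q → V) (x : V) (κ : Q) : ℤ :=
  ({w : W | f (w, κ) = x}.ncard : ℤ)

open Classical in
/-- the defect -/
noncomputable def dq {W ι : Type} [Fintype ι] (f : W → V) (φ : W → W → V) (b : W) (u : ι → W)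
    (x y : V) : ℤ :=
  ∑ i, ((if (f b, φ b (u i)) = (x, y) then 1 else 0) -
    (if (φ (u i) b, f (u i)) = (x, y) then 1 else 0))

open Classical in
theorem Pot_ncard {W : Type} [Fintype W] (P : W → Prop) :
    ({w | P w}.ncard : ℤ) = ∑ w : W, if P w then (1 : ℤ) else 0 := by
  rw [Finset.sum_boole, Set.ncard_eq_toFinset_card']
  congr 2
  ext w
  simp

open Classical in
/-- the contribution of a dart -/
noncomputable def PotE {W : Type} (g : SimpleGraph W) (f : W → V) (φ : W → W → V)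
    (x y : V) (e : W × W) : ℤ :=
  (if g.Adj e.1 e.2 ∧ f e.1 = x ∧ φ e.1 e.2 = y then 1 else 0) -
    (if g.Adj e.1 e.2 ∧ f e.2 = y ∧ φ e.2 e.1 = x then 1 else 0)

open Classical in
theorem Pot_fibre {W : Type} [Fintype W] {g : SimpleGraph W} {π : W → V}
    {cut : W → W → Prop} {f : W → V} {φ : W → W → V} (h : PCov H g π cut f φ) {x y : V}
    (hxy : H.Adj x y) (s : W → Prop) :
    ({w | s w ∧ f w = x}.ncard : ℤ) = ∑ e : W × W,
      if s e.1 then (if g.Adj e.1 e.2 ∧ f e.1 = x ∧ φ e.1 e.2 = y then (1 : ℤ) else 0) else 0 := by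
  rw [Pot_ncard, Fintype.sum_prod_type]
  refine Finset.sum_congr rfl fun w _ => ?_
  by_cases hs : s w
  · simp only [hs, true_and, if_true]
    by_cases hx : f w = x
    · simp only [hx, true_and, if_true]
      have h1 : y ∈ H.neighborSet (f w) := by
        rw [hx]
        exact hxy
      obtain ⟨w', hw', hy⟩ := (h.bij w).surjOn h1
      rw [Finset.sum_eq_single w']
      · rw [if_pos ⟨hw', hy⟩]
      · intro w'' _ hne
        rw [if_neg]
        rintro ⟨hadj, hy'⟩
        exact hne ((h.bij w).injOn hadj hw' (hy'.trans hy.symm))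
      · intro hn
        exact absurd (Finset.mem_univ _) hn
    · simp only [hx, false_and, and_false, if_false, Finset.sum_const_zero]
  · simp only [hs, false_and, if_false, Finset.sum_const_zero]

theorem Pot_unc {W : Type} {g : SimpleGraph W} {π : W → V}
    {cut : W → W → Prop} {f : W → V} {φ : W → W → V} (h : PCov H g π cut f φ) (x y : V)
    (e : W × W) (h1 : ¬ cut e.1 e.2) (h2 : ¬ cut e.2 e.1) : PotE g f φ x y e = 0 := by
  unfold PotE
  by_cases hadj : g.Adj e.1 e.2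
  · rw [h.unc _ _ hadj h1 h2, h.unc _ _ hadj.symm h2 h1]
    by_cases ha : f e.1 = x <;> by_cases hb : f e.2 = y <;> simp [hadj, ha, hb]
  · simp only [hadj, false_and, if_false, sub_self]

theorem Pot_nq {W Q : Type} (f : W × Q → V) (x : V) (κ : Q) :
    nq f x κ = ({w : W × Q | w.2 = κ ∧ f w = x}.ncard : ℤ) := by
  unfold nq
  congr 1
  have h1 : {w : W × Q | w.2 = κ ∧ f w = x} = (fun w : W => (w, κ)) '' {w : W | f (w, κ) = x} := by
    ext w
    obtain ⟨w, q⟩ := w
    constructor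
    · rintro ⟨h1, h2⟩
      have h1' : q = κ := h1
      subst h1'
      exact ⟨w, h2, rfl⟩
    · rintro ⟨w', h1, h2⟩
      have h3 : w' = w := congrArg Prod.fst h2
      have h4 : κ = q := congrArg Prod.snd h2
      subst h3
      subst h4
      exact ⟨rfl, h1⟩
  rw [h1, Set.ncard_image_of_injective]
  intro a b hab
  exact congrArg Prod.fst hab

theorem Pot_sum {W ι : Type} [Fintype W] [Fintype ι] {b : W} {u : ι → W}
    (hb : ∀ i, b ≠ u i) (hinj : Function.Injective u) (F : W × W → ℤ)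
    (hF : ∀ e, (∀ i, e ≠ (b, u i)) → (∀ i, e ≠ (u i, b)) → F e = 0) :
    ∑ e, F e = ∑ i, F (b, u i) + ∑ i, F (u i, b) := by
  have h1 := Fintype.sum_of_injective
    (Sum.elim (fun i : ι => (b, u i)) (fun i : ι => (u i, b))) (by
      rintro (i | i) (j | j) hij
      · have h2 : (b, u i) = (b, u j) := hij
        have h3 : u i = u j := congrArg Prod.snd h2
        rw [hinj h3]
      · have h2 : (b, u i) = (u j, b) := hij
        exact absurd (congrArg Prod.fst h2) (hb j)
      · have h2 : (u i, b) = (b, u j) := hij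
        exact absurd (congrArg Prod.fst h2).symm (hb i)
      · have h2 : (u i, b) = (u j, b) := hij
        have h3 : u i = u j := congrArg Prod.fst h2
        rw [hinj h3])
    (fun s => F (Sum.elim (fun i : ι => (b, u i)) (fun i : ι => (u i, b)) s)) F (by
      intro e he
      refine hF e (fun i hi => he ⟨Sum.inl i, hi.symm⟩) (fun i hi => he ⟨Sum.inr i, hi.symm⟩))
    (fun _ => rfl)
  rw [← h1, Fintype.sum_sum_type]
  rfl

section

variable [Finite V] {K : Kit H} {Q : Type} [Finite Q] {T : Vlt H Q} {ι : Type} [Fintype ι]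
  {p : K.W} {κ₀ : Q} {u : ι → K.W × Q} {cut : K.W × Q → K.W × Q → Prop} {f : K.W × Q → V}
  {φ : K.W × Q → K.W × Q → V}

omit [Finite Q] in
/-- the fibre coordinates of an arc with the types `x, y` -/
theorem Pot_fib {x y : V} {w w' : K.W × Q} (hadj : (liftG K T).Adj w w')
    (hx : Sim H x (K.π w.1)) (hy : Sim H y (K.π w'.1)) : w'.2 = T.g x y w.2 := by
  rw [T.cls x (K.π w.1) y (K.π w'.1) hx hy]
  exact hadj.2

open Classical in
theorem Pot_diff [Fintype K.W] [Fintype Q]
    (h : PCov H (liftG K T) (fun a => K.π a.1) cut f φ) {x y : V} (hxy : H.Adj x y) (κ : Q) :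
    nq f x κ - nq f y (T.g x y κ) = ∑ e : (K.W × Q) × (K.W × Q),
      if e.1.2 = κ then PotE (liftG K T) f φ x y e else 0 := by
  rw [Pot_nq, Pot_nq, Pot_fibre h hxy (fun w => w.2 = κ),
    Pot_fibre h hxy.symm (fun w => w.2 = T.g x y κ)]
  rw [← Equiv.sum_comp (Equiv.prodComm (K.W × Q) (K.W × Q)) (fun e : (K.W × Q) × (K.W × Q) =>
    if e.1.2 = T.g x y κ then
      (if (liftG K T).Adj e.1 e.2 ∧ f e.1 = y ∧ φ e.1 e.2 = x then (1 : ℤ) else 0) else 0)]
  rw [← Finset.sum_sub_distrib]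
  refine Finset.sum_congr rfl fun e _ => ?_
  simp only [Equiv.prodComm_apply, Prod.fst_swap, Prod.snd_swap, PotE]
  by_cases hadj : (liftG K T).Adj e.1 e.2
  · by_cases hc : f e.2 = y ∧ φ e.2 e.1 = x
    · have hx : Sim H x (K.π e.1.1) := by
        have h1 := h.simp e.2 e.1 hadj.symm
        rw [hc.2] at h1
        exact h1
      have hy : Sim H y (K.π e.2.1) := by
        have h1 := h.simf e.2
        rw [hc.1] at h1
        exact h1
      have h2 := Pot_fib hadj hx hy
      by_cases hk : e.1.2 = κ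
      · have h3 : e.2.2 = T.g x y κ := by rw [h2, hk]
        rw [if_pos hk, if_pos hk, if_pos h3, if_pos (⟨hadj.symm, hc⟩ :
          (liftG K T).Adj e.2 e.1 ∧ f e.2 = y ∧ φ e.2 e.1 = x),
          if_pos (⟨hadj, hc⟩ : (liftG K T).Adj e.1 e.2 ∧ f e.2 = y ∧ φ e.2 e.1 = x)]
      · have h3 : e.2.2 ≠ T.g x y κ := by
          rw [h2]
          intro h4
          exact hk ((T.g x y).injective h4)
        rw [if_neg hk, if_neg hk, if_neg h3, sub_zero]
    · have h1 : ¬ ((liftG K T).Adj e.2 e.1 ∧ f e.2 = y ∧ φ e.2 e.1 = x) := fun h1 => hc h1.2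
      have h2 : ¬ ((liftG K T).Adj e.1 e.2 ∧ f e.2 = y ∧ φ e.2 e.1 = x) := fun h1 => hc h1.2
      rw [if_neg h1, if_neg h2, ite_self, sub_zero, sub_zero]
  · have h2 : ¬ (liftG K T).Adj e.2 e.1 := fun h3 => hadj h3.symm
    simp only [hadj, h2, false_and, if_false]
    simp

omit [Finite V] [Fintype ι] in
theorem Pot_ne (hu : ∀ i, (liftG K T).Adj (p, κ₀) (u i)) (i : ι) : (p, κ₀) ≠ u i :=
  fun h => (hu i).ne h

open Classical in
theorem Pot_main (hu : ∀ i, (liftG K T).Adj (p, κ₀) (u i)) (hinj : Function.Injective u)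
    (hcut : ∀ a b, cut a b ↔ ∃ i, (a, b) = ((p, κ₀), u i))
    (h : PCov H (liftG K T) (fun a => K.π a.1) cut f φ) {x y : V} (hxy : H.Adj x y) (κ : Q) :
    nq f x κ - nq f y (T.g x y κ) =
      ∑ i, (if κ₀ = κ then PotE (liftG K T) f φ x y ((p, κ₀), u i) else 0) +
      ∑ i, (if (u i).2 = κ then PotE (liftG K T) f φ x y (u i, (p, κ₀)) else 0) := by
  have : Fintype K.W := Fintype.ofFinite _
  have : Fintype Q := Fintype.ofFinite _
  rw [Pot_diff h hxy κ]
  rw [Pot_sum (b := (p, κ₀)) (u := u) (Pot_ne hu) hinj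
    (fun e : (K.W × Q) × (K.W × Q) => if e.1.2 = κ then PotE (liftG K T) f φ x y e else 0)]
  intro e h1 h2
  rw [Pot_unc h x y e, ite_self]
  · rw [hcut]
    rintro ⟨i, hi⟩
    exact h1 i hi
  · rw [hcut]
    rintro ⟨i, hi⟩
    have h3 : e.2 = (p, κ₀) := congrArg Prod.fst hi
    have h4 : e.1 = u i := congrArg Prod.snd hi
    exact h2 i (Prod.ext h4 h3)

/-- an arc `(w, w')` with a nonzero contribution has the types `x, y` -/
theorem Pot_ty (h : PCov H (liftG K T) (fun a => K.π a.1) cut f φ) {x y : V}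
    {w w' : K.W × Q} (hne : PotE (liftG K T) f φ x y (w, w') ≠ 0) :
    Sim H x (K.π w.1) ∧ Sim H y (K.π w'.1) ∧ w'.2 = T.g x y w.2 := by
  classical
  have h1 : ((liftG K T).Adj w w' ∧ f w = x ∧ φ w w' = y) ∨
      ((liftG K T).Adj w w' ∧ f w' = y ∧ φ w' w = x) := by
    by_contra hcon
    push Not at hcon
    apply hne
    unfold PotE
    have h2 : ¬ ((liftG K T).Adj w w' ∧ f w = x ∧ φ w w' = y) := fun h3 =>
      hcon.1 h3.1 h3.2.1 h3.2.2
    have h3 : ¬ ((liftG K T).Adj w w' ∧ f w' = y ∧ φ w' w = x) := fun h3 =>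
      hcon.2 h3.1 h3.2.1 h3.2.2
    show (if ((liftG K T).Adj w w' ∧ f w = x ∧ φ w w' = y) then (1 : ℤ) else 0) -
      (if ((liftG K T).Adj w w' ∧ f w' = y ∧ φ w' w = x) then (1 : ℤ) else 0) = 0
    rw [if_neg h2, if_neg h3, sub_zero]
  have h2 : (liftG K T).Adj w w' ∧ Sim H x (K.π w.1) ∧ Sim H y (K.π w'.1) := by
    rcases h1 with ⟨ha, hb, hc⟩ | ⟨ha, hb, hc⟩
    · have e1 := h.simf w
      have e2 := h.simp w w' ha
      rw [hb] at e1
      rw [hc] at e2
      exact ⟨ha, e1, e2⟩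
    · have e1 := h.simf w'
      have e2 := h.simp w' w ha.symm
      rw [hb] at e1
      rw [hc] at e2
      exact ⟨ha, e2, e1⟩
  exact ⟨h2.2.1, h2.2.2, Pot_fib h2.1 h2.2.1 h2.2.2⟩

theorem Pot_back (h : PCov H (liftG K T) (fun a => K.π a.1) cut f φ) {x y : V} {κ : Q}
    (h2 : ¬ (T.g x y κ = κ₀ ∧ Sim H y (K.π p))) (i : ι) (hk : (u i).2 = κ) :
    PotE (liftG K T) f φ x y (u i, (p, κ₀)) = 0 := by
  by_contra hne
  obtain ⟨h3, h4, h5⟩ := Pot_ty h hne
  apply h2
  refine ⟨?_, h4⟩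
  rw [← hk]
  exact h5.symm

theorem pot_at (hu : ∀ i, (liftG K T).Adj (p, κ₀) (u i)) (hinj : Function.Injective u)
    (hcut : ∀ a b, cut a b ↔ ∃ i, (a, b) = ((p, κ₀), u i))
    (h : PCov H (liftG K T) (fun a => K.π a.1) cut f φ) {x y : V} (hxy : H.Adj x y)
    (hx : Sim H x (K.π p)) (h2 : ¬ (T.g x y κ₀ = κ₀ ∧ Sim H y (K.π p))) :
    nq f x κ₀ - nq f y (T.g x y κ₀) = dq f φ (p, κ₀) u x y := by
  classical
  rw [Pot_main hu hinj hcut h hxy κ₀]
  have e1 : ∑ i, (if (u i).2 = κ₀ then PotE (liftG K T) f φ x y (u i, (p, κ₀)) else 0) = 0 := by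
    refine Finset.sum_eq_zero fun i _ => ?_
    by_cases hk : (u i).2 = κ₀
    · rw [if_pos hk]
      exact Pot_back h h2 i hk
    · rw [if_neg hk]
  rw [e1, add_zero]
  unfold dq
  refine Finset.sum_congr rfl fun i _ => ?_
  rw [if_pos rfl]
  unfold PotE
  have hi := hu i
  simp only [hi, true_and, Prod.mk.injEq]
  congr 1
  by_cases c1 : f (u i) = y <;> by_cases c2 : φ (u i) (p, κ₀) = x <;> simp [c1, c2]

theorem pot_off (hu : ∀ i, (liftG K T).Adj (p, κ₀) (u i)) (hinj : Function.Injective u)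
    (hcut : ∀ a b, cut a b ↔ ∃ i, (a, b) = ((p, κ₀), u i))
    (h : PCov H (liftG K T) (fun a => K.π a.1) cut f φ) {x y : V} (hxy : H.Adj x y) {κ : Q}
    (h1 : ¬ (κ = κ₀ ∧ Sim H x (K.π p))) (h2 : ¬ (T.g x y κ = κ₀ ∧ Sim H y (K.π p))) :
    nq f x κ = nq f y (T.g x y κ) := by
  classical
  have h0 := Pot_main hu hinj hcut h hxy κ
  have e1 : ∑ i, (if (u i).2 = κ then PotE (liftG K T) f φ x y (u i, (p, κ₀)) else 0) = 0 := by
    refine Finset.sum_eq_zero fun i _ => ?_
    by_cases hk : (u i).2 = κ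
    · rw [if_pos hk]
      exact Pot_back h h2 i hk
    · rw [if_neg hk]
  have e2 : ∑ i, (if κ₀ = κ then PotE (liftG K T) f φ x y ((p, κ₀), u i) else 0) = 0 := by
    refine Finset.sum_eq_zero fun i _ => ?_
    by_cases hk : κ₀ = κ
    · rw [if_pos hk]
      by_contra hne
      exact h1 ⟨hk.symm, (Pot_ty h hne).1⟩
    · rw [if_neg hk]
  rw [e1, e2] at h0
  omega

theorem pot_type (hu : ∀ i, (liftG K T).Adj (p, κ₀) (u i)) (hinj : Function.Injective u)
    (hcut : ∀ a b, cut a b ↔ ∃ i, (a, b) = ((p, κ₀), u i))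
    (h : PCov H (liftG K T) (fun a => K.π a.1) cut f φ) {x y : V} (hxy : H.Adj x y)
    (hx : Sim H x (K.π p)) (hno : ∀ i, ¬ Sim H (K.π (u i).1) y) :
    nq f x κ₀ = nq f y (T.g x y κ₀) := by
  classical
  have h0 := Pot_main hu hinj hcut h hxy κ₀
  have e1 : ∑ i, (if (u i).2 = κ₀ then PotE (liftG K T) f φ x y (u i, (p, κ₀)) else 0) = 0 := by
    refine Finset.sum_eq_zero fun i _ => ?_
    by_cases hk : (u i).2 = κ₀
    · rw [if_pos hk]
      by_contra hne
      obtain ⟨h3, h4, h5⟩ := Pot_ty h hne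
      exact hno i (sim_trans (sim_symm h3) (sim_trans hx (sim_symm h4)))
    · rw [if_neg hk]
  have e2 : ∑ i, (if κ₀ = κ₀ then PotE (liftG K T) f φ x y ((p, κ₀), u i) else 0) = 0 := by
    refine Finset.sum_eq_zero fun i _ => ?_
    rw [if_pos rfl]
    by_contra hne
    exact hno i (sim_symm (Pot_ty h hne).2.1)
  rw [e1, e2] at h0
  omega

end

end Pool.Agent.H24.GE
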