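import Pool.Agent.H24.GE.Agr
import Pool.Agent.H24.GE.Csp

/-!
# JOB GE-16: covers as solutions of a constraint satisfaction problem

`csp_cover`. (⇒) Let `f` be a cover, `a i j = (f i, f j)`. By `ag_cover` and `ht`: `AgH H r (f i) (t i)`, so
`Sim H (f i) (t i)` by `hs`. `f` is injective on the neighbours of `i` and maps edges to edges.
(⇐) `(G.neighborSet i).ncard = (H.neighborSet (t i)).ncard` (from `ht`, `1 ≤ r`) is positive (`hdeg`), so there is
`j₀ i` with `G.Adj i (j₀ i)`; let `f i = (a i (j₀ i)).1`. For every neighbour `j` of `i`: `(a i j).1 = f i` (the first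
condition if `j ≠ j₀ i`), and `a j i = ((a i j).2, (a i j).1)` by the second condition, so `(a i j).2 = (a j i).1 = f j`.
So `f` maps edges to edges (`H.Adj (a i j).1 (a i j).2`), and `f j ≠ f j'` for two different neighbours `j, j'` of
`i`. `Sim H (f i) (t i)` (second condition), so `H.neighborSet (f i)` and `H.neighborSet (t i)` have the same number of
elements (`sim_sat`, file `Pool.Agent.H24.GC.Equit`, with `Set.univ`), the number of neighbours of `i`. An injective
map between finite sets with the same number of elements is surjective (`Set.eq_of_subset_of_ncard_le`).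
-/

namespace Pool.Agent.H24.GE

open Pool.Agent.H24.GC

theorem csp_cover {A V : Type} [Finite A] [Finite V] {G : SimpleGraph A} {H : SimpleGraph V} {r : ℕ}
    (hr : 1 ≤ r) (hs : ∀ u v, AgH H r u v → Sim H u v) (hdeg : ∀ v, ∃ c, H.Adj v c) {t : A → V}
    (ht : ∀ i, Ag G H r i (t i)) :
    Covers G H ↔ ∃ a : A → A → V × V,
      (∀ i j j', G.Adj i j → G.Adj i j' → j ≠ j' →
        AR H 0 (t i) (t j) (t j') (a i j) (a i j')) ∧
      (∀ i j, G.Adj i j → ∀ w, AR H 1 (t i) (t j) w (a i j) (a j i)) := by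
  constructor
  · rintro ⟨f, hf⟩
    have hsim : ∀ i, Sim H (f i) (t i) := fun i => hs _ _ ((ag_cover hf r i (t i)).1 (ht i))
    have hadj : ∀ i j, G.Adj i j → H.Adj (f i) (f j) := fun i j h => (hf i).mapsTo h
    refine ⟨fun i j => (f i, f j), ?_, ?_⟩
    · intro i j j' hij hij' hne
      refine ⟨hadj i j hij, hadj i j' hij', hsim i, hsim j, ?_⟩
      rw [if_pos rfl]
      exact ⟨rfl, fun h => hne ((hf i).injOn hij hij' h.symm), hsim j'⟩
    · intro i j hij w
      refine ⟨hadj i j hij, hadj j i hij.symm, hsim i, hsim j, ?_⟩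
      rw [if_neg one_ne_zero]
  · rintro ⟨a, h1, h2⟩
    obtain ⟨r', rfl⟩ : ∃ r', r = r' + 1 := ⟨r - 1, by omega⟩
    have hcard : ∀ i, (G.neighborSet i).ncard = (H.neighborSet (t i)).ncard := fun i => (ht i).1
    have hne : ∀ i, ∃ j, G.Adj i j := by
      intro i
      obtain ⟨c, hc⟩ := hdeg (t i)
      have h3 : 0 < (H.neighborSet (t i)).ncard :=
        (Set.ncard_pos (Set.toFinite _)).2 ⟨c, hc⟩
      rw [← hcard i, Set.ncard_pos (Set.toFinite _)] at h3
      exact h3
    choose j₀ hj₀ using hne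
    have g1 : ∀ i j, G.Adj i j → (a i j).1 = (a i (j₀ i)).1 := by
      intro i j hij
      by_cases hj : j = j₀ i
      · rw [← hj]
      · obtain ⟨-, -, -, -, h3⟩ := h1 i j (j₀ i) hij (hj₀ i) hj
        rw [if_pos rfl] at h3
        exact h3.1.symm
    have g2 : ∀ i j, G.Adj i j → (a i j).2 = (a j (j₀ j)).1 := by
      intro i j hij
      obtain ⟨-, -, -, -, h3⟩ := h2 i j hij (t i)
      rw [if_neg one_ne_zero] at h3
      rw [← g1 j i hij.symm, h3]
    have g3 : ∀ i j, G.Adj i j → H.Adj (a i (j₀ i)).1 (a j (j₀ j)).1 := by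
      intro i j hij
      obtain ⟨h3, -⟩ := h2 i j hij (t i)
      rwa [g1 i j hij, g2 i j hij] at h3
    have g4 : ∀ i, Sim H (a i (j₀ i)).1 (t i) := fun i => (h2 i (j₀ i) (hj₀ i) (t i)).2.2.1
    refine ⟨fun i => (a i (j₀ i)).1, fun i => ?_⟩
    have hmaps : Set.MapsTo (fun i => (a i (j₀ i)).1) (G.neighborSet i)
        (H.neighborSet (a i (j₀ i)).1) := fun j hj => g3 i j hj
    have hinj : Set.InjOn (fun i => (a i (j₀ i)).1) (G.neighborSet i) := by
      intro j hj j' hj' hjj
      by_contra hne'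
      obtain ⟨-, -, -, -, h3⟩ := h1 i j j' hj hj' hne'
      rw [if_pos rfl] at h3
      apply h3.2.1
      rw [g2 i j hj, g2 i j' hj']
      exact hjj.symm
    refine ⟨hmaps, hinj, ?_⟩
    have hc : (H.neighborSet (a i (j₀ i)).1).ncard = (H.neighborSet (t i)).ncard := by
      have h3 := sim_sat (g4 i) (C := Set.univ) (fun _ _ _ => by simp)
      rwa [Set.inter_univ, Set.inter_univ] at h3
    have h5 : (fun i => (a i (j₀ i)).1) '' (G.neighborSet i) = H.neighborSet (a i (j₀ i)).1 := by
      apply Set.eq_of_subset_of_ncard_le hmaps.image_subset _ (Set.toFinite _)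
      rw [hinj.ncard_image, hc, hcard i]
    intro y hy
    rw [← h5] at hy
    exact hy

end Pool.Agent.H24.GE
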