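import Pool.Agent.H24.GE.Agr
import Pool.Agent.H24.GE.Csp

/-!
# JOB GE-15: the refinement procedure in polynomial time

`rows H x N r` is the table of the relation `Ag G H r` for the graph `G` with the matrix `x` on `N` vertices: one row
of length `n` for every vertex.
`cntR`: the number of the `j < N` with an entry of the matrix and a property, `cntH` the corresponding
(constant) number for `H`.
`rows_spec`: induction on `r`: `(rows H (enc G) N r).getD i []` is the row of `i` (`List.getD_eq_getElem`,
`List.getElem_map`, `List.getElem_range`), `List.getElem_ofFn`; `cntR` is the `ncard` of the set of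
neighbours (compare the proof of `deg_iff` in the file `Pool.Agent.H79.Thr.Member`; `ment_enc`), by the induction
hypothesis; `decide_eq_decide`.
`PT.rows'`: induction on `r`; `PT.map'`, `PT.ofFn'` (file `Pool.Agent.PPS.Codes`, for the two `List.ofFn`: for every fixed
`u`, `w : Fin n` the function is `PT`), `PT.and'`, `PT.all'` (for `id`: write it as `fun b => b`), `PT.filter'`,
`PT.length'`, `PT.getD'`, `PT.ment'`.
-/

namespace Pool.Agent.H24.GE

open Pool.Agent.H24.GC Pool.Agent.PPS Pool.Agent.H64.Cook Pool.Agent.H79.Thr

variable {n : ℕ}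

/-- the number of the neighbours of `u` which look like `w` after `r` rounds -/
noncomputable def cntH (H : SimpleGraph (Fin n)) (r : ℕ) (u w : Fin n) : ℕ :=
  {w' | H.Adj u w' ∧ AgH H r w' w}.ncard

/-- the number of the neighbours `j` of `i` with `T j w` -/
def cntR (x : List Bool) (N : ℕ) (T : List (List Bool)) (i w : ℕ) : ℕ :=
  ((List.range N).filter fun j => ment x N i j && (T.getD j []).getD w false).length

/-- the table of `Ag G H r` -/
noncomputable def rows (H : SimpleGraph (Fin n)) (x : List Bool) (N : ℕ) : ℕ → List (List Bool)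
  | 0 => (List.range N).map fun _ => List.replicate n true
  | r + 1 => (List.range N).map fun i => List.ofFn fun u : Fin n =>
      decide (((List.range N).filter fun j => ment x N i j).length = (H.neighborSet u).ncard) &&
      (List.ofFn fun w : Fin n =>
        decide (cntR x N (rows H x N r) i w = cntH H r u w)).all id

/-- the length of a filtered range is a number of elements -/
theorem rows_card {N : ℕ} (p : Fin N → Prop) (q : ℕ → Bool)
    (h : ∀ j : Fin N, q j = true ↔ p j) :
    ((List.range N).filter q).length = {j | p j}.ncard := by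
  symm
  rw [← Set.ncard_image_of_injective {j | p j} Fin.val_injective]
  have h2 : (Fin.val '' {j | p j}) = (((List.range N).filter q).toFinset : Set ℕ) := by
    ext v
    simp only [Set.mem_image, List.coe_toFinset, List.mem_filter,
      List.mem_range, Set.mem_ofPred_eq]
    constructor
    · rintro ⟨w, hw, rfl⟩
      exact ⟨w.2, (h w).2 hw⟩
    · rintro ⟨hv, hv'⟩
      exact ⟨⟨v, hv⟩, (h ⟨v, hv⟩).1 hv', rfl⟩
  rw [h2, Set.ncard_coe_finset, List.toFinset_card_of_nodup (List.nodup_range.filter _)]

theorem rows_getD_map {β : Type} {N : ℕ} (f : ℕ → β) (d : β) (i : Fin N) :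
    ((List.range N).map f).getD (i : ℕ) d = f i := by
  rw [List.getD_eq_getElem _ _ (by rw [List.length_map, List.length_range]; exact i.2),
    List.getElem_map, List.getElem_range]

theorem rows_getD_ofFn {β : Type} {N : ℕ} (f : Fin N → β) (d : β) (i : Fin N) :
    (List.ofFn f).getD (i : ℕ) d = f i := by
  rw [List.getD_eq_getElem _ _ (by rw [List.length_ofFn]; exact i.2), List.getElem_ofFn]

open Classical in
theorem rows_spec {N : ℕ} (G : SimpleGraph (Fin N)) (H : SimpleGraph (Fin n)) (r : ℕ) (i : Fin N)
    (u : Fin n) :
    (((rows H (enc G) N r).getD (i : ℕ) []).getD (u : ℕ) false) = decide (Ag G H r i u) := by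
  induction r generalizing i u with
  | zero =>
    rw [rows, rows_getD_map, List.getD_eq_getElem _ _ (by rw [List.length_replicate]; exact u.2),
      List.getElem_replicate]
    symm
    rw [decide_eq_true_eq]
    exact trivial
  | succ r ih =>
    rw [rows, rows_getD_map, rows_getD_ofFn, Bool.eq_iff_iff, Bool.and_eq_true,
      decide_eq_true_eq, decide_eq_true_eq, List.all_eq_true,
      rows_card (fun j => G.Adj i j) (fun j => ment (enc G) N i j) (ment_enc G i)]
    have h1 : ∀ w : Fin n, cntR (enc G) N (rows H (enc G) N r) i w =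
        {j | G.Adj i j ∧ Ag G H r j w}.ncard := by
      intro w
      rw [cntR]
      apply rows_card
      intro j
      rw [Bool.and_eq_true, ment_enc, ih j w, decide_eq_true_eq]
    show _ ↔ ((G.neighborSet i).ncard = (H.neighborSet u).ncard ∧
      ∀ w, {j | G.Adj i j ∧ Ag G H r j w}.ncard = {w' | H.Adj u w' ∧ AgH H r w' w}.ncard)
    refine and_congr Iff.rfl ?_
    constructor
    · intro h w
      have h2 := h _ (List.mem_ofFn.2 ⟨w, rfl⟩)
      rw [id, decide_eq_true_eq, h1 w] at h2
      exact h2
    · intro h b hb
      obtain ⟨w, rfl⟩ := List.mem_ofFn.1 hb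
      rw [id, decide_eq_true_eq, h1 w]
      exact h w

theorem PT.rows' {m : Bool} {α : Type} [Rep α] (H : SimpleGraph (Fin n)) (r : ℕ)
    {x : α → List Bool} {N : α → ℕ} (hx : PT m x) (hN : PT m N) :
    PT m (fun a => rows H (x a) (N a) r) := by
  induction r with
  | zero =>
    have := PT.map' (m := m) (l := fun a => List.range (N a))
      (f := fun _ : α × ℕ => List.replicate n true) (by fun_prop) (PT.const' _)
    exact this
  | succ r ih =>
    have h1 : PT m (fun z : α × ℕ => ((List.range (N z.1)).filter fun j =>
        ment (x z.1) (N z.1) z.2 j)) :=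
      H64.Cook.PT.filter' (m := m) (l := fun z : α × ℕ => List.range (N z.1))
        (f := fun z : (α × ℕ) × ℕ => ment (x z.1.1) (N z.1.1) z.1.2 z.2) (by fun_prop)
        (by fun_prop)
    have h2 : ∀ w : Fin n, PT m (fun z : α × ℕ =>
        cntR (x z.1) (N z.1) (rows H (x z.1) (N z.1) r) z.2 w) := by
      intro w
      have h3 : PT m (fun z : (α × ℕ) × ℕ => rows H (x z.1.1) (N z.1.1) r) :=
        ih.comp (f := fun z : (α × ℕ) × ℕ => z.1.1) (by fun_prop)
      have h4 : PT m (fun z : (α × ℕ) × ℕ => ment (x z.1.1) (N z.1.1) z.1.2 z.2 &&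
          ((rows H (x z.1.1) (N z.1.1) r).getD z.2 []).getD (w : ℕ) false) := by
        fun_prop
      have h5 := H64.Cook.PT.filter' (m := m) (l := fun z : α × ℕ => List.range (N z.1))
        (by fun_prop) h4
      exact PT.length' h5
    have h6 : ∀ u : Fin n, PT m (fun z : α × ℕ =>
        decide (((List.range (N z.1)).filter fun j => ment (x z.1) (N z.1) z.2 j).length =
          (H.neighborSet u).ncard) &&
        (List.ofFn fun w : Fin n =>
          decide (cntR (x z.1) (N z.1) (rows H (x z.1) (N z.1) r) z.2 w = cntH H r u w)).all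
            id) := by
      intro u
      refine PT.and' (PT.decideEq (PT.length' h1) (PT.const' _)) ?_
      have h7 : PT m (fun z : α × ℕ => List.ofFn fun w : Fin n =>
          decide (cntR (x z.1) (N z.1) (rows H (x z.1) (N z.1) r) z.2 w = cntH H r u w)) :=
        PT.ofFn' (F := fun (w : Fin n) (z : α × ℕ) =>
          decide (cntR (x z.1) (N z.1) (rows H (x z.1) (N z.1) r) z.2 w = cntH H r u w))
          (fun w => PT.decideEq (h2 w) (PT.const' _))
      exact H64.Cook.PT.all' (f := fun z : (α × ℕ) × Bool => z.2) h7 (by fun_prop)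
    have h8 := PT.ofFn' h6
    have h9 := PT.map' (m := m) (l := fun a => List.range (N a)) (by fun_prop) h8
    exact h9

end Pool.Agent.H24.GE
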