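import Pool.Agent.H24.GE.R1A
import Pool.Agent.H24.GE.Rows

/-!
# JOB GE-17: the reduction of covers to the constraint satisfaction problem

`lk n T i` is the first `u < n` with `T i u` (`n` if there is none). `cF n N x T s p q` is the matrix of the
instance for the graph with the matrix `x` on `N` vertices and the table `T`; its variables are the pairs
`p = i * N + j`. `tab n c s`: table of the components `c = 0, 1, 2, 3` of `s : Fin (2 * (n * (n * n)))`.

`tab_eq`: clear. `lk_spec`: `List.filter`, `headD`; compare `mroot_sq` (file `Pool.Agent.H79.Thr.Member`); only used: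
if the result is `< n` then the entry is `true`, and if some entry is `true` then the result is `< n`.
`cF_sat`: unfold `cF` (`List.any_eq_true`, `List.mem_range`, `Bool` to `Prop`). (→) `a' p = a p.divNat p.modNat` for `p : Fin (N * N)`; if `cF ... s p q = true` then `p = i * N + j` etc., so
`p.divNat = i`, `p.modNat = j` (`Nat.div_eq_of_lt_le`, ..., see `mflat_getD` in the file cited), and the relation
`RH H s` is `AR H k u v w` with the components of `s`, which are `tab n c s`. (←) `a i j = a' (i * N + j)`; for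
`u, v, w` and `k` there is `s` with these components (`finProdFinEquiv` or direct; `exists_sym`).
`PT.cF'`, `PT.lk'`: `PT.any'`, `PT.filter'`, `PT.headD'`, `fun_prop`.
-/

namespace Pool.Agent.H24.GE

open Pool.Agent.H24.GC Pool.Agent.PPS Pool.Agent.H64.Cook Pool.Agent.H79.Thr

variable {n : ℕ}

/-- the components of a symbol -/
def sym (c : ℕ) (s : Fin (2 * (n * (n * n)))) : ℕ :=
  if c = 0 then s.divNat else if c = 1 then s.modNat.divNat
  else if c = 2 then s.modNat.modNat.divNat else s.modNat.modNat.modNat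

/-- the table of the components -/
def tab (n c s : ℕ) : ℕ := ((List.finRange (2 * (n * (n * n)))).map fun s => sym c s).getD s 0

theorem tab_eq (c : ℕ) (s : Fin (2 * (n * (n * n)))) : tab n c s = sym c s := by
  unfold tab
  rw [List.getD_eq_getElem _ _ (by rw [List.length_map, List.length_finRange]; exact s.2),
    List.getElem_map, List.getElem_finRange]
  rfl

theorem exists_sym (k : Fin 2) (u v w : Fin n) :
    ∃ s : Fin (2 * (n * (n * n))), s.divNat = k ∧ s.modNat.divNat = u ∧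
      s.modNat.modNat.divNat = v ∧ s.modNat.modNat.modNat = w := by
  have h1 : ∀ {a b : ℕ} (x : Fin a) (y : Fin b), (finProdFinEquiv (x, y)).divNat = x ∧
      (finProdFinEquiv (x, y)).modNat = y := by
    intro a b x y
    have h := finProdFinEquiv.symm_apply_apply (x, y)
    exact ⟨congrArg Prod.fst h, congrArg Prod.snd h⟩
  refine ⟨finProdFinEquiv (k, finProdFinEquiv (u, finProdFinEquiv (v, w))), (h1 _ _).1, ?_, ?_, ?_⟩
  · rw [(h1 _ _).2, (h1 _ _).1]
  · rw [(h1 _ _).2, (h1 _ _).2, (h1 _ _).1]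
  · rw [(h1 _ _).2, (h1 _ _).2, (h1 _ _).2]

/-- the first `u < n` with a positive entry in the row `i` of the table `T` -/
def lk (n : ℕ) (T : List (List Bool)) (i : ℕ) : ℕ :=
  ((List.range n).filter fun u => (T.getD i []).getD u false).headD n

theorem lk_spec {T : List (List Bool)} {i : ℕ} (h : lk n T i < n) :
    (T.getD i []).getD (lk n T i) false = true := by
  have hmem : ∀ v ∈ (List.range n).filter (fun u => (T.getD i []).getD u false),
      (T.getD i []).getD v false = true := by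
    intro v hv
    rw [List.mem_filter] at hv
    exact hv.2
  revert h hmem
  unfold lk
  generalize (List.range n).filter (fun u => (T.getD i []).getD u false) = l
  intro h hmem
  rcases l with _ | ⟨b, l⟩
  · exact absurd h (lt_irrefl n)
  · exact hmem b List.mem_cons_self

theorem lk_lt {T : List (List Bool)} {i u : ℕ} (hu : u < n)
    (h : (T.getD i []).getD u false = true) : lk n T i < n := by
  have hmem : ∀ v ∈ (List.range n).filter (fun u => (T.getD i []).getD u false), v < n := by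
    intro v hv
    rw [List.mem_filter, List.mem_range] at hv
    exact hv.1
  have hu' : u ∈ (List.range n).filter (fun u => (T.getD i []).getD u false) := by
    rw [List.mem_filter, List.mem_range]
    exact ⟨hu, h⟩
  revert hmem hu'
  unfold lk
  generalize (List.range n).filter (fun u => (T.getD i []).getD u false) = l
  intro hmem hu'
  rcases l with _ | ⟨b, l⟩
  · exact absurd hu' List.not_mem_nil
  · exact hmem b List.mem_cons_self

/-- the matrix of the instance -/
def cF (n N : ℕ) (x : List Bool) (T : List (List Bool)) (s p q : ℕ) : Bool :=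
  (List.range N).any fun i => (List.range N).any fun j => (List.range N).any fun j' =>
    decide (p = i * N + j) && (ment x N i j && (decide (lk n T i = tab n 1 s) &&
      (decide (lk n T j = tab n 2 s) &&
        ((decide (tab n 0 s = 0) && (decide (q = i * N + j') && (!(decide (j = j')) &&
          (ment x N i j' && decide (lk n T j' = tab n 3 s))))) ||
         (!(decide (tab n 0 s = 0)) && decide (q = j * N + i))))))

theorem R1B_cF_iff {n N : ℕ} {x : List Bool} {T : List (List Bool)} {s p q : ℕ} :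
    cF n N x T s p q = true ↔ ∃ i, i < N ∧ ∃ j, j < N ∧ ∃ j', j' < N ∧
      (p = i * N + j ∧ ment x N i j = true ∧ lk n T i = tab n 1 s ∧ lk n T j = tab n 2 s ∧
        ((tab n 0 s = 0 ∧ q = i * N + j' ∧ j ≠ j' ∧ ment x N i j' = true ∧
          lk n T j' = tab n 3 s) ∨ (tab n 0 s ≠ 0 ∧ q = j * N + i))) := by
  unfold cF
  simp only [List.any_eq_true, List.mem_range, Bool.and_eq_true, Bool.or_eq_true,
    decide_eq_true_eq, Bool.not_eq_true', decide_eq_false_iff_not, ne_eq]

/-- the index of a pair -/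
def R1B_idx {N : ℕ} (i j : Fin N) : Fin (N * N) := ⟨i * N + j, by
  calc (i : ℕ) * N + j < (i + 1) * N := by rw [Nat.add_mul]; omega
    _ ≤ N * N := Nat.mul_le_mul_right _ i.2⟩

theorem R1B_div {N : ℕ} (i j : Fin N) : (R1B_idx i j).divNat = i := by
  ext
  rw [Fin.coe_divNat]
  show (i * N + j) / N = (i : ℕ)
  exact Nat.div_eq_of_lt_le (by omega) (by rw [Nat.add_mul]; omega)

theorem R1B_mod {N : ℕ} (i j : Fin N) : (R1B_idx i j).modNat = j := by
  ext
  rw [Fin.coe_modNat]
  show (i * N + j) % N = j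
  rw [Nat.add_comm, Nat.add_mul_mod_self_right]
  exact Nat.mod_eq_of_lt j.2

theorem R1B_fwd {N : ℕ} {G : SimpleGraph (Fin N)} {H : SimpleGraph (Fin n)}
    {T : List (List Bool)} {t : Fin N → Fin n} (ht : ∀ i : Fin N, lk n T i = t i)
    {a : Fin N → Fin N → Fin n × Fin n}
    (h1 : ∀ i j j', G.Adj i j → G.Adj i j' → j ≠ j' →
        AR H 0 (t i) (t j) (t j') (a i j) (a i j'))
    (h2 : ∀ i j, G.Adj i j → ∀ w, AR H 1 (t i) (t j) w (a i j) (a j i))
    (s : Fin (2 * (n * (n * n)))) (p q : Fin (N * N)) (h : cF n N (enc G) T s p q = true) :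
    RH H s (a p.divNat p.modNat) (a q.divNat q.modNat) := by
  rw [R1B_cF_iff] at h
  obtain ⟨i, hi, j, hj, j', hj', hp, hm, hl1, hl2, h3⟩ := h
  have ep : p = R1B_idx ⟨i, hi⟩ ⟨j, hj⟩ := Fin.ext hp
  have ht1 : t ⟨i, hi⟩ = s.modNat.divNat := by
    apply Fin.ext
    rw [← ht ⟨i, hi⟩]
    show lk n T i = _
    rw [hl1, tab_eq]
    rfl
  have ht2 : t ⟨j, hj⟩ = s.modNat.modNat.divNat := by
    apply Fin.ext
    rw [← ht ⟨j, hj⟩]
    show lk n T j = _
    rw [hl2, tab_eq]
    rfl
  have hG : G.Adj ⟨i, hi⟩ ⟨j, hj⟩ := (ment_enc G ⟨i, hi⟩ ⟨j, hj⟩).mp hm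
  have h0 : tab n 0 s = (s.divNat : ℕ) := by
    rw [tab_eq]
    rfl
  rw [ep, R1B_div, R1B_mod]
  rcases h3 with ⟨h3, hq, hne, hm', hl3⟩ | ⟨h3, hq⟩
  · have eq : q = R1B_idx ⟨i, hi⟩ ⟨j', hj'⟩ := Fin.ext hq
    have ht3 : t ⟨j', hj'⟩ = s.modNat.modNat.modNat := by
      apply Fin.ext
      rw [← ht ⟨j', hj'⟩]
      show lk n T j' = _
      rw [hl3, tab_eq]
      rfl
    have hG' : G.Adj ⟨i, hi⟩ ⟨j', hj'⟩ := (ment_enc G ⟨i, hi⟩ ⟨j', hj'⟩).mp hm'
    rw [eq, R1B_div, R1B_mod]
    have h4 := h1 ⟨i, hi⟩ ⟨j, hj⟩ ⟨j', hj'⟩ hG hG' (fun h5 => hne (congrArg Fin.val h5))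
    rw [ht1, ht2, ht3] at h4
    unfold RH
    rw [← h0, h3]
    exact h4
  · have eq : q = R1B_idx ⟨j, hj⟩ ⟨i, hi⟩ := Fin.ext hq
    rw [eq, R1B_div, R1B_mod]
    have h4 := h2 ⟨i, hi⟩ ⟨j, hj⟩ hG s.modNat.modNat.modNat
    rw [ht1, ht2] at h4
    unfold RH
    rw [h0] at h3
    have h5 : (s.divNat : ℕ) = 1 := by
      have h6 := s.divNat.2
      omega
    rw [h5]
    exact h4

theorem R1B_bwd {N : ℕ} {G : SimpleGraph (Fin N)} {H : SimpleGraph (Fin n)}
    {T : List (List Bool)} {t : Fin N → Fin n} (ht : ∀ i : Fin N, lk n T i = t i)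
    {a : Fin (N * N) → Fin n × Fin n}
    (h : ∀ (s : Fin (2 * (n * (n * n)))) (p q : Fin (N * N)),
        cF n N (enc G) T s p q = true → RH H s (a p) (a q)) :
    (∀ i j j', G.Adj i j → G.Adj i j' → j ≠ j' →
        AR H 0 (t i) (t j) (t j') (a (R1B_idx i j)) (a (R1B_idx i j'))) ∧
      (∀ i j, G.Adj i j → ∀ w, AR H 1 (t i) (t j) w (a (R1B_idx i j)) (a (R1B_idx j i))) := by
  constructor
  · intro i j j' hij hij' hne
    obtain ⟨s, e0, e1, e2, e3⟩ := exists_sym (0 : Fin 2) (t i) (t j) (t j')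
    have h1 := h s (R1B_idx i j) (R1B_idx i j') (by
      rw [R1B_cF_iff]
      refine ⟨i, i.2, j, j.2, j', j'.2, rfl, (ment_enc G i j).mpr hij, ?_, ?_, Or.inl ⟨?_, rfl,
        fun h5 => hne (Fin.ext h5), (ment_enc G i j').mpr hij', ?_⟩⟩
      · rw [tab_eq, ht, ← e1]
        rfl
      · rw [tab_eq, ht, ← e2]
        rfl
      · rw [tab_eq]
        show (s.divNat : ℕ) = 0
        rw [e0]
        rfl
      · rw [tab_eq, ht, ← e3]
        rfl)
    unfold RH at h1
    rw [e0, e1, e2, e3] at h1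
    exact h1
  · intro i j hij w
    obtain ⟨s, e0, e1, e2, e3⟩ := exists_sym (1 : Fin 2) (t i) (t j) w
    have h1 := h s (R1B_idx i j) (R1B_idx j i) (by
      rw [R1B_cF_iff]
      refine ⟨i, i.2, j, j.2, j, j.2, rfl, (ment_enc G i j).mpr hij, ?_, ?_, Or.inr ⟨?_, rfl⟩⟩
      · rw [tab_eq, ht, ← e1]
        rfl
      · rw [tab_eq, ht, ← e2]
        rfl
      · rw [tab_eq]
        show (s.divNat : ℕ) ≠ 0
        rw [e0]
        decide)
    unfold RH at h1
    rw [e0, e1, e2, e3] at h1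
    exact h1

theorem cF_sat {N : ℕ} {G : SimpleGraph (Fin N)} {H : SimpleGraph (Fin n)}
    {T : List (List Bool)} {t : Fin N → Fin n} (ht : ∀ i : Fin N, lk n T i = t i) :
    (∃ a : Fin N → Fin N → Fin n × Fin n,
      (∀ i j j', G.Adj i j → G.Adj i j' → j ≠ j' →
        AR H 0 (t i) (t j) (t j') (a i j) (a i j')) ∧
      (∀ i j, G.Adj i j → ∀ w, AR H 1 (t i) (t j) w (a i j) (a j i))) ↔
    ∃ a : Fin (N * N) → Fin n × Fin n,
      ∀ (s : Fin (2 * (n * (n * n)))) (p q : Fin (N * N)),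
        cF n N (enc G) T s p q = true → RH H s (a p) (a q) := by
  constructor
  · rintro ⟨a, h1, h2⟩
    exact ⟨fun p => a p.divNat p.modNat, fun s p q h => R1B_fwd ht h1 h2 s p q h⟩
  · rintro ⟨a, h⟩
    exact ⟨fun i j => a (R1B_idx i j), R1B_bwd ht h⟩

@[fun_prop]
theorem R1B_tab' {m : Bool} {α : Type} [Rep α] (n c : ℕ) {s : α → ℕ} (hs : PT m s) :
    PT m (fun a => tab n c (s a)) := by
  unfold tab
  exact PT.getD' hs (PT.const' _) (PT.const' 0)

@[fun_prop]
theorem R1B_lk' {m : Bool} {α : Type} [Rep α] (n : ℕ) {i : α → ℕ} {T : α → List (List Bool)}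
    (hT : PT m T) (hi : PT m i) : PT m (fun a => lk n (T a) (i a)) := by
  unfold lk
  have h := H64.Cook.PT.filter' (m := m) (l := fun _ : α => List.range n)
    (f := fun z : α × ℕ => ((T z.1).getD (i z.1) []).getD z.2 false) (PT.const' _) (by fun_prop)
  exact PT.headD' h (PT.const' n)

theorem PT.cF' {m : Bool} {α : Type} [Rep α] (n : ℕ) {N s p q : α → ℕ} {x : α → List Bool}
    {T : α → List (List Bool)} (hN : PT m N) (hx : PT m x) (hT : PT m T) (hs : PT m s)
    (hp : PT m p) (hq : PT m q) :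
    PT m (fun a => cF n (N a) (x a) (T a) (s a) (p a) (q a)) := by
  unfold cF
  have h3 : PT m (fun z : (α × ℕ) × ℕ => (List.range (N z.1.1)).any fun j' =>
      decide (p z.1.1 = z.1.2 * N z.1.1 + z.2) && (ment (x z.1.1) (N z.1.1) z.1.2 z.2 &&
        (decide (lk n (T z.1.1) z.1.2 = tab n 1 (s z.1.1)) &&
        (decide (lk n (T z.1.1) z.2 = tab n 2 (s z.1.1)) &&
          ((decide (tab n 0 (s z.1.1) = 0) && (decide (q z.1.1 = z.1.2 * N z.1.1 + j') &&
            (!(decide (z.2 = j')) && (ment (x z.1.1) (N z.1.1) z.1.2 j' &&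
              decide (lk n (T z.1.1) j' = tab n 3 (s z.1.1)))))) ||
          (!(decide (tab n 0 (s z.1.1) = 0)) &&
            decide (q z.1.1 = z.2 * N z.1.1 + z.1.2))))))) :=
    H64.Cook.PT.any' (m := m) (l := fun z : (α × ℕ) × ℕ => List.range (N z.1.1))
      (f := fun z : ((α × ℕ) × ℕ) × ℕ =>
        decide (p z.1.1.1 = z.1.1.2 * N z.1.1.1 + z.1.2) &&
        (ment (x z.1.1.1) (N z.1.1.1) z.1.1.2 z.1.2 &&
        (decide (lk n (T z.1.1.1) z.1.1.2 = tab n 1 (s z.1.1.1)) &&
        (decide (lk n (T z.1.1.1) z.1.2 = tab n 2 (s z.1.1.1)) &&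
          ((decide (tab n 0 (s z.1.1.1) = 0) &&
            (decide (q z.1.1.1 = z.1.1.2 * N z.1.1.1 + z.2) &&
            (!(decide (z.1.2 = z.2)) && (ment (x z.1.1.1) (N z.1.1.1) z.1.1.2 z.2 &&
              decide (lk n (T z.1.1.1) z.2 = tab n 3 (s z.1.1.1)))))) ||
          (!(decide (tab n 0 (s z.1.1.1) = 0)) &&
            decide (q z.1.1.1 = z.1.2 * N z.1.1.1 + z.1.1.2)))))))
      (by fun_prop) (by fun_prop)
  have h2 := H64.Cook.PT.any' (m := m) (l := fun z : α × ℕ => List.range (N z.1))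
    (by fun_prop) h3
  exact H64.Cook.PT.any' (m := m) (l := fun a => List.range (N a)) (by fun_prop) h2

theorem PT.lk' {m : Bool} {α : Type} [Rep α] (n : ℕ) {i : α → ℕ} {T : α → List (List Bool)}
    (hT : PT m T) (hi : PT m i) : PT m (fun a => lk n (T a) (i a)) := by
  exact R1B_lk' n hT hi

end Pool.Agent.H24.GE
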