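import Pool.Agent.H24.GE.TRel
import Pool.Agent.H24.GE.R1B
import Pool.Agent.H24.GD.FRed

/-!
# JOB GE-19: the constraint satisfaction problem as a list of tuples

`onL M N x`: the list of the constraints `(s, (i, j))` of the instance `x`. `tupL M c` is the tuple of length
`M * 2` of the constraint `c = (s, (i, j))`: the entries `2 s`, `2 s + 1` are the codes of the variables `i`, `j`, the
entry `p` is otherwise a code which occurs only there. `hubT H` are the types of the positions, `hubR H` the
relation between the entries: for all `s` for which the relation `RH H s` is not empty, the entries `2 s`,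
`2 s + 1` satisfy it.

`mem_onL`: `List.mem_flatMap`, `List.mem_range`, `List.mem_filterMap` or `bif` (as the definition says).
`tupL_getD`: `List.getD_eq_getElem`, `List.getElem_map`, `List.getElem_range`.
`PT.onL'`: `PT.flatMap'`, `PT.range'`, `PT.cond`. `PT.tupL'`: `PT.map'` over the constant list `List.range (M * 2)`,
`PT.cond`, or `bif`.
`hubR_fdef`: `FDef.all` over `s : Fin M`; for a fixed `s`: if the relation is empty the condition is `True`
(`FDef.all` with `ι = Empty` and `FDef.congr`), otherwise `ar_fdef` (file `TRel`) and `FDef.comap` with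
`ρ : Bool → Fin (M * 2)`, `ρ b = ⟨2 s + (if b then 1 else 0), _⟩`; the types: `hubT H (ρ b) = arT ...` as
`(2 s + b) / 2 = s` and `(2 s + b) % 2 = b`.
-/

namespace Pool.Agent.H24.GE

open Pool.Agent.H24.GC Pool.Agent.H24.GD Pool.Agent.PPS Pool.Agent.H64.Cook Pool.Agent.H79.Thr

/-- the constraints of an instance -/
def onL (M N : ℕ) (x : List Bool) : List (ℕ × (ℕ × ℕ)) :=
  (List.range M).flatMap fun s => (List.range N).flatMap fun i => (List.range N).flatMap fun j =>
    bif ient x N s i j then [(s, (i, j))] else []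

theorem mem_onL {M N : ℕ} {x : List Bool} {c : ℕ × (ℕ × ℕ)} :
    c ∈ onL M N x ↔ c.1 < M ∧ c.2.1 < N ∧ c.2.2 < N ∧ ient x N c.1 c.2.1 c.2.2 = true := by
  unfold onL
  simp only [List.mem_flatMap, List.mem_range]
  constructor
  · rintro ⟨s, hs, i, hi, j, hj, hc⟩
    cases h : ient x N s i j with
    | false =>
      rw [h] at hc
      simp at hc
    | true =>
      rw [h] at hc
      have h1 : c = (s, (i, j)) := by simpa using hc
      subst h1
      exact ⟨hs, hi, hj, h⟩
  · rintro ⟨hs, hi, hj, h⟩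
    refine ⟨c.1, hs, c.2.1, hi, c.2.2, hj, ?_⟩
    rw [h]
    simp

/-- the entry `p` of the tuple of the constraint `c` -/
def tupE (c : ℕ × (ℕ × ℕ)) (p : ℕ) : ℕ × (ℕ × (ℕ × ℕ)) :=
  bif decide (p = 2 * c.1) then (0, (c.2.1, (0, 0)))
  else bif decide (p = 2 * c.1 + 1) then (0, (c.2.2, (0, 0))) else (p + 1, c)

/-- the tuple of the constraint `c` -/
def tupL (M : ℕ) (c : ℕ × (ℕ × ℕ)) : List (ℕ × (ℕ × (ℕ × ℕ))) :=
  (List.range (M * 2)).map (tupE c)

theorem tupL_getD {M : ℕ} (c : ℕ × (ℕ × ℕ)) (j : Fin (M * 2)) :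
    (tupL M c).getD (j : ℕ) default = tupE c j := by
  unfold tupL
  rw [List.getD_eq_getElem _ _ (by simp), List.getElem_map, List.getElem_range]

theorem PT.onL' {m : Bool} {α : Type} [Rep α] (M : ℕ) {N : α → ℕ} {x : α → List Bool}
    (hN : PT m N) (hx : PT m x) : PT m (fun a => onL M (N a) (x a)) := by
  unfold onL
  refine PT.flatMap' (f := fun z : α × ℕ => (List.range (N z.1)).flatMap fun i =>
    (List.range (N z.1)).flatMap fun j =>
      bif ient (x z.1) (N z.1) z.2 i j then [(z.2, (i, j))] else []) (by fun_prop) ?_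
  refine PT.flatMap' (f := fun z : (α × ℕ) × ℕ => (List.range (N z.1.1)).flatMap fun j =>
      bif ient (x z.1.1) (N z.1.1) z.1.2 z.2 j then [(z.1.2, (z.2, j))] else []) (by fun_prop) ?_
  refine PT.flatMap' (f := fun z : ((α × ℕ) × ℕ) × ℕ =>
      bif ient (x z.1.1.1) (N z.1.1.1) z.1.1.2 z.1.2 z.2 then [(z.1.1.2, (z.1.2, z.2))] else [])
    (by fun_prop) ?_
  exact PT.cond (by fun_prop) (by fun_prop) (by fun_prop)

theorem PT.tupL' {m : Bool} {α : Type} [Rep α] (M : ℕ) {c : α → ℕ × (ℕ × ℕ)}
    (hc : PT m c) : PT m (fun a => tupL M (c a)) := by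
  unfold tupL
  refine PT.map' (f := fun z : α × ℕ => tupE (c z.1) z.2) (PT.const _) ?_
  unfold tupE
  exact PT.cond (by fun_prop) (by fun_prop) (PT.cond (by fun_prop) (by fun_prop) (by fun_prop))

section

variable {n : ℕ}

/-- the number of the symbol of a position -/
def hubS (j : Fin ((2 * (n * (n * n))) * 2)) : Fin (2 * (n * (n * n))) := j.divNat

/-- the types of the positions -/
def hubT (n : ℕ) (j : Fin ((2 * (n * (n * n))) * 2)) : Fin n × Fin n :=
  arT ((hubS j).divNat : ℕ) (hubS j).modNat.divNat (hubS j).modNat.modNat.divNat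
    (hubS j).modNat.modNat.modNat (decide ((j : ℕ) % 2 = 1))

/-- the position of a symbol -/
def hubP (s : Fin (2 * (n * (n * n)))) (b : Bool) : Fin ((2 * (n * (n * n))) * 2) :=
  ⟨2 * s + (if b then 1 else 0), by have := s.2; split <;> omega⟩

/-- the relation between the entries of a tuple -/
def hubR (H : SimpleGraph (Fin n)) (v : Fin ((2 * (n * (n * n))) * 2) → Fin n × Fin n) : Prop :=
  ∀ s : Fin (2 * (n * (n * n))), (∃ a b, RH H s a b) →
    RH H s (v (hubP s false)) (v (hubP s true))

theorem hubT_pos (s : Fin (2 * (n * (n * n)))) (b : Bool) :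
    hubT n (hubP s b) = arT (s.divNat : ℕ) s.modNat.divNat s.modNat.modNat.divNat
      s.modNat.modNat.modNat b := by
  have h1 : hubS (hubP s b) = s := by
    ext
    show (2 * (s : ℕ) + (if b then 1 else 0)) / 2 = s
    cases b
    · simp
    · simp
      omega
  have h2 : decide (((hubP s b : Fin ((2 * (n * (n * n))) * 2)) : ℕ) % 2 = 1) = b := by
    show decide ((2 * (s : ℕ) + (if b then 1 else 0)) % 2 = 1) = b
    cases b
    · simp
    · simp
  unfold hubT
  rw [h1, h2]

theorem hubR_fdef {H : SimpleGraph (Fin n)} {K : Kit H} {P : Fin n → K.W} (hB : Base K P)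
    (hm : Multi H) : FDef K (hubT n) (hubR H) := by
  unfold hubR
  apply FDef.all
  intro s
  by_cases h : ∃ a b, RH H s a b
  · have h1 := (ar_fdef hB hm (k := (s.divNat : ℕ)) (u := s.modNat.divNat)
      (v := s.modNat.modNat.divNat) (w := s.modNat.modNat.modNat) h).comap (tX' := hubT n)
      (hubP s) (fun b => by
        rw [hubT_pos]
        exact ⟨sim_refl H _, sim_refl H _⟩)
    refine h1.congr fun v => ?_
    constructor
    · intro h2 _
      exact h2
    · intro h2
      exact h2 h
  · have h1 : FDef K (hubT n) (fun v => ∀ e : Empty, (fun _ _ => False) e v) :=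
      FDef.all (fun e => e.elim)
    refine h1.congr fun v => ?_
    constructor
    · intro _ h2
      exact absurd h2 h
    · intro _ e
      exact e.elim

theorem rh_ty {H : SimpleGraph (Fin n)} {s : Fin (2 * (n * (n * n)))} {a b : Fin n × Fin n}
    (h : RH H s a b) : (Sim H a.1 (hubT n (hubP s false)).1 ∧ Sim H a.2 (hubT n (hubP s false)).2) ∧
      Sim H b.1 (hubT n (hubP s true)).1 ∧ Sim H b.2 (hubT n (hubP s true)).2 := by
  rw [hubT_pos, hubT_pos]
  obtain ⟨-, -, h1, h2, h3⟩ := h
  refine ⟨⟨h1, h2⟩, ?_⟩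
  unfold arT
  rw [if_pos rfl]
  split at h3
  · rename_i hk
    rw [if_pos hk]
    refine ⟨?_, h3.2.2⟩
    rw [h3.1]
    exact h1
  · rename_i hk
    rw [if_neg hk, h3]
    exact ⟨h2, h1⟩

end

end Pool.Agent.H24.GE
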