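import Pool.Agent.H24.GE.R2A

/-!
# JOB GE-20: solutions and tuples

`okL vT tT L`: all symbols used are valid (`vT`), and if a variable occurs in two positions then these have the
same type (`tT`).
`exists_ty`: number the classes of the equivalence relation (`Finite (Quotient s)`, `Finite.equivFin`).
`PT.okL'`: `PT.all'` twice, `PT.getD'`, `PT.or'`, `PT.not'`, `PT.decideEq`.
`exists_tabs`: `vT` is the table of `∃ a b, RH H s a b` (`List.ofFn`, classical `decide`), `tT` the table of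
`τ (hubT n j)`, `j : Fin (M * 2)`.
`okL_of_sat`: let `a` be a solution; a constraint `(s, (i, j))` of `L` has `RH H s (a i) (a j)`, so `s` is valid, and the
types of the positions `2 s`, `2 s + 1` are those of `a i`, `a j` (`rh_ty`); so two positions of the same variable
have the same type (`sim_trans`, `sim_symm`). `hubP s false` has the value `2 s`, `hubP s true` the value `2 s + 1`.
`okL_ty`: two entries `tupE c j`, `tupE c' j'` (`tupL_getD`) are equal only if both are codes of variables (first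
component `0`) or `j = j'` (first component `j + 1`). In the first case `j ∈ {2 s, 2 s + 1}`, `j' ∈ {2 s', 2 s' + 1}` and the
variables are equal: four cases by `okL` (one by symmetry).
`sat_iff`: (←) let `a` be a solution, `d` a fixed element, `a' (0, (i, _)) = a i` (for `i < N`, `d` otherwise) and
`a' (p + 1, _) = ` the entry `p % 2` of a fixed pair in the relation `RH H (p / 2)` (`d` if it is empty). The
condition `hubR H` for the constraint `(s, (i, j))` and the symbol `s'`: for `s' = s` it is `RH H s (a i) (a j)`, for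
`s' ≠ s` it is the fixed pair. (→) `a i = a' (0, (i, (0, 0)))`; take `s' = s`, it is valid by `hv`.
-/

namespace Pool.Agent.H24.GE

open Pool.Agent.H24.GC Pool.Agent.H24.GD Pool.Agent.PPS Pool.Agent.H64.Cook Pool.Agent.H79.Thr

/-- the condition on the positions of the constraints -/
def okL (vT : List Bool) (tT : List ℕ) (L : List (ℕ × (ℕ × ℕ))) : Bool :=
  (L.all fun c => vT.getD c.1 false) && (L.all fun c => L.all fun c' =>
    ((!(decide (c.2.1 = c'.2.1)) || decide (tT.getD (2 * c.1) 0 = tT.getD (2 * c'.1) 0)) &&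
    (!(decide (c.2.1 = c'.2.2)) || decide (tT.getD (2 * c.1) 0 = tT.getD (2 * c'.1 + 1) 0))) &&
    (!(decide (c.2.2 = c'.2.2)) || decide (tT.getD (2 * c.1 + 1) 0 = tT.getD (2 * c'.1 + 1) 0)))

theorem PT.okL' {m : Bool} {α : Type} [Rep α] (vT : List Bool) (tT : List ℕ)
    {L : α → List (ℕ × (ℕ × ℕ))} (hL : PT m L) : PT m (fun a => okL vT tT (L a)) := by
  have h1 : PT m (fun z : α × (ℕ × (ℕ × ℕ)) => vT.getD z.2.1 false) := by fun_prop
  have h2 : PT m (fun a => (L a).all fun c => vT.getD c.1 false) := PT.all' hL h1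
  have h3 : PT m (fun z : (α × (ℕ × (ℕ × ℕ))) × (ℕ × (ℕ × ℕ)) =>
    ((!(decide (z.1.2.2.1 = z.2.2.1)) ||
      decide (tT.getD (2 * z.1.2.1) 0 = tT.getD (2 * z.2.1) 0)) &&
    (!(decide (z.1.2.2.1 = z.2.2.2)) ||
      decide (tT.getD (2 * z.1.2.1) 0 = tT.getD (2 * z.2.1 + 1) 0))) &&
    (!(decide (z.1.2.2.2 = z.2.2.2)) ||
      decide (tT.getD (2 * z.1.2.1 + 1) 0 = tT.getD (2 * z.2.1 + 1) 0))) := by fun_prop
  have h4 := PT.all' (hL.comp' PT.fst) h3
  have h5 := PT.all' hL h4
  exact PT.and' h2 h5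

theorem exists_ty {V : Type} [Finite V] (H : SimpleGraph V) :
    ∃ τ : V × V → ℕ, ∀ a b, τ a = τ b ↔ Sim H a.1 b.1 ∧ Sim H a.2 b.2 := by
  let s : Setoid (V × V) :=
    { r := fun a b => Sim H a.1 b.1 ∧ Sim H a.2 b.2
      iseqv := ⟨fun a => ⟨sim_refl H _, sim_refl H _⟩,
        fun h => ⟨sim_symm h.1, sim_symm h.2⟩,
        fun h h' => ⟨sim_trans h.1 h'.1, sim_trans h.2 h'.2⟩⟩ }
  refine ⟨fun a => ((Finite.equivFin (Quotient s)) (Quotient.mk s a) : ℕ), fun a b => ?_⟩
  constructor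
  · intro h
    have h1 : (Finite.equivFin (Quotient s)) (Quotient.mk s a) =
      (Finite.equivFin (Quotient s)) (Quotient.mk s b) := Fin.ext h
    have h2 := (Finite.equivFin (Quotient s)).injective h1
    exact Quotient.exact h2
  · intro h
    have : Quotient.mk s a = Quotient.mk s b := Quotient.sound h
    simp only [this]

variable {n : ℕ}

/-- the tables of the valid symbols and of the types -/
structure Tabs (H : SimpleGraph (Fin n)) (vT : List Bool) (tT : List ℕ) : Prop where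
  val : ∀ s : Fin (2 * (n * (n * n))), vT.getD s false = true ↔ ∃ a b, RH H s a b
  ty : ∀ j j' : Fin ((2 * (n * (n * n))) * 2), tT.getD j 0 = tT.getD j' 0 ↔
    Sim H (hubT n j).1 (hubT n j').1 ∧ Sim H (hubT n j).2 (hubT n j').2

theorem r2b_getD {β : Type} {M : ℕ} (f : Fin M → β) (d : β) (j : Fin M) :
    (List.ofFn f).getD (j : ℕ) d = f j := by
  rw [List.getD_eq_getElem _ _ (by rw [List.length_ofFn]; exact j.2), List.getElem_ofFn]

theorem exists_tabs (H : SimpleGraph (Fin n)) : ∃ vT tT, Tabs H vT tT := by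
  classical
  obtain ⟨τ, hτ⟩ := exists_ty H
  refine ⟨List.ofFn fun s : Fin (2 * (n * (n * n))) => decide (∃ a b, RH H s a b),
    List.ofFn fun j : Fin ((2 * (n * (n * n))) * 2) => τ (hubT n j), ⟨fun s => ?_, fun j j' => ?_⟩⟩
  · rw [r2b_getD, decide_eq_true_eq]
  · rw [r2b_getD, r2b_getD, hτ]

theorem r2b_P0 (s : Fin (2 * (n * (n * n)))) : ((hubP s false : Fin _) : ℕ) = 2 * (s : ℕ) := by
  simp [hubP]

theorem r2b_P1 (s : Fin (2 * (n * (n * n)))) : ((hubP s true : Fin _) : ℕ) = 2 * (s : ℕ) + 1 := by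
  simp [hubP]

theorem okL_of_sat {H : SimpleGraph (Fin n)} {vT : List Bool} {tT : List ℕ} (hT : Tabs H vT tT)
    {N : ℕ} {x : List Bool} {a : Fin N → Fin n × Fin n}
    (ha : ∀ (s : Fin (2 * (n * (n * n)))) (i j : Fin N), ient x N s i j = true →
      RH H s (a i) (a j)) : okL vT tT (onL (2 * (n * (n * n))) N x) = true := by
  unfold okL
  rw [Bool.and_eq_true, List.all_eq_true, List.all_eq_true]
  constructor
  · rintro ⟨s, i, j⟩ hc
    obtain ⟨h1, h2, h3, h4⟩ := mem_onL.mp hc
    exact (hT.val ⟨s, h1⟩).mpr ⟨_, _, ha ⟨s, h1⟩ ⟨i, h2⟩ ⟨j, h3⟩ h4⟩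
  · rintro ⟨s, i, j⟩ hc
    rw [List.all_eq_true]
    rintro ⟨s', i', j'⟩ hc'
    obtain ⟨h1, h2, h3, h4⟩ := mem_onL.mp hc
    obtain ⟨h1', h2', h3', h4'⟩ := mem_onL.mp hc'
    dsimp only at h1 h2 h3 h4 h1' h2' h3' h4'
    obtain ⟨p, q⟩ := rh_ty (ha ⟨s, h1⟩ ⟨i, h2⟩ ⟨j, h3⟩ h4)
    obtain ⟨p', q'⟩ := rh_ty (ha ⟨s', h1'⟩ ⟨i', h2'⟩ ⟨j', h3'⟩ h4')
    have e0 := r2b_P0 (n := n) ⟨s, h1⟩
    have e1 := r2b_P1 (n := n) ⟨s, h1⟩
    have e0' := r2b_P0 (n := n) ⟨s', h1'⟩
    have e1' := r2b_P1 (n := n) ⟨s', h1'⟩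
    dsimp only at e0 e1 e0' e1'
    simp only [Bool.and_eq_true, Bool.or_eq_true, Bool.not_eq_true', decide_eq_false_iff_not,
      decide_eq_true_eq]
    rw [← e1, ← e1', ← e0, ← e0', hT.ty, hT.ty, hT.ty]
    refine ⟨⟨?_, ?_⟩, ?_⟩
    · by_cases hij : i = i'
      · subst hij
        exact Or.inr ⟨sim_trans (sim_symm p.1) p'.1, sim_trans (sim_symm p.2) p'.2⟩
      · exact Or.inl hij
    · by_cases hij : i = j'
      · subst hij
        exact Or.inr ⟨sim_trans (sim_symm p.1) q'.1, sim_trans (sim_symm p.2) q'.2⟩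
      · exact Or.inl hij
    · by_cases hij : j = j'
      · subst hij
        exact Or.inr ⟨sim_trans (sim_symm q.1) q'.1, sim_trans (sim_symm q.2) q'.2⟩
      · exact Or.inl hij

/-- values of `tupE` -/
theorem r2b_tupE (s i j p : ℕ) : tupE (s, (i, j)) p =
    if p = 2 * s then (0, (i, (0, 0))) else if p = 2 * s + 1 then (0, (j, (0, 0)))
      else (p + 1, (s, (i, j))) := by
  unfold tupE
  by_cases h : p = 2 * s
  · simp [h]
  · by_cases h' : p = 2 * s + 1
    · simp [h']
    · simp [h, h']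

theorem okL_ty {H : SimpleGraph (Fin n)} {vT : List Bool} {tT : List ℕ} (hT : Tabs H vT tT)
    {N : ℕ} {x : List Bool} (hok : okL vT tT (onL (2 * (n * (n * n))) N x) = true)
    {e e' : List (ℕ × (ℕ × (ℕ × ℕ)))}
    (he : e ∈ (onL (2 * (n * (n * n))) N x).map (tupL (2 * (n * (n * n)))))
    (he' : e' ∈ (onL (2 * (n * (n * n))) N x).map (tupL (2 * (n * (n * n)))))
    {j j' : Fin ((2 * (n * (n * n))) * 2)} (h : e.getD (j : ℕ) default = e'.getD (j' : ℕ) default) :
    Sim H (hubT n j).1 (hubT n j').1 ∧ Sim H (hubT n j).2 (hubT n j').2 := by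
  obtain ⟨⟨s, u, v⟩, hc, rfl⟩ := List.mem_map.mp he
  obtain ⟨⟨s', u', v'⟩, hc', rfl⟩ := List.mem_map.mp he'
  rw [tupL_getD, tupL_getD, r2b_tupE, r2b_tupE] at h
  have hok2 : ∀ s u v s' u' v', (s, (u, v)) ∈ onL (2 * (n * (n * n))) N x →
      (s', (u', v')) ∈ onL (2 * (n * (n * n))) N x →
      (u = u' → tT.getD (2 * s) 0 = tT.getD (2 * s') 0) ∧
      (u = v' → tT.getD (2 * s) 0 = tT.getD (2 * s' + 1) 0) ∧
      (v = v' → tT.getD (2 * s + 1) 0 = tT.getD (2 * s' + 1) 0) := by
    intro s u v s' u' v' hc hc'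
    unfold okL at hok
    rw [Bool.and_eq_true, List.all_eq_true, List.all_eq_true] at hok
    have h1 := hok.2 _ hc
    rw [List.all_eq_true] at h1
    have h2 := h1 _ hc'
    simp only [Bool.and_eq_true, Bool.or_eq_true, Bool.not_eq_true', decide_eq_false_iff_not,
      decide_eq_true_eq] at h2
    tauto
  rw [← hT.ty]
  by_cases a0 : (j : ℕ) = 2 * s
  · rw [if_pos a0] at h
    by_cases b0 : (j' : ℕ) = 2 * s'
    · rw [if_pos b0] at h
      rw [a0, b0]
      exact (hok2 _ _ _ _ _ _ hc hc').1 (by simpa using h)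
    · rw [if_neg b0] at h
      by_cases b1 : (j' : ℕ) = 2 * s' + 1
      · rw [if_pos b1] at h
        rw [a0, b1]
        exact (hok2 _ _ _ _ _ _ hc hc').2.1 (by simpa using h)
      · rw [if_neg b1] at h
        have := congrArg Prod.fst h
        simp at this
  · rw [if_neg a0] at h
    by_cases a1 : (j : ℕ) = 2 * s + 1
    · rw [if_pos a1] at h
      by_cases b0 : (j' : ℕ) = 2 * s'
      · rw [if_pos b0] at h
        rw [a1, b0]
        exact ((hok2 _ _ _ _ _ _ hc' hc).2.1 (by simpa using h.symm)).symm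
      · rw [if_neg b0] at h
        by_cases b1 : (j' : ℕ) = 2 * s' + 1
        · rw [if_pos b1] at h
          rw [a1, b1]
          exact (hok2 _ _ _ _ _ _ hc hc').2.2 (by simpa using h)
        · rw [if_neg b1] at h
          have := congrArg Prod.fst h
          simp at this
    · rw [if_neg a1] at h
      by_cases b0 : (j' : ℕ) = 2 * s'
      · rw [if_pos b0] at h
        have := congrArg Prod.fst h
        simp at this
      · rw [if_neg b0] at h
        by_cases b1 : (j' : ℕ) = 2 * s' + 1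
        · rw [if_pos b1] at h
          have := congrArg Prod.fst h
          simp at this
        · rw [if_neg b1] at h
          have := congrArg Prod.fst h
          simp only [Nat.add_right_cancel_iff] at this
          rw [this]

theorem sat_iff (hn : 0 < n) {H : SimpleGraph (Fin n)} {N : ℕ} {x : List Bool}
    (hv : ∀ c ∈ onL (2 * (n * (n * n))) N x, ∀ hc : c.1 < 2 * (n * (n * n)),
      ∃ a b, RH H ⟨c.1, hc⟩ a b) :
    (∃ a : ℕ × (ℕ × (ℕ × ℕ)) → Fin n × Fin n,
      ∀ e ∈ (onL (2 * (n * (n * n))) N x).map (tupL (2 * (n * (n * n)))),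
        hubR H (fun j => a (e.getD (j : ℕ) default))) ↔
    ∃ a : Fin N → Fin n × Fin n, ∀ (s : Fin (2 * (n * (n * n)))) (i j : Fin N),
      ient x N s i j = true → RH H s (a i) (a j) := by
  classical
  constructor
  · rintro ⟨a, ha⟩
    refine ⟨fun i => a (0, (i, (0, 0))), fun s i j hij => ?_⟩
    have hc : ((s : ℕ), ((i : ℕ), (j : ℕ))) ∈ onL (2 * (n * (n * n))) N x :=
      mem_onL.mpr ⟨s.2, i.2, j.2, hij⟩
    have h1 := ha _ (List.mem_map.mpr ⟨_, hc, rfl⟩) s (hv _ hc s.2)
    dsimp only at h1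
    rw [tupL_getD, tupL_getD, r2b_tupE, r2b_tupE, r2b_P0, r2b_P1, if_pos rfl,
      if_neg (by omega), if_pos rfl] at h1
    exact h1
  · rintro ⟨a, ha⟩
    let d : Fin n × Fin n := (⟨0, hn⟩, ⟨0, hn⟩)
    let F : ℕ → Bool → Fin n × Fin n := fun s b =>
      if h : ∃ hs : s < 2 * (n * (n * n)), ∃ a b, RH H ⟨s, hs⟩ a b then
        (if b then h.choose_spec.choose_spec.choose else h.choose_spec.choose) else d
    have hF : ∀ (s : Fin (2 * (n * (n * n)))), (∃ a b, RH H s a b) →
        RH H s (F s false) (F s true) := by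
      intro s hs
      have h : ∃ hs : (s : ℕ) < 2 * (n * (n * n)), ∃ a b, RH H ⟨s, hs⟩ a b := ⟨s.2, hs⟩
      have e0 : F s false = h.choose_spec.choose := by
        show (if h : ∃ hs : (s : ℕ) < 2 * (n * (n * n)), ∃ a b, RH H ⟨s, hs⟩ a b then
          (if false then h.choose_spec.choose_spec.choose else h.choose_spec.choose) else d) = _
        rw [dif_pos h]
        rfl
      have e1 : F s true = h.choose_spec.choose_spec.choose := by
        show (if h : ∃ hs : (s : ℕ) < 2 * (n * (n * n)), ∃ a b, RH H ⟨s, hs⟩ a b then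
          (if true then h.choose_spec.choose_spec.choose else h.choose_spec.choose) else d) = _
        rw [dif_pos h]
        rfl
      rw [e0, e1]
      exact h.choose_spec.choose_spec.choose_spec
    let A : ℕ × (ℕ × (ℕ × ℕ)) → Fin n × Fin n := fun z =>
      if z.1 = 0 then (if h : z.2.1 < N then a ⟨z.2.1, h⟩ else d)
      else F ((z.1 - 1) / 2) (decide ((z.1 - 1) % 2 = 1))
    refine ⟨A, fun e he s' hs' => ?_⟩
    obtain ⟨⟨s, u, v⟩, hc, rfl⟩ := List.mem_map.mp he
    dsimp only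
    rw [tupL_getD, tupL_getD, r2b_tupE, r2b_tupE, r2b_P0, r2b_P1]
    obtain ⟨h1, h2, h3, h4⟩ := mem_onL.mp hc
    dsimp only at h1 h2 h3 h4
    by_cases hss : (s' : ℕ) = s
    · rw [if_pos (by omega), if_neg (by omega), if_pos (by omega)]
      have e0 : A (0, (u, (0, 0))) = a ⟨u, h2⟩ := by
        show (if (0 : ℕ) = 0 then (if h : u < N then a ⟨u, h⟩ else d) else _) = _
        rw [if_pos rfl, dif_pos h2]
      have e1 : A (0, (v, (0, 0))) = a ⟨v, h3⟩ := by
        show (if (0 : ℕ) = 0 then (if h : v < N then a ⟨v, h⟩ else d) else _) = _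
        rw [if_pos rfl, dif_pos h3]
      rw [e0, e1]
      apply ha
      rw [hss]
      exact h4
    · rw [if_neg (by omega), if_neg (by omega), if_neg (by omega), if_neg (by omega)]
      have e0 : A (2 * (s' : ℕ) + 1, (s, (u, v))) = F s' false := by
        show (if 2 * (s' : ℕ) + 1 = 0 then _ else
          F ((2 * (s' : ℕ) + 1 - 1) / 2) (decide ((2 * (s' : ℕ) + 1 - 1) % 2 = 1))) = _
        rw [if_neg (by omega)]
        have q1 : (2 * (s' : ℕ) + 1 - 1) / 2 = s' := by omega
        have q2 : ¬ ((2 * (s' : ℕ) + 1 - 1) % 2 = 1) := by omega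
        rw [q1, decide_eq_false q2]
      have e1 : A (2 * (s' : ℕ) + 1 + 1, (s, (u, v))) = F s' true := by
        show (if 2 * (s' : ℕ) + 1 + 1 = 0 then _ else
          F ((2 * (s' : ℕ) + 1 + 1 - 1) / 2) (decide ((2 * (s' : ℕ) + 1 + 1 - 1) % 2 = 1))) = _
        rw [if_neg (by omega)]
        have q1 : (2 * (s' : ℕ) + 1 + 1 - 1) / 2 = s' := by omega
        have q2 : ((2 * (s' : ℕ) + 1 + 1 - 1) % 2 = 1) := by omega
        rw [q1, decide_eq_true q2]
      rw [e0, e1]
      exact hF s' hs'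

end Pool.Agent.H24.GE
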