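import Pool.Agent.H24.GE.TW

/-!
# JOB GE-6: periodic arrangements of classes, stability

`Per H U`: infinitely many copies `{i} × U` of a connected arrangement `U` of classes in a row; the
position `(i, uo)` is linked to `(i + 1, ui)`. The points over a set `X` of positions are the pairs `(x, q)` with
`q ∈ X`, `x` in the class of `q` (`Sim H x (cl q)`); two points are joined by a step `Stp` if the positions are
neighbours and the vertices are adjacent; `Cn` is connectedness.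

(0) `Stp` is symmetric, so `Cn` is symmetric (`ReflTransGen`).
(1) If `q, q'` are neighbouring positions in `X` and `x` is in the class of `q` there is a step from `(x, q)` to
some `(x', q')` (`CA`, `ca_left`). So if `X ⊆ Y`, `Y` is connected (as a set of positions) and `X ≠ ∅`, every point
over `Y` is connected over `Y` to a point over `X`. Let `c X` be the number of the classes of `Cn` on the points
over `X` (finite for finite `X`). Then `c Y ≤ c X`, and if `c Y = c X` then points over `X` which are connected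
over `Y` are connected over `X` (the map from the classes over `X` to the classes over `Y` is surjective, so
injective).
(2) `c {q | a ≤ q.1 ≤ b}` depends only on `b - a` (shift) and is decreasing in `b - a` (windows are connected:
`conn` and the links). So there is `m₀` with `c (window of length b - a) = c∞` for all `b - a ≥ m₀`.
(3) `stab`: let `W = {q | a ≤ q.1 ≤ b}`, `C = {q | c ≤ q.1 ≤ c + m₀} ⊆ X ⊆ W`. By (1) `c W ≤ c X ≤ c C`, and
`c W = c C = c∞`. So `c W = c X`, and (1) gives the statement.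
-/

namespace Pool.Agent.H24.GE

open Pool.Agent.H24.GC Pool.Agent.H24.GD

variable {V : Type} {H : SimpleGraph V}

/-- a periodic arrangement of classes -/
structure Per (H : SimpleGraph V) (U : Type) where
  cl : U → V
  S : U → U → Prop
  symm : ∀ u v, S u v → S v u
  ui : U
  uo : U
  ca : ∀ u v, S u v → CA H (cl u) (cl v)
  ca' : CA H (cl uo) (cl ui)
  conn : ∀ u v, Relation.ReflTransGen S u v

/-- neighbouring positions -/
def Per.Sg {U : Type} (R : Per H U) (a b : ℤ × U) : Prop :=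
  (a.1 = b.1 ∧ R.S a.2 b.2) ∨ (b.1 = a.1 + 1 ∧ a.2 = R.uo ∧ b.2 = R.ui) ∨
    (a.1 = b.1 + 1 ∧ b.2 = R.uo ∧ a.2 = R.ui)

/-- a step over the set `X` of positions -/
def Stp {P : Type} (H : SimpleGraph V) (cl : P → V) (Sg : P → P → Prop) (X : Set P)
    (a b : V × P) : Prop :=
  a.2 ∈ X ∧ b.2 ∈ X ∧ Sg a.2 b.2 ∧ H.Adj a.1 b.1 ∧ Sim H a.1 (cl a.2) ∧ Sim H b.1 (cl b.2)

/-- connected over `X` -/
def Cn {P : Type} (H : SimpleGraph V) (cl : P → V) (Sg : P → P → Prop) (X : Set P)
    (a b : V × P) : Prop :=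
  Relation.ReflTransGen (Stp H cl Sg X) a b

/-- the class of a position -/
def Per.clz {U : Type} (R : Per H U) (a : ℤ × U) : V := R.cl a.2

/-- the positions `a, ..., b` -/
def win (U : Type) (a b : ℤ) : Set (ℤ × U) := {q | a ≤ q.1 ∧ q.1 ≤ b}

theorem stab_rtg_symm {α : Type} {r : α → α → Prop} (hr : ∀ a b, r a b → r b a) {a b : α}
    (h : Relation.ReflTransGen r a b) : Relation.ReflTransGen r b a := by
  induction h with
  | refl => exact Relation.ReflTransGen.refl
  | tail _ hbc ih => exact Relation.ReflTransGen.head (hr _ _ hbc) ih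

theorem stab_Sg_symm {U : Type} (R : Per H U) {a b : ℤ × U} (h : R.Sg a b) : R.Sg b a := by
  rcases h with ⟨h1, h2⟩ | h | h
  · exact Or.inl ⟨h1.symm, R.symm _ _ h2⟩
  · exact Or.inr (Or.inr h)
  · exact Or.inr (Or.inl h)

theorem stab_Cn_symm {U : Type} (R : Per H U) {X : Set (ℤ × U)} {s t : V × (ℤ × U)}
    (h : Cn H R.clz R.Sg X s t) : Cn H R.clz R.Sg X t s := by
  refine stab_rtg_symm ?_ h
  rintro a b ⟨h1, h2, h3, h4, h5, h6⟩
  exact ⟨h2, h1, stab_Sg_symm R h3, h4.symm, h6, h5⟩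

theorem stab_Cn_mono {U : Type} (R : Per H U) {X Y : Set (ℤ × U)} (hXY : X ⊆ Y)
    {s t : V × (ℤ × U)} (h : Cn H R.clz R.Sg X s t) : Cn H R.clz R.Sg Y s t := by
  refine Relation.ReflTransGen.mono ?_ _ _ h
  rintro a b ⟨h1, h2, h3⟩
  exact ⟨hXY h1, hXY h2, h3⟩

theorem stab_CA [Finite V] {U : Type} (R : Per H U) {a b : ℤ × U} (h : R.Sg a b) :
    CA H (R.clz a) (R.clz b) := by
  unfold Per.clz
  rcases h with ⟨_, h2⟩ | ⟨_, h1, h2⟩ | ⟨_, h1, h2⟩
  · exact R.ca _ _ h2
  · rw [h1, h2]; exact R.ca'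
  · rw [h1, h2]; exact ca_symm R.ca'

/-- connected sets of positions -/
def StabConn {U : Type} (R : Per H U) (Y : Set (ℤ × U)) : Prop :=
  ∀ p ∈ Y, ∀ q ∈ Y, Relation.ReflTransGen (fun s t => s ∈ Y ∧ t ∈ Y ∧ R.Sg s t) p q

theorem stab_reach [Finite V] {U : Type} (R : Per H U) {Y : Set (ℤ × U)} {p q : ℤ × U}
    (h : Relation.ReflTransGen (fun s t => s ∈ Y ∧ t ∈ Y ∧ R.Sg s t) p q) {x : V}
    (hx : Sim H x (R.clz p)) :
    ∃ x', Sim H x' (R.clz q) ∧ Cn H R.clz R.Sg Y (x, p) (x', q) := by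
  induction h with
  | refl => exact ⟨x, hx, Relation.ReflTransGen.refl⟩
  | tail _ hbc ih =>
    obtain ⟨x', hx', hc⟩ := ih
    obtain ⟨hb, hc', hs⟩ := hbc
    obtain ⟨y, hy, hy'⟩ := ca_left (stab_CA R hs) hx'
    exact ⟨y, hy', hc.tail ⟨hb, hc', hs, hy, hx', hy'⟩⟩

/-- the points over `X` -/
def StabPt {U : Type} (R : Per H U) (X : Set (ℤ × U)) : Type :=
  {s : V × (ℤ × U) // s.2 ∈ X ∧ Sim H s.1 (R.clz s.2)}

/-- connectedness of the points over `X` -/
def stabS {U : Type} (R : Per H U) (X : Set (ℤ × U)) : Setoid (StabPt R X) where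
  r s t := Cn H R.clz R.Sg X s.1 t.1
  iseqv := ⟨fun _ => Relation.ReflTransGen.refl, fun h => stab_Cn_symm R h,
    fun h h' => Relation.ReflTransGen.trans h h'⟩

/-- the number of the classes -/
noncomputable def stabC {U : Type} (R : Per H U) (X : Set (ℤ × U)) : ℕ :=
  Nat.card (Quotient (stabS R X))

theorem stab_fin [Finite V] {U : Type} (R : Per H U) {X : Set (ℤ × U)} (hX : X.Finite) :
    Finite (Quotient (stabS R X)) := by
  have : Finite (StabPt R X) := by
    have h : (Set.univ ×ˢ X : Set (V × (ℤ × U))).Finite := Set.Finite.prod Set.finite_univ hX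
    exact Set.Finite.subset h (fun s hs => ⟨Set.mem_univ _, hs.1⟩)
  exact inferInstance

/-- the map induced by an inclusion -/
def stabM {U : Type} (R : Per H U) {X Y : Set (ℤ × U)} (hXY : X ⊆ Y) :
    Quotient (stabS R X) → Quotient (stabS R Y) :=
  Quotient.map (fun s => (⟨s.1, hXY s.2.1, s.2.2⟩ : StabPt R Y))
    (fun _ _ h => stab_Cn_mono R hXY h)

theorem stab_surj [Finite V] {U : Type} (R : Per H U) {X Y : Set (ℤ × U)} (hXY : X ⊆ Y)
    (hX : X.Nonempty) (hY : StabConn R Y) : Function.Surjective (stabM R hXY) := by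
  intro t
  induction t using Quotient.inductionOn with
  | h t =>
    obtain ⟨q, hq⟩ := hX
    obtain ⟨x', hx', hc⟩ := stab_reach R (hY _ t.2.1 q (hXY hq)) t.2.2
    refine ⟨Quotient.mk _ (⟨(x', q), hq, hx'⟩ : StabPt R X), ?_⟩
    exact Quotient.sound (stab_Cn_symm R hc)

theorem stab_le [Finite V] {U : Type} (R : Per H U) {X Y : Set (ℤ × U)} (hXY : X ⊆ Y)
    (hX : X.Nonempty) (hY : StabConn R Y) (hXf : X.Finite) : stabC R Y ≤ stabC R X := by
  haveI := stab_fin R hXf
  exact Nat.card_le_card_of_surjective _ (stab_surj R hXY hX hY)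

theorem stab_inj [Finite V] {U : Type} (R : Per H U) {X Y : Set (ℤ × U)} (hXY : X ⊆ Y)
    (hX : X.Nonempty) (hY : StabConn R Y) (hXf : X.Finite) (hle : stabC R X ≤ stabC R Y)
    (s t : V × (ℤ × U)) (hs : s.2 ∈ X) (ht : t.2 ∈ X) (hs' : Sim H s.1 (R.clz s.2))
    (ht' : Sim H t.1 (R.clz t.2)) (h : Cn H R.clz R.Sg Y s t) : Cn H R.clz R.Sg X s t := by
  haveI := stab_fin R hXf
  have hb := (stab_surj R hXY hX hY).bijective_of_nat_card_le hle
  have := hb.1 (a₁ := Quotient.mk _ (⟨s, hs, hs'⟩ : StabPt R X))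
    (a₂ := Quotient.mk _ (⟨t, ht, ht'⟩ : StabPt R X)) (Quotient.sound h)
  exact Quotient.exact this

theorem stab_shift_Cn {U : Type} (R : Per H U) (a b k : ℤ) {s t : V × (ℤ × U)}
    (h : Cn H R.clz R.Sg (win U a b) s t) :
    Cn H R.clz R.Sg (win U (a + k) (b + k)) (s.1, (s.2.1 + k, s.2.2)) (t.1, (t.2.1 + k, t.2.2)) := by
  refine Relation.ReflTransGen.lift (fun s : V × (ℤ × U) => (s.1, (s.2.1 + k, s.2.2))) ?_ _ _ h
  rintro s t ⟨h1, h2, h3, h4, h5, h6⟩
  refine ⟨⟨?_, ?_⟩, ⟨?_, ?_⟩, ?_, h4, h5, h6⟩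
  · have := h1.1; simp only; omega
  · have := h1.2; simp only; omega
  · have := h2.1; simp only; omega
  · have := h2.2; simp only; omega
  · rcases h3 with ⟨h1, h2⟩ | ⟨h1, h2⟩ | ⟨h1, h2⟩
    · exact Or.inl ⟨by simp only; omega, h2⟩
    · exact Or.inr (Or.inl ⟨by simp only; omega, h2⟩)
    · exact Or.inr (Or.inr ⟨by simp only; omega, h2⟩)

theorem stab_winfin (U : Type) [Finite U] (a b : ℤ) : (win U a b).Finite := by
  have h : (Set.Icc a b ×ˢ (Set.univ : Set U)).Finite :=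
    Set.Finite.prod (Set.finite_Icc a b) Set.finite_univ
  exact h.subset (fun q hq => ⟨hq, Set.mem_univ _⟩)

theorem stab_shift_le [Finite V] {U : Type} [Finite U] (R : Per H U) (a b k : ℤ) :
    stabC R (win U (a + k) (b + k)) ≤ stabC R (win U a b) := by
  haveI := stab_fin R (stab_winfin U a b)
  have hm : ∀ s : StabPt R (win U a b), (s.1.2.1 + k, s.1.2.2) ∈ win U (a + k) (b + k) := by
    intro s
    have h := s.2.1
    exact ⟨by have := h.1; simp only; omega, by have := h.2; simp only; omega⟩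
  let f : StabPt R (win U a b) → StabPt R (win U (a + k) (b + k)) :=
    fun s => ⟨(s.1.1, (s.1.2.1 + k, s.1.2.2)), hm s, s.2.2⟩
  let g : Quotient (stabS R (win U a b)) → Quotient (stabS R (win U (a + k) (b + k))) :=
    Quotient.map f (fun s t h => stab_shift_Cn R a b k h)
  refine Nat.card_le_card_of_surjective g ?_
  intro t
  obtain ⟨t, rfl⟩ := Quotient.exists_rep t
  have h1 := t.2.1
  have h2 : (t.1.2.1 - k, t.1.2.2) ∈ win U a b :=
    ⟨by have := h1.1; simp only; omega, by have := h1.2; simp only; omega⟩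
  refine ⟨Quotient.mk _ (⟨(t.1.1, (t.1.2.1 - k, t.1.2.2)), h2, t.2.2⟩ : StabPt R (win U a b)), ?_⟩
  apply congrArg (Quotient.mk _)
  apply Subtype.ext
  refine Prod.ext rfl (Prod.ext ?_ rfl)
  simp [f]

theorem stab_shift [Finite V] {U : Type} [Finite U] (R : Per H U) (a : ℤ) (m : ℕ) :
    stabC R (win U a (a + m)) = stabC R (win U 0 m) := by
  apply le_antisymm
  · have h := stab_shift_le R 0 m a
    rwa [zero_add, add_comm (m : ℤ) a] at h
  · have h := stab_shift_le R a (a + m) (-a)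
    have e1 : a + -a = 0 := by ring
    have e2 : a + (m : ℤ) + -a = m := by ring
    rwa [e1, e2] at h

theorem stab_row {U : Type} (R : Per H U) {a b i : ℤ} (hi : a ≤ i) (hi' : i ≤ b) (u v : U) :
    Relation.ReflTransGen (fun s t => s ∈ win U a b ∧ t ∈ win U a b ∧ R.Sg s t) (i, u) (i, v) := by
  refine Relation.ReflTransGen.lift (fun u : U => (i, u)) ?_ _ _ (R.conn u v)
  intro u v h
  exact ⟨⟨hi, hi'⟩, ⟨hi, hi'⟩, Or.inl ⟨rfl, h⟩⟩

theorem stab_up {U : Type} (R : Per H U) {a b : ℤ} (n : ℕ) : ∀ (i : ℤ) (u v : U), a ≤ i →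
    i + n ≤ b → Relation.ReflTransGen (fun s t => s ∈ win U a b ∧ t ∈ win U a b ∧ R.Sg s t)
      (i, u) (i + n, v) := by
  induction n with
  | zero =>
    intro i u v h1 h2
    rw [Nat.cast_zero, add_zero] at h2 ⊢
    exact stab_row R h1 h2 u v
  | succ n ih =>
    intro i u v h1 h2
    push_cast at h2 ⊢
    have h3 := ih i u R.uo h1 (by omega)
    refine (h3.tail (c := (i + (n + 1), R.ui)) ?_).trans (stab_row R (by omega) (by omega) _ _)
    refine ⟨⟨by simp only; omega, by simp only; omega⟩, ⟨by simp only; omega, by simp only; omega⟩,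
      Or.inr (Or.inl ⟨by simp only; ring, rfl, rfl⟩)⟩

theorem stab_winconn {U : Type} (R : Per H U) (a b : ℤ) : StabConn R (win U a b) := by
  have key : ∀ p ∈ win U a b, ∀ q ∈ win U a b, p.1 ≤ q.1 →
      Relation.ReflTransGen (fun s t => s ∈ win U a b ∧ t ∈ win U a b ∧ R.Sg s t) p q := by
    intro p hp q hq h
    obtain ⟨n, hn⟩ := Int.eq_ofNat_of_zero_le (sub_nonneg.2 h)
    have e : q.1 = p.1 + n := by omega
    have h1 := stab_up R (a := a) (b := b) n p.1 p.2 q.2 hp.1 (by rw [← e]; exact hq.2)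
    rw [← e] at h1
    exact h1
  intro p hp q hq
  rcases le_total p.1 q.1 with h | h
  · exact key p hp q hq h
  · refine stab_rtg_symm ?_ (key q hq p hp h)
    rintro a b ⟨h1, h2, h3⟩
    exact ⟨h2, h1, stab_Sg_symm R h3⟩

theorem stab [Finite V] {U : Type} [Finite U] (R : Per H U) : ∃ m₀ : ℕ,
    ∀ (a b c : ℤ) (X : Set (ℤ × U)), a ≤ c → c + m₀ ≤ b → X ⊆ win U a b →
      win U c (c + m₀) ⊆ X →
      (∀ p ∈ X, ∀ q ∈ X, Relation.ReflTransGen (fun s t => s ∈ X ∧ t ∈ X ∧ R.Sg s t) p q) →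
      ∀ s t : V × (ℤ × U), s.2 ∈ X → t.2 ∈ X → Sim H s.1 (R.clz s.2) → Sim H t.1 (R.clz t.2) →
        Cn H R.clz R.Sg (win U a b) s t → Cn H R.clz R.Sg X s t := by
  obtain ⟨m₀, hm₀⟩ : ∃ m₀ : ℕ, ∀ m : ℕ, stabC R (win U 0 m₀) ≤ stabC R (win U 0 m) := by
    obtain ⟨v, ⟨m₀, rfl⟩, hv⟩ := WellFounded.has_min (wellFounded_lt : WellFounded (α := ℕ) (· < ·))
      (Set.range (fun m : ℕ => stabC R (win U 0 m))) (Set.range_nonempty _)
    exact ⟨m₀, fun m => not_lt.1 (hv _ ⟨m, rfl⟩)⟩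
  refine ⟨m₀, ?_⟩
  intro a b c X h1 h2 h3 h4 hX s t hs ht hs' ht' h
  have hne : (win U c (c + m₀)).Nonempty := ⟨(c, R.ui), ⟨le_refl _, by simp⟩⟩
  have hXf : X.Finite := (stab_winfin U a b).subset h3
  have e1 := stab_le R h4 hne hX (stab_winfin U _ _)
  rw [stab_shift] at e1
  obtain ⟨n, hn⟩ := Int.eq_ofNat_of_zero_le (show 0 ≤ b - a by omega)
  have hb : b = a + n := by omega
  have e2 : stabC R (win U 0 m₀) ≤ stabC R (win U a b) := by
    rw [hb, stab_shift]
    exact hm₀ n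
  exact stab_inj R h3 (hne.mono h4) (stab_winconn R a b) hXf (e1.trans e2) s t hs ht hs' ht' h

end Pool.Agent.H24.GE
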