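import Pool.Agent.H24.GE.Csp
import Pool.Agent.H24.GD.FDef
import Pool.Agent.H24.GD.Tie

/-!
# JOB GE-13: the relations of the template are definable

`K` is a kit with the base vertices `P` (`Base`, file `Pool.Agent.H24.GD.KitAll`), `Multi H` (file
`Pool.Agent.H24.GD.Tie`). For `BDef`, `FDef`: the headers of `Pool.Agent.H24.GC.BDef`, `Pool.Agent.H24.GD.FDef`.

`eq_def`: `base_tail'` for `v, c, c` and `base_head'` for `c, v, v` (with `hc.symm`), `BDef.and`, `BDef.congr`: two arcs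
with the same tail and the same head are equal.
`rev_def`: `base_ht' (v := c) (c := v) (c' := v)` is a definition of `IsC (v, c) a ∧ IsC (c, v) b ∧ a.2 = b.1` (types
`(v, c)`, `(c, v)`), and `base_ht' (v := v) (c := c) (c' := c)` with exchanged arguments (`BDef.symm`) is one of
`b.2 = a.1`; `BDef.and`, `BDef.congr`.
`pair_def`: let `H.Adj x y`, `H.Adj x z`, `y ≠ z`. `p = P x`, `q₀, q₁` the neighbours of `p` over `y`, `z` (`lift_adj`),
`q₀ ≠ q₁`. Take `Z = Bool`, `Q = Unit`, `tZ = fun b => if b then (x, z) else (x, y)`, `ar = fun b => if b then (p, q₁) else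
(p, q₀)` (straight by `Base.str1`; the conditions on different arcs: `q₀ ≠ q₁`, and `(p, q₀) ≠ (q₁, p)` as `p ≠ q₁`),
`R' w = (w (inl false) = w (inr false) ∧ IsC H (x, y) (w (inl false))) ∧ (w (inl true) = w (inr true) ∧
IsC H (x, z) (w (inl true)))`: `PDef` by `PDef.and` and `PDef.comap` (of `eq_def`, maps
`Bool → Bool ⊕ Bool`, `fun b => if b then inr false else inl false` and similarly). The values `y` of the terminals
are the values `v`. If `v false = a`, `v true = b` then there is a cover `f` with `(f p, f q₀) = a`,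
`(f p, f q₁) = b` iff `a.1 = b.1`, `a.2 ≠ b.2` (if `IsC H (x, y) a`, `IsC H (x, z) b`): `star_cover`
(file `Pool.Agent.H24.GC.Star`), `cover_sim`, and a cover is injective on the neighbours of `p`.
`ar_fdef`: `k ≠ 0`: `rev_def` for `v := u`, `c :=` a neighbour `y` of `u` which is similar to `v` (from `hne` and
`StepDef_nbr`, file `Pool.Agent.H24.GC.StepDef`), then change the types (`bdef_ty`) and `FDef.of_pdef`;
`IsC H (u, y)`, `IsC H (u, v)` are equivalent as `Sim H y v` (`sim_trans`, `sim_symm`). `k = 0`: `hne` gives `x ~ u` and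
two different neighbours `y', z'` of `x`, similar to `v, w`. There are two different neighbours `y, z` of `u`
similar to `v, w`: by `cp_two` (file `Pool.Agent.H24.GC.Perm`), or by `StepDef_nbr` if `v, w` are not similar, and by
`nbc_ncard` if they are. `pair_def` for `u, y, z`, `FDef.comap` with `id` for the change of the types.
-/

namespace Pool.Agent.H24.GE

open Pool.Agent.H24.GC Pool.Agent.H24.GD

variable {V : Type} {H : SimpleGraph V}

theorem eq_def [Finite V] {K : Kit H} {P : V → K.W} (hB : Base K P) (hm : Multi H) {v c : V}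
    (hc : H.Adj v c) : BDef K (v, c) (v, c) (fun a b => IsC H (v, c) a ∧ a = b) := by
  have h1 := base_tail' hB hm hc hc
  have h2 := base_head' hB hm hc.symm hc.symm
  refine (h1.and h2).congr fun a b => ?_
  constructor
  · rintro ⟨⟨h3, -, h4⟩, ⟨-, -, h5⟩⟩
    exact ⟨h3, Prod.ext h4 h5⟩
  · rintro ⟨h3, rfl⟩
    exact ⟨⟨h3, h3, rfl⟩, ⟨h3, h3, rfl⟩⟩

theorem rev_def [Finite V] {K : Kit H} {P : V → K.W} (hB : Base K P) (hm : Multi H) {v c : V}
    (hc : H.Adj v c) :
    BDef K (v, c) (c, v) (fun a b => IsC H (v, c) a ∧ b = (a.2, a.1)) := by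
  have h1 := base_ht' hB hm hc.symm hc.symm
  have h2 := (base_ht' hB hm hc hc).symm
  refine (h1.and h2).congr fun a b => ?_
  constructor
  · rintro ⟨⟨h3, -, h4⟩, ⟨-, -, h5⟩⟩
    exact ⟨h3, Prod.ext h4.symm h5⟩
  · rintro ⟨h3, rfl⟩
    have h4 : IsC H (c, v) (a.2, a.1) := ⟨h3.1.symm, h3.2.2, h3.2.1⟩
    exact ⟨⟨h3, h4, rfl⟩, ⟨h4, h3, rfl⟩⟩

theorem pair_def [Finite V] {K : Kit H} {P : V → K.W} (hB : Base K P) (hm : Multi H) {x y z : V}
    (hy : H.Adj x y) (hz : H.Adj x z) (hyz : y ≠ z) :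
    FDef K (fun b : Bool => if b then (x, z) else (x, y)) (fun f =>
      IsC H (x, y) (f false) ∧ IsC H (x, z) (f true) ∧ (f false).1 = (f true).1 ∧
        (f false).2 ≠ (f true).2) := by
  obtain ⟨q₀, hq₀, hπ₀⟩ := lift_adj K (p := P x) (y := y) (by rw [hB.pi x]; exact hy)
  obtain ⟨q₁, hq₁, hπ₁⟩ := lift_adj K (p := P x) (y := z) (by rw [hB.pi x]; exact hz)
  have hq : q₀ ≠ q₁ := fun h => hyz (by rw [← hπ₀, ← hπ₁, h])
  have hpx : Sim H (K.π (P x)) x := (hB.pi x).symm ▸ sim_refl H _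
  have e1 : PDef K (Sum.elim (fun b : Bool => if b then (x, z) else (x, y))
      (fun b : Bool => if b then (x, z) else (x, y)))
      (fun w => IsC H (x, y) (w (Sum.inl false)) ∧ w (Sum.inl false) = w (Sum.inr false)) := by
    refine PDef.congr (PDef.comap (eq_def hB hm hy)
      (fun b : Bool => if b then (Sum.inr false : Bool ⊕ Bool) else Sum.inl false) ?_)
      (fun v => Iff.rfl)
    intro b
    cases b
    · exact ⟨sim_refl H _, sim_refl H _⟩
    · exact ⟨sim_refl H _, sim_refl H _⟩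
  have e2 : PDef K (Sum.elim (fun b : Bool => if b then (x, z) else (x, y))
      (fun b : Bool => if b then (x, z) else (x, y)))
      (fun w => IsC H (x, z) (w (Sum.inl true)) ∧ w (Sum.inl true) = w (Sum.inr true)) := by
    refine PDef.congr (PDef.comap (eq_def hB hm hz)
      (fun b : Bool => if b then (Sum.inr true : Bool ⊕ Bool) else Sum.inl true) ?_)
      (fun v => Iff.rfl)
    intro b
    cases b
    · exact ⟨sim_refl H _, sim_refl H _⟩
    · exact ⟨sim_refl H _, sim_refl H _⟩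
  refine ⟨Bool, Unit, inferInstance, inferInstance,
    fun b : Bool => if b then (x, z) else (x, y), fun _ => (),
    fun b : Bool => if b then (P x, q₁) else (P x, q₀), _, e1.and e2, ?_, ?_, fun v => ?_⟩
  · intro b
    cases b
    · exact ⟨hq₀, ⟨hpx, hπ₀ ▸ sim_refl H _⟩, hB.str1 x q₀ hq₀⟩
    · exact ⟨hq₁, ⟨hpx, hπ₁ ▸ sim_refl H _⟩, hB.str1 x q₁ hq₁⟩
  · intro b b' _ h
    cases b <;> cases b'
    · rfl
    · exfalso
      rcases h with h | h
      · exact hq (Prod.ext_iff.1 h).2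
      · exact hq₁.ne (Prod.ext_iff.1 h).1
    · exfalso
      rcases h with h | h
      · exact hq (Prod.ext_iff.1 h).2.symm
      · exact hq₀.ne (Prod.ext_iff.1 h).1
    · rfl
  · constructor
    · rintro ⟨h1, h2, h3, h4⟩
      obtain ⟨f, hf, hfp, hf0, hf1⟩ := star_cover (hB.univ x) hq₀ hq₁ hq
        (sim_trans hpx (sim_symm h1.2.1)) h1.1 (h3 ▸ h2.1) h4
        (hπ₀ ▸ sim_symm h1.2.2) (hπ₁ ▸ sim_symm h2.2.2)
      refine ⟨v, ⟨⟨h1, rfl⟩, ⟨h2, rfl⟩⟩, fun _ => ⟨f, hf, fun b _ => ?_⟩⟩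
      cases b
      · show (f (P x), f q₀) = v false
        rw [hfp, hf0]
      · show (f (P x), f q₁) = v true
        rw [hfp, hf1, h3]
    · rintro ⟨w, ⟨⟨h1, h2⟩, ⟨h3, h4⟩⟩, h5⟩
      obtain ⟨f, hf, hf'⟩ := h5 ()
      have h6 : (f (P x), f q₀) = v false := (hf' false rfl).trans h2.symm
      have h7 : (f (P x), f q₁) = v true := (hf' true rfl).trans h4.symm
      refine ⟨h1, h3, ?_, ?_⟩
      · rw [← h6, ← h7]
      · rw [← h6, ← h7]
        exact fun h => hq ((hf (P x)).injOn hq₀ hq₁ h)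

/-- the types of the two arguments of the relation -/
def arT (k : ℕ) (u v w : V) (b : Bool) : V × V :=
  if b then (if k = 0 then (u, w) else (v, u)) else (u, v)

theorem ar_fdef [Finite V] {K : Kit H} {P : V → K.W} (hB : Base K P) (hm : Multi H) {k : ℕ}
    {u v w : V} (hne : ∃ a b, AR H k u v w a b) :
    FDef K (arT k u v w) (fun f => AR H k u v w (f false) (f true)) := by
  obtain ⟨a₀, b₀, h1, h2, h3, h4, h5⟩ := hne
  by_cases hk : k = 0
  · subst hk
    rw [if_pos rfl] at h5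
    obtain ⟨h6, h7, h8⟩ := h5
    obtain ⟨σ, hσ⟩ := exists_cp h3
    have hy : H.Adj u (σ a₀.2) := (hσ.2 _).1 h1
    have hz : H.Adj u (σ b₀.2) := (hσ.2 _).1 (h6 ▸ h2)
    have hyz : σ a₀.2 ≠ σ b₀.2 := fun h => h7 (σ.injective h).symm
    have hyv : Sim H (σ a₀.2) v := sim_trans (hσ.1 _) h4
    have hzw : Sim H (σ b₀.2) w := sim_trans (hσ.1 _) h8
    have h9 := FDef.comap (tX' := arT 0 u v w) (pair_def hB hm hy hz hyz) id (by
      intro b
      cases b
      · exact ⟨sim_refl H _, hyv⟩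
      · exact ⟨sim_refl H _, hzw⟩)
    refine h9.congr fun f => ?_
    show (IsC H (u, σ a₀.2) (f false) ∧ IsC H (u, σ b₀.2) (f true) ∧
      (f false).1 = (f true).1 ∧ (f false).2 ≠ (f true).2) ↔ _
    constructor
    · rintro ⟨g1, g2, g3, g4⟩
      refine ⟨g1.1, g2.1, g1.2.1, sim_trans g1.2.2 hyv, ?_⟩
      rw [if_pos rfl]
      exact ⟨g3.symm, fun h => g4 h.symm, sim_trans g2.2.2 hzw⟩
    · rintro ⟨g1, g2, g3, g4, g5⟩
      rw [if_pos rfl] at g5
      obtain ⟨g6, g7, g8⟩ := g5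
      exact ⟨⟨g1, g3, sim_trans g4 (sim_symm hyv)⟩,
        ⟨g2, g6 ▸ g3, sim_trans g8 (sim_symm hzw)⟩, g6.symm, fun h => g7 h.symm⟩
  · obtain ⟨y, hy, hy'⟩ := StepDef_nbr (sim_symm h3) h1
    have hyv : Sim H y v := sim_trans hy' h4
    have h9 : BDef K (u, v) (v, u) (fun a b => IsC H (u, y) a ∧ b = (a.2, a.1)) :=
      bdef_ty (rev_def hB hm hy) (sim_refl H _) hyv hyv (sim_refl H _)
    have h10 : arT k u v w = fun b : Bool => if b then (v, u) else (u, v) := by
      funext b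
      unfold arT
      rw [if_neg hk]
    rw [h10]
    refine (FDef.of_pdef h9).congr fun f => ?_
    constructor
    · rintro ⟨g1, g2⟩
      refine ⟨g1.1, ?_, g1.2.1, sim_trans g1.2.2 hyv, ?_⟩
      · rw [g2]
        exact g1.1.symm
      · rw [if_neg hk]
        exact g2
    · rintro ⟨g1, g2, g3, g4, g5⟩
      rw [if_neg hk] at g5
      exact ⟨⟨g1, g3, sim_trans g4 (sim_symm hyv)⟩, g5⟩

end Pool.Agent.H24.GE
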