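import Pool.Agent.H24.GE.Loll
import Pool.Agent.H24.GE.Stab

/-!
# JOB GE-23: the unit of a walk with children

The unit consists of the positions `0, ..., j - 1` (classes `w s`) in a row and of the children `c : Ch` of the
position `0` (classes `ch c`); the position `j - 1` of a copy is linked to the position `i` of the next copy.

`unitPer`: `symm`, `conn`: every position is connected to `inl 0` (induction on `s`). `ca'`:
`CA (w (j - 1)) (w j)`, `ca_right` with `rep`. (`j = (j - 1) + 1` as `3 ≤ j`.)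
`unit_hu`: the neighbours of `(m, inl s)` are `(m, inl (s - 1))` if `1 ≤ s`, `(m, inl (s + 1))` if `s + 1 < j`, the
children `(m, inr c)` if `s = 0`, `(m + 1, inl i)` if `s = j - 1`, `(m - 1, inl (j - 1))` if `s = i`. Their classes are
pairwise different: `w (s - 1)`, `w (s + 1)` by `nb`; for `s = j - 1`: `w (j - 2)` and `w i ~ w j` by `nb`; for `s = i`:
`w (j - 1)` and `w (i + 1)` by `nb1`, `w (j - 1)` and `w (i - 1)` by `nb2`; the children by `hinj`, `leaf_next`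
(`s = 0 = i`). The only neighbour of `(m, inr c)` is `(m, inl 0)`.
`unit_win`: windows are connected: every position `(m, u)` is connected in its own copy to all positions
of the copy (`conn`), and the copies are linked.
`unit_right`: `X = {q | 0 ≤ q.1 ≤ b, q ≠ (0, inl 0), q ≠ (0, inr c)}`, every element is connected in `X` to
`(0, inl 1)`: for `q.1 = 0` it is `inl s` with `1 ≤ s`; `(0, inl (j - 1))` is linked to `(1, inl i)`, then as for
`unit_win`.
-/

namespace Pool.Agent.H24.GE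

open Pool.Agent.H24.GC Pool.Agent.H24.GD

variable {V : Type} {H : SimpleGraph V}

/-- neighbouring positions of the unit -/
def unitS (j : ℕ) (Ch : Type) : Fin j ⊕ Ch → Fin j ⊕ Ch → Prop
  | Sum.inl s, Sum.inl t => (s : ℕ) + 1 = t ∨ (t : ℕ) + 1 = s
  | Sum.inl s, Sum.inr _ => (s : ℕ) = 0
  | Sum.inr _, Sum.inl s => (s : ℕ) = 0
  | Sum.inr _, Sum.inr _ => False

theorem Unit_symm (j : ℕ) (Ch : Type) : ∀ u v, unitS j Ch u v → unitS j Ch v u
  | Sum.inl _, Sum.inl _, h => Or.symm h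
  | Sum.inl _, Sum.inr _, h => h
  | Sum.inr _, Sum.inl _, h => h
  | Sum.inr _, Sum.inr _, h => h

theorem Unit_ca [Finite V] {w : ℕ → V} {i j : ℕ} (h : Loll H w i j) {Ch : Type} (ch : Ch → V)
    (hca : ∀ c, CA H (w 0) (ch c)) : ∀ u v, unitS j Ch u v →
      CA H (Sum.elim (fun s : Fin j => w s) ch u) (Sum.elim (fun s : Fin j => w s) ch v)
  | Sum.inl s, Sum.inl t, hst => by
    show CA H (w s) (w t)
    rcases hst with h1 | h1
    · have h2 := h.ca s s.2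
      rwa [h1] at h2
    · have h2 := h.ca t t.2
      rw [h1] at h2
      exact ca_symm h2
  | Sum.inl s, Sum.inr c, hst => by
    show CA H (w s) (ch c)
    have h1 : (s : ℕ) = 0 := hst
    rw [h1]
    exact hca c
  | Sum.inr c, Sum.inl s, hst => by
    show CA H (ch c) (w s)
    have h1 : (s : ℕ) = 0 := hst
    rw [h1]
    exact ca_symm (hca c)
  | Sum.inr _, Sum.inr _, hst => False.elim hst

/-- the row `1, ..., s` -/
theorem Unit_row {α : Type} {j : ℕ} (f : Fin j → α) (r : α → α → Prop) (a : ℕ) (ha : a < j)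
    (hr : ∀ s t : Fin j, a ≤ (s : ℕ) → (s : ℕ) + 1 = t → r (f t) (f s)) :
    ∀ (n : ℕ) (hn : n < j), a ≤ n → Relation.ReflTransGen r (f ⟨n, hn⟩) (f ⟨a, ha⟩) := by
  intro n
  induction n with
  | zero =>
    intro hn h0
    have h1 : a = 0 := by omega
    subst h1
    exact Relation.ReflTransGen.refl
  | succ n ih =>
    intro hn h0
    rcases Nat.lt_or_ge n a with h1 | h1
    · have h2 : a = n + 1 := by omega
      subst h2
      exact Relation.ReflTransGen.refl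
    · exact Relation.ReflTransGen.head (hr ⟨n, by omega⟩ ⟨n + 1, hn⟩ h1 rfl)
        (ih (by omega) h1)

theorem Unit_zero {j : ℕ} (hj : 0 < j) (Ch : Type) (u : Fin j ⊕ Ch) :
    Relation.ReflTransGen (unitS j Ch) u (Sum.inl ⟨0, hj⟩) := by
  rcases u with s | c
  · exact Unit_row (fun s : Fin j => (Sum.inl s : Fin j ⊕ Ch)) (unitS j Ch) 0 hj
      (fun s t _ h2 => Or.inr h2) s s.2 (Nat.zero_le _)
  · exact Relation.ReflTransGen.single (show unitS j Ch (Sum.inr c) (Sum.inl ⟨0, hj⟩) from rfl)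

theorem Unit_conn {j : ℕ} (hj : 0 < j) (Ch : Type) (u v : Fin j ⊕ Ch) :
    Relation.ReflTransGen (unitS j Ch) u v :=
  (Unit_zero hj Ch u).trans (stab_rtg_symm (Unit_symm j Ch) (Unit_zero hj Ch v))

/-- the unit -/
def unitPer [Finite V] {w : ℕ → V} {i j : ℕ} (h : Loll H w i j) {Ch : Type} (ch : Ch → V)
    (hca : ∀ c, CA H (w 0) (ch c)) : Per H (Fin j ⊕ Ch) where
  cl := Sum.elim (fun s => w s) ch
  S := unitS j Ch
  symm := Unit_symm j Ch
  ui := Sum.inl ⟨i, by have := h.le; omega⟩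
  uo := Sum.inl ⟨j - 1, by have := h.le; omega⟩
  ca := Unit_ca h ch hca
  ca' := by
    show CA H (w (j - 1)) (w i)
    have h0 := h.le
    have h1 := h.ca (j - 1) (by omega)
    have h2 : j - 1 + 1 = j := by omega
    rw [h2] at h1
    exact ca_right h1 h.rep
  conn := Unit_conn (by have := h.le; omega) Ch

section

variable [Finite V] {w : ℕ → V} {i j : ℕ} (h : Loll H w i j) {Ch : Type} (ch : Ch → V)
  (hca : ∀ c, CA H (w 0) (ch c))

theorem unit_hn (p : ℤ × (Fin j ⊕ Ch)) : ¬ (unitPer h ch hca).Sg p p := by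
  obtain ⟨m, u⟩ := p
  rintro (⟨_, h1⟩ | ⟨h1, _⟩ | ⟨h1, _⟩)
  · rcases u with s | c
    · rcases h1 with h2 | h2
      · omega
      · omega
    · exact h1
  · have h2 : m = m + 1 := h1
    omega
  · have h2 : m = m + 1 := h1
    omega

theorem unit_hs (p q : ℤ × (Fin j ⊕ Ch)) (hpq : (unitPer h ch hca).Sg p q) :
    (unitPer h ch hca).Sg q p :=
  stab_Sg_symm _ hpq

/-- the kinds of the neighbours of `(m, inl s)` -/
def UnitT (i j : ℕ) (Ch : Type) (m : ℤ) (s : ℕ) : ℕ → ℤ × (Fin j ⊕ Ch) → Prop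
  | 0, q => ∃ t : Fin j, q = (m, Sum.inl t) ∧ s + 1 = t
  | 1, q => ∃ t : Fin j, q = (m, Sum.inl t) ∧ (t : ℕ) + 1 = s
  | 2, q => ∃ c : Ch, q = (m, Sum.inr c) ∧ s = 0
  | 3, q => ∃ t : Fin j, q = (m + 1, Sum.inl t) ∧ (t : ℕ) = i ∧ s = j - 1
  | 4, q => ∃ t : Fin j, q = (m - 1, Sum.inl t) ∧ (t : ℕ) = j - 1 ∧ s = i
  | _, _ => False

theorem Unit_kind (m : ℤ) (s : Fin j) (q : ℤ × (Fin j ⊕ Ch))
    (hq : (unitPer h ch hca).Sg (m, Sum.inl s) q) : ∃ n, UnitT i j Ch m s n q := by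
  obtain ⟨m', u⟩ := q
  rcases hq with ⟨h1, h2⟩ | ⟨h1, h2, h3⟩ | ⟨h1, h2, h3⟩
  · have h1' : m = m' := h1
    subst h1'
    rcases u with t | c
    · rcases h2 with h3 | h3
      · exact ⟨0, t, rfl, h3⟩
      · exact ⟨1, t, rfl, h3⟩
    · exact ⟨2, c, rfl, h2⟩
  · have h1' : m' = m + 1 := h1
    have h2' : s = ⟨j - 1, by have := h.le; omega⟩ := Sum.inl.inj h2
    have h3' : u = Sum.inl ⟨i, by have := h.le; omega⟩ := h3
    refine ⟨3, ⟨i, by have := h.le; omega⟩, by rw [h1', h3'], rfl, ?_⟩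
    rw [h2']
  · have h1' : m = m' + 1 := h1
    have h2' : u = Sum.inl ⟨j - 1, by have := h.le; omega⟩ := h2
    have h3' : s = ⟨i, by have := h.le; omega⟩ := Sum.inl.inj h3
    refine ⟨4, ⟨j - 1, by have := h.le; omega⟩, ?_, rfl, ?_⟩
    · rw [h2']
      have h4 : m' = m - 1 := by omega
      rw [h4]
    · rw [h3']

theorem Unit_kind_eq (hinj : ∀ c c', Sim H (ch c) (ch c') → c = c') (hlf : ∀ c, Lf H (ch c))
    (m : ℤ) (s : Fin j) (q r : ℤ × (Fin j ⊕ Ch)) (n n' : ℕ) (hnn : n ≤ n')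
    (hq : UnitT i j Ch m s n q) (hr : UnitT i j Ch m s n' r)
    (hs : Sim H ((unitPer h ch hca).clz q) ((unitPer h ch hca).clz r)) : q = r := by
  have h0 := h.le
  have hs' := sim_symm hs
  match n, n', hnn, hq, hr with
  | 0, 0, _, ⟨t, hq, ht⟩, ⟨t', hr, ht'⟩ =>
    have e : t = t' := Fin.ext (by omega)
    rw [hq, hr, e]
  | 0, 1, _, ⟨t, hq, ht⟩, ⟨t', hr, ht'⟩ =>
    rw [hq, hr] at hs'
    have h1 : Sim H (w t') (w t) := hs'
    have h2 := h.nb t' (by omega)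
    rw [show (t' : ℕ) + 2 = t by omega] at h2
    exact absurd h1 h2
  | 0, 2, _, ⟨t, hq, ht⟩, ⟨c, hr, hs0⟩ =>
    rw [hq, hr] at hs'
    have h1 : Sim H (ch c) (w t) := hs'
    rw [show (t : ℕ) = 1 by omega] at h1
    exact absurd h1 (leaf_next h (hlf c)).1
  | 0, 3, _, ⟨t, _, ht⟩, ⟨_, _, _, hs0⟩ =>
    have := t.2
    exact absurd ht (by omega)
  | 0, 4, _, ⟨t, hq, ht⟩, ⟨t', hr, ht', hs0⟩ =>
    rw [hq, hr] at hs'
    have h1 : Sim H (w t') (w t) := hs'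
    rw [ht', show (t : ℕ) = i + 1 by omega] at h1
    exact absurd h1 h.nb1
  | 1, 1, _, ⟨t, hq, ht⟩, ⟨t', hr, ht'⟩ =>
    have e : t = t' := Fin.ext (by omega)
    rw [hq, hr, e]
  | 1, 2, _, ⟨t, _, ht⟩, ⟨_, _, hs0⟩ =>
    exact absurd ht (by omega)
  | 1, 3, _, ⟨t, hq, ht⟩, ⟨t', hr, ht', hs0⟩ =>
    rw [hq, hr] at hs
    have h1 : Sim H (w t) (w t') := hs
    rw [ht'] at h1
    have h2 := h.nb t (by omega)
    rw [show (t : ℕ) + 2 = j by omega] at h2
    exact absurd (sim_trans h1 (sim_symm h.rep)) h2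
  | 1, 4, _, ⟨t, hq, ht⟩, ⟨t', hr, ht', hs0⟩ =>
    rw [hq, hr] at hs'
    have h1 : Sim H (w t') (w t) := hs'
    rw [ht'] at h1
    exact absurd h1 (h.nb2 t (by omega))
  | 2, 2, _, ⟨c, hq, _⟩, ⟨c', hr, _⟩ =>
    rw [hq, hr] at hs
    have h1 : Sim H (ch c) (ch c') := hs
    rw [hq, hr, hinj c c' h1]
  | 2, 3, _, ⟨_, _, hs0⟩, ⟨_, _, _, hs1⟩ =>
    exact absurd hs0 (by omega)
  | 2, 4, _, ⟨c, hq, hs0⟩, ⟨t', hr, ht', hs1⟩ =>
    rw [hq, hr] at hs
    have h1 : Sim H (ch c) (w t') := hs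
    rw [ht'] at h1
    exact absurd h1 ((leaf_next h (hlf c)).2 (by omega))
  | 3, 3, _, ⟨t, hq, ht, _⟩, ⟨t', hr, ht', _⟩ =>
    have e : t = t' := Fin.ext (by omega)
    rw [hq, hr, e]
  | 3, 4, _, ⟨_, _, _, hs0⟩, ⟨_, _, _, hs1⟩ =>
    exact absurd hs0 (by omega)
  | 4, 4, _, ⟨t, hq, ht, _⟩, ⟨t', hr, ht', _⟩ =>
    have e : t = t' := Fin.ext (by omega)
    rw [hq, hr, e]
  | n + 5, _, _, hq, _ => exact False.elim hq
  | 0, n' + 5, _, _, hr => exact False.elim hr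
  | 1, n' + 5, _, _, hr => exact False.elim hr
  | 2, n' + 5, _, _, hr => exact False.elim hr
  | 3, n' + 5, _, _, hr => exact False.elim hr
  | 4, n' + 5, _, _, hr => exact False.elim hr
  | n + 1, 0, hnn, _, _ => exact absurd hnn (by omega)
  | n + 2, 1, hnn, _, _ => exact absurd hnn (by omega)
  | n + 3, 2, hnn, _, _ => exact absurd hnn (by omega)
  | n + 4, 3, hnn, _, _ => exact absurd hnn (by omega)

theorem unit_hu (hinj : ∀ c c', Sim H (ch c) (ch c') → c = c') (hlf : ∀ c, Lf H (ch c))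
    (p q r : ℤ × (Fin j ⊕ Ch)) (hq : (unitPer h ch hca).Sg p q) (hr : (unitPer h ch hca).Sg p r)
    (hs : Sim H ((unitPer h ch hca).clz q) ((unitPer h ch hca).clz r)) : q = r := by
  obtain ⟨m, u⟩ := p
  rcases u with s | c
  · obtain ⟨n, hn⟩ := Unit_kind h ch hca m s q hq
    obtain ⟨n', hn'⟩ := Unit_kind h ch hca m s r hr
    rcases le_total n n' with h1 | h1
    · exact Unit_kind_eq h ch hca hinj hlf m s q r n n' h1 hn hn' hs
    · exact (Unit_kind_eq h ch hca hinj hlf m s r q n' n h1 hn' hn (sim_symm hs)).symm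
  · have key : ∀ x : ℤ × (Fin j ⊕ Ch), (unitPer h ch hca).Sg (m, Sum.inr c) x →
        x = (m, Sum.inl ⟨0, by have := h.le; omega⟩) := by
      rintro ⟨m', v⟩ hx
      rcases hx with ⟨h1, h2⟩ | ⟨_, h2, _⟩ | ⟨_, _, h3⟩
      · have h1' : m = m' := h1
        subst h1'
        rcases v with t | d
        · have h3 : (t : ℕ) = 0 := h2
          have e : t = ⟨0, by have := h.le; omega⟩ := Fin.ext h3
          rw [e]
        · exact False.elim h2
      · exact absurd h2 Sum.inr_ne_inl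
      · exact absurd h3 Sum.inr_ne_inl
    rw [key q hq, key r hr]

theorem unit_win (a b : ℤ) (p q : ℤ × (Fin j ⊕ Ch)) (hp : p ∈ win (Fin j ⊕ Ch) a b)
    (hq : q ∈ win (Fin j ⊕ Ch) a b) :
    Relation.ReflTransGen (fun s t => s ∈ win (Fin j ⊕ Ch) a b ∧ t ∈ win (Fin j ⊕ Ch) a b ∧
      (unitPer h ch hca).Sg s t) p q :=
  stab_winconn (unitPer h ch hca) a b p hp q hq

/-- the positions `0, ..., b` without the start and its children -/
def rwin (j : ℕ) (Ch : Type) (b : ℤ) : Set (ℤ × (Fin j ⊕ Ch)) :=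
  {q | 0 ≤ q.1 ∧ q.1 ≤ b ∧ (q.1 = 0 → ∃ s : Fin j, q.2 = Sum.inl s ∧ (s : ℕ) ≠ 0)}

theorem Unit_right_aux (b : ℤ) : ∀ (n : ℕ) (u : Fin j ⊕ Ch), ((n : ℤ), u) ∈ rwin j Ch b →
    Relation.ReflTransGen (fun s t => s ∈ rwin j Ch b ∧ t ∈ rwin j Ch b ∧
      (unitPer h ch hca).Sg s t) ((n : ℤ), u) ((0 : ℤ), Sum.inl ⟨1, by have := h.le; omega⟩) := by
  have h0 := h.le
  intro n
  induction n with
  | zero =>
    intro u hu
    obtain ⟨hu1, hu2, hu3⟩ := hu
    obtain ⟨s, hs, hs0⟩ := hu3 rfl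
    have hs' : u = Sum.inl s := hs
    subst hs'
    have hb : 0 ≤ b := hu2
    have h1 := Unit_row (fun s : Fin j => ((0 : ℤ), (Sum.inl s : Fin j ⊕ Ch)))
      (fun s t => s ∈ rwin j Ch b ∧ t ∈ rwin j Ch b ∧ (unitPer h ch hca).Sg s t) 1 (by omega)
      (fun s t hs ht => ⟨⟨le_refl _, hb, fun _ => ⟨t, rfl, by omega⟩⟩,
        ⟨le_refl _, hb, fun _ => ⟨s, rfl, by omega⟩⟩, Or.inl ⟨rfl, Or.inr ht⟩⟩) s s.2 (by omega)
    exact h1
  | succ n ih =>
    intro u hu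
    obtain ⟨hu1, hu2, hu3⟩ := hu
    have hu2' : ((n + 1 : ℕ) : ℤ) ≤ b := hu2
    push_cast at hu2'
    have hm : ∀ v : Fin j ⊕ Ch, (((n + 1 : ℕ) : ℤ), v) ∈ rwin j Ch b := by
      intro v
      refine ⟨hu1, hu2, fun h1 => ?_⟩
      have h2 : ((n + 1 : ℕ) : ℤ) = 0 := h1
      omega
    have hm' : ((n : ℤ), (unitPer h ch hca).uo) ∈ rwin j Ch b := by
      refine ⟨by simp, by simp only; omega, fun _ => ⟨⟨j - 1, by omega⟩, rfl, ?_⟩⟩
      show j - 1 ≠ 0
      omega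
    have h1 : Relation.ReflTransGen (fun s t => s ∈ rwin j Ch b ∧ t ∈ rwin j Ch b ∧
        (unitPer h ch hca).Sg s t) (((n + 1 : ℕ) : ℤ), u)
        (((n + 1 : ℕ) : ℤ), (unitPer h ch hca).ui) := by
      refine Relation.ReflTransGen.lift (fun u : Fin j ⊕ Ch => (((n + 1 : ℕ) : ℤ), u)) ?_ _ _
        ((unitPer h ch hca).conn u _)
      intro u v huv
      exact ⟨hm u, hm v, Or.inl ⟨rfl, huv⟩⟩
    refine (h1.tail (c := ((n : ℤ), (unitPer h ch hca).uo)) ?_).trans (ih _ hm')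
    exact ⟨hm _, hm', Or.inr (Or.inr ⟨by push_cast; rfl, rfl, rfl⟩)⟩

theorem unit_right (b : ℤ) (p q : ℤ × (Fin j ⊕ Ch)) (hp : p ∈ rwin j Ch b) (hq : q ∈ rwin j Ch b) :
    Relation.ReflTransGen (fun s t => s ∈ rwin j Ch b ∧ t ∈ rwin j Ch b ∧
      (unitPer h ch hca).Sg s t) p q := by
  have key : ∀ x ∈ rwin j Ch b, Relation.ReflTransGen (fun s t => s ∈ rwin j Ch b ∧
      t ∈ rwin j Ch b ∧ (unitPer h ch hca).Sg s t) x
        ((0 : ℤ), Sum.inl ⟨1, by have := h.le; omega⟩) := by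
    rintro ⟨m, u⟩ hx
    obtain ⟨n, hn⟩ := Int.eq_ofNat_of_zero_le (show 0 ≤ m from hx.1)
    subst hn
    exact Unit_right_aux h ch hca b n u hx
  refine (key p hp).trans (stab_rtg_symm ?_ (key q hq))
  rintro s t ⟨h1, h2, h3⟩
  exact ⟨h2, h1, stab_Sg_symm _ h3⟩

end

end Pool.Agent.H24.GE
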