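import Pool.Agent.H24.GD.Wide
import Pool.Agent.H24.GE.Zero

/-!
# JOB GE-26: hardness from vanishing defects

`hard_of_wd`: this is contained in the proof of `wide_hard` (file `Pool.Agent.H24.GD.Wide`).
`wd_of_dq`: the fields `s1`, `s2`: `straight_one'` (file `Zero`); `s3`, `s4`: `straight_one'` for `(q, w)`, `(q, z)`, then
`straight_congr` (file `Pool.Agent.H24.GD.Str`; see `Base.str1'`). `tail`: `pcov_congr` (`cut2 (p, u₁) (p, u₂)`), `dq_two` with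
`hx`; the rest as in the proof of `sw_tail` (file `Pool.Agent.H24.GD.Str`). `head`: the same for `q, w, z`, as in the
proof of `sw_head`. (`dq_two` is about `dq f φ b ![u₁, u₂]`.)
-/

namespace Pool.Agent.H24.GE

open Pool.Agent.H24.GC Pool.Agent.H24.GD Pool.Agent.PPS Pool.Agent.H64.Cook Pool.Agent.H79.Thr

variable {V : Type} {H : SimpleGraph V}

theorem hard_of_wd [Finite V] {K : Kit H} {p u₁ u₂ q w z : K.W} (h : WD K p u₁ u₂ q w z)
    (hp : K.Univ p) (hq : K.Univ q) (hdeg : ∀ w : K.W, ∃ w', K.gr.Adj w w')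
    (h3 : 3 ≤ (nbc H (K.π p) (K.π u₁)).ncard) : HardH H := by
  classical
  intro L hL
  obtain ⟨φ, hφ, hφ'⟩ := hardk h3 hL
  obtain ⟨Rd, hR1, hR2⟩ := pat_red (wPat p u₁ u₂ q w z) (wideM_adj h) (wideM_inj h) hdeg
    ((ℕ × V3) × ℕ)
  refine ⟨fun s => Rd ((φ s).map wTup), ?_, fun s => ?_⟩
  · rw [mem_FP_iff]
    refine hR1 _ _ ?_
    refine PT.map' (l := φ) (f := fun v : List Bool × ((ℕ × V3) × (ℕ × V3)) => wTup v.2) hφ ?_
    unfold wTup
    fun_prop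
  · obtain ⟨n, G, sg, g1, g2, g3, g4⟩ := hR2 ((φ s).map wTup)
    refine ⟨n, G, g1, ?_⟩
    rw [g4, (hφ' s).2]
    constructor
    · intro hc
      exact wide_complete h hp hq (φ s) sg g2 (by omega) hc
    · intro hC
      exact wide_sound h (φ s) sg g2 g3 (by omega) hC

theorem WdH_swap {W : Type} (q w : W) (a b : W) :
    (cut1 (q, w) a b ∨ cut1 (q, w) b a) ↔ (cut1 (w, q) a b ∨ cut1 (w, q) b a) := by
  unfold cut1
  simp only [Prod.mk.injEq]
  tauto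

theorem wd_of_dq {K : Kit H} {p u₁ u₂ q w z : K.W} (p1 : K.gr.Adj p u₁) (p2 : K.gr.Adj p u₂)
    (q1 : K.gr.Adj q w) (q2 : K.gr.Adj q z) (ne1 : u₁ ≠ u₂) (ne2 : w ≠ z)
    (s12 : Sim H (K.π u₂) (K.π u₁)) (sq : Sim H (K.π q) (K.π u₁)) (sw : Sim H (K.π w) (K.π p))
    (hx1 : ∀ f φ, PCov H K.gr K.π (cut1 (p, u₁)) f φ →
      ∀ x y, H.Adj x y → Sim H x (K.π p) → dq f φ p (fun _ : Unit => u₁) x y = 0)
    (hx2 : ∀ f φ, PCov H K.gr K.π (cut1 (p, u₂)) f φ →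
      ∀ x y, H.Adj x y → Sim H x (K.π p) → dq f φ p (fun _ : Unit => u₂) x y = 0)
    (hx : ∀ f φ, PCov H K.gr K.π (cut2 (p, u₁) (p, u₂)) f φ →
      ∀ x y, H.Adj x y → Sim H x (K.π p) → dq f φ p ![u₁, u₂] x y = 0)
    (hy1 : ∀ f φ, PCov H K.gr K.π (cut1 (q, w)) f φ →
      ∀ x y, H.Adj x y → Sim H x (K.π q) → dq f φ q (fun _ : Unit => w) x y = 0)
    (hy2 : ∀ f φ, PCov H K.gr K.π (cut1 (q, z)) f φ →
      ∀ x y, H.Adj x y → Sim H x (K.π q) → dq f φ q (fun _ : Unit => z) x y = 0)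
    (hy : ∀ f φ, PCov H K.gr K.π (cut2 (q, w) (q, z)) f φ →
      ∀ x y, H.Adj x y → Sim H x (K.π q) → dq f φ q ![w, z] x y = 0) :
    WD K p u₁ u₂ q w z := by
  refine ⟨p1, p2, q1, q2, ne1, ne2, s12, sq, sw, straight_one' p1 hx1, straight_one' p2 hx2,
    straight_congr (WdH_swap q w) (straight_one' q1 hy1),
    straight_congr (WdH_swap q z) (straight_one' q2 hy2), ?_, ?_⟩
  · intro cut f φ hcut h
    have h' : PCov H K.gr K.π (cut2 (p, u₁) (p, u₂)) f φ := by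
      refine pcov_congr (fun a b => ?_) h
      rw [hcut a b, hcut b a]
      exact Iff.rfl
    have hinj : φ p u₁ ≠ φ p u₂ := fun h0 => ne1 ((h.bij p).injOn p1 p2 h0)
    have hm1 : H.Adj (f p) (φ p u₁) := (h.bij p).mapsTo p1
    have hm2 : H.Adj (f p) (φ p u₂) := (h.bij p).mapsTo p2
    rcases dq_two p1 p2 ne1 h' (hx f φ h') with ⟨h1, h2⟩ | ⟨h1, h2⟩
    · exact ⟨rfl, rfl, (congrArg Prod.fst h1).symm, (congrArg Prod.fst h2).symm, hinj, hm1, hm2⟩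
    · exact ⟨rfl, rfl, (congrArg Prod.fst h2).symm, (congrArg Prod.fst h1).symm, hinj, hm1, hm2⟩
  · intro cut f φ hcut h
    have h' : PCov H K.gr K.π (cut2 (q, w) (q, z)) f φ := by
      refine pcov_congr (fun a b => ?_) h
      rw [hcut a b, hcut b a]
      unfold cut2
      simp only [Prod.mk.injEq]
      tauto
    rcases dq_two q1 q2 ne2 h' (hy f φ h') with ⟨h1, h2⟩ | ⟨h1, h2⟩
    · exact ⟨(congrArg Prod.fst h1).symm, (congrArg Prod.fst h2).symm, rfl, rfl⟩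
    · exact ⟨(congrArg Prod.fst h2).symm, (congrArg Prod.fst h1).symm, rfl, rfl⟩

end Pool.Agent.H24.GE
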